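import Pool.Agent.P.MP_fecf7d_an.SgBasic
import Pool.Agent.Lib.Brouwer.Core

/-!
The Jacobian determinant is a null Lagrangian, for continuous Sobolev maps.
-/

open MeasureTheory Set Filter Topology Metric
open scoped ENNReal

namespace Pool.Agent.P.MP_fecf7d_an.Sg

variable {n : ℕ}

theorem nl_smooth {F : X n → X n} (hF : ContDiff ℝ 1 F) {K : Set (X n)} (hK : IsCompact K)
    (hFK : tsupport F ⊆ K) : ∫ x in K, (1 + fderiv ℝ F x).det = volume.real K := by
  have hc : HasCompactSupport F := hK.of_isClosed_subset (isClosed_tsupport _) hFK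
  have hKm := hK.measurableSet
  have hd : Differentiable ℝ F := hF.differentiable one_ne_zero
  have hDc : Continuous (fderiv ℝ F) := hF.continuous_fderiv one_ne_zero
  obtain ⟨L0, hL0⟩ := (hc.fderiv ℝ).exists_bound_of_continuous hDc
  set L := max L0 1 with hL
  have hLpos : 0 < L := lt_of_lt_of_le one_pos (le_max_right _ _)
  have hDL : ∀ x, ‖fderiv ℝ F x‖ ≤ L := fun x => (hL0 x).trans (le_max_left _ _)
  have hLip : ∀ x y, ‖F x - F y‖ ≤ L * ‖x - y‖ := fun x y =>
    convex_univ.norm_image_sub_le_of_norm_fderiv_le (fun z _ => hd z) (fun z _ => hDL z)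
      (mem_univ y) (mem_univ x)
  obtain ⟨δ, hδ, hδdet⟩ : ∃ δ > 0, ∀ A : X n →L[ℝ] X n, ‖A‖ < δ → 0 < (1 + A).det := by
    have hc : ContinuousAt (fun A : X n →L[ℝ] X n => (1 + A).det) 0 :=
      (ContinuousLinearMap.continuous_det.comp (continuous_const.add continuous_id)).continuousAt
    have h0 : (0 : ℝ) < (fun A : X n →L[ℝ] X n => (1 + A).det) 0 := by
      simp [ContinuousLinearMap.det]
    have := hc.eventually (lt_mem_nhds h0)
    rw [Metric.eventually_nhds_iff] at this
    obtain ⟨δ, hδ, h⟩ := this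
    exact ⟨δ, hδ, fun A hA => h (by simpa using hA)⟩
  set ε := min δ 1 / (2 * L) with hε
  have hεpos : 0 < ε := by positivity
  have hεL : ε * L = min δ 1 / 2 := by rw [hε]; field_simp
  have hmin1 : min δ 1 ≤ 1 := min_le_right _ _
  have hminδ : min δ 1 ≤ δ := min_le_left _ _
  have hminpos : 0 < min δ 1 := lt_min hδ one_pos
  have hvol : ∀ t : ℝ, 0 ≤ t → t ≤ ε → ∫ x in K, (1 + t • fderiv ℝ F x).det = volume.real K := by
    intro t ht0 htε
    have htL : t * L ≤ min δ 1 / 2 := hεL ▸ mul_le_mul_of_nonneg_right htε hLpos.le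
    let f : X n → X n := fun x => x + t • F x
    have hfd : ∀ x ∈ K, HasFDerivWithinAt f (1 + t • fderiv ℝ F x) K x := fun x _ =>
      ((hasFDerivAt_id x).add ((hd x).hasFDerivAt.const_smul t)).hasFDerivWithinAt
    have hinj : Function.Injective f := by
      intro x y hxy
      have e1 : x - y = -(t • (F x - F y)) := by
        have : x + t • F x = y + t • F y := hxy
        rw [smul_sub]
        linear_combination (norm := module) this
      have e2 : ‖x - y‖ ≤ t * (L * ‖x - y‖) := by
        conv_lhs => rw [e1, norm_neg, norm_smul, Real.norm_eq_abs, abs_of_nonneg ht0]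
        exact mul_le_mul_of_nonneg_left (hLip x y) ht0
      have e3 : ‖x - y‖ ≤ 0 := by nlinarith [norm_nonneg (x - y)]
      exact sub_eq_zero.mp (norm_le_zero_iff.mp e3)
    have hout : ∀ x, x ∉ K → f x = x := fun x hx => by
      simp [f, image_eq_zero_of_notMem_tsupport fun h => hx (hFK h)]
    have himg : f '' K = K := by
      apply Subset.antisymm
      · rintro _ ⟨x, hx, rfl⟩
        by_contra h
        exact h ((hinj (hout _ h)).symm ▸ hx)
      · intro y hy
        let g : X n → X n := fun x => y - t • F x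
        have hg : ContractingWith (1 / 2) g := by
          refine ⟨by norm_num, LipschitzWith.of_dist_le_mul fun a b => ?_⟩
          have e1 : g a - g b = -(t • (F a - F b)) := by
            simp only [g, smul_sub]; abel
          rw [dist_eq_norm, dist_eq_norm, e1, norm_neg, norm_smul, Real.norm_eq_abs,
            abs_of_nonneg ht0]
          have e2 : t * ‖F a - F b‖ ≤ t * (L * ‖a - b‖) :=
            mul_le_mul_of_nonneg_left (hLip a b) ht0
          have e3 : ((1 / 2 : NNReal) : ℝ) = 1 / 2 := by norm_num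
          rw [e3]
          nlinarith [norm_nonneg (a - b)]
        let x := ContractingWith.fixedPoint g hg
        have hx : g x = x := hg.fixedPoint_isFixedPt
        have hfx : f x = y := by
          have : y - t • F x = x := hx
          simp only [f]
          linear_combination (norm := module) - this
        by_cases hxB : x ∈ K
        · exact ⟨x, hxB, hfx⟩
        · exact absurd (((hout x hxB).symm.trans hfx).symm ▸ hy) hxB
    have hcv := integral_image_eq_integral_abs_det_fderiv_smul volume hKm hfd hinj.injOn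
      (fun _ => (1 : ℝ))
    rw [himg] at hcv
    simp only [integral_const, MeasurableSet.univ, measureReal_restrict_apply, univ_inter,
      smul_eq_mul, mul_one] at hcv
    rw [hcv]
    refine setIntegral_congr_fun hKm fun x _ => ?_
    refine (abs_of_pos (hδdet _ ?_)).symm
    rw [norm_smul, Real.norm_eq_abs, abs_of_nonneg ht0]
    have := mul_le_mul_of_nonneg_left (hDL x) ht0
    linarith
  let N := Module.finrank ℝ (X n)
  let v : Fin (N + 1) → ℝ := fun j => ε * (j : ℕ) / (N + 1)
  have hv : Function.Injective v := by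
    intro i j hij
    have hn : (0 : ℝ) < N + 1 := by positivity
    have : ((i : ℕ) : ℝ) = (j : ℕ) := by
      simp only [v] at hij
      field_simp at hij
      exact hij
    exact Fin.ext (by exact_mod_cast this)
  obtain ⟨w, hw1, hw⟩ := Pool.Agent.Lib.Brouwer.det_interp (E := X n) v hv
  have hint : ∀ t : ℝ, IntegrableOn (fun x => (1 + t • fderiv ℝ F x).det) K := by
    intro t
    refine ContinuousOn.integrableOn_compact hK ?_
    exact (ContinuousLinearMap.continuous_det.comp
      (continuous_const.add (hDc.const_smul t))).continuousOn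
  rw [setIntegral_congr_fun hKm (g := fun x => ∑ j, w j * (1 + v j • fderiv ℝ F x).det)
    (fun x _ => hw (fderiv ℝ F x))]
  rw [integral_finsetSum _ (fun j _ => (hint (v j)).const_mul (w j))]
  have : ∀ j, ∫ x in K, w j * (1 + v j • fderiv ℝ F x).det = w j * volume.real K := by
    intro j
    rw [integral_const_mul, hvol]
    · simp only [v]; positivity
    · simp only [v]
      have hn : (0 : ℝ) < N + 1 := by positivity
      rw [div_le_iff₀ hn]
      have : ((j : ℕ) : ℝ) ≤ N + 1 := by exact_mod_cast j.2.le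
      exact mul_le_mul_of_nonneg_left this hεpos.le
  simp_rw [this]
  rw [← Finset.sum_mul, hw1, one_mul]

theorem abs_det_one_add_le (A : X n →L[ℝ] X n) :
    ‖(1 + A).det‖ ≤ n.factorial * 2 ^ n * ‖(1 : X n →L[ℝ] X n)‖ ^ n +
      n.factorial * 2 ^ n * ‖A‖ ^ n := by
  refine (abs_det_le _).trans ?_
  have := norm_add_pow_le (n := n) (1 : X n →L[ℝ] X n) A
  calc (n.factorial : ℝ) * ‖1 + A‖ ^ n
      ≤ n.factorial * (2 ^ n * (‖(1 : X n →L[ℝ] X n)‖ ^ n + ‖A‖ ^ n)) := by gcongr
    _ = _ := by ring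

section

variable {V : Set (X n)} {F : X n → X n} {D : X n → X n →L[ℝ] X n}

theorem W.measurable_det (h : W V F D) : Measurable fun x => (D x).det :=
  ContinuousLinearMap.continuous_det.measurable.comp h.measD

theorem W.integrableOn_det (h : W V F D) {K : Set (X n)} (hK : IsCompact K) (hKV : K ⊆ V) :
    IntegrableOn (fun x => (D x).det) K :=
  ((h.int K hKV hK).const_mul (n.factorial : ℝ)).mono' h.measurable_det.aestronglyMeasurable
    (Eventually.of_forall fun _ => abs_det_le _)

theorem W.integrableOn_det_one_add (h : W V F D) {K : Set (X n)} (hK : IsCompact K)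
    (hKV : K ⊆ V) : IntegrableOn (fun x => (1 + D x).det) K := by
  refine Integrable.mono' ((integrableOn_const (C := (n.factorial : ℝ) * 2 ^ n *
    ‖(1 : X n →L[ℝ] X n)‖ ^ n) hK.measure_lt_top.ne).add
    ((h.int K hKV hK).const_mul ((n.factorial : ℝ) * 2 ^ n))) ?_
    (Eventually.of_forall fun x => abs_det_one_add_le _)
  exact (ContinuousLinearMap.continuous_det.measurable.comp
    (h.measD.const_add 1)).aestronglyMeasurable

theorem W.nl_one (hn : n ≠ 0) (hV : IsOpen V) (h : W V F D) {K : Set (X n)} (hK : IsCompact K)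
    (hKV : K ⊆ V) (h0 : ∀ x ∈ V, x ∉ K → F x = 0 ∧ D x = 0) :
    ∫ x in K, (1 + D x).det = volume.real K := by
  obtain ⟨K', hK', hKK', hK'V, w, hws, hA⟩ := h.exists_apx_compact hn hV hK hKV h0
  have hDc : ∀ k, Continuous (fderiv ℝ (w k)) := fun k =>
    (hA.smooth k).continuous_fderiv one_ne_zero
  have h1 := tendsto_integral_of_pow (μ := volume.restrict K') hn (fun k x => fderiv ℝ (w k) x) D
    (fun k x => (1 + fderiv ℝ (w k) x).det) (fun x => (1 + D x).det)
    (fun _ => (n.factorial : ℝ) * 2 ^ n * ‖(1 : X n →L[ℝ] X n)‖ ^ n)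
    ((n.factorial : ℝ) * 2 ^ n) (by positivity) (h.int K' hK'V hK') (fun k => ?_) hA.conv
    (fun k => (ContinuousLinearMap.continuous_det.comp
      (continuous_const.add (hDc k))).aestronglyMeasurable)
    (integrableOn_const hK'.measure_lt_top.ne)
    (fun k => Eventually.of_forall fun x => abs_det_one_add_le _)
    (Eventually.of_forall fun x φ _ hφ =>
      (ContinuousLinearMap.continuous_det.tendsto _).comp (hφ.const_add 1))
  · have h2 : ∀ k, ∫ x in K', (1 + fderiv ℝ (w k) x).det = volume.real K' := fun k =>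
      nl_smooth (hA.smooth k) hK' (hws k)
    simp_rw [h2] at h1
    have h3 := tendsto_nhds_unique tendsto_const_nhds h1
    have h4 : ∫ x in K', ((1 + D x).det - 1) = ∫ x in K, ((1 + D x).det - 1) := by
      refine setIntegral_eq_of_subset_of_forall_sdiff_eq_zero hK'.measurableSet hKK' ?_
      intro x hx
      simp [(h0 x (hK'V hx.1) hx.2).2, ContinuousLinearMap.det]
    rw [integral_sub (h.integrableOn_det_one_add hK' hK'V)
      (integrableOn_const hK'.measure_lt_top.ne),
      integral_sub (h.integrableOn_det_one_add hK hKV) (integrableOn_const hK.measure_lt_top.ne),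
      ← h3] at h4
    simp only [integral_const, MeasurableSet.univ, measureReal_restrict_apply, univ_inter,
      smul_eq_mul, mul_one] at h4
    linarith
  · refine Integrable.mono' ((((((hDc k).norm.pow n).continuousOn.integrableOn_compact hK')).add
      (h.int K' hK'V hK')).const_mul (2 ^ n)) ?_ (Eventually.of_forall fun x => ?_)
    · exact ((((hDc k).measurable.sub h.measD).norm).pow_const n).aestronglyMeasurable
    · rw [Real.norm_of_nonneg (by positivity)]
      exact norm_sub_pow_le _ _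

end

theorem det_smul' (c : ℝ) (A : X n →L[ℝ] X n) : (c • A).det = c ^ n * A.det := by
  simp [ContinuousLinearMap.det, LinearMap.det_smul]

/-- Weighted comparison of Jacobian integrals of two maps which agree off a compact set. -/
theorem nl_compare (hn : n ≠ 0) {V : Set (X n)} (hV : IsOpen V) {F₀ F₁ : X n → X n}
    {D₀ D₁ : X n → X n →L[ℝ] X n} (h₀ : W V F₀ D₀) (h₁ : W V F₁ D₁) {K : Set (X n)}
    (hK : IsCompact K) (hKV : K ⊆ V) (he : ∀ x ∈ V, x ∉ K → F₀ x = F₁ x ∧ D₀ x = D₁ x)
    {l : X n → ℝ} (hl : ∀ x ∈ V, ∀ᶠ y in 𝓝 x, l y = l x) :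
    ∫ x in K, l x ^ n * (D₀ x).det = ∫ x in K, l x ^ n * (D₁ x).det := by
  obtain ⟨χ, ⟨hχ, hχc, hχV⟩, hχ1, -⟩ := exists_cutoff hK hV hKV
  have hχ' : ContDiff ℝ 1 χ := hχ.of_le (by simp)
  set η : X n → ℝ := fun x => l x * χ x with hη
  have hηs : tsupport η ⊆ tsupport χ := closure_mono fun x hx h => hx (by simp [hη, h])
  have hηc : ContDiff ℝ 1 η := by
    rw [contDiff_iff_contDiffAt]
    intro x
    by_cases hx : x ∈ V
    · refine (contDiff_const.mul hχ' : ContDiff ℝ 1 fun y => l x * χ y).contDiffAt.congr_of_eventuallyEq ?_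
      filter_upwards [hl x hx] with y hy
      simp [hη, hy]
    · exact contDiffAt_const.congr_of_eventuallyEq
        (notMem_tsupport_iff_eventuallyEq.1 fun h => hx (hχV (hηs h)))
  set c : X n → X n := fun x => χ x • x with hc
  have hcc : ContDiff ℝ 1 c := hχ'.smul contDiff_id
  have hcs : tsupport c ⊆ tsupport χ := closure_mono fun x hx h => hx (by simp [hc, h])
  have key : ∀ {F : X n → X n} {D : X n → X n →L[ℝ] X n}, W V F D →
      IntegrableOn (fun x => (1 + (η x • D x + (fderiv ℝ η x).smulRight (F x) -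
        fderiv ℝ c x)).det) (tsupport χ) ∧
      ∫ x in tsupport χ, (1 + (η x • D x + (fderiv ℝ η x).smulRight (F x) -
        fderiv ℝ c x)).det = volume.real (tsupport χ) := by
    intro F D h
    have hW := (h.smul hn hηc).sub hn (W.of_contDiff hn hcc)
    refine ⟨hW.integrableOn_det_one_add hχc hχV, hW.nl_one hn hV hχc hχV fun x _ hx => ?_⟩
    have e1 : η x = 0 := image_eq_zero_of_notMem_tsupport fun h => hx (hηs h)
    have e2 : c x = 0 := image_eq_zero_of_notMem_tsupport fun h => hx (hcs h)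
    have e3 : fderiv ℝ η x = 0 := by
      by_contra h
      exact hx (hηs (support_fderiv_subset ℝ h))
    have e4 : fderiv ℝ c x = 0 := by
      by_contra h
      exact hx (hcs (support_fderiv_subset ℝ h))
    simp [e1, e2, e3, e4]
  have hKχ : K ⊆ tsupport χ := fun x hx =>
    subset_tsupport _ (by simp [hχ1.self_of_nhdsSet x hx])
  have onK : ∀ (F : X n → X n) (D : X n → X n →L[ℝ] X n), ∀ x ∈ K,
      (1 + (η x • D x + (fderiv ℝ η x).smulRight (F x) - fderiv ℝ c x)).det =
        l x ^ n * (D x).det := by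
    intro F D x hx
    have h1 : ∀ᶠ y in 𝓝 x, χ y = 1 := hχ1.filter_mono (nhds_le_nhdsSet hx)
    have e1 : η x = l x := by simp [hη, h1.self_of_nhds]
    have e3 : fderiv ℝ η x = 0 := by
      have : η =ᶠ[𝓝 x] fun _ => l x := by
        filter_upwards [h1, hl x (hKV hx)] with y a b
        simp [hη, a, b]
      rw [this.fderiv_eq]
      simp
    have e4 : fderiv ℝ c x = 1 := by
      have : c =ᶠ[𝓝 x] id := by
        filter_upwards [h1] with y a
        simp [hc, a]
      rw [this.fderiv_eq, fderiv_id]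
      rfl
    rw [e1, e3, e4, ← det_smul']
    congr 1
    ext1 v
    simp
  obtain ⟨i₀, e₀⟩ := key h₀
  obtain ⟨i₁, e₁⟩ := key h₁
  have h4 := setIntegral_eq_of_subset_of_forall_sdiff_eq_zero (μ := volume)
    (f := fun x => (1 + (η x • D₀ x + (fderiv ℝ η x).smulRight (F₀ x) - fderiv ℝ c x)).det -
      (1 + (η x • D₁ x + (fderiv ℝ η x).smulRight (F₁ x) - fderiv ℝ c x)).det)
    (isClosed_tsupport χ).measurableSet hKχ (fun x hx => by
      obtain ⟨a, b⟩ := he x (hχV hx.1) hx.2
      simp only [a, b, sub_self])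
  rw [integral_sub i₀ i₁, e₀, e₁, sub_self, integral_sub (i₀.mono_set hKχ) (i₁.mono_set hKχ),
    setIntegral_congr_fun hK.measurableSet (onK F₀ D₀),
    setIntegral_congr_fun hK.measurableSet (onK F₁ D₁)] at h4
  linarith

/-- A family of densities `ρ` which are Jacobians of `C^1` maps. -/
structure Dens (m : ℝ) (ρ : X n → ℝ) (T : X n → X n) : Prop where
  cont : Continuous ρ
  nonneg : ∀ y, 0 ≤ ρ y
  pos : 0 < ρ 0
  zero : ∀ y, m ≤ ‖y‖ → ρ y = 0
  smooth : ContDiff ℝ 1 T
  det : ∀ y, (fderiv ℝ T y).det = ρ y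

theorem exists_dens_pi {m : ℝ} (hm : 0 < m) :
    ∃ (ρ : (Fin n → ℝ) → ℝ) (T : (Fin n → ℝ) → Fin n → ℝ), Continuous ρ ∧ (∀ y, 0 ≤ ρ y) ∧
      0 < ρ 0 ∧ (∀ y, m ≤ ‖y‖ → ρ y = 0) ∧ ContDiff ℝ 1 T ∧ ∀ y, (fderiv ℝ T y).det = ρ y := by
  let r : ℝ → ℝ := fun t => max (m - |t|) 0
  have hr : Continuous r := by fun_prop
  let P : ℝ → ℝ := fun t => ∫ s in (0 : ℝ)..t, r s
  have hP : ∀ t, HasDerivAt P (r t) t := fun t => (hr.integral_hasStrictDerivAt 0 t).hasDerivAt
  have hPc : ContDiff ℝ 1 P := by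
    rw [contDiff_one_iff_deriv]
    refine ⟨fun t => (hP t).differentiableAt, ?_⟩
    rwa [show deriv P = r from funext fun t => (hP t).deriv]
  refine ⟨fun y => ∏ i, r (y i), fun y i => P (y i), by fun_prop,
    fun y => Finset.prod_nonneg fun i _ => le_max_right _ _,
    Finset.prod_pos fun i _ => by simp [r, hm], fun y hy => ?_, by fun_prop, fun y => ?_⟩
  · by_contra h
    refine hy.not_gt ((pi_norm_lt_iff hm).2 fun i => ?_)
    have := Finset.prod_ne_zero_iff.1 h i (Finset.mem_univ _)
    by_contra h'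
    exact this (max_eq_right (by simpa using h'))
  · have : HasFDerivAt (fun (y : Fin n → ℝ) i => P (y i)) (ContinuousLinearMap.pi fun i =>
        (ContinuousLinearMap.toSpanSingleton ℝ (r (y i))).comp (ContinuousLinearMap.proj i)) y := by
      refine hasFDerivAt_pi.2 fun i => ?_
      exact HasFDerivAt.comp (g := P) (f := fun y : Fin n → ℝ => y i) y (hP (y i)).hasFDerivAt
        (hasFDerivAt_apply i y)
    rw [this.fderiv, ContinuousLinearMap.det_pi]
    simp

theorem exists_dens {m : ℝ} (hm : 0 < m) : ∃ ρ T, Dens (n := n) m ρ T := by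
  let e : X n ≃L[ℝ] (Fin n → ℝ) := EuclideanSpace.equiv (Fin n) ℝ
  set c := ‖(e.symm : (Fin n → ℝ) →L[ℝ] X n)‖ + 1 with hc
  have hc0 : 0 < c := by positivity
  obtain ⟨ρ, T, h1, h2, h3, h4, h5, h6⟩ := exists_dens_pi (n := n) (div_pos hm hc0)
  refine ⟨fun y => ρ (e y), fun y => e.symm (T (e y)), h1.comp e.continuous, fun y => h2 _,
    by simpa using h3, fun y hy => h4 _ ?_, e.symm.contDiff.comp (h5.comp e.contDiff),
    fun y => ?_⟩
  · have := (e.symm : (Fin n → ℝ) →L[ℝ] X n).le_opNorm (e y)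
    simp only [ContinuousLinearEquiv.coe_coe, ContinuousLinearEquiv.symm_apply_apply] at this
    rw [div_le_iff₀ hc0]
    nlinarith [norm_nonneg (e y)]
  · have := (e.symm.hasFDerivAt.comp y
      ((h5.differentiable one_ne_zero (e y)).hasFDerivAt.comp y e.hasFDerivAt)).fderiv
    rw [show (fun y => e.symm (T (e y))) = e.symm ∘ T ∘ e from rfl, this, ← h6]
    exact LinearMap.det_conj (fderiv ℝ T (e y) : (Fin n → ℝ) →ₗ[ℝ] Fin n → ℝ) e.symm.toLinearEquiv

theorem det_comp' (A B : X n →L[ℝ] X n) : (A.comp B).det = A.det * B.det := by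
  simp [ContinuousLinearMap.det, LinearMap.det_comp]

/-- Weighted homotopy invariance of the analytic degree. -/
theorem nl_homotopy (hn : n ≠ 0) {m : ℝ} {ρ : X n → ℝ} {T : X n → X n} (hρ : Dens m ρ T)
    {V : Set (X n)} (hV : IsOpen V) {H₀ H₁ : X n → X n}
    {D₀ D₁ : X n → X n →L[ℝ] X n} (h₀ : W V H₀ D₀) (h₁ : W V H₁ D₁) {E : Set (X n)}
    (hE : IsCompact E) (hEV : E ⊆ V)
    (he : ∀ x ∈ V, x ∉ E → ∀ s ∈ Icc (0 : ℝ) 1, m ≤ ‖H₀ x + s • (H₁ x - H₀ x)‖)
    {l : X n → ℝ} (hl : ∀ x ∈ V, ∀ᶠ y in 𝓝 x, l y = l x) :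
    ∫ x in V, l x ^ n * (ρ (H₀ x) * (D₀ x).det) = ∫ x in V, l x ^ n * (ρ (H₁ x) * (D₁ x).det) := by
  obtain ⟨χ, ⟨hχ, hχc, hχV⟩, hχ1, hχ01⟩ := exists_cutoff hE hV hEV
  have hχ' : ContDiff ℝ 1 χ := hχ.of_le (by simp)
  have hEχ : E ⊆ tsupport χ := fun x hx =>
    subset_tsupport _ (by simp [hχ1.self_of_nhdsSet x hx])
  have h₂ := h₀.add hn ((h₁.sub hn h₀).smul hn hχ')
  have hz₀ : ∀ x ∈ V, x ∉ E → ρ (H₀ x) = 0 := fun x hx hx' =>
    hρ.zero _ (by simpa using he x hx hx' 0 (by simp))
  have hz₁ : ∀ x ∈ V, x ∉ E → ρ (H₁ x) = 0 := fun x hx hx' =>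
    hρ.zero _ (by simpa using he x hx hx' 1 (by simp))
  have key := nl_compare hn hV (h₀.comp hn hρ.smooth) (h₂.comp hn hρ.smooth) hχc hχV
    (fun x _ hx => by
      have e1 : χ x = 0 := image_eq_zero_of_notMem_tsupport hx
      have e3 : fderiv ℝ χ x = 0 := by
        by_contra h
        exact hx (support_fderiv_subset ℝ h)
      simp [e1, e3]) hl
  simp only [det_comp', hρ.det] at key
  rw [setIntegral_eq_of_subset_of_forall_sdiff_eq_zero hV.measurableSet hχV
      (fun x hx => by simp [hz₀ x hx.1 fun h => hx.2 (hEχ h)]),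
    setIntegral_eq_of_subset_of_forall_sdiff_eq_zero hV.measurableSet hχV
      (fun x hx => by simp [hz₁ x hx.1 fun h => hx.2 (hEχ h)]), key]
  refine setIntegral_congr_fun (isClosed_tsupport χ).measurableSet fun x hx => ?_
  by_cases hxE : x ∈ E
  · have h1 : ∀ᶠ y in 𝓝 x, χ y = 1 := hχ1.filter_mono (nhds_le_nhdsSet hxE)
    have e3 : fderiv ℝ χ x = 0 := by
      have : χ =ᶠ[𝓝 x] fun _ => 1 := h1
      rw [this.fderiv_eq]
      simp
    simp [h1.self_of_nhds, e3]
  · simp only [hz₁ x (hχV hx) hxE, hρ.zero _ (he x (hχV hx) hxE _ (hχ01 x)), zero_mul]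

end Pool.Agent.P.MP_fecf7d_an.Sg
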