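import Pool.Agent.P.MP_fecf7d_an.SignE

/-!
The Jacobian of an open Sobolev map of locally bounded multiplicity has constant sign.
-/

open MeasureTheory Set Metric Filter Topology Module
open scoped ContDiff RealInnerProductSpace ENNReal Pointwise NNReal

namespace Pool.Agent.P.MP_fecf7d_an

variable {n : ℕ} {G : Set (E n)} {f : E n → E n} {J : E n → ℝ}

namespace Sgn

theorem contra (h : Good G f J) (hf : ContinuousOn f G) (hJm : Measurable J)
    (hJ : ∀ W ⊆ G, IsOpen W → W.Nonempty → ¬∀ᵐ x, x ∈ W → J x = 0) {x₀ : E n} {a R : ℝ}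
    (ha : 0 < a) (hR : 0 < R) (hC : closedBall x₀ a ⊆ G) {P M : Set (E n)} (hP : IsOpen P)
    (hM : IsOpen M) (hPM : Disjoint P M) (h1 : ∀ᵐ x, x ∈ P → 0 ≤ J x)
    (h2 : ∀ᵐ x, x ∈ M → 0 ≤ -J x) (hx0 : ∀ W ∈ 𝓝 x₀, ¬∀ᵐ z, z ∈ W → 0 ≤ J z)
    (hx : x₀ ∉ P ∪ M)
    (hinj : ∀ s ∈ closedBall x₀ a, s ∉ P ∪ M → ∀ z ∈ closedBall x₀ a, f z = f s → z = s)
    (hB1 : ball (f x₀) (2 * R) ⊆ f '' ball x₀ a)
    (hB2 : ∀ z ∈ sphere x₀ a, f z ∉ ball (f x₀) (2 * R)) {μ : ℝ} (hμ : 0 ≤ μ)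
    (hdeg : ∀ g : E n → ℝ, Continuous g → HasCompactSupport g →
      tsupport g ⊆ ball (f x₀) (2 * R) →
      ∫ x in ball x₀ a ∩ f ⁻¹' ball (f x₀) (2 * R), g (f x) * J x = ∫ y, g y * μ) : False := by
  set C := closedBall x₀ a with hCdef
  set B := ball (f x₀) (2 * R) with hBdef
  set U := ball x₀ a ∩ f ⁻¹' B with hUdef
  have hCc : IsCompact C := isCompact_closedBall _ _
  have hfC := hf.mono hC
  have hUC : U ⊆ C := inter_subset_left.trans ball_subset_closedBall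
  have hUo : IsOpen U := (hfC.mono ball_subset_closedBall).isOpen_inter_preimage isOpen_ball
    isOpen_ball
  have hU : ∀ x ∈ C, f x ∈ B → x ∈ U := fun x hx hfx =>
    ⟨mem_ball.2 (lt_of_le_of_ne (mem_closedBall.1 hx) fun h => hB2 x (mem_sphere.2 h) hfx), hfx⟩
  have hx0U : x₀ ∈ U :=
    ⟨mem_ball_self ha, mem_preimage.2 (mem_ball_self (by positivity : 0 < 2 * R))⟩
  set S := C \ (P ∪ M) with hSdef
  have hSc : IsCompact S := hCc.diff (hP.union hM)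
  have hfS : IsCompact (f '' S) := hSc.image_of_continuousOn (hfC.mono sdiff_subset)
  set B' := B \ f '' S with hB'def
  have hB'o : IsOpen B' := isOpen_ball.sdiff hfS.isClosed
  have hmap : ∀ x ∈ U, x ∈ P ∪ M → f x ∈ B' := by
    refine fun x hx hx' => ⟨hx.2, ?_⟩
    rintro ⟨s, hs, hfs⟩
    exact hs.2 (hinj s hs.1 hs.2 x (hUC hx) hfs.symm ▸ hx')
  have hback : ∀ x ∈ C, f x ∈ B' → x ∈ U ∧ x ∈ P ∪ M := fun x hx hfx =>
    ⟨hU x hx hfx.1, by by_contra h'; exact hfx.2 ⟨x, ⟨hx, h'⟩, rfl⟩⟩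
  have hprop : ∀ P' M' : Set (E n), IsOpen M' → Disjoint P' M' → P ∪ M ⊆ P' ∪ M' →
      ∀ Q ⊆ B', IsCompact Q → IsCompact (U ∩ P' ∩ f ⁻¹' Q) := by
    intro P' M' a1 a2 a3 Q hQ hQc
    have e : U ∩ P' ∩ f ⁻¹' Q = (C ∩ f ⁻¹' Q) \ M' := by
      ext x
      constructor
      · exact fun hx => ⟨⟨hUC hx.1.1, hx.2⟩, Set.disjoint_left.1 a2 hx.1.2⟩
      · rintro ⟨⟨b1, b2⟩, b3⟩
        have := hback x b1 (hQ b2)
        exact ⟨⟨this.1, (a3 this.2).resolve_right b3⟩, b2⟩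
    rw [e]
    exact (hCc.of_isClosed_subset (hfC.preimage_isClosed_of_isClosed hCc.isClosed hQc.isClosed)
      inter_subset_left).diff a1
  obtain ⟨p, p1, p2, -, p4, p5⟩ := side h hf hJ hCc hC (hUo.inter hP)
    (inter_subset_left.trans hUC) hB'o (hprop P M hM hPM subset_rfl)
    (h1.mono fun x hx hx' => hx hx'.2)
  obtain ⟨q, q1, q2, -, q4, -⟩ := side h.neg hf
    (fun W a1 a2 a3 a4 => hJ W a1 a2 a3 (a4.mono fun x hx hx' => neg_eq_zero.1 (hx hx'))) hCc hC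
    (hUo.inter hM) (inter_subset_left.trans hUC) hB'o
    (hprop M P hP hPM.symm (union_comm P M).subset) (h2.mono fun x hx hx' => hx hx'.2)
  have hpq : ∀ y ∈ B', p y = μ + q y := by
    intro y hy
    obtain ⟨g, a1, a2, a3, -, -, a6⟩ := probe (inter_mem (inter_mem (hB'o.mem_nhds hy) (p1 y hy))
      (q1 y hy))
    have a4 : tsupport g ⊆ B' := fun z hz => (a3 hz).1.1
    have hi : IntegrableOn (fun x => g (f x) * J x) C :=
      (h.int C hC hCc).continuousOn_mul (a1.comp_continuousOn hfC) hCc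
    have e1 := hdeg g a1 a2 (a4.trans sdiff_subset)
    have e2 := q2 g a1 a2 a4
    simp only [mul_neg, integral_neg] at e2
    rw [a6 (fun _ => μ) fun _ _ => rfl,
      setIntegral_eq_of_subset_of_forall_sdiff_eq_zero hUo.measurableSet
        (s := U ∩ P ∪ U ∩ M) (union_subset inter_subset_left inter_subset_left),
      setIntegral_union (hPM.mono inter_subset_right inter_subset_right)
        (hUo.inter hM).measurableSet (hi.mono_set (inter_subset_left.trans hUC))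
        (hi.mono_set (inter_subset_left.trans hUC)), p2 g a1 a2 a4,
      a6 p fun z hz => hz.1.2] at e1
    · rw [a6 q fun z hz => hz.2] at e2
      linarith
    · intro x hx
      have : g (f x) = 0 := by
        refine image_eq_zero_of_notMem_tsupport fun h' => hx.2 ?_
        rw [← inter_union_distrib_left]
        exact hback x (hUC hx.1) (a4 h')
      rw [this, zero_mul]
  have p3 : ∀ y ∈ B', 0 < p y := by
    intro y hy
    obtain ⟨x, hx, rfl⟩ := hB1 hy.1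
    obtain ⟨b1, b2 | b2⟩ := hback x (ball_subset_closedBall hx) hy
    · exact p4 x ⟨b1, b2⟩ hy
    · rw [hpq _ hy]; linarith [q4 x ⟨b1, b2⟩ hy]
  have hS0 : ∀ᵐ x, x ∈ U \ (P ∪ M) → 0 ≤ J x := by
    refine ae_nonneg_of_single (B := B) hf hJm hCc hC (h.int C hC hCc) hUo hUC isOpen_ball
      (fun x hx => hx.2) (hUo.measurableSet.diff (hP.union hM).measurableSet) sdiff_subset
      (fun s hs z hz => hinj s (hUC hs.1) hs.2 z (hUC hz)) fun g a1 a2 a3 a4 => ?_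
    rw [hdeg g a1 a2 a3]
    exact integral_nonneg fun y => mul_nonneg (a4 y) hμ
  have hfx0 : ContinuousAt f x₀ := hfC.continuousAt (closedBall_mem_nhds _ ha)
  obtain ⟨η2, η2pos, hη⟩ := Metric.mem_nhds_iff.1 (inter_mem (hUo.mem_nhds hx0U)
    (hfx0.preimage_mem_nhds (ball_mem_nhds (f x₀) hR)))
  set η := η2 / 2 with hηdef
  have η0 : 0 < η := by positivity
  have hη2 : 2 * η = η2 := by rw [hηdef]; ring
  have hcl : IsClosed (f '' (C \ ball x₀ η)) :=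
    ((hCc.diff isOpen_ball).image_of_continuousOn (hfC.mono sdiff_subset)).isClosed
  have hnot : f x₀ ∉ f '' (C \ ball x₀ η) := by
    rintro ⟨z, hz, hfz⟩
    exact hz.2 (hinj x₀ (hUC hx0U) hx z hz.1 hfz ▸ mem_ball_self η0)
  obtain ⟨b, hbM, ⟨hbU, hbη⟩, hbf⟩ : ∃ b ∈ M, b ∈ (U ∩ ball x₀ η) ∩ f ⁻¹' (f '' (C \ ball x₀ η))ᶜ := by
    by_contra h'
    refine hx0 _ (inter_mem (inter_mem (hUo.mem_nhds hx0U) (ball_mem_nhds x₀ η0))
      (hfx0.preimage_mem_nhds (hcl.isOpen_compl.mem_nhds hnot))) ?_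
    filter_upwards [h1, hS0] with z a1 a2 hz
    by_cases hzP : z ∈ P
    · exact a1 hzP
    · exact a2 ⟨hz.1.1, fun h3 => h3.elim hzP fun h4 => h' ⟨z, h4, hz⟩⟩
  have hbB := hmap b hbU (Or.inr hbM)
  obtain ⟨a', ha', hab⟩ := p5 _ hbB (p3 _ hbB).ne'
  have haη : a' ∈ ball x₀ η := by
    by_contra h'
    exact hbf ⟨a', ⟨hUC ha'.1, h'⟩, hab⟩
  have hne : a' ≠ b := fun h' => Set.disjoint_left.1 hPM ha'.2 (h' ▸ hbM)
  obtain ⟨Φ, w, Φ1, w0, Φw, Φz, Φa, Φd⟩ := dipole haη hbη hne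
  have Φw' : ∀ x, f x ∉ ball (f x₀) R → Φ x = w := fun x hx =>
    Φw x fun h' => hx (hη (hη2 ▸ h')).2
  obtain ⟨m₀, m₀0, hm₀⟩ : ∃ m₀ > 0, ∀ x ∈ S, m₀ ≤ ‖Φ x‖ := by
    refine hSc.exists_forall_le' Φ1.continuous.norm.continuousOn
      fun x hx => norm_pos_iff.2 fun h0 => hx.2 ?_
    rcases Φz x h0 with rfl | rfl
    · exact Or.inl ha'.2
    · exact Or.inr hbM
  have w0' : 0 < ‖w‖ := norm_pos_iff.2 w0
  set m := min m₀ ‖w‖ / 2 with hmdef
  have m0 : 0 < m := by positivity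
  have m1 : 2 * m ≤ m₀ := by linarith [min_le_left m₀ ‖w‖]
  have m2 : 2 * m ≤ ‖w‖ := by linarith [min_le_right m₀ ‖w‖]
  obtain ⟨Ψ, Ψ1, Ψw, Ψs⟩ := target hSc (hfC.mono sdiff_subset)
    (fun s hs t ht hst => hinj t ht.1 ht.2 s hs.1 hst) Φ1.continuous (w := w) (y₀ := f x₀) hR m0
    fun s _ => Φw' s
  have hseg : ∀ s ∈ S, ∀ t ∈ Icc (0 : ℝ) 1, m < ‖Ψ (f s) + t • (Φ s - Ψ (f s))‖ := by
    intro s hs t ht
    have e : Φ s = (Ψ (f s) + t • (Φ s - Ψ (f s))) - (1 - t) • (Ψ (f s) - Φ s) := by module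
    have a1 := norm_sub_le (Ψ (f s) + t • (Φ s - Ψ (f s))) ((1 - t) • (Ψ (f s) - Φ s))
    rw [← e, norm_smul, Real.norm_eq_abs, abs_of_nonneg (sub_nonneg.2 ht.2)] at a1
    have a2 := Ψs s hs
    have a3 := hm₀ s hs
    nlinarith [ht.1, norm_nonneg (Ψ (f s) - Φ s)]
  have hin : ∀ y, ‖Ψ y‖ ≤ m → y ∈ B := by
    intro y hy
    by_contra h'
    rw [Ψw y fun h3 => h' (ball_subset_ball (by linarith) h3)] at hy
    linarith
  refine no_dipole h hf hCc hC (hUo.inter hP) (inter_subset_left.trans hUC) hM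
    (hPM.mono_left inter_subset_right) hB'o (fun x hx => hmap x hx.1 (Or.inl hx.2)) p1 p2 p3 Φ1 Ψ1
    ha' Φa Φd (fun x hx h0 => (Φz x h0).resolve_right fun h' =>
      Set.disjoint_left.1 hPM hx.2 (h' ▸ hbM))
    (fun x _ h0 => (Φz x h0).elim (fun h' => Or.inl (h' ▸ ha')) fun h' => Or.inr (h' ▸ hbM))
    m0 (by linarith : m < ‖w‖) (isCompact_closedBall (f x₀) (3 / 2 * R))
    (fun y hy => Ψw y fun h' => hy (ball_subset_closedBall h')) (fun y hy => ⟨hin y hy, ?_⟩)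
    fun x hx t ht hxt => ?_
  · rintro ⟨s, hs, rfl⟩
    have := hseg s hs 0 ⟨le_rfl, zero_le_one⟩
    rw [zero_smul, add_zero] at this
    linarith
  · have a1 : x ∈ P ∪ M := by
      by_contra h'
      exact absurd hxt (not_le.2 (hseg x ⟨hx, h'⟩ t ht))
    have a2 : f x ∈ B := by
      by_contra h'
      rw [Ψw _ fun h3 => h' (ball_subset_ball (by linarith) h3),
        Φw' _ fun h3 => h' (ball_subset_ball (by linarith) h3)] at hxt
      simp only [sub_self, smul_zero, add_zero] at hxt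
      linarith
    exact a1.imp (fun h3 => ⟨hU x hx a2, h3⟩) id

theorem exists_single (hG : IsOpen G) (hf : ContinuousOn f G)
    (hopen : ∀ W ⊆ G, IsOpen W → IsOpen (f '' W))
    (hmult : ∀ x ∈ G, ∃ W ∈ 𝓝 x, ∃ N : ℕ, ∀ y, (W ∩ f ⁻¹' {y}).encard ≤ N) {S : Set (E n)}
    (hS : S ⊆ G) (hne : S.Nonempty) :
    ∃ x₀ ∈ S, ∃ U ∈ 𝓝 x₀, U ⊆ G ∧ ∀ s ∈ U, s ∈ S → ∀ z ∈ U, f z = f s → z = s := by
  classical
  have hex : ∃ m : ℕ, ∃ x ∈ S, ∃ W ∈ 𝓝 x, ∀ y, (W ∩ f ⁻¹' {y}).encard ≤ m := by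
    obtain ⟨x, hx⟩ := hne
    obtain ⟨W, hW, N, hN⟩ := hmult x (hS hx)
    exact ⟨N, x, hx, W, hW, hN⟩
  obtain ⟨x₀, hx₀, W, hW, hm⟩ := Nat.find_spec hex
  refine ⟨x₀, hx₀, interior W ∩ G, inter_mem (interior_mem_nhds.2 hW) (hG.mem_nhds (hS hx₀)),
    inter_subset_right, fun s hs hsS z hz hzs => ?_⟩
  by_contra hne
  have ho : IsOpen (interior W ∩ G) := isOpen_interior.inter hG
  obtain ⟨A', A, hA', hA, hzA, hsA, hd⟩ := t2_separation hne
  have h1 : IsOpen (f '' (A' ∩ (interior W ∩ G))) :=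
    hopen _ (inter_subset_right.trans inter_subset_right) (hA'.inter ho)
  have h2 : (A ∩ interior W) ∩ f ⁻¹' (f '' (A' ∩ (interior W ∩ G))) ∈ 𝓝 s :=
    inter_mem (inter_mem (hA.mem_nhds hsA) (isOpen_interior.mem_nhds hs.1))
      ((hf.continuousAt (hG.mem_nhds hs.2)).preimage_mem_nhds (h1.mem_nhds ⟨z, ⟨hzA, hz⟩, hzs⟩))
  set A'' := (A ∩ interior W) ∩ f ⁻¹' (f '' (A' ∩ (interior W ∩ G))) with hA''
  have key : ∀ y, (A'' ∩ f ⁻¹' {y}).Nonempty →
      (A'' ∩ f ⁻¹' {y}).encard + 1 ≤ Nat.find hex := by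
    rintro y ⟨p, hp, hpy⟩
    obtain ⟨z', hz', hfz'⟩ := hp.2
    have h3 : z' ∉ A'' ∩ f ⁻¹' {y} := fun h => Set.disjoint_left.1 hd hz'.1 h.1.1.1
    rw [← encard_insert_of_notMem h3]
    refine le_trans (encard_le_encard ?_) (hm y)
    rintro u (rfl | hu)
    · exact ⟨interior_subset hz'.2.1, hfz'.trans hpy⟩
    · exact ⟨interior_subset hu.1.1.2, hu.2⟩
  have hpos : 0 < Nat.find hex := by
    have := le_trans le_add_self (key (f s) ⟨s, mem_of_mem_nhds h2, rfl⟩)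
    exact_mod_cast this
  refine Nat.find_min hex (Nat.sub_one_lt hpos.ne') ⟨s, hsS, A'', h2, fun y => ?_⟩
  rcases (A'' ∩ f ⁻¹' {y}).eq_empty_or_nonempty with h0 | h0
  · simp [h0]
  · have h4 := key y h0
    obtain ⟨k, hk⟩ := Nat.exists_eq_add_one_of_ne_zero hpos.ne'
    rw [hk] at h4 ⊢
    push_cast at h4
    rw [Nat.add_sub_cancel]
    exact (ENat.add_le_add_iff_right ENat.one_ne_top).1 h4

/-- Points near which `J` is almost everywhere nonnegative. -/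
def Dp (J : E n → ℝ) : Set (E n) := {x | ∃ W ∈ 𝓝 x, ∀ᵐ z, z ∈ W → 0 ≤ J z}

theorem isOpen_Dp : IsOpen (Dp J) := isOpen_iff_mem_nhds.2 fun _ ⟨W, hW, h⟩ =>
  (eventually_mem_nhds_iff.2 hW).mono fun _ hy => ⟨W, hy, h⟩

theorem ae_Dp : ∀ᵐ x, x ∈ Dp J → 0 ≤ J x := by
  refine measure_null_of_locally_null _ fun x hx => ?_
  obtain ⟨W, hW, h⟩ := (Classical.not_imp.1 hx).1
  refine ⟨_, inter_mem self_mem_nhdsWithin (mem_nhdsWithin_of_mem_nhds hW),
    measure_mono_null (fun z hz => ?_) h⟩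
  exact fun h' => (Classical.not_imp.1 hz.1).2 (h' hz.2)

theorem sign_of_good (hG : IsOpen G) (hGc : IsPreconnected G) (hf : ContinuousOn f G)
    (hopen : ∀ W ⊆ G, IsOpen W → IsOpen (f '' W))
    (hmult : ∀ x ∈ G, ∃ W ∈ 𝓝 x, ∃ N : ℕ, ∀ y, (W ∩ f ⁻¹' {y}).encard ≤ N)
    (h : Good G f J) (hJm : Measurable J)
    (hJ : ∀ W ⊆ G, IsOpen W → W.Nonempty → ¬∀ᵐ x, x ∈ W → J x = 0) :
    (∀ᵐ x, x ∈ G → 0 ≤ J x) ∨ ∀ᵐ x, x ∈ G → J x ≤ 0 := by
  set P := G ∩ Dp J with hPdef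
  set M := G ∩ Dp fun x => -J x with hMdef
  have hP : IsOpen P := hG.inter isOpen_Dp
  have hM : IsOpen M := hG.inter isOpen_Dp
  have h1 : ∀ᵐ x, x ∈ P → 0 ≤ J x := ae_Dp.mono fun x hx hx' => hx hx'.2
  have h2 : ∀ᵐ x, x ∈ M → 0 ≤ -J x := (ae_Dp (J := fun x => -J x)).mono fun x hx hx' => hx hx'.2
  have hPM : Disjoint P M := by
    rw [Set.disjoint_iff_inter_eq_empty]
    by_contra h0
    refine hJ _ (inter_subset_left.trans inter_subset_left) (hP.inter hM)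
      (nonempty_iff_ne_empty.2 h0) ?_
    filter_upwards [h1, h2] with x a1 a2 hx
    linarith [a1 hx.1, a2 hx.2]
  by_cases hS : G ⊆ P ∪ M
  · rcases hGc.subset_or_subset hP hM hPM hS with h3 | h3
    · exact Or.inl (h1.mono fun x hx hx' => hx (h3 hx'))
    · exact Or.inr (h2.mono fun x hx hx' => neg_nonneg.1 (hx (h3 hx')))
  exfalso
  obtain ⟨x₀, hx₀, U, hU, hUG, hinj⟩ := exists_single hG hf hopen hmult (S := G \ (P ∪ M))
    sdiff_subset (sdiff_nonempty.2 hS)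
  obtain ⟨a, ha, haU⟩ := Metric.nhds_basis_closedBall.mem_iff.1 hU
  have hC := haU.trans hUG
  have hinj' : ∀ s ∈ closedBall x₀ a, s ∉ P ∪ M → ∀ z ∈ closedBall x₀ a, f z = f s → z = s :=
    fun s hs hs' z hz => hinj s (haU hs) ⟨hC hs, hs'⟩ z (haU hz)
  have hcl : IsClosed (f '' sphere x₀ a) := ((isCompact_sphere x₀ a).image_of_continuousOn
    (hf.mono (sphere_subset_closedBall.trans hC))).isClosed
  have hnot : f x₀ ∉ f '' sphere x₀ a := by
    rintro ⟨z, hz, hfz⟩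
    rw [hinj' x₀ (mem_closedBall_self ha.le) hx₀.2 z (sphere_subset_closedBall hz) hfz] at hz
    exact ha.ne (by simpa using hz)
  obtain ⟨R2, R2pos, hR⟩ := Metric.mem_nhds_iff.1 (inter_mem
    ((hopen _ (ball_subset_closedBall.trans hC) isOpen_ball).mem_nhds
      (mem_image_of_mem f (mem_ball_self ha))) (hcl.isOpen_compl.mem_nhds hnot))
  obtain ⟨R, rfl⟩ : ∃ R, R2 = 2 * R := ⟨R2 / 2, by ring⟩
  have R0 : 0 < R := by linarith
  have hB1 : ball (f x₀) (2 * R) ⊆ f '' ball x₀ a := hR.trans inter_subset_left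
  have hB2 : ∀ z ∈ sphere x₀ a, f z ∉ ball (f x₀) (2 * R) := fun z hz h' =>
    (hR h').2 (mem_image_of_mem f hz)
  obtain ⟨p, p1, p2⟩ := h.deg (ball x₀ a ∩ f ⁻¹' ball (f x₀) (2 * R))
    ((inter_subset_left.trans ball_subset_closedBall).trans hC)
    ((hf.mono (ball_subset_closedBall.trans hC)).isOpen_inter_preimage isOpen_ball isOpen_ball)
    (ball (f x₀) (2 * R)) isOpen_ball fun Q hQ hQc => by
      have e : ball x₀ a ∩ f ⁻¹' ball (f x₀) (2 * R) ∩ f ⁻¹' Q = closedBall x₀ a ∩ f ⁻¹' Q := by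
        ext x
        exact ⟨fun hx => ⟨ball_subset_closedBall hx.1.1, hx.2⟩, fun hx =>
          ⟨⟨mem_ball.2 (lt_of_le_of_ne (mem_closedBall.1 hx.1) fun h' =>
            hB2 x (mem_sphere.2 h') (hQ hx.2)), hQ hx.2⟩, hx.2⟩⟩
      rw [e]
      exact (isCompact_closedBall x₀ a).of_isClosed_subset
        ((hf.mono hC).preimage_isClosed_of_isClosed isClosed_closedBall hQc.isClosed)
        inter_subset_left
  have hconst : ball (f x₀) (2 * R) ⊆ ball (f x₀) (2 * R) ∩ p ⁻¹' {p (f x₀)} :=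
    (convex_ball _ _).isPreconnected.subset_left_of_subset_union
      (isOpen_level isOpen_ball p1 {p (f x₀)}) (isOpen_level isOpen_ball p1 {p (f x₀)}ᶜ)
      (Set.disjoint_left.2 fun y a1 a2 => a2.2 a1.2)
      (fun y hy => (em (p y = p (f x₀))).imp (fun h' => ⟨hy, h'⟩) fun h' => ⟨hy, h'⟩)
      ⟨f x₀, mem_ball_self R2pos, mem_ball_self R2pos, rfl⟩
  have hdeg : ∀ g : E n → ℝ, Continuous g → HasCompactSupport g →
      tsupport g ⊆ ball (f x₀) (2 * R) →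
      ∫ x in ball x₀ a ∩ f ⁻¹' ball (f x₀) (2 * R), g (f x) * J x = ∫ y, g y * p (f x₀) := by
    intro g a1 a2 a3
    rw [p2 g a1 a2 a3]
    refine integral_congr_ae (Eventually.of_forall fun y => ?_)
    by_cases hy : y ∈ tsupport g
    · have : p y = p (f x₀) := (hconst (a3 hy)).2
      simp only [this]
    · simp [image_eq_zero_of_notMem_tsupport hy]
  rcases le_total 0 (p (f x₀)) with hμ | hμ
  · exact contra h hf hJm hJ ha R0 hC hP hM hPM h1 h2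
      (fun W hW h' => hx₀.2 (Or.inl ⟨hx₀.1, W, hW, h'⟩)) hx₀.2 hinj' hB1 hB2 hμ hdeg
  · refine contra h.neg hf hJm.neg
      (fun W a1 a2 a3 a4 => hJ W a1 a2 a3 (a4.mono fun x hx hx' => neg_eq_zero.1 (hx hx')))
      ha R0 hC hM hP hPM.symm h2 (h1.mono fun x hx hx' => by simpa using hx hx')
      (fun W hW h' => hx₀.2 (Or.inr ⟨hx₀.1, W, hW, h'⟩)) (union_comm P M ▸ hx₀.2)
      (union_comm P M ▸ hinj') hB1 hB2 (neg_nonneg.2 hμ) fun g a1 a2 a3 => ?_
    simp only [mul_neg, integral_neg, hdeg g a1 a2 a3]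

end Sgn

theorem sign_ae (hn : 2 ≤ n) (hG : IsOpen G) (hGc : IsPreconnected G) (hf : ContinuousOn f G)
    (hopen : ∀ W ⊆ G, IsOpen W → IsOpen (f '' W))
    (hmult : ∀ x ∈ G, ∃ W ∈ 𝓝 x, ∃ N : ℕ, ∀ y, (W ∩ f ⁻¹' {y}).encard ≤ N)
    (hW : IsW1n G f (fderiv ℝ f)) {K : ℝ}
    (hK : ∀ᵐ x ∂(volume.restrict G), ‖fderiv ℝ f x‖ ^ n ≤ K * |(fderiv ℝ f x).det|) :
    (∀ᵐ x ∂(volume.restrict G), 0 ≤ (fderiv ℝ f x).det) ∨
      ∀ᵐ x ∂(volume.restrict G), (fderiv ℝ f x).det ≤ 0 := by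
  simp only [ae_restrict_iff' hG.measurableSet] at hK ⊢
  refine Sgn.sign_of_good hG hGc hf hopen hmult (Sgn.ap_of_isW1n (by omega) hG hf hW).good
    (ContinuousLinearMap.continuous_det.measurable.comp (measurable_fderiv ℝ f)) ?_
  rintro W hWG hWo ⟨x, hx⟩ h0
  obtain ⟨r, r0, hr⟩ := Metric.nhds_basis_closedBall.mem_iff.1 (hWo.mem_nhds hx)
  have hB : closedBall x r ⊆ G := hr.trans hWG
  obtain ⟨c, h1⟩ := (isW1n_iff.1 hW).poincare (by omega) hG (isCompact_closedBall x r)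
    (convex_closedBall x r) hB (d := 2 * r) fun a ha b hb => by
      have := dist_triangle_right a b x
      linarith [mem_closedBall.1 ha, mem_closedBall.1 hb]
  have n0 : n ≠ 0 := by omega
  have h2 : ∫⁻ z in closedBall x r, ‖fderiv ℝ f z‖ₑ ^ n = 0 := by
    rw [← lintegral_zero (μ := volume.restrict (closedBall x r))]
    refine lintegral_congr_ae ((ae_restrict_iff' measurableSet_closedBall).2 ?_)
    filter_upwards [hK, h0] with z a1 a2 hz
    have a3 := a1 (hB hz)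
    rw [a2 (hr hz), abs_zero, mul_zero] at a3
    have : ‖fderiv ℝ f z‖ = 0 := (pow_eq_zero_iff n0).1 (le_antisymm a3 (by positivity))
    rw [← ofReal_norm, this]
    simp [n0]
  have hm : AEMeasurable (fun z => ‖f z - c‖ₑ ^ n) (volume.restrict (closedBall x r)) :=
    (((hf.mono hB).aestronglyMeasurable measurableSet_closedBall).sub
      aestronglyMeasurable_const).enorm.pow_const n
  rw [h2, mul_zero, nonpos_iff_eq_zero, lintegral_eq_zero_iff' hm] at h1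
  have h3 : f =ᵐ[volume.restrict (ball x r)] fun _ => c := by
    filter_upwards [ae_restrict_of_ae_restrict_of_subset ball_subset_closedBall h1] with z hz
    simpa [n0, sub_eq_zero] using hz
  have h4 := Measure.eqOn_open_of_ae_eq h3 isOpen_ball (hf.mono (ball_subset_closedBall.trans hB))
    continuousOn_const
  have h5 := hopen _ (ball_subset_closedBall.trans hB) isOpen_ball
  have : Nonempty (Fin n) := ⟨⟨0, by omega⟩⟩
  have h6 : f '' ball x r = {c} := by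
    refine Subset.antisymm ?_ ?_
    · rintro _ ⟨z, hz, rfl⟩
      exact h4 hz
    · rintro _ rfl
      exact ⟨x, mem_ball_self r0, h4 (mem_ball_self r0)⟩
  rw [h6] at h5
  exact not_isOpen_singleton c h5

end Pool.Agent.P.MP_fecf7d_an
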