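import Pool.Agent.P.MP_fecf7d_an.Diff
import Pool.Agent.P.MP_fecf7d_an.Sign

/-!
Reflections and the conclusion for open maps of locally bounded multiplicity.
-/

open MeasureTheory Set Metric Filter Topology Module
open scoped ContDiff RealInnerProductSpace ENNReal Pointwise NNReal

namespace Pool.Agent.P.MP_fecf7d_an

variable {n : ℕ}

theorem IsReflection.exists_linear {r : E n → E n} (h : IsReflection r) :
    ∃ (L : E n ≃ₗᵢ[ℝ] E n) (b : E n), (L : E n →L[ℝ] E n).det = -1 ∧ ∀ x, r x = L x + b := by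
  obtain ⟨hr, hid, a, c, ha, hfix⟩ := h
  have hN : 0 < ⟪a, a⟫ := real_inner_self_pos.2 ha
  set s : E n → ℝ := fun x => (⟪a, x⟫ - c) / ⟪a, a⟫ with hs
  have hd : ∀ x y, ⟪r x - r y, r x - r y⟫ = ⟪x - y, x - y⟫ := fun x y => by
    rw [real_inner_self_eq_norm_sq, real_inner_self_eq_norm_sq, ← dist_eq_norm, ← dist_eq_norm,
      hr.dist_eq]
  have hp : ∀ x, ⟪a, x - s x • a⟫ = c := fun x => by
    rw [inner_sub_right, real_inner_smul_right]; simp only [hs]; field_simp; ring
  have key : ∀ x, r x = x ∨ r x = x - (2 * s x) • a := by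
    intro x
    set p := x - s x • a with hpdef
    set u := r x - p with hu
    have h1 : ⟪u, u⟫ = s x ^ 2 * ⟪a, a⟫ := by
      have := hd x p
      rw [hfix p (hp x)] at this
      rw [this, hpdef, sub_sub_cancel, real_inner_smul_left, real_inner_smul_right]; ring
    have h2 : ∀ v, ⟪a, v⟫ = 0 → ⟪u, v⟫ = 0 := by
      intro v hv
      have := hd x (p + v)
      rw [hfix (p + v) (by rw [inner_add_right, hp x, hv, add_zero])] at this
      have e1 : r x - (p + v) = u - v := by rw [hu]; abel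
      have e2 : x - (p + v) = s x • a - v := by rw [hpdef]; abel
      rw [e1, e2, real_inner_sub_sub_self u v, real_inner_sub_sub_self (s x • a) v, h1, real_inner_smul_left,
        real_inner_smul_left, real_inner_smul_right, hv] at this
      linarith
    set t := ⟪a, u⟫ / ⟪a, a⟫ with ht
    have h3 : u = t • a := by
      have h4 : ⟪a, u - t • a⟫ = 0 := by
        rw [inner_sub_right, real_inner_smul_right, ht]; field_simp; ring
      have h5 : ⟪u - t • a, u - t • a⟫ = 0 := by
        rw [inner_sub_left, h2 _ h4, real_inner_smul_left, h4]; ring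
      exact sub_eq_zero.1 (inner_self_eq_zero.1 h5)
    rw [h3, real_inner_smul_left, real_inner_smul_right] at h1
    have h6 : (t - s x) * (t + s x) = 0 := by
      have : (t - s x) * (t + s x) * ⟪a, a⟫ = 0 := by linarith
      exact (mul_eq_zero.1 this).resolve_right hN.ne'
    have h7 : r x = x - s x • a + t • a := by rw [← h3, hu, hpdef]; abel
    rcases mul_eq_zero.1 h6 with h | h
    · left; rw [h7, sub_eq_zero.1 h]; abel
    · right; rw [h7, eq_neg_of_add_eq_zero_left h]; module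
  obtain ⟨x₀, hx₀⟩ : ∃ x₀, r x₀ ≠ x₀ := by
    by_contra h'
    push Not at h'
    exact hid (funext h')
  have h0 := (key x₀).resolve_left hx₀
  have s0 : s x₀ ≠ 0 := fun h' => hx₀ (by rw [h0, h']; simp)
  have all : ∀ x, r x = x - (2 * s x) • a := by
    intro x
    rcases key x with h | h
    · have h1 := hd x x₀
      have e : x - (x₀ - (2 * s x₀) • a) = (x - x₀) + (2 * s x₀) • a := by abel
      have e2 : ⟪x - x₀, a⟫ = (s x - s x₀) * ⟪a, a⟫ := by
        rw [real_inner_comm, inner_sub_right]; simp only [hs]; field_simp; ring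
      rw [h, h0, e, real_inner_add_add_self, real_inner_smul_left, real_inner_smul_right,
        real_inner_smul_right, e2] at h1
      have h2 : s x₀ * (s x * ⟪a, a⟫) = 0 := by linarith
      have h3 : s x = 0 :=
        (mul_eq_zero.1 ((mul_eq_zero.1 h2).resolve_left s0)).resolve_right hN.ne'
      rw [h, h3]; simp
    · exact h
  refine ⟨(ℝ ∙ a)ᗮ.reflection, (2 * c / ⟪a, a⟫) • a, ?_, fun x => ?_⟩
  · have := (ℝ ∙ a)ᗮ.det_reflection
    rw [Submodule.orthogonal_orthogonal, finrank_span_singleton ha, pow_one] at this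
    exact this
  · rw [all, Submodule.reflection_orthogonal_apply, Submodule.reflection_singleton_apply]
    have e : 2 * s x = 2 * (⟪a, x⟫ / ‖a‖ ^ 2) - 2 * c / ⟪a, a⟫ := by
      simp only [hs]
      rw [← real_inner_self_eq_norm_sq]; ring
    rw [e]
    simp only [RCLike.ofReal_real_eq_id, id]
    module

theorem qr_const (hn : 2 ≤ n) {G : Set (E n)} {f : E n → E n} {c : E n} (h : ∀ x ∈ G, f x = c) :
    IsQR G f :=
  ⟨fun _ => 0, isW1n_iff.2 ((Lib.Sob.WD.const (by omega) c).congr' (fun x hx => (h x hx).symm)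
    fun _ _ => rfl), 1, le_rfl, Eventually.of_forall fun x => by
      have : Nonempty (Fin n) := ⟨⟨0, by omega⟩⟩
      simp [ContinuousLinearMap.det, show n ≠ 0 by omega]⟩

theorem qr_of_open (hn : 2 ≤ n) {G : Set (E n)} (hG : IsOpen G) (hGc : IsPreconnected G)
    {f : E n → E n} (hf : ContinuousOn f G) (hopen : ∀ W ⊆ G, IsOpen W → IsOpen (f '' W))
    (hmult : ∀ x ∈ G, ∃ W ∈ 𝓝 x, ∃ N : ℕ, ∀ y, (W ∩ f ⁻¹' {y}).encard ≤ N)
    {c : ℝ} (hc : 0 < c)
    (hQ : ∀ (x : E n) (t L : ℝ), 0 < t → 0 < L → closedBall x (9 * t) ⊆ G →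
      (∃ p ∈ closedBall x t, L ≤ dist (f p) (f x)) →
      (∀ p ∈ closedBall x (9 * t), dist (f p) (f x) ≤ 18 * L) →
      ∃ ρ ∈ Ioo t (2 * t), (∀ p ∈ sphere x ρ, c * L ≤ dist (f p) (f x)) ∧
        ball (f x) (c * L) ⊆ f '' ball x ρ) :
    IsQR G f ∨ ∀ r, IsReflection r → IsQR G (r ∘ f) := by
  obtain ⟨hW, K, hK1, hK⟩ := diff_main hn hG hf hopen hmult hc hQ
  rcases sign_ae hn hG hGc hf hopen hmult hW (hK.mono fun x hx => hx.2) with h | h
  · refine Or.inl ⟨_, hW, K, hK1, ?_⟩
    filter_upwards [hK, h] with x a1 a2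
    simpa only [abs_of_nonneg a2] using a1.2
  · refine Or.inr fun r hr => ?_
    obtain ⟨L, b, hL, hrL⟩ := hr.exists_linear
    refine ⟨fun x => (L : E n →L[ℝ] E n).comp (fderiv ℝ f x), isW1n_iff.2
      (((((isW1n_iff.1 hW).clm (by omega) (L : E n →L[ℝ] E n)).add_const (by omega) b)).congr'
        (fun x _ => (hrL (f x)).symm) fun _ _ => rfl), K, hK1, ?_⟩
    filter_upwards [hK, h] with x a1 a2
    have e : ((L : E n →L[ℝ] E n).comp (fderiv ℝ f x)).det =
        (L : E n →L[ℝ] E n).det * (fderiv ℝ f x).det :=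
      LinearMap.det_comp ((L : E n →L[ℝ] E n) : E n →ₗ[ℝ] E n) (fderiv ℝ f x)
    rw [ContinuousLinearMap.opNorm_linearIsometryEquiv_comp, e, hL, neg_one_mul,
      ← abs_of_nonpos a2]
    exact a1.2

end Pool.Agent.P.MP_fecf7d_an
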