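import Mathlib

/-!
Definitions for the problem on n-harmonic morphisms.
-/

open MeasureTheory Set
open scoped ContDiff RealInnerProductSpace

namespace Pool.Agent.P.MP_fecf7d_an

/-- Euclidean space `R^n`. -/
abbrev E (n : ℕ) := EuclideanSpace ℝ (Fin n)

variable {n : ℕ}

/-- Admissible operator: measurable in `x`, and for almost every `x` continuous in `h`,
coercive, bounded, strictly monotone and homogeneous. -/
def Admissible (A : E n → E n → E n) : Prop :=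
  ∃ α β : ℝ, 0 < α ∧ α ≤ β ∧ (∀ h, AEMeasurable (fun x => A x h) volume) ∧
    ∀ᵐ x : E n, Continuous (A x) ∧
      (∀ h, α * ‖h‖ ^ n ≤ ⟪A x h, h⟫ ∧ ‖A x h‖ ≤ β * ‖h‖ ^ (n - 1)) ∧
      (∀ h₁ h₂, h₁ ≠ h₂ → 0 < ⟪A x h₁ - A x h₂, h₁ - h₂⟫) ∧
      ∀ (t : ℝ) (h : E n), A x (t • h) = (|t| ^ (n - 2) * t) • A x h

/-- Test function: smooth with compact support inside `U`. -/
def IsTest (U : Set (E n)) (φ : E n → ℝ) : Prop :=
  ContDiff ℝ ∞ φ ∧ HasCompactSupport φ ∧ tsupport φ ⊆ U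

/-- `u` lies in `W^{1,n}_loc(U)` with weak derivative `D`. -/
def IsW1n {F : Type*} [NormedAddCommGroup F] [NormedSpace ℝ F] (U : Set (E n)) (u : E n → F)
    (D : E n → E n →L[ℝ] F) : Prop :=
  (∀ K ⊆ U, IsCompact K →
    MemLp u n (volume.restrict K) ∧ MemLp D n (volume.restrict K)) ∧
  ∀ φ, IsTest U φ → ∀ v : E n, ∫ x, fderiv ℝ φ x v • u x = -∫ x, φ x • D x v

/-- `u` is a continuous weak solution of `div A(x, ∇u) = 0` in `W^{1,n}_loc(U)`;
`g` is the weak gradient. -/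
def IsAHarmonic (A : E n → E n → E n) (U : Set (E n)) (u : E n → ℝ) : Prop :=
  ContinuousOn u U ∧ ∃ g : E n → E n, IsW1n U u (fun x => innerSL ℝ (g x)) ∧
    ∀ φ, IsTest U φ → ∫ x, ⟪A x (g x), gradient φ x⟫ = 0

/-- `(A*, A)`-harmonic morphism on `G`. -/
def IsMorphism (As A : E n → E n → E n) (G : Set (E n)) (f : E n → E n) : Prop :=
  ContinuousOn f G ∧ ∀ G' : Set (E n), IsOpen G' → ∀ u : E n → ℝ,
    IsAHarmonic A G' u → IsAHarmonic As (G ∩ f ⁻¹' G') (u ∘ f)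

/-- Quasiregular map on `G`. -/
def IsQR (G : Set (E n)) (f : E n → E n) : Prop :=
  ∃ D : E n → E n →L[ℝ] E n, IsW1n G f D ∧
    ∃ K : ℝ, 1 ≤ K ∧ ∀ᵐ x ∂(volume.restrict G), ‖D x‖ ^ n ≤ K * (D x).det

/-- Reflection: an isometry, not the identity, fixing a hyperplane pointwise. -/
def IsReflection (r : E n → E n) : Prop :=
  Isometry r ∧ r ≠ id ∧ ∃ (a : E n) (c : ℝ), a ≠ 0 ∧ ∀ x, ⟪a, x⟫ = c → r x = x

end Pool.Agent.P.MP_fecf7d_an
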