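import Pool.Agent.P.MP_fecf7d_an.Defs

/-!
Internal definitions: energy, truncation, abstract solutions, sphere-meeting condition.
-/

open MeasureTheory Set Metric
open scoped ContDiff RealInnerProductSpace ENNReal

namespace Pool.Agent.P.MP_fecf7d_an

variable {n : ℕ}

/-- The `n`-energy of a covector field on a set. -/
noncomputable def En (S : Set (E n)) (D : E n → E n →L[ℝ] ℝ) : ℝ≥0∞ :=
  ∫⁻ x in S, ‖D x‖ₑ ^ n

/-- Truncation at the levels `a` and `b`. -/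
def T (a b s : ℝ) : ℝ := min (max s a) b

/-- The structure conditions on an operator that the proof uses. -/
structure Adm (α β : ℝ) (A : E n → E n → E n) : Prop where
  meas : ∀ h, AEMeasurable (fun x => A x h) volume
  ae : ∀ᵐ x : E n, Continuous (A x) ∧
      (∀ h, α * ‖h‖ ^ n ≤ ⟪A x h, h⟫ ∧ ‖A x h‖ ≤ β * ‖h‖ ^ (n - 1)) ∧
      (∀ h₁ h₂, 0 ≤ ⟪A x h₁ - A x h₂, h₁ - h₂⟫)

/-- Abstract solution: `a` plays the role of the field `A(x, ∇v)`. -/
structure Sol (α β : ℝ) (O : Set (E n)) (v : E n → ℝ) (D : E n → E n →L[ℝ] ℝ)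
    (a : E n → E n) : Prop where
  cont : ContinuousOn v O
  wd : IsW1n O v D
  meas : ∀ K ⊆ O, IsCompact K → AEStronglyMeasurable a (volume.restrict K)
  lower : ∀ᵐ x : E n, α * ‖D x‖ ^ n ≤ D x (a x)
  upper : ∀ᵐ x : E n, ‖a x‖ ≤ β * ‖D x‖ ^ (n - 1)
  eq : ∀ φ, IsTest O φ → ∫ x, fderiv ℝ φ x (a x) = 0

/-- `S` meets all spheres around `z` whose radius lies in some interval of length `l`
inside `(0, d)`. -/
def Meets (S : Set (E n)) (z : E n) (d l : ℝ) : Prop :=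
  ∃ s₀ : ℝ, 0 ≤ s₀ ∧ s₀ + l ≤ d ∧ ∀ s ∈ Ioo s₀ (s₀ + l), ∃ p ∈ S, dist p z = s

/-- The open ring. -/
def Ring (y : E n) (r R : ℝ) : Set (E n) := {z | r < dist z y ∧ dist z y < R}

end Pool.Agent.P.MP_fecf7d_an
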