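import Pool.Agent.P.MP_fecf7d_an.DiffC

/-!
Sobolev regularity and bounded distortion.
-/

open MeasureTheory Set Metric Filter Topology
open scoped ContDiff RealInnerProductSpace ENNReal Pointwise NNReal

namespace Pool.Agent.P.MP_fecf7d_an

variable {n : ℕ} {G W K : Set (E n)} {f : E n → E n}

namespace Diff

theorem enorm_fderiv_le (hn : 2 ≤ n) {x : E n} (hx : DifferentiableAt ℝ f x) {t : ℕ → ℝ}
    (t0 : ∀ k, 0 < t k) (ht : Tendsto t atTop (𝓝 0)) {b : ℕ → ℝ≥0∞}
    (hb : ∀ k, ∀ p ∈ closedBall x (t k), ENNReal.ofReal ((dist (f p) (f x) / t k) ^ n) ≤ b k) :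
    ‖fderiv ℝ f x‖ₑ ^ n ≤ liminf b atTop := by
  obtain ⟨e, he, hT⟩ := exists_unit_norm hn (fderiv ℝ f x)
  have ht' : Tendsto t atTop (𝓝[>] 0) :=
    tendsto_nhdsWithin_iff.2 ⟨ht, Eventually.of_forall t0⟩
  have h1 := ((hx.hasFDerivAt.hasLineDerivAt e).tendsto_slope_zero_right.comp ht').norm
  have h2 := (ENNReal.continuous_ofReal.tendsto _).comp (h1.pow n)
  rw [hT] at h2
  rw [← ofReal_norm, ← ENNReal.ofReal_pow (norm_nonneg _), ← h2.liminf_eq]
  refine liminf_le_liminf (Eventually.of_forall fun k => ?_)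
  have := hb k (x + t k • e) (by
    rw [mem_closedBall, dist_eq_norm, add_sub_cancel_left, norm_smul, he, mul_one,
      Real.norm_eq_abs, abs_of_pos (t0 k)])
  refine le_trans (le_of_eq ?_) this
  simp only [Function.comp]
  rw [norm_smul, norm_inv, Real.norm_eq_abs, abs_of_pos (t0 k), dist_eq_norm, div_eq_inv_mul]

theorem add_pow_le_en (a b : ℝ≥0∞) (n : ℕ) : (a + b) ^ n ≤ 2 ^ n * (a ^ n + b ^ n) := by
  rcases le_total a b with h | h
  · calc (a + b) ^ n ≤ (2 * b) ^ n := by rw [two_mul]; gcongr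
      _ = 2 ^ n * b ^ n := mul_pow _ _ _
      _ ≤ _ := by gcongr; exact le_add_self
  · calc (a + b) ^ n ≤ (2 * a) ^ n := by rw [two_mul]; gcongr
      _ = 2 ^ n * a ^ n := mul_pow _ _ _
      _ ≤ _ := by gcongr; exact le_self_add

theorem lintegral_fderiv_lt_top (hn : 2 ≤ n) (hG : IsOpen G) (hf : ContinuousOn f G)
    (hopen : ∀ W ⊆ G, IsOpen W → IsOpen (f '' W))
    (hmult : ∀ x ∈ G, ∃ W ∈ 𝓝 x, ∃ N : ℕ, ∀ y, (W ∩ f ⁻¹' {y}).encard ≤ N)
    {c : ℝ} (hc : 0 < c) (hQ : HQ G f c) (hK : IsCompact K) (hKG : K ⊆ G) :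
    ∫⁻ x in K, ‖fderiv ℝ f x‖ₑ ^ n < ⊤ := by
  obtain ⟨hd, t, t0, ht, -, -, b, hbm, C, hC, hbC, hb⟩ := core hn hG hf hopen hmult hc hQ hK hKG
  calc ∫⁻ x in K, ‖fderiv ℝ f x‖ₑ ^ n ≤ ∫⁻ x in K, liminf (fun k => b k x) atTop := by
        refine lintegral_mono_ae ?_
        rw [ae_restrict_iff' hK.measurableSet]
        filter_upwards [hd] with x hx hxK
        exact enorm_fderiv_le hn (hx hxK) t0 ht fun k => hb k x hxK
    _ ≤ liminf (fun k => ∫⁻ x in K, b k x) atTop := lintegral_liminf_le hbm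
    _ ≤ C := liminf_le_of_frequently_le' (Eventually.of_forall hbC).frequently
    _ < ⊤ := hC.lt_top

theorem tendsto_quot_test {φ : E n → ℝ} (hφ : ContDiff ℝ ∞ φ) (hs : HasCompactSupport φ)
    {g : E n → E n} (hg : Integrable g) (v : E n) {s : ℕ → ℝ} (s0 : ∀ k, 0 < s k)
    (hs' : Tendsto s atTop (𝓝 0)) :
    Tendsto (fun k => ∫ x, φ x • ((s k)⁻¹ • (g (x + s k • v) - g x))) atTop
      (𝓝 (-∫ x, fderiv ℝ φ x v • g x)) := by
  obtain ⟨L, hL⟩ := ContDiff.lipschitzWith_of_hasCompactSupport hs hφ (by simp)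
  obtain ⟨M, hM⟩ := hφ.continuous.bounded_above_of_compact_support hs
  have hc := hφ.continuous
  have e1 : ∀ k, ∫ x, φ x • ((s k)⁻¹ • (g (x + s k • v) - g x)) =
      ∫ x, ((s k)⁻¹ • (φ (x + s k • (-v)) - φ x)) • g x := by
    intro k
    have i1 : Integrable fun x => φ x • g (x + s k • v) :=
      (hg.comp_add_right _).bdd_smul M hc.aestronglyMeasurable (Eventually.of_forall hM)
    have i2 : Integrable fun x => φ x • g x :=
      hg.bdd_smul M hc.aestronglyMeasurable (Eventually.of_forall hM)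
    have i3 : Integrable fun x => φ (x + s k • (-v)) • g x :=
      hg.bdd_smul M (by fun_prop : Continuous fun x => φ (x + s k • (-v))).aestronglyMeasurable
        (Eventually.of_forall fun x => hM _)
    have e2 : ∫ x, φ x • g (x + s k • v) = ∫ x, φ (x + s k • (-v)) • g x := by
      rw [← integral_add_right_eq_self (fun x => φ (x + s k • (-v)) • g x) (s k • v)]
      simp
    calc _ = ∫ x, (s k)⁻¹ • (φ x • g (x + s k • v) - φ x • g x) := by
          congr 1; ext1 x; rw [smul_comm, smul_sub]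
      _ = (s k)⁻¹ • ((∫ x, φ (x + s k • (-v)) • g x) - ∫ x, φ x • g x) := by
          rw [integral_smul, integral_sub i1 i2, e2]
      _ = ∫ x, (s k)⁻¹ • (φ (x + s k • (-v)) • g x - φ x • g x) := by
          rw [integral_smul, integral_sub i3 i2]
      _ = _ := by
          congr 1; ext1 x; rw [← sub_smul, smul_assoc]
  simp_rw [e1]
  rw [← integral_neg]
  have ht' : Tendsto s atTop (𝓝[>] 0) := tendsto_nhdsWithin_iff.2 ⟨hs', Eventually.of_forall s0⟩
  refine tendsto_integral_of_dominated_convergence (fun x => (L * ‖v‖) * ‖g x‖) (fun k => ?_)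
    (hg.norm.const_mul _) (fun k => Eventually.of_forall fun x => ?_)
    (Eventually.of_forall fun x => ?_)
  · exact (by fun_prop : Continuous fun x =>
      (s k)⁻¹ • (φ (x + s k • (-v)) - φ x)).aestronglyMeasurable.smul hg.1
  · rw [norm_smul]
    gcongr
    have := hL.dist_le_mul (x + s k • (-v)) x
    rw [dist_eq_norm, dist_eq_norm, add_sub_cancel_left, norm_smul, norm_neg, Real.norm_eq_abs (s k),
      abs_of_pos (s0 k)] at this
    rw [norm_smul, norm_inv, Real.norm_eq_abs (s k), abs_of_pos (s0 k), ← div_eq_inv_mul,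
      div_le_iff₀ (s0 k)]
    linarith
  · have h1 := (((hφ.differentiable (by simp)) x).hasFDerivAt.hasLineDerivAt
      (-v)).tendsto_slope_zero_right.comp ht'
    have h2 := h1.smul_const (g x)
    rw [map_neg, neg_smul] at h2
    exact h2

theorem weak_deriv (hn : 2 ≤ n) (hG : IsOpen G) (hf : ContinuousOn f G)
    (hopen : ∀ W ⊆ G, IsOpen W → IsOpen (f '' W))
    (hmult : ∀ x ∈ G, ∃ W ∈ 𝓝 x, ∃ N : ℕ, ∀ y, (W ∩ f ⁻¹' {y}).encard ≤ N)
    {c : ℝ} (hc : 0 < c) (hQ : HQ G f c) {φ : E n → ℝ} (hφ : IsTest G φ) (v : E n) :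
    ∫ x, fderiv ℝ φ x v • f x = -∫ x, φ x • fderiv ℝ f x v := by
  obtain ⟨hφ1, hφ2, hφ3⟩ := hφ
  set K := tsupport φ with hKdef
  have hK : IsCompact K := hφ2
  have hD := lintegral_fderiv_lt_top hn hG hf hopen hmult hc hQ hK hφ3
  obtain ⟨hd, t, t0, ht, hW, tle, b, hbm, C, hC, hbC, hb⟩ := core hn hG hf hopen hmult hc hQ hK hφ3
  set W := cthickening (t 0) K with hWdef
  have hWc : IsCompact W := hK.cthickening
  set g := W.indicator f with hgdef
  have hg : Integrable g := (integrable_indicator_iff hWc.measurableSet).2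
    ((hf.mono hW).integrableOn_compact hWc)
  set a := ‖v‖ + 1 with ha
  have a0 : 0 < a := by positivity
  set s : ℕ → ℝ := fun k => t k / a with hs
  have s0 : ∀ k, 0 < s k := fun k => div_pos (t0 k) a0
  have hs' : Tendsto s atTop (𝓝 0) := by simpa using ht.div_const a
  have hmem : ∀ k x, x + s k • v ∈ closedBall x (t k) := by
    intro k x
    rw [mem_closedBall, dist_eq_norm, add_sub_cancel_left, norm_smul, Real.norm_eq_abs,
      abs_of_pos (s0 k), hs, div_mul_eq_mul_div, div_le_iff₀ a0]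
    have := t0 k
    nlinarith
  have hgf : ∀ k, ∀ x ∈ K, g (x + s k • v) = f (x + s k • v) ∧ g x = f x := fun k x hx =>
    ⟨indicator_of_mem (closedBall_subset_cthickening hx _
      (closedBall_subset_closedBall (tle k) (hmem k x))) _,
      indicator_of_mem (self_subset_cthickening K hx) _⟩
  have h1 := tendsto_quot_test hφ1 hφ2 hg v s0 hs'
  have e1 : ∫ x, fderiv ℝ φ x v • g x = ∫ x, fderiv ℝ φ x v • f x := by
    congr 1; ext1 x
    by_cases hx : x ∈ K
    · rw [(hgf 0 x hx).2]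
    · rw [fderiv_of_notMem_tsupport ℝ hx]; simp
  rw [e1] at h1
  obtain ⟨M, hM⟩ := hφ1.continuous.bounded_above_of_compact_support hφ2
  set q : ℕ → E n → E n := fun k x => (s k)⁻¹ • (g (x + s k • v) - g x) with hq
  have hqi : ∀ k, Integrable (q k) := fun k => ((hg.comp_add_right _).sub hg).smul (s k)⁻¹
  have hDm : Measurable fun x => fderiv ℝ f x v := measurable_fderiv_apply_const ℝ f v
  have : IsFiniteMeasure (volume.restrict K) := isFiniteMeasure_restrict.2 hK.measure_lt_top.ne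
  have h2 : Tendsto (fun k => ∫⁻ x in K, ‖q k x - fderiv ℝ f x v‖ₑ) atTop (𝓝 0) := by
    refine tendsto_lintegral_of_bound hn
      (fun k => (((hqi k).1.restrict).sub hDm.aestronglyMeasurable).enorm)
      (C := 2 ^ n * (ENNReal.ofReal (a ^ n) * C + (∫⁻ x in K, ‖fderiv ℝ f x‖ₑ ^ n) * ‖v‖ₑ ^ n))
      ?_ (fun k => ?_) ?_
    · exact ENNReal.mul_ne_top (by simp) (ENNReal.add_ne_top.2
        ⟨ENNReal.mul_ne_top ENNReal.ofReal_ne_top hC, ENNReal.mul_ne_top hD.ne (by simp)⟩)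
    · calc ∫⁻ x in K, ‖q k x - fderiv ℝ f x v‖ₑ ^ n
          ≤ ∫⁻ x in K, 2 ^ n * (ENNReal.ofReal (a ^ n) * b k x + ‖fderiv ℝ f x‖ₑ ^ n * ‖v‖ₑ ^ n) := by
            refine setLIntegral_mono' hK.measurableSet fun x hx => ?_
            refine le_trans (by gcongr; exact enorm_sub_le) ((add_pow_le_en _ _ n).trans ?_)
            gcongr
            · refine le_trans (le_of_eq ?_) (mul_le_mul' le_rfl (hb k x hx _ (hmem k x)))
              simp only [hq]
              rw [(hgf k x hx).1, (hgf k x hx).2, ← ofReal_norm,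
                ← ENNReal.ofReal_pow (norm_nonneg _), ← ENNReal.ofReal_mul (by positivity),
                ← mul_pow, norm_smul, norm_inv, Real.norm_eq_abs, abs_of_pos (s0 k), dist_eq_norm]
              congr 2
              simp only [hs]
              have := t0 k
              field_simp
            · rw [← mul_pow]
              gcongr
              exact ContinuousLinearMap.le_opENorm _ _
        _ = 2 ^ n * (ENNReal.ofReal (a ^ n) * (∫⁻ x in K, b k x) +
              (∫⁻ x in K, ‖fderiv ℝ f x‖ₑ ^ n) * ‖v‖ₑ ^ n) := by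
            rw [lintegral_const_mul' _ _ (by simp), lintegral_add_left ((hbm k).const_mul _),
              lintegral_const_mul _ (hbm k), lintegral_mul_const' _ _ (by simp)]
        _ ≤ _ := by gcongr; exact hbC k
    · rw [ae_restrict_iff' hK.measurableSet]
      filter_upwards [hd] with x hx hxK
      have ht' : Tendsto s atTop (𝓝[>] 0) :=
        tendsto_nhdsWithin_iff.2 ⟨hs', Eventually.of_forall s0⟩
      have h3 := ((hx hxK).hasFDerivAt.hasLineDerivAt v).tendsto_slope_zero_right.comp ht'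
      have h4 : Tendsto (fun k => q k x) atTop (𝓝 (fderiv ℝ f x v)) := by
        refine h3.congr fun k => ?_
        simp only [hq, Function.comp]
        rw [(hgf k x hxK).1, (hgf k x hxK).2]
      have h5 := (h4.sub_const (fderiv ℝ f x v)).enorm
      simpa using h5
  have h3 : Tendsto (fun k => ∫ x, φ x • q k x) atTop (𝓝 (∫ x, φ x • fderiv ℝ f x v)) := by
    refine tendsto_integral_of_L1 _
      (hφ1.continuous.aestronglyMeasurable.smul hDm.aestronglyMeasurable)
      (Eventually.of_forall fun k => (hqi k).bdd_smul M hφ1.continuous.aestronglyMeasurable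
        (Eventually.of_forall hM)) ?_
    have h4 := ENNReal.Tendsto.const_mul (a := ENNReal.ofReal M) h2 (Or.inr ENNReal.ofReal_ne_top)
    rw [mul_zero] at h4
    refine tendsto_of_tendsto_of_tendsto_of_le_of_le tendsto_const_nhds h4 (fun _ => zero_le)
      fun k => ?_
    simp only
    rw [← lintegral_const_mul' _ _ ENNReal.ofReal_ne_top, ← lintegral_indicator hK.measurableSet]
    refine lintegral_mono fun x => ?_
    show ‖φ x • q k x - φ x • fderiv ℝ f x v‖ₑ ≤ _
    by_cases hx : x ∈ K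
    · rw [indicator_of_mem hx, ← smul_sub, enorm_smul]
      gcongr
      rw [← ofReal_norm]
      exact ENNReal.ofReal_le_ofReal (hM x)
    · rw [image_eq_zero_of_notMem_tsupport hx]; simp
  rw [tendsto_nhds_unique h3 h1, neg_neg]

theorem distortion (hn : 2 ≤ n) (hG : IsOpen G) {c : ℝ} (hc : 0 < c) (hQ : HQ G f c) {x : E n}
    (hxG : x ∈ G) (hx : DifferentiableAt ℝ f x) :
    ‖fderiv ℝ f x‖ ^ n ≤ max 1 ((4 / c) ^ n) * |(fderiv ℝ f x).det| := by
  set T := fderiv ℝ f x with hT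
  rcases (norm_nonneg T).eq_or_lt with h0 | hT0
  · rw [← h0, zero_pow (by omega)]; positivity
  set ε := min (‖T‖ / 4) (c * ‖T‖ / 8) with hε
  have ε0 : 0 < ε := by positivity
  have ε1 : ε ≤ ‖T‖ / 4 := min_le_left _ _
  have ε2 : ε ≤ c * ‖T‖ / 8 := min_le_right _ _
  obtain ⟨r, r0, hr⟩ := Metric.mem_nhds_iff.1
    (inter_mem (hx.hasFDerivAt.isLittleO.def ε0) (hG.mem_nhds hxG))
  have hr' : ∀ p, dist p x < r → ‖f p - f x - T (p - x)‖ ≤ ε * ‖p - x‖ := fun p hp => (hr hp).1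
  obtain ⟨e, he, hTe⟩ := exists_unit_norm hn T
  set t := r / 10 with ht
  have t0 : 0 < t := by positivity
  have hd : ∀ (ρ : ℝ) (u : E n), 0 < ρ → ‖u‖ = 1 → dist (x + ρ • u) x = ρ := fun ρ u hρ hu => by
    rw [dist_eq_norm, add_sub_cancel_left, norm_smul, hu, mul_one, Real.norm_eq_abs, abs_of_pos hρ]
  have key : ∀ (ρ : ℝ) (u : E n), 0 < ρ → ρ < r → ‖u‖ = 1 →
      |dist (f (x + ρ • u)) (f x) - ρ * ‖T u‖| ≤ ε * ρ := by
    intro ρ u hρ hρr hu
    have h1 := hr' (x + ρ • u) (by rw [hd ρ u hρ hu]; exact hρr)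
    rw [← dist_eq_norm (x + ρ • u) x, hd ρ u hρ hu, add_sub_cancel_left, map_smul] at h1
    have h2 := abs_norm_sub_norm_le (f (x + ρ • u) - f x) (ρ • T u)
    rw [norm_smul, Real.norm_eq_abs, abs_of_pos hρ] at h2
    rw [dist_eq_norm]
    exact h2.trans h1
  obtain ⟨ρ, hρ, hS, -⟩ := hQ x t (3 / 4 * ‖T‖ * t) t0 (by positivity)
    (fun p hp => (hr (show dist p x < r by have : dist p x ≤ 9 * t := hp; linarith)).2)
    ⟨x + t • e, (hd t e t0 he).le, by
      have := (abs_le.1 (key t e t0 (by linarith) he)).1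
      rw [hTe] at this
      nlinarith⟩
    (fun p hp => by
      have hp' : dist p x ≤ 9 * t := hp
      have h1 := hr' p (by linarith)
      have h2 := T.le_opNorm (p - x)
      have h3 := norm_add_le (f p - f x - T (p - x)) (T (p - x))
      rw [sub_add_cancel] at h3
      rw [dist_eq_norm] at hp' ⊢
      have h4 : ε * ‖p - x‖ ≤ ‖T‖ / 4 * (9 * t) := by gcongr
      have h5 : ‖T‖ * ‖p - x‖ ≤ ‖T‖ * (9 * t) := by gcongr
      nlinarith [mul_pos hT0 t0])
  have ρ0 : 0 < ρ := t0.trans hρ.1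
  have hl : ∀ u : E n, ‖u‖ = 1 → c * ‖T‖ / 4 ≤ ‖T u‖ := by
    intro u hu
    have h1 := hS (x + ρ • u) (hd ρ u ρ0 hu)
    have h2 := (abs_le.1 (key ρ u ρ0 (by linarith [hρ.2]) hu)).2
    have h3 : ε * ρ ≤ c * ‖T‖ / 8 * ρ := by gcongr
    have h4 : c * ‖T‖ * ρ ≤ c * ‖T‖ * (2 * t) := by gcongr; exact hρ.2.le
    have h5 : ρ * (c * ‖T‖ / 4) ≤ ρ * ‖T u‖ := by nlinarith
    exact le_of_mul_le_mul_left h5 ρ0
  have h := pow_le_abs_det T (by positivity) hl
  calc ‖T‖ ^ n = (4 / c) ^ n * (c * ‖T‖ / 4) ^ n := by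
        rw [← mul_pow]; congr 1; field_simp
    _ ≤ max 1 ((4 / c) ^ n) * |T.det| := by
        gcongr
        exact le_max_right _ _

end Diff

theorem diff_main (hn : 2 ≤ n) {G : Set (E n)} (hG : IsOpen G) {f : E n → E n}
    (hf : ContinuousOn f G) (hopen : ∀ W ⊆ G, IsOpen W → IsOpen (f '' W))
    (hmult : ∀ x ∈ G, ∃ W ∈ 𝓝 x, ∃ N : ℕ, ∀ y, (W ∩ f ⁻¹' {y}).encard ≤ N)
    {c : ℝ} (hc : 0 < c)
    (hQ : ∀ (x : E n) (t L : ℝ), 0 < t → 0 < L → closedBall x (9 * t) ⊆ G →
      (∃ p ∈ closedBall x t, L ≤ dist (f p) (f x)) →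
      (∀ p ∈ closedBall x (9 * t), dist (f p) (f x) ≤ 18 * L) →
      ∃ ρ ∈ Ioo t (2 * t), (∀ p ∈ sphere x ρ, c * L ≤ dist (f p) (f x)) ∧
        ball (f x) (c * L) ⊆ f '' ball x ρ) :
    IsW1n G f (fderiv ℝ f) ∧ ∃ K : ℝ, 1 ≤ K ∧ ∀ᵐ x ∂(volume.restrict G),
      DifferentiableAt ℝ f x ∧ ‖fderiv ℝ f x‖ ^ n ≤ K * |(fderiv ℝ f x).det| := by
  refine ⟨⟨fun K hKG hK => ⟨?_, ?_⟩, fun φ hφ v => Diff.weak_deriv hn hG hf hopen hmult hc hQ hφ v⟩,
    max 1 ((4 / c) ^ n), le_max_left _ _, ?_⟩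
  · have : IsFiniteMeasure (volume.restrict K) := isFiniteMeasure_restrict.2 hK.measure_lt_top.ne
    obtain ⟨M, hM⟩ := hK.exists_bound_of_continuousOn (hf.mono hKG)
    refine MemLp.of_bound ((hf.mono hKG).aestronglyMeasurable hK.measurableSet) M ?_
    exact ae_restrict_of_forall_mem hK.measurableSet hM
  · refine ⟨(measurable_fderiv ℝ f).aestronglyMeasurable, ?_⟩
    rw [eLpNorm_lt_top_iff_lintegral_rpow_enorm_lt_top (by simp; omega) (by simp)]
    simpa using Diff.lintegral_fderiv_lt_top hn hG hf hopen hmult hc hQ hK hKG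
  · have hd : ∀ᵐ x ∂(volume.restrict G), DifferentiableAt ℝ f x := by
      rw [ae_restrict_iff' hG.measurableSet]
      have hσ : IsSigmaCompact G := by
        have := hG.locallyCompactSpace
        exact isSigmaCompact_iff_sigmaCompactSpace.2 inferInstance
      obtain ⟨Kk, hKk, hU⟩ := hσ
      have : ∀ᵐ x : E n, ∀ k, x ∈ Kk k → DifferentiableAt ℝ f x := ae_all_iff.2 fun k =>
        (Diff.core hn hG hf hopen hmult hc hQ (hKk k) (hU ▸ subset_iUnion Kk k)).1
      filter_upwards [this] with x hx hxG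
      obtain ⟨k, hk⟩ := mem_iUnion.1 (hU.symm ▸ hxG : x ∈ ⋃ k, Kk k)
      exact hx k hk
    filter_upwards [hd, ae_restrict_mem hG.measurableSet] with x hx hxG
    exact ⟨hx, Diff.distortion hn hG hc hQ hxG hx⟩

end Pool.Agent.P.MP_fecf7d_an
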