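import Pool.Agent.P.MP_fecf7d_an.Defs2

/-!
Stepanov's theorem and elementary facts used for the differentiability part.
-/

open MeasureTheory Set Metric Filter Topology
open scoped ContDiff RealInnerProductSpace ENNReal Pointwise NNReal

namespace Pool.Agent.P.MP_fecf7d_an.Diff

variable {n : ℕ}

/-- At a density point of a set of uniformly pointwise Lipschitz points, differentiability within
the set gives differentiability. -/
theorem hasFDerivAt_of_density {f : E n → E n} {S : Set (E n)} {x : E n} {T : E n →L[ℝ] E n}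
    {C δ : ℝ} (hC : 0 ≤ C) (hδ : 0 < δ)
    (hS : ∀ y ∈ S, ∀ z, dist z y < δ → ‖f z - f y‖ ≤ C * ‖z - y‖)
    (hd : Tendsto (fun r => volume (S ∩ closedBall x r) / volume (closedBall x r)) (𝓝[>] 0) (𝓝 1))
    (hT : HasFDerivWithinAt f T S x) : HasFDerivAt f T x := by
  rw [hasFDerivAt_iff_isLittleO, Asymptotics.isLittleO_iff]
  intro η hη
  set M : ℝ := 2 * C + 3 + 2 * ‖T‖ with hM
  have hM0 : 0 < M := by positivity
  set ε : ℝ := min 1 (η / M) with hε
  have ε0 : 0 < ε := lt_min one_pos (by positivity)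
  have ε1 : ε ≤ 1 := min_le_left _ _
  have εM : ε * M ≤ η := by
    have : ε ≤ η / M := min_le_right _ _
    rwa [le_div_iff₀ hM0] at this
  obtain ⟨t, -, tfin, ht⟩ := finite_cover_balls_of_compact (isCompact_sphere (0 : E n) 1) ε0
  have B1 : ∀ᶠ r in 𝓝[>] (0 : ℝ), ∀ e ∈ t, (S ∩ ({x} + r • closedBall e ε)).Nonempty :=
    (eventually_all_finite tfin).2 fun e _ =>
      Measure.eventually_nonempty_inter_smul_of_density_one volume S x hd _ measurableSet_closedBall
        (measure_closedBall_pos volume e ε0).ne'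
  obtain ⟨r0, r0pos, hr0⟩ : ∃ r0 : ℝ, 0 < r0 ∧ ∀ r : ℝ, 0 < r → r < r0 →
      ∀ e ∈ t, (S ∩ ({x} + r • closedBall e ε)).Nonempty := by
    obtain ⟨u, hu, h⟩ := (mem_nhdsGT_iff_exists_Ioo_subset).1 B1
    exact ⟨u, hu, fun r h1 h2 => h ⟨h1, h2⟩⟩
  obtain ⟨ρ, ρpos, hρ⟩ :
      ∃ ρ > 0, ball x ρ ∩ S ⊆ {y : E n | ‖f y - f x - T (y - x)‖ ≤ ε * ‖y - x‖} :=
    Metric.mem_nhdsWithin_iff.1 (hT.isLittleO.def ε0)
  have hpos : 0 < min r0 (min (ρ / 3) (δ / 3)) := by positivity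
  filter_upwards [ball_mem_nhds x hpos] with z hz
  rw [mem_ball, dist_eq_norm, lt_min_iff, lt_min_iff] at hz
  obtain ⟨hz1, hz2, hz3⟩ := hz
  rcases eq_or_ne z x with rfl | hzx
  · simp
  set r := ‖z - x‖ with hr
  have rpos : 0 < r := norm_pos_iff.2 (sub_ne_zero.2 hzx)
  have he : r⁻¹ • (z - x) ∈ sphere (0 : E n) 1 := by
    rw [mem_sphere_zero_iff_norm, norm_smul, norm_inv, Real.norm_eq_abs, abs_of_pos rpos]
    exact inv_mul_cancel₀ rpos.ne'
  obtain ⟨e, het, he'⟩ : ∃ e ∈ t, r⁻¹ • (z - x) ∈ ball e ε := by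
    simpa only [mem_iUnion, exists_prop] using ht he
  obtain ⟨y, hyS, hy⟩ := hr0 r rpos hz1 e het
  obtain ⟨a, az, ya⟩ : ∃ a, a ∈ closedBall e ε ∧ y = x + r • a := by
    simp only [mem_smul_set, image_add_left, mem_preimage, singleton_add] at hy
    rcases hy with ⟨a, az, ha⟩
    exact ⟨a, az, by simp only [ha, add_neg_cancel_left]⟩
  have hzy : ‖z - y‖ ≤ 2 * ε * r := by
    have e1 : z - y = r • (r⁻¹ • (z - x) - a) := by
      rw [ya, smul_sub, smul_smul, mul_inv_cancel₀ rpos.ne', one_smul]; abel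
    have e2 : ‖r⁻¹ • (z - x) - a‖ ≤ 2 * ε := by
      have h1 : dist (r⁻¹ • (z - x)) e < ε := he'
      have h2 : dist a e ≤ ε := az
      have := dist_triangle_right (r⁻¹ • (z - x)) a e
      rw [dist_eq_norm] at this
      linarith
    rw [e1, norm_smul, Real.norm_eq_abs, abs_of_pos rpos]
    nlinarith
  have hyx : ‖y - x‖ ≤ 3 * r := by
    have : y - x = (z - x) - (z - y) := by abel
    rw [this]
    have := norm_sub_le (z - x) (z - y)
    nlinarith
  have h1 : ‖f z - f y‖ ≤ C * (2 * ε * r) := by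
    refine (hS y hyS z ?_).trans (by gcongr)
    rw [dist_eq_norm]; nlinarith
  have h2 : ‖f y - f x - T (y - x)‖ ≤ ε * (3 * r) := by
    refine (hρ ⟨?_, hyS⟩).trans (by gcongr)
    rw [mem_ball, dist_eq_norm]; linarith
  have h3 : ‖T (z - y)‖ ≤ ‖T‖ * (2 * ε * r) := (T.le_opNorm _).trans (by gcongr)
  have e3 : f z - f x - T (z - x) = (f z - f y) + (f y - f x - T (y - x)) - T (z - y) := by
    simp only [map_sub]; abel
  rw [e3]
  calc _ ≤ ‖f z - f y‖ + ‖f y - f x - T (y - x)‖ + ‖T (z - y)‖ :=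
        (norm_sub_le _ _).trans (by gcongr; exact norm_add_le _ _)
    _ ≤ C * (2 * ε * r) + ε * (3 * r) + ‖T‖ * (2 * ε * r) := by gcongr
    _ = ε * M * r := by rw [hM]; ring
    _ ≤ η * r := by gcongr

/-- Stepanov's theorem. -/
theorem stepanov (f : E n → E n) :
    ∀ᵐ x : E n, (∃ C δ : ℝ, 0 < δ ∧ ∀ z, dist z x < δ → ‖f z - f x‖ ≤ C * ‖z - x‖) →
      DifferentiableAt ℝ f x := by
  obtain ⟨q, hq⟩ := TopologicalSpace.exists_dense_seq (E n)
  set S : ℕ → ℕ → Set (E n) := fun j i =>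
    {y | ∀ z, dist z y < 1 / ((j : ℝ) + 1) → ‖f z - f y‖ ≤ j * ‖z - y‖} ∩
      ball (q i) (1 / ((j : ℝ) + 1) / 2) with hSdef
  have hL : ∀ j i : ℕ, LipschitzOnWith (j : ℝ≥0) f (S j i) := by
    intro j i
    refine LipschitzOnWith.of_dist_le_mul fun a ha b hb => ?_
    have h1 : dist a (q i) < 1 / ((j : ℝ) + 1) / 2 := ha.2
    have h2 : dist b (q i) < 1 / ((j : ℝ) + 1) / 2 := hb.2
    have := dist_triangle_right a b (q i)
    have h := hb.1 a (by linarith)
    simpa [dist_eq_norm] using h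
  have A : ∀ᵐ x : E n, ∀ j i, x ∈ S j i → DifferentiableWithinAt ℝ f (S j i) x :=
    ae_all_iff.2 fun j => ae_all_iff.2 fun i => (hL j i).ae_differentiableWithinAt_of_mem
  have B : ∀ᵐ x : E n, ∀ j i, x ∈ S j i → Tendsto
      (fun r => volume (S j i ∩ closedBall x r) / volume (closedBall x r)) (𝓝[>] 0) (𝓝 1) :=
    ae_all_iff.2 fun j => ae_all_iff.2 fun i =>
      ae_imp_of_ae_restrict (Besicovitch.ae_tendsto_measure_inter_div volume (S j i))
  filter_upwards [A, B] with x hA hB ⟨C, δ, hδ, h⟩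
  obtain ⟨j, hj⟩ := exists_nat_ge (max C (1 / δ))
  have hjC : C ≤ j := (le_max_left _ _).trans hj
  have hjδ : 1 / ((j : ℝ) + 1) < δ := by
    have : 1 / δ ≤ j := (le_max_right _ _).trans hj
    rw [div_le_iff₀ hδ] at this
    rw [div_lt_iff₀ (by positivity)]
    nlinarith
  have hp : 0 < 1 / ((j : ℝ) + 1) / 2 := by positivity
  obtain ⟨i, hi⟩ := hq.exists_dist_lt x hp
  have hx : x ∈ S j i := ⟨fun z hz => (h z (hz.trans hjδ)).trans (by gcongr), hi⟩
  exact (hasFDerivAt_of_density (Nat.cast_nonneg j) (by positivity) (fun y hy => hy.1)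
    (hB j i hx) (hA j i hx).hasFDerivWithinAt).differentiableAt

theorem exists_unit_norm (hn : 2 ≤ n) (T : E n →L[ℝ] E n) : ∃ e : E n, ‖e‖ = 1 ∧ ‖T e‖ = ‖T‖ := by
  have : Nonempty (Fin n) := ⟨⟨0, by omega⟩⟩
  have hne : (sphere (0 : E n) 1).Nonempty := NormedSpace.sphere_nonempty.2 zero_le_one
  obtain ⟨e, he, hmax⟩ := (isCompact_sphere (0 : E n) 1).exists_isMaxOn hne
    (f := fun v => ‖T v‖) (by fun_prop)
  rw [mem_sphere_zero_iff_norm] at he
  refine ⟨e, he, le_antisymm ((T.le_opNorm e).trans (by rw [he, mul_one])) ?_⟩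
  refine T.opNorm_le_of_unit_norm (norm_nonneg _) fun v hv => ?_
  exact hmax (mem_sphere_zero_iff_norm.2 hv)

theorem pow_le_abs_det (T : E n →L[ℝ] E n) {l : ℝ} (hl : 0 < l)
    (h : ∀ e : E n, ‖e‖ = 1 → l ≤ ‖T e‖) : l ^ n ≤ |T.det| := by
  have h' : ∀ v : E n, l * ‖v‖ ≤ ‖T v‖ := by
    intro v
    rcases eq_or_ne v 0 with rfl | hv
    · simp
    have hv0 : 0 < ‖v‖ := norm_pos_iff.2 hv
    have := h (‖v‖⁻¹ • v) (by rw [norm_smul, norm_inv, norm_norm, inv_mul_cancel₀ hv0.ne'])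
    rw [map_smul, norm_smul, norm_inv, norm_norm, ← div_eq_inv_mul, le_div_iff₀ hv0] at this
    exact this
  have hinj : Function.Injective (T : E n →ₗ[ℝ] E n) := by
    rw [injective_iff_map_eq_zero]
    intro v hv
    have := h' v
    have hv' : T v = 0 := hv
    rw [hv', norm_zero] at this
    have : ‖v‖ ≤ 0 := by
      by_contra hc
      push Not at hc
      nlinarith [mul_pos hl hc]
    exact norm_le_zero_iff.1 this
  have hsurj : Function.Surjective T := LinearMap.injective_iff_surjective.1 hinj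
  have hsub : ball (0 : E n) l ⊆ T '' ball 0 1 := by
    intro w hw
    obtain ⟨v, rfl⟩ := hsurj w
    refine ⟨v, ?_, rfl⟩
    rw [mem_ball_zero_iff] at hw ⊢
    have := h' v
    by_contra hc
    push Not at hc
    nlinarith
  have hm := measure_mono (μ := volume) hsub
  rw [Measure.addHaar_image_continuousLinearMap, Measure.addHaar_ball_of_pos _ _ hl,
    finrank_euclideanSpace_fin] at hm
  have hb0 : volume (ball (0 : E n) 1) ≠ 0 := (measure_ball_pos _ _ one_pos).ne'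
  have hb1 : volume (ball (0 : E n) 1) ≠ ⊤ := measure_ball_lt_top.ne
  rw [ENNReal.mul_le_mul_iff_left hb0 hb1, ENNReal.ofReal_le_ofReal_iff (abs_nonneg _)] at hm
  exact hm

/-- Functions bounded in `L^n` that tend to zero almost everywhere tend to zero in `L^1`. -/
theorem tendsto_lintegral_of_bound {X : Type*} [MeasurableSpace X] {μ : Measure X}
    [IsFiniteMeasure μ] (hn : 2 ≤ n) {g : ℕ → X → ℝ≥0∞} (hg : ∀ k, AEMeasurable (g k) μ)
    {C : ℝ≥0∞} (hC : C ≠ ⊤) (hb : ∀ k, ∫⁻ x, g k x ^ n ∂μ ≤ C)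
    (h0 : ∀ᵐ x ∂μ, Tendsto (fun k => g k x) atTop (𝓝 0)) :
    Tendsto (fun k => ∫⁻ x, g k x ∂μ) atTop (𝓝 0) := by
  rw [ENNReal.tendsto_nhds_zero]
  intro ε hε
  have hε2 : 0 < ε / 2 := ENNReal.half_pos hε.ne'
  obtain ⟨M, hM1, hM⟩ : ∃ M : ℝ≥0, 1 ≤ M ∧ C / M ≤ ε / 2 := by
    rcases eq_or_ne ε ⊤ with rfl | hε'
    · exact ⟨1, le_rfl, by simp [ENNReal.top_div_of_ne_top]⟩
    have ht : Tendsto (fun m : ℕ => C * ((m : ℝ≥0∞))⁻¹) atTop (𝓝 0) := by
      simpa using ENNReal.Tendsto.const_mul ENNReal.tendsto_inv_nat_nhds_zero (Or.inr hC)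
    obtain ⟨m, hm, hm1⟩ := (((ENNReal.tendsto_nhds_zero.1 ht) _ hε2).and
      (eventually_ge_atTop 1)).exists
    exact ⟨m, by exact_mod_cast hm1, by simpa [div_eq_mul_inv] using hm⟩
  have hM0 : (M : ℝ≥0∞) ≠ 0 := by
    have : (0 : ℝ≥0) < M := lt_of_lt_of_le one_pos hM1
    exact_mod_cast this.ne'
  have hlim : Tendsto (fun k => ∫⁻ x, min (g k x) M ∂μ) atTop (𝓝 (∫⁻ _, (0 : ℝ≥0∞) ∂μ)) := by
    refine tendsto_lintegral_of_dominated_convergence' (fun _ => (M : ℝ≥0∞))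
      (fun k => (hg k).min aemeasurable_const) (fun k => Eventually.of_forall fun x => min_le_right _ _)
      ?_ ?_
    · rw [lintegral_const]
      exact ENNReal.mul_ne_top ENNReal.coe_ne_top (measure_ne_top _ _)
    · filter_upwards [h0] with x hx
      simpa using hx.min (tendsto_const_nhds (x := (M : ℝ≥0∞)))
  rw [lintegral_zero] at hlim
  filter_upwards [(ENNReal.tendsto_nhds_zero.1 hlim) _ hε2] with k hk
  have hpt : ∀ x, g k x ≤ min (g k x) M + g k x ^ n / M := by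
    intro x
    rcases le_total (g k x) M with h | h
    · rw [min_eq_left h]; exact le_self_add
    · refine le_add_left ?_
      rw [ENNReal.le_div_iff_mul_le (Or.inl hM0) (Or.inl ENNReal.coe_ne_top)]
      have h1 : (1 : ℝ≥0∞) ≤ g k x := le_trans (by exact_mod_cast hM1) h
      calc g k x * M ≤ g k x * g k x := by gcongr
        _ = g k x ^ 2 := (sq _).symm
        _ ≤ g k x ^ n := pow_le_pow_right₀ h1 hn
  calc ∫⁻ x, g k x ∂μ ≤ ∫⁻ x, (min (g k x) M + g k x ^ n / M) ∂μ := lintegral_mono hpt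
    _ = ∫⁻ x, min (g k x) M ∂μ + (∫⁻ x, g k x ^ n ∂μ) / M := by
        rw [lintegral_add_left' ((hg k).min aemeasurable_const)]
        congr 1
        simp only [div_eq_mul_inv]
        rw [lintegral_mul_const'' _ ((hg k).pow_const n)]
    _ ≤ ε / 2 + ε / 2 := add_le_add hk (le_trans (by gcongr; exact hb k) hM)
    _ = ε := ENNReal.add_halves ε

end Pool.Agent.P.MP_fecf7d_an.Diff
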