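import Pool.Agent.P.MP_fecf7d_an.DiffA

/-!
Measure of images of balls under open maps of bounded multiplicity.
-/

open MeasureTheory Set Metric Filter Topology
open scoped ContDiff RealInnerProductSpace ENNReal Pointwise NNReal

namespace Pool.Agent.P.MP_fecf7d_an.Diff

variable {n : ℕ} {G W K : Set (E n)} {f : E n → E n}

theorem mult_compact (hmult : ∀ x ∈ G, ∃ W ∈ 𝓝 x, ∃ N : ℕ, ∀ y, (W ∩ f ⁻¹' {y}).encard ≤ N)
    (hW : IsCompact W) (hWG : W ⊆ G) : ∃ N : ℕ, ∀ y, (W ∩ f ⁻¹' {y}).encard ≤ N := by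
  refine hW.induction_on (p := fun S => ∃ N : ℕ, ∀ y, (S ∩ f ⁻¹' {y}).encard ≤ N)
    ⟨0, by simp⟩ ?_ ?_ ?_
  · rintro s t hst ⟨N, hN⟩
    exact ⟨N, fun y => (encard_le_encard (inter_subset_inter_left _ hst)).trans (hN y)⟩
  · rintro s t ⟨N, hN⟩ ⟨M, hM⟩
    refine ⟨N + M, fun y => ?_⟩
    rw [union_inter_distrib_right]
    refine (encard_union_le _ _).trans ?_
    push_cast
    exact add_le_add (hN y) (hM y)
  · intro x hx
    obtain ⟨V, hV, h⟩ := hmult x (hWG hx)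
    exact ⟨V, mem_nhdsWithin_of_mem_nhds hV, h⟩

/-- The measure of the image of a ball. -/
noncomputable def Dm (G : Set (E n)) (f : E n → E n) (r : ℝ) (x : E n) : ℝ≥0∞ :=
  volume (f '' (ball x r ∩ G))

theorem isOpen_graph (hG : IsOpen G) (hopen : ∀ W ⊆ G, IsOpen W → IsOpen (f '' W)) (r : ℝ) :
    IsOpen {q : E n × E n | q.2 ∈ f '' (ball q.1 r ∩ G)} := by
  rw [isOpen_prod_iff]
  rintro x y ⟨p, ⟨hp, hpG⟩, hy⟩
  have hp' : dist p x < r := hp
  set ε := (r - dist p x) / 2 with hε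
  have ε0 : 0 < ε := by rw [hε]; linarith
  refine ⟨ball x ε, f '' (ball p ε ∩ G), isOpen_ball,
    hopen _ inter_subset_right (isOpen_ball.inter hG), mem_ball_self ε0,
    ⟨p, ⟨mem_ball_self ε0, hpG⟩, hy⟩, ?_⟩
  rintro ⟨x', y'⟩ ⟨hx', p', ⟨hp1, hp2⟩, hy'⟩
  refine ⟨p', ⟨?_, hp2⟩, hy'⟩
  have h1 : dist x' x < ε := hx'
  have h2 : dist p' p < ε := hp1
  have := dist_triangle4 p' p x x'
  rw [dist_comm x x'] at this
  show dist p' x' < r
  linarith

theorem measurable_Dm (hG : IsOpen G) (hopen : ∀ W ⊆ G, IsOpen W → IsOpen (f '' W)) (r : ℝ) :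
    Measurable (Dm G f r) :=
  measurable_measure_prodMk_left (ν := volume) (isOpen_graph hG hopen r).measurableSet

theorem lintegral_Dm_le (hG : IsOpen G) (hopen : ∀ W ⊆ G, IsOpen W → IsOpen (f '' W))
    (hfW : MeasurableSet (f '' W)) {N : ℕ} (hN : ∀ y, (W ∩ f ⁻¹' {y}).encard ≤ N) {r : ℝ}
    (hK : MeasurableSet K) (hKW : ∀ x ∈ K, ball x r ⊆ W) :
    ∫⁻ x in K, Dm G f r x ≤ N * volume (ball (0 : E n) r) * volume (f '' W) := by
  have hS := (isOpen_graph hG hopen r).measurableSet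
  have e1 : ∫⁻ x in K, Dm G f r x = ((volume.restrict K).prod volume)
      {q : E n × E n | q.2 ∈ f '' (ball q.1 r ∩ G)} := by
    rw [Measure.prod_apply hS]; rfl
  rw [e1, Measure.prod_apply_symm hS, ← lintegral_indicator_const hfW]
  refine lintegral_mono fun y => ?_
  rw [Measure.restrict_apply' hK]
  have hsub : (fun x => (x, y)) ⁻¹' {q : E n × E n | q.2 ∈ f '' (ball q.1 r ∩ G)} ∩ K ⊆
      ⋃ p : (W ∩ f ⁻¹' {y} : Set (E n)), ball (p : E n) r := by
    rintro x ⟨⟨p, ⟨hp, -⟩, hy⟩, hx⟩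
    exact mem_iUnion.2 ⟨⟨p, hKW x hx hp, hy⟩, mem_ball_comm.1 hp⟩
  have hfin : (W ∩ f ⁻¹' {y}).Finite := finite_of_encard_le_coe (hN y)
  have := hfin.countable.to_subtype
  refine (measure_mono hsub).trans ((measure_iUnion_le _).trans ?_)
  simp only [Measure.addHaar_ball_center]
  rw [ENNReal.tsum_set_const]
  by_cases hy : y ∈ f '' W
  · rw [indicator_of_mem hy]
    gcongr
    exact_mod_cast ENat.toENNReal_le.2 (hN y)
  · have : W ∩ f ⁻¹' {y} = ∅ := by
      ext p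
      simp only [mem_inter_iff, mem_preimage, mem_singleton_iff, mem_empty_iff_false, iff_false]
      exact fun h => hy ⟨p, h.1, h.2⟩
    simp [this]

theorem tsum_image_le {ι : Type*} [Countable ι] (hfW : MeasurableSet (f '' W)) {N : ℕ}
    (hN : ∀ y, (W ∩ f ⁻¹' {y}).encard ≤ N) {B : ι → Set (E n)} (hB : ∀ i, B i ⊆ W)
    (hm : ∀ i, MeasurableSet (f '' B i)) (hd : Pairwise (Function.onFun Disjoint B)) :
    ∑' i, volume (f '' B i) ≤ N * volume (f '' W) := by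
  have e1 : ∀ i, volume (f '' B i) = ∫⁻ y, (f '' B i).indicator (fun _ => (1 : ℝ≥0∞)) y := by
    intro i; rw [lintegral_indicator_const (hm i), one_mul]
  simp_rw [e1]
  rw [← lintegral_tsum fun i => (measurable_const.indicator (hm i)).aemeasurable,
    ← lintegral_indicator_const hfW]
  refine lintegral_mono fun y => ?_
  have e2 : ∑' i, (f '' B i).indicator (fun _ => (1 : ℝ≥0∞)) y =
      ({i | y ∈ f '' B i} : Set ι).encard := by
    rw [← ENNReal.tsum_set_one, tsum_subtype (f := fun _ => (1 : ℝ≥0∞))]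
    rfl
  rw [e2]
  by_cases hy : y ∈ f '' W
  · rw [indicator_of_mem hy]
    have : ∀ i, ∃ p, y ∈ f '' B i → p ∈ B i ∧ f p = y := by
      intro i
      by_cases h : y ∈ f '' B i
      · obtain ⟨p, hp⟩ := h
        exact ⟨p, fun _ => hp⟩
      · exact ⟨0, fun h' => (h h').elim⟩
    choose p hp using this
    have h1 : ({i | y ∈ f '' B i} : Set ι).encard ≤ (W ∩ f ⁻¹' {y}).encard := by
      refine encard_le_encard_of_injOn (f := p) (fun i hi => ⟨hB i (hp i hi).1, (hp i hi).2⟩) ?_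
      intro i hi j hj hij
      by_contra hne
      exact Set.disjoint_left.1 (hd hne) (hp i hi).1 (hij ▸ (hp j hj).1)
    have h2 := ENat.toENNReal_le.2 (h1.trans (hN y))
    rwa [ENat.toENNReal_coe] at h2
  · have : ({i | y ∈ f '' B i} : Set ι) = ∅ := by
      ext i
      simp only [mem_ofPred_eq, mem_empty_iff_false, iff_false]
      exact fun h => hy (image_mono (hB i) h)
    rw [this]
    simp

theorem measure_bad_le (hG : IsOpen G) (hopen : ∀ W ⊆ G, IsOpen W → IsOpen (f '' W))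
    (hfW : MeasurableSet (f '' W)) {N : ℕ} (hN : ∀ y, (W ∩ f ⁻¹' {y}).encard ≤ N) {δ : ℝ}
    (hKW : ∀ x ∈ K, ball x δ ⊆ W) (m : ℝ≥0∞) :
    m * volume {x | x ∈ K ∧ ∃ r ∈ Ioc 0 δ, m * ENNReal.ofReal (r ^ n) ≤ Dm G f r x} ≤
      ENNReal.ofReal (4 ^ n) * volume (ball (0 : E n) 1) * (N * volume (f '' W)) := by
  set t : Set (E n × ℝ) :=
    {a | a.1 ∈ K ∧ a.2 ∈ Ioc 0 δ ∧ m * ENNReal.ofReal (a.2 ^ n) ≤ Dm G f a.2 a.1} with ht
  obtain ⟨u, hut, hdisj, hcov⟩ := Vitali.exists_disjoint_subfamily_covering_enlargement_ball t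
    (fun a => a.1) (fun a => a.2) δ (fun a ha => ha.2.1.2) 4 (by norm_num)
  have hc : u.Countable := hdisj.countable_of_isOpen (fun _ _ => isOpen_ball)
    fun a ha => nonempty_ball.2 (hut ha).2.1.1
  have := hc.to_subtype
  have hsub : {x | x ∈ K ∧ ∃ r ∈ Ioc 0 δ, m * ENNReal.ofReal (r ^ n) ≤ Dm G f r x} ⊆
      ⋃ b : u, ball (b : E n × ℝ).1 (4 * (b : E n × ℝ).2) := by
    rintro x ⟨hx, r, hr, h⟩
    obtain ⟨b, hb, hb'⟩ := hcov (x, r) ⟨hx, hr, h⟩
    exact mem_iUnion.2 ⟨⟨b, hb⟩, hb' (mem_ball_self hr.1)⟩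
  have hsum := tsum_image_le (ι := u) hfW hN
    (B := fun b => ball (b : E n × ℝ).1 (b : E n × ℝ).2 ∩ G)
    (fun b => inter_subset_left.trans ((ball_subset_ball (hut b.2).2.1.2).trans (hKW _ (hut b.2).1)))
    (fun b => (hopen _ inter_subset_right (isOpen_ball.inter hG)).measurableSet)
    (fun a b hab => (hdisj a.2 b.2 (fun h => hab (Subtype.ext h))).mono
      inter_subset_left inter_subset_left)
  calc _ ≤ m * ∑' b : u, volume (ball (b : E n × ℝ).1 (4 * (b : E n × ℝ).2)) := by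
        gcongr
        exact (measure_mono hsub).trans (measure_iUnion_le _)
    _ = ∑' b : u, ENNReal.ofReal (4 ^ n) * volume (ball (0 : E n) 1) *
          (m * ENNReal.ofReal ((b : E n × ℝ).2 ^ n)) := by
        rw [← ENNReal.tsum_mul_left]
        refine tsum_congr fun b => ?_
        have h0 := (hut b.2).2.1.1
        rw [Measure.addHaar_ball_of_pos _ _ (by positivity), finrank_euclideanSpace_fin, mul_pow,
          ENNReal.ofReal_mul (by positivity)]
        ring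
    _ ≤ ∑' b : u, ENNReal.ofReal (4 ^ n) * volume (ball (0 : E n) 1) *
          volume (f '' (ball (b : E n × ℝ).1 (b : E n × ℝ).2 ∩ G)) := by
        refine ENNReal.tsum_le_tsum fun b => ?_
        gcongr
        exact (hut b.2).2.2
    _ ≤ _ := by
        rw [ENNReal.tsum_mul_left]
        gcongr

theorem ae_Dm_le (hG : IsOpen G) (hopen : ∀ W ⊆ G, IsOpen W → IsOpen (f '' W))
    (hfW : IsCompact (f '' W)) {N : ℕ} (hN : ∀ y, (W ∩ f ⁻¹' {y}).encard ≤ N) {δ : ℝ}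
    (hKW : ∀ x ∈ K, ball x δ ⊆ W) :
    ∀ᵐ x : E n, x ∈ K → ∃ m : ℕ, ∀ r ∈ Ioc 0 δ, Dm G f r x ≤ m * ENNReal.ofReal (r ^ n) := by
  rw [ae_iff]
  set C := ENNReal.ofReal (4 ^ n) * volume (ball (0 : E n) 1) * (N * volume (f '' W)) with hC
  have hCt : C ≠ ⊤ := ENNReal.mul_ne_top (ENNReal.mul_ne_top ENNReal.ofReal_ne_top
    measure_ball_lt_top.ne) (ENNReal.mul_ne_top (ENNReal.natCast_ne_top N) hfW.measure_lt_top.ne)
  set Z := {x : E n | ¬(x ∈ K → ∃ m : ℕ, ∀ r ∈ Ioc 0 δ,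
    Dm G f r x ≤ m * ENNReal.ofReal (r ^ n))} with hZ
  have h1 : ∀ m : ℕ, (m : ℝ≥0∞) * volume Z ≤ C := by
    intro m
    refine le_trans ?_ (measure_bad_le hG hopen hfW.measurableSet hN hKW m)
    gcongr
    intro x hx
    simp only [hZ, mem_ofPred_eq] at hx
    push Not at hx
    obtain ⟨r, hr, h⟩ := hx.2 m
    exact ⟨hx.1, r, hr, h.le⟩
  by_contra h0
  obtain ⟨m, hm⟩ := ENNReal.exists_nat_mul_gt h0 hCt
  exact absurd (h1 m) (not_le.2 hm)

end Pool.Agent.P.MP_fecf7d_an.Diff
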