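import Pool.Agent.P.MP_fecf7d_an.DiffB

/-!
Integral and pointwise bounds for the local stretching.
-/

open MeasureTheory Set Metric Filter Topology
open scoped ContDiff RealInnerProductSpace ENNReal Pointwise NNReal

namespace Pool.Agent.P.MP_fecf7d_an.Diff

variable {n : ℕ} {G W K : Set (E n)} {f : E n → E n}

/-- The hypothesis (Q). -/
def HQ (G : Set (E n)) (f : E n → E n) (c : ℝ) : Prop :=
  ∀ (x : E n) (t L : ℝ), 0 < t → 0 < L → closedBall x (9 * t) ⊆ G →
    (∃ p ∈ closedBall x t, L ≤ dist (f p) (f x)) →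
    (∀ p ∈ closedBall x (9 * t), dist (f p) (f x) ≤ 18 * L) →
    ∃ ρ ∈ Ioo t (2 * t), (∀ p ∈ sphere x ρ, c * L ≤ dist (f p) (f x)) ∧
      ball (f x) (c * L) ⊆ f '' ball x ρ

/-- Maximal stretching on a closed ball. -/
noncomputable def Lr (f : E n → E n) (x : E n) (t : ℝ) : ℝ :=
  sSup ((fun p => dist (f p) (f x)) '' closedBall x t)

theorem Lr_spec (hf : ContinuousOn f G) {x : E n} {t : ℝ} (ht : 0 ≤ t) (h : closedBall x t ⊆ G) :
    ∃ p ∈ closedBall x t, Lr f x t = dist (f p) (f x) ∧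
      ∀ q ∈ closedBall x t, dist (f q) (f x) ≤ Lr f x t := by
  obtain ⟨p, hp, h1, h2⟩ := (isCompact_closedBall x t).exists_sSup_image_eq_and_ge
    (nonempty_closedBall.2 ht) (f := fun p => dist (f p) (f x))
    (continuous_dist.comp_continuousOn ((hf.mono h).prodMk continuousOn_const))
  exact ⟨p, hp, h1, fun q hq => (h2 q hq).trans h1.ge⟩

theorem step (hn : 2 ≤ n) (hf : ContinuousOn f G) {c : ℝ} (hc : 0 < c) (hQ : HQ G f c)
    {x : E n} {t : ℝ} (ht : 0 < t) (h : closedBall x (9 * t) ⊆ G) :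
    ENNReal.ofReal ((Lr f x t / t) ^ n) ≤ ENNReal.ofReal ((Lr f x (9 * t) / (9 * t)) ^ n) / 2 +
      (ENNReal.ofReal (c ^ n) * volume (ball (0 : E n) 1) * ENNReal.ofReal (t ^ n))⁻¹ *
        Dm G f (2 * t) x := by
  have hsub : closedBall x t ⊆ G := (closedBall_subset_closedBall (by linarith)).trans h
  obtain ⟨p, hp, h1, -⟩ := Lr_spec hf ht.le hsub
  obtain ⟨p', -, h1', h2'⟩ := Lr_spec hf (by positivity) h
  have hL0 : 0 ≤ Lr f x t := h1 ▸ dist_nonneg
  rcases hL0.eq_or_lt with h0 | hL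
  · rw [← h0, zero_div, zero_pow (by omega)]; simp
  rcases le_or_gt (Lr f x (9 * t)) (18 * Lr f x t) with hle | hlt
  · obtain ⟨ρ, hρ, -, hb⟩ := hQ x t _ ht hL h ⟨p, hp, h1.le⟩ fun q hq => (h2' q hq).trans hle
    have hb' : ball (f x) (c * Lr f x t) ⊆ f '' (ball x (2 * t) ∩ G) := by
      refine hb.trans (image_mono (subset_inter (ball_subset_ball hρ.2.le) ?_))
      exact (ball_subset_closedBall.trans
        (closedBall_subset_closedBall (by linarith [hρ.2]))).trans h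
    have hm := measure_mono (μ := volume) hb'
    rw [Measure.addHaar_ball_of_pos _ _ (by positivity), finrank_euclideanSpace_fin] at hm
    refine le_add_left ?_
    have hz : ENNReal.ofReal (c ^ n) * volume (ball (0 : E n) 1) * ENNReal.ofReal (t ^ n) ≠ 0 := by
      refine mul_ne_zero (mul_ne_zero ?_ (measure_ball_pos _ _ one_pos).ne') ?_ <;>
        exact (ENNReal.ofReal_pos.2 (by positivity)).ne'
    have ht' : ENNReal.ofReal (c ^ n) * volume (ball (0 : E n) 1) * ENNReal.ofReal (t ^ n) ≠ ⊤ :=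
      ENNReal.mul_ne_top (ENNReal.mul_ne_top ENNReal.ofReal_ne_top measure_ball_lt_top.ne)
        ENNReal.ofReal_ne_top
    rw [← ENNReal.div_eq_inv_mul, ENNReal.le_div_iff_mul_le (Or.inl hz) (Or.inl ht')]
    refine le_trans (le_of_eq ?_) hm
    have e : (c * Lr f x t) ^ n = (Lr f x t / t) ^ n * c ^ n * t ^ n := by
      rw [← mul_pow, ← mul_pow]; congr 1; field_simp
    rw [e, ENNReal.ofReal_mul (by positivity), ENNReal.ofReal_mul (by positivity)]
    ring
  · refine le_add_right ?_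
    have e2 : (2 : ℝ≥0∞) = ENNReal.ofReal 2 := by simp
    rw [e2, ← ENNReal.ofReal_div_of_pos two_pos]
    refine ENNReal.ofReal_le_ofReal ?_
    have h3 : Lr f x t / t ≤ (Lr f x (9 * t) / (9 * t)) * (1 / 2) := by
      rw [div_le_iff₀ ht]; field_simp; linarith
    have h4 : (0 : ℝ) ≤ Lr f x (9 * t) / (9 * t) := div_nonneg (by linarith) (by positivity)
    calc (Lr f x t / t) ^ n ≤ ((Lr f x (9 * t) / (9 * t)) * (1 / 2)) ^ n := by gcongr
      _ = (Lr f x (9 * t) / (9 * t)) ^ n * (1 / 2) ^ n := mul_pow _ _ _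
      _ ≤ (Lr f x (9 * t) / (9 * t)) ^ n * (1 / 2) ^ 1 := by
          gcongr _ * ?_
          exact pow_le_pow_of_le_one (by norm_num) (by norm_num) (by omega)
      _ = _ := by ring

/-- The majorants. -/
noncomputable def maj (B : ℝ≥0∞) (D : ℕ → E n → ℝ≥0∞) : ℕ → E n → ℝ≥0∞
  | 0 => fun _ => B
  | k + 1 => fun x => maj B D k x / 2 + D (k + 1) x

theorem measurable_maj (B : ℝ≥0∞) {D : ℕ → E n → ℝ≥0∞} (hD : ∀ k, Measurable (D k)) :
    ∀ k, Measurable (maj B D k)
  | 0 => measurable_const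
  | k + 1 => ((measurable_maj B hD k).div_const 2).add (hD (k + 1))

theorem half_step {a b d : ℝ≥0∞} (h : a ≤ b + 2 * d) : a / 2 + d ≤ b + 2 * d := by
  calc a / 2 + d ≤ (b + 2 * d) / 2 + d := by gcongr
    _ = b / 2 + (d + d) := by
        rw [ENNReal.add_div, mul_comm 2 d, ENNReal.mul_div_cancel_right (by simp) (by simp), add_assoc]
    _ ≤ b + 2 * d := by rw [two_mul]; gcongr; exact ENNReal.half_le_self

theorem maj_le (B : ℝ≥0∞) {D : ℕ → E n → ℝ≥0∞} {x : E n} {Λ : ℝ≥0∞} (h : ∀ k, D k x ≤ Λ) :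
    ∀ k, maj B D k x ≤ B + 2 * Λ
  | 0 => le_self_add
  | k + 1 => (add_le_add le_rfl (h (k + 1))).trans (half_step (maj_le B h k))

theorem lintegral_maj_le (B : ℝ≥0∞) {D : ℕ → E n → ℝ≥0∞} (hD : ∀ k, Measurable (D k))
    {Λ : ℝ≥0∞} (h : ∀ k, ∫⁻ x in K, D k x ≤ Λ) :
    ∀ k, ∫⁻ x in K, maj B D k x ≤ B * volume K + 2 * Λ
  | 0 => by simp [maj]
  | k + 1 => by
    have := lintegral_maj_le B hD h k
    simp only [maj]
    rw [lintegral_add_right _ (hD (k + 1))]
    simp only [div_eq_mul_inv]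
    rw [lintegral_mul_const _ (measurable_maj B hD k), ← div_eq_mul_inv]
    exact (add_le_add le_rfl (h (k + 1))).trans (half_step this)

theorem core (hn : 2 ≤ n) (hG : IsOpen G) (hf : ContinuousOn f G)
    (hopen : ∀ W ⊆ G, IsOpen W → IsOpen (f '' W))
    (hmult : ∀ x ∈ G, ∃ W ∈ 𝓝 x, ∃ N : ℕ, ∀ y, (W ∩ f ⁻¹' {y}).encard ≤ N)
    {c : ℝ} (hc : 0 < c) (hQ : HQ G f c) (hK : IsCompact K) (hKG : K ⊆ G) :
    (∀ᵐ x : E n, x ∈ K → DifferentiableAt ℝ f x) ∧
    ∃ t : ℕ → ℝ, (∀ k, 0 < t k) ∧ Tendsto t atTop (𝓝 0) ∧ cthickening (t 0) K ⊆ G ∧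
      (∀ k, t k ≤ t 0) ∧
      ∃ b : ℕ → E n → ℝ≥0∞, (∀ k, Measurable (b k)) ∧ ∃ C : ℝ≥0∞, C ≠ ⊤ ∧
        (∀ k, ∫⁻ x in K, b k x ≤ C) ∧
        ∀ k, ∀ x ∈ K, ∀ p ∈ closedBall x (t k),
          ENNReal.ofReal ((dist (f p) (f x) / t k) ^ n) ≤ b k x := by
  obtain ⟨δ, hδ, hδG⟩ := hK.exists_cthickening_subset_open hG hKG
  set W := cthickening δ K with hWdef
  have hW : IsCompact W := hK.cthickening
  obtain ⟨N, hN⟩ := mult_compact hmult hW hδG
  have hfW : IsCompact (f '' W) := hW.image_of_continuousOn (hf.mono hδG)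
  obtain ⟨M, hM⟩ := Metric.isBounded_iff.1 hfW.isBounded
  set t : ℕ → ℝ := fun k => δ / 2 * (1 / 9) ^ k with ht
  have t0 : ∀ k, 0 < t k := fun k => by positivity
  have tle : ∀ k, t k ≤ δ / 2 := fun k =>
    mul_le_of_le_one_right (by positivity) (pow_le_one₀ (by norm_num) (by norm_num))
  have tsucc : ∀ k, 9 * t (k + 1) = t k := fun k => by simp only [ht]; ring
  have hball : ∀ x ∈ K, ∀ r ≤ δ, closedBall x r ⊆ W := fun x hx r hr =>
    (closedBall_subset_closedBall hr).trans (closedBall_subset_cthickening hx δ)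
  have hballG : ∀ x ∈ K, ∀ k, closedBall x (t k) ⊆ G := fun x hx k =>
    (hball x hx _ (by linarith [tle k])).trans hδG
  set om := volume (ball (0 : E n) 1) with hom
  have om0 : om ≠ 0 := (measure_ball_pos _ _ one_pos).ne'
  have om1 : om ≠ ⊤ := measure_ball_lt_top.ne
  set D : ℕ → E n → ℝ≥0∞ := fun k x =>
    (ENNReal.ofReal (c ^ n) * om * ENNReal.ofReal (t k ^ n))⁻¹ * Dm G f (2 * t k) x with hD
  have hDm : ∀ k, Measurable (D k) := fun k => (measurable_Dm hG hopen _).const_mul _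
  set B := ENNReal.ofReal ((M / t 0) ^ n) with hB
  have hc0 : ENNReal.ofReal (c ^ n) * om ≠ 0 :=
    mul_ne_zero (ENNReal.ofReal_pos.2 (by positivity)).ne' om0
  have hc1 : ENNReal.ofReal (c ^ n) * om ≠ ⊤ := ENNReal.mul_ne_top ENNReal.ofReal_ne_top om1
  have hcancel : ∀ k (a : ℝ≥0∞),
      (ENNReal.ofReal (c ^ n) * om * ENNReal.ofReal (t k ^ n))⁻¹ *
        (a * ENNReal.ofReal ((2 * t k) ^ n)) =
      (ENNReal.ofReal (c ^ n) * om)⁻¹ * (a * ENNReal.ofReal (2 ^ n)) := by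
    intro k a
    have h0 : ENNReal.ofReal (t k ^ n) ≠ 0 := (ENNReal.ofReal_pos.2 (pow_pos (t0 k) n)).ne'
    rw [ENNReal.mul_inv (Or.inl hc0) (Or.inl hc1), mul_pow 2 (t k) n,
      ENNReal.ofReal_mul (p := 2 ^ n) (by positivity)]
    calc _ = (ENNReal.ofReal (c ^ n) * om)⁻¹ * (a * ENNReal.ofReal (2 ^ n)) *
          ((ENNReal.ofReal (t k ^ n))⁻¹ * ENNReal.ofReal (t k ^ n)) := by ring
      _ = _ := by rw [ENNReal.inv_mul_cancel h0 ENNReal.ofReal_ne_top, mul_one]
  have hA : ∀ x ∈ K, ∀ k, ENNReal.ofReal ((Lr f x (t k) / t k) ^ n) ≤ maj B D k x := by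
    intro x hx k
    induction k with
    | zero =>
      obtain ⟨p, hp, h1, -⟩ := Lr_spec hf (t0 0).le (hballG x hx 0)
      refine ENNReal.ofReal_le_ofReal ?_
      have h2 : Lr f x (t 0) ≤ M := h1 ▸ hM (mem_image_of_mem f (hball x hx _ (by linarith [tle 0]) hp))
        (mem_image_of_mem f (self_subset_cthickening K hx))
      have h3 : 0 ≤ Lr f x (t 0) := h1 ▸ dist_nonneg
      have := t0 0
      gcongr
    | succ k ih =>
      have := step hn hf hc hQ (t0 (k + 1)) (x := x) (by rw [tsucc]; exact hballG x hx k)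
      rw [tsucc] at this
      exact this.trans (add_le_add (by gcongr) le_rfl)
  have hb : ∀ k, ∀ x ∈ K, ∀ p ∈ closedBall x (t k),
      ENNReal.ofReal ((dist (f p) (f x) / t k) ^ n) ≤ maj B D k x := by
    intro k x hx p hp
    obtain ⟨-, -, -, h2⟩ := Lr_spec hf (t0 k).le (hballG x hx k)
    refine le_trans (ENNReal.ofReal_le_ofReal ?_) (hA x hx k)
    have := t0 k
    gcongr
    exact h2 p hp
  refine ⟨?_, t, t0, ?_, (cthickening_mono (by linarith [tle 0]) K).trans hδG, fun k => ?_,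
    maj B D, measurable_maj B hDm,
    B * volume K + 2 * ((ENNReal.ofReal (c ^ n) * om)⁻¹ *
      (N * om * volume (f '' W) * ENNReal.ofReal (2 ^ n))), ?_, ?_, hb⟩
  · filter_upwards [stepanov f, ae_Dm_le hG hopen hfW hN (K := K) (δ := δ)
      fun x hx => ball_subset_closedBall.trans (hball x hx δ le_rfl)] with x hS hx' hx
    obtain ⟨m, hm⟩ := hx' hx
    set Λ := B + 2 * ((ENNReal.ofReal (c ^ n) * om)⁻¹ * (m * ENNReal.ofReal (2 ^ n))) with hΛ
    have hΛt : Λ ≠ ⊤ := ENNReal.add_ne_top.2 ⟨ENNReal.ofReal_ne_top, ENNReal.mul_ne_top (by simp)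
      (ENNReal.mul_ne_top (ENNReal.inv_ne_top.2 hc0)
        (ENNReal.mul_ne_top (ENNReal.natCast_ne_top m) ENNReal.ofReal_ne_top))⟩
    have h1 : ∀ k, maj B D k x ≤ Λ := by
      refine maj_le B fun k => ?_
      rw [← hcancel k]
      simp only [hD]
      gcongr
      exact hm _ ⟨by linarith [t0 k], by linarith [tle k]⟩
    refine hS ⟨9 * max 1 Λ.toReal, δ / 2, by positivity, fun z hz => ?_⟩
    rcases eq_or_ne z x with rfl | hzx
    · simp
    have hd : 0 < dist z x := dist_pos.2 hzx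
    obtain ⟨k, hk1, hk2⟩ := exists_nat_pow_near_of_lt_one (x := dist z x / (δ / 2)) (y := 1 / 9)
      (by positivity) ((div_le_one (by positivity)).2 hz.le) (by norm_num) (by norm_num)
    rw [lt_div_iff₀ (by positivity)] at hk1
    rw [div_le_iff₀ (by positivity)] at hk2
    have h2 : dist z x ≤ t k := by simp only [ht]; linarith
    have h3 : t k ≤ 9 * dist z x := by
      rw [← tsucc k]; simp only [ht]; linarith
    have h4 := (hb k x hx z h2).trans (h1 k)
    rw [ENNReal.ofReal_le_iff_le_toReal hΛt] at h4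
    have h5 : dist (f z) (f x) / t k ≤ max 1 Λ.toReal := by
      rcases le_total (dist (f z) (f x) / t k) 1 with h | h
      · exact h.trans (le_max_left _ _)
      · exact ((le_self_pow₀ h (by omega)).trans h4).trans (le_max_right _ _)
    rw [div_le_iff₀ (t0 k)] at h5
    rw [← dist_eq_norm, ← dist_eq_norm]
    have h6 : (0 : ℝ) ≤ max 1 Λ.toReal := le_trans zero_le_one (le_max_left _ _)
    calc dist (f z) (f x) ≤ max 1 Λ.toReal * t k := h5
      _ ≤ max 1 Λ.toReal * (9 * dist z x) := by gcongr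
      _ = _ := by ring
  · have := (tendsto_pow_atTop_nhds_zero_of_lt_one (r := (1 / 9 : ℝ)) (by norm_num)
      (by norm_num)).const_mul (δ / 2)
    rwa [mul_zero] at this
  · simpa [ht] using tle k
  · exact ENNReal.add_ne_top.2 ⟨ENNReal.mul_ne_top ENNReal.ofReal_ne_top hK.measure_lt_top.ne,
      ENNReal.mul_ne_top (by simp) (ENNReal.mul_ne_top (ENNReal.inv_ne_top.2 hc0)
        (ENNReal.mul_ne_top (ENNReal.mul_ne_top (ENNReal.mul_ne_top (ENNReal.natCast_ne_top N) om1)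
          hfW.measure_lt_top.ne) ENNReal.ofReal_ne_top))⟩
  · refine lintegral_maj_le B hDm fun k => ?_
    rw [← hcancel k]
    simp only [hD]
    rw [lintegral_const_mul _ (measurable_Dm hG hopen _)]
    gcongr
    refine (lintegral_Dm_le hG hopen hfW.measurableSet hN hK.measurableSet fun x hx =>
      ball_subset_closedBall.trans (hball x hx _ (by linarith [tle k]))).trans (le_of_eq ?_)
    rw [Measure.addHaar_ball_of_pos _ _ (by linarith [t0 k]), finrank_euclideanSpace_fin]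
    ring

end Pool.Agent.P.MP_fecf7d_an.Diff
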