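import Pool.Agent.P.MP_fecf7d_an.ExistLp

/-! Morrey-Campanato: geometric decay of the mean oscillation gives a continuous
representative. -/

open MeasureTheory Set Filter Topology Metric
open scoped ContDiff RealInnerProductSpace ENNReal

namespace Pool.Agent.P.MP_fecf7d_an.Ex

variable {n : ℕ}

theorem vol_scale (z z' : E n) {s : ℝ} (hs : 0 < s) :
    volume (closedBall z s) = 16 ^ n * volume (closedBall z' (s / 16)) := by
  rw [Measure.addHaar_closedBall _ _ hs.le, Measure.addHaar_closedBall _ _ (by positivity),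
    finrank_euclideanSpace_fin, ← mul_assoc]
  congr 1
  conv_lhs => rw [show s = 16 * (s / 16) by ring]
  rw [mul_pow, ENNReal.ofReal_mul (by positivity), ENNReal.ofReal_pow (by norm_num)]
  simp

theorem const_le {u : E n → ℝ} (hu : AEStronglyMeasurable u volume) (S : Set (E n)) (a b : ℝ) :
    ‖a - b‖ₑ * volume S ≤ (∫⁻ x in S, ‖u x - a‖ₑ) + ∫⁻ x in S, ‖u x - b‖ₑ := by
  rw [← lintegral_add_left' (f := fun x => ‖u x - a‖ₑ)
    ((hu.sub aestronglyMeasurable_const).enorm.restrict),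
    ← setLIntegral_const]
  refine lintegral_mono fun x => ?_
  rw [show a - b = -(u x - a) + (u x - b) by ring]
  refine (enorm_add_le _ _).trans ?_
  simp only [enorm_neg]; rfl

theorem morrey1 {u : E n → ℝ} (hu : LocallyIntegrable u volume) {s₀ τ C : ℝ} (hs : 0 < s₀)
    (hτ0 : 0 < τ) (hτ : τ < 1) (hC : 0 ≤ C)
    (h : ∀ (z : E n) (j : ℕ), ∃ c : ℝ, ∫⁻ x in closedBall z (s₀ / 16 ^ j), ‖u x - c‖ₑ ≤
      ENNReal.ofReal (C * τ ^ j) * volume (closedBall z (s₀ / 16 ^ j))) :
    ∃ v : E n → ℝ, Continuous v ∧ v =ᵐ[volume] u := by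
  choose c hc using h
  have hsj : ∀ j : ℕ, 0 < s₀ / 16 ^ j := fun j => by positivity
  have hsucc : ∀ j : ℕ, s₀ / 16 ^ (j + 1) = s₀ / 16 ^ j / 16 := fun j => by
    rw [pow_succ, div_div]
  set C₁ : ℝ := C * (16 ^ n + 1) with hC₁
  have key : ∀ (z z' : E n) (j : ℕ), dist z' z ≤ s₀ / 16 ^ j / 2 →
      dist (c z j) (c z' (j + 1)) ≤ C₁ * τ ^ j := fun z z' j hz => by
    have h1 := const_le hu.aestronglyMeasurable (closedBall z' (s₀ / 16 ^ (j + 1))) (c z j)
      (c z' (j + 1))
    have hsub : closedBall z' (s₀ / 16 ^ (j + 1)) ⊆ closedBall z (s₀ / 16 ^ j) :=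
      closedBall_subset_closedBall' (by rw [hsucc]; linarith [hsj j])
    have h2 := (lintegral_mono_set hsub).trans (hc z j)
    rw [vol_scale z z' (hsj j), ← hsucc] at h2
    have h3 := h1.trans (add_le_add h2 (hc z' (j + 1)))
    rw [← mul_assoc, ← add_mul] at h3
    have h4 := (ENNReal.mul_le_mul_iff_left
      (measure_closedBall_pos volume z' (hsj (j + 1))).ne' measure_closedBall_lt_top.ne).1 h3
    have e : (16 : ℝ≥0∞) ^ n = ENNReal.ofReal (16 ^ n) := by
      rw [ENNReal.ofReal_pow (by norm_num)]; simp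
    rw [e, ← ENNReal.ofReal_mul (by positivity), ← ENNReal.ofReal_add (by positivity)
      (by positivity), ← ofReal_norm, ENNReal.ofReal_le_ofReal_iff (by positivity)] at h4
    rw [dist_eq_norm]
    refine h4.trans ?_
    have : τ ^ (j + 1) ≤ τ ^ j := pow_le_pow_of_le_one hτ0.le hτ.le (by omega)
    have : C * τ ^ (j + 1) ≤ C * τ ^ j := by gcongr
    rw [hC₁]; nlinarith
  have key0 : ∀ (z : E n) (j : ℕ), dist (c z j) (c z (j + 1)) ≤ C₁ * τ ^ j := fun z j =>
    key z z j (by rw [dist_self]; linarith [hsj j])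
  choose v hv using fun z => cauchySeq_tendsto_of_complete
    (cauchySeq_of_le_geometric τ C₁ hτ (key0 z))
  have hd : ∀ z j, dist (c z j) (v z) ≤ C₁ * τ ^ j / (1 - τ) := fun z j =>
    dist_le_of_le_geometric_of_tendsto τ C₁ hτ (key0 z) (hv z) j
  have hτt : Tendsto (fun j : ℕ => τ ^ j) atTop (𝓝 0) :=
    tendsto_pow_atTop_nhds_zero_of_lt_one hτ0.le hτ
  refine ⟨v, ?_, ?_⟩
  · rw [Metric.continuous_iff]
    intro z ε hε
    have ht : Tendsto (fun j : ℕ => C₁ * τ ^ j / (1 - τ) + C₁ * τ ^ j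
        + C₁ * τ ^ (j + 1) / (1 - τ)) atTop (𝓝 (C₁ * 0 / (1 - τ) + C₁ * 0 + C₁ * 0 / (1 - τ))) :=
      (((hτt.const_mul _).div_const _).add (hτt.const_mul _)).add
        (((hτt.comp (tendsto_add_atTop_nat 1)).const_mul _).div_const _)
    simp only [mul_zero, zero_div, add_zero] at ht
    obtain ⟨j, hj⟩ := (ht.eventually (gt_mem_nhds hε)).exists
    refine ⟨s₀ / 16 ^ j / 2, by positivity, fun z' hz' => ?_⟩
    have h1 := hd z j
    have h2 := key z z' j hz'.le
    have h3 := hd z' (j + 1)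
    have h4 := dist_triangle4 (v z) (c z j) (c z' (j + 1)) (v z')
    rw [dist_comm (v z) (c z j)] at h4
    rw [dist_comm]; linarith
  · filter_upwards [(Besicovitch.vitaliFamily (volume : Measure (E n))
      ).ae_tendsto_lintegral_enorm_sub_div hu] with z hz
    have hr : Tendsto (fun j : ℕ => s₀ / 16 ^ j) atTop (𝓝[>] 0) := by
      refine tendsto_nhdsWithin_iff.2 ⟨?_, Eventually.of_forall hsj⟩
      exact tendsto_const_nhds.div_atTop (tendsto_pow_atTop_atTop_of_one_lt (by norm_num))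
    have h1 := hz.comp ((Besicovitch.tendsto_filterAt volume z).comp hr)
    have h2 : Tendsto (fun j : ℕ => ENNReal.ofReal (C * τ ^ j)) atTop (𝓝 0) := by
      have := ENNReal.tendsto_ofReal (hτt.const_mul C)
      simpa using this
    have h3 := h1.add h2
    rw [add_zero] at h3
    have h4 : Tendsto (fun j => ‖u z - c z j‖ₑ) atTop (𝓝 0) := by
      refine tendsto_of_tendsto_of_tendsto_of_le_of_le tendsto_const_nhds h3
        (fun _ => zero_le) fun j => ?_
      have h0 := (measure_closedBall_pos volume z (hsj j)).ne'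
      have ht := (measure_closedBall_lt_top (μ := volume) (x := z) (r := s₀ / 16 ^ j)).ne
      rw [← ENNReal.mul_le_mul_iff_left h0 ht, add_mul]
      simp only [Function.comp]
      rw [ENNReal.div_mul_cancel h0 ht]
      exact (const_le hu.aestronglyMeasurable _ _ _).trans (add_le_add le_rfl (hc z j))
    have h5 : Tendsto (fun j => c z j) atTop (𝓝 (u z)) := by
      rw [tendsto_iff_edist_tendsto_0]
      refine h4.congr fun j => ?_
      rw [edist_comm, edist_eq_enorm_sub]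
    exact tendsto_nhds_unique (hv z) h5

theorem young1 {t ε : ℝ} (ht : 0 ≤ t) (hε : 0 < ε) (hn : n ≠ 0) :
    t ≤ ε + t ^ n / ε ^ (n - 1) := by
  obtain ⟨m, rfl⟩ := Nat.exists_eq_succ_of_ne_zero hn
  simp only [Nat.succ_eq_add_one, Nat.add_sub_cancel]
  rcases le_total t ε with h | h
  · have : 0 ≤ t ^ (m + 1) / ε ^ m := by positivity
    linarith
  · have h1 : ε ^ m ≤ t ^ m := by gcongr
    have : t ≤ t ^ (m + 1) / ε ^ m := by
      rw [le_div_iff₀ (by positivity), pow_succ]; nlinarith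
    linarith

theorem morrey (hn : n ≠ 0) {u : E n → ℝ} (hu : LocallyIntegrable u volume) {s₀ θ C : ℝ}
    (hs : 0 < s₀) (hθ0 : 0 < θ) (hθ : θ < 1) (hC : 0 ≤ C)
    (h : ∀ (z : E n) (j : ℕ), ∃ c : ℝ, ∫⁻ x in closedBall z (s₀ / 16 ^ j), ‖u x - c‖ₑ ^ n ≤
      ENNReal.ofReal (C * θ ^ j) * volume (closedBall z (s₀ / 16 ^ j))) :
    ∃ v : E n → ℝ, Continuous v ∧ v =ᵐ[volume] u := by
  set τ : ℝ := θ ^ (n : ℝ)⁻¹ with hτ
  have hτn : τ ^ n = θ := Real.rpow_inv_natCast_pow hθ0.le hn
  have hτ0 : 0 < τ := Real.rpow_pos_of_pos hθ0 _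
  have hτ1 : τ < 1 := Real.rpow_lt_one hθ0.le hθ (by positivity)
  refine morrey1 hu hs hτ0 hτ1 (C := 1 + C) (by positivity) fun z j => ?_
  obtain ⟨c, hc⟩ := h z j
  refine ⟨c, ?_⟩
  have hε : 0 < τ ^ j := by positivity
  calc ∫⁻ x in closedBall z (s₀ / 16 ^ j), ‖u x - c‖ₑ
      ≤ ∫⁻ x in closedBall z (s₀ / 16 ^ j), ENNReal.ofReal (τ ^ j) +
          ENNReal.ofReal (((τ ^ j) ^ (n - 1))⁻¹) * ‖u x - c‖ₑ ^ n := by
        refine lintegral_mono fun x => ?_
        simp only
        rw [← ofReal_norm, ← ENNReal.ofReal_pow (norm_nonneg _),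
          ← ENNReal.ofReal_mul (by positivity), ← ENNReal.ofReal_add (by positivity)
            (by positivity)]
        refine ENNReal.ofReal_le_ofReal ((young1 (norm_nonneg _) hε hn).trans (le_of_eq ?_))
        ring
    _ = ENNReal.ofReal (τ ^ j) * volume (closedBall z (s₀ / 16 ^ j)) +
          ENNReal.ofReal (((τ ^ j) ^ (n - 1))⁻¹) *
            ∫⁻ x in closedBall z (s₀ / 16 ^ j), ‖u x - c‖ₑ ^ n := by
        rw [lintegral_add_left measurable_const, setLIntegral_const,
          lintegral_const_mul' _ _ ENNReal.ofReal_ne_top]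
    _ ≤ ENNReal.ofReal (τ ^ j) * volume (closedBall z (s₀ / 16 ^ j)) +
          ENNReal.ofReal (((τ ^ j) ^ (n - 1))⁻¹) *
            (ENNReal.ofReal (C * θ ^ j) * volume (closedBall z (s₀ / 16 ^ j))) := by gcongr
    _ = _ := by
        rw [← mul_assoc, ← add_mul, ← ENNReal.ofReal_mul (by positivity),
          ← ENNReal.ofReal_add (by positivity) (by positivity)]
        congr 2
        have e : θ ^ j = (τ ^ j) ^ (n - 1) * τ ^ j := by
          rw [← pow_succ, ← hτn, ← pow_mul, ← pow_mul, Nat.sub_add_cancel (by omega), mul_comm]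
        rw [e]; field_simp

end Pool.Agent.P.MP_fecf7d_an.Ex
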