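import Pool.Agent.P.MP_fecf7d_an.Defs2
import Pool.Agent.Lib.Sob.Poinc

/-! Sobolev toolkit, first part: wrappers around `Pool.Agent.Lib.Sob`. -/

open MeasureTheory Set Metric Filter Topology
open scoped ContDiff RealInnerProductSpace ENNReal

namespace Pool.Agent.P.MP_fecf7d_an
open Pool.Agent.Lib

variable {n : ℕ}

theorem isW1n_iff {F : Type*} [NormedAddCommGroup F] [NormedSpace ℝ F] {U : Set (E n)}
    {u : E n → F} {D : E n → E n →L[ℝ] F} : IsW1n U u D ↔ Sob.WD n U u D :=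
  ⟨fun h => ⟨fun K a b => (h.1 K b a).1, fun K a b => (h.1 K b a).2, h.2⟩,
    fun h => ⟨fun K a b => ⟨h.1 K b a, h.2.1 K b a⟩, h.2.2⟩⟩

section Sob
variable {U V O K F : Set (E n)} {u w φ : E n → ℝ} {D D' : E n → E n →L[ℝ] ℝ}

theorem IsW1n.mono (h : IsW1n U u D) (hV : V ⊆ U) : IsW1n V u D :=
  isW1n_iff.2 ((isW1n_iff.1 h).mono hV)

theorem IsW1n.congr (hU : IsOpen U) (h : IsW1n U u D) (hu : u =ᵐ[volume.restrict U] w)
    (hD : D =ᵐ[volume.restrict U] D') : IsW1n U w D' :=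
  isW1n_iff.2 ((isW1n_iff.1 h).congr ((ae_restrict_iff' hU.measurableSet).1 hu)
    ((ae_restrict_iff' hU.measurableSet).1 hD))

theorem isW1n_of_contDiff (hn : 2 ≤ n) (h : ContDiff ℝ 1 u) : IsW1n U u (fderiv ℝ u) :=
  isW1n_iff.2 (Sob.WD.of_contDiff (by omega) h)

theorem IsW1n.add (hn : 2 ≤ n) (h : IsW1n U u D) (h' : IsW1n U w D') :
    IsW1n U (fun x => u x + w x) (fun x => D x + D' x) :=
  isW1n_iff.2 ((isW1n_iff.1 h).add (by omega) (isW1n_iff.1 h'))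

theorem IsW1n.const_mul (h : IsW1n U u D) (c : ℝ) :
    IsW1n U (fun x => c * u x) (fun x => c • D x) :=
  isW1n_iff.2 ((isW1n_iff.1 h).const_smul c)

theorem IsW1n.smooth_mul (hn : 2 ≤ n) (h : IsW1n U u D) {η : E n → ℝ} (hη : ContDiff ℝ ∞ η) :
    IsW1n U (fun x => η x * u x) (fun x => η x • D x + u x • fderiv ℝ η x) :=
  isW1n_iff.2 (((isW1n_iff.1 h).smul (by omega) hη).congr' (fun _ _ => rfl) fun x _ => by
    ext e; simp [mul_comm])

theorem IsW1n.unique (hn : 2 ≤ n) (hU : IsOpen U) (h : IsW1n U u D) (h' : IsW1n U u D') :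
    D =ᵐ[volume.restrict U] D' :=
  (ae_restrict_iff' hU.measurableSet).2
    ((isW1n_iff.1 h).unique (by omega) hU (isW1n_iff.1 h'))

/-- gluing: zero extension across the part of `U` outside the closed set `F` -/
theorem IsW1n.glue (hn : 2 ≤ n) (hU : IsOpen U) (hV : IsOpen V) (hF : IsClosed F)
    (hFV : F ∩ U ⊆ V) (h : IsW1n V φ D) (h0 : ∀ x ∈ U, x ∉ F → φ x = 0 ∧ D x = 0) :
    IsW1n U φ D :=
  isW1n_iff.2 ((isW1n_iff.1 h).glue_const (by omega) hU hV hF hFV 0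
    (fun x hx => (h0 x hx.1 hx.2).1) (fun x hx => (h0 x hx.1 hx.2).2))

/-- gluing with an arbitrary constant -/
theorem IsW1n.glue_const (hn : 2 ≤ n) (hU : IsOpen U) (hV : IsOpen V) (hF : IsClosed F)
    (hFV : F ∩ U ⊆ V) (h : IsW1n V φ D) (c : ℝ) (h0 : ∀ x ∈ U, x ∉ F → φ x = c ∧ D x = 0) :
    IsW1n U φ D :=
  isW1n_iff.2 ((isW1n_iff.1 h).glue_const (by omega) hU hV hF hFV c
    (fun x hx => (h0 x hx.1 hx.2).1) (fun x hx => (h0 x hx.1 hx.2).2))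

/-- locality -/
theorem isW1n_of_local {G : Type*} [NormedAddCommGroup G] [NormedSpace ℝ G] (hn : 2 ≤ n)
    {f : E n → G} {Df : E n → E n →L[ℝ] G}
    (h : ∀ x ∈ U, ∃ O : Set (E n), IsOpen O ∧ x ∈ O ∧ IsW1n O f Df) : IsW1n U f Df :=
  isW1n_iff.2 (Sob.WD.of_local (by omega) fun x hx =>
    (h x hx).imp fun _ hO => ⟨hO.1, hO.2.1, isW1n_iff.1 hO.2.2⟩)

theorem IsW1n.add_const (hn : 2 ≤ n) (h : IsW1n U u D) (c : ℝ) :
    IsW1n U (fun x => u x + c) D := isW1n_iff.2 ((isW1n_iff.1 h).add_const (by omega) c)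

/-- the weak derivative vanishes a.e. on level sets -/
theorem IsW1n.ae_zero_on_level (hn : 2 ≤ n) (hU : IsOpen U) (h : IsW1n U u D) (c : ℝ) :
    ∀ᵐ x, x ∈ U → u x = c → D x = 0 := (isW1n_iff.1 h).ae_zero_on_level (by omega) hU c

/-- limits -/
theorem isW1n_of_tendsto (hn : 2 ≤ n) {uk : ℕ → E n → ℝ} {Dk : ℕ → E n → E n →L[ℝ] ℝ}
    (hk : ∀ k, IsW1n U (uk k) (Dk k))
    (hm : ∀ K ⊆ U, IsCompact K → MemLp u n (volume.restrict K) ∧ MemLp D n (volume.restrict K))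
    (h1 : ∀ K ⊆ U, IsCompact K →
      Tendsto (fun k => ∫⁻ x in K, ‖uk k x - u x‖ₑ ^ n) atTop (𝓝 0))
    (h2 : ∀ K ⊆ U, IsCompact K →
      Tendsto (fun k => ∫⁻ x in K, ‖Dk k x - D x‖ₑ ^ n) atTop (𝓝 0)) :
    IsW1n U u D :=
  isW1n_iff.2 (Sob.WD.of_tendsto (by omega) (fun K a b => (hm K b a).1)
    (fun K a b => (hm K b a).2) fun K a b =>
      ⟨U, b, uk, Dk, fun k => isW1n_iff.1 (hk k), h1 K b a, h2 K b a⟩)

/-- chain rule with truncation -/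
theorem IsW1n.chain (hn : 2 ≤ n) (hU : IsOpen U) (h : IsW1n U u D) {a b : ℝ} (hab : a < b)
    {H H' : ℝ → ℝ} (hH : ∀ s ∈ Icc a b, HasDerivAt H (H' s) s) (hH' : ContinuousOn H' (Icc a b)) :
    IsW1n U (fun x => H (T a b (u x)))
      ({x | a < u x ∧ u x < b}.indicator fun x => H' (u x) • D x) :=
  isW1n_iff.2 ((isW1n_iff.1 h).chain (by omega) hU hab hH hH')

/-- compactly supported Sobolev functions are limits of test functions -/
theorem IsW1n.approx_test (hn : 2 ≤ n) (hO : IsOpen O) (hK : IsCompact K) (hKO : K ⊆ O)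
    (h : IsW1n O φ D) (h0 : ∀ x ∈ O, x ∉ K → φ x = 0) :
    ∃ K' : Set (E n), IsCompact K' ∧ K ⊆ K' ∧ K' ⊆ O ∧ ∃ φk : ℕ → E n → ℝ,
      (∀ k, IsTest K' (φk k)) ∧
      Tendsto (fun k => ∫⁻ x in K', ‖fderiv ℝ (φk k) x - K.indicator D x‖ₑ ^ n) atTop (𝓝 0) := by
  obtain ⟨K', h1, h2, h3, φk, h4, -, h5⟩ :=
    (isW1n_iff.1 h).approx_test (by omega) hO hK hKO h0
  exact ⟨K', h1, h2, h3, φk, h4, tendsto_of_tendsto_of_tendsto_of_le_of_le tendsto_const_nhds h5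
    (fun _ => zero_le) fun k => setLIntegral_le_lintegral _ _⟩

theorem ofReal_two_mul_pow (d : ℝ) (hd : 0 ≤ d) :
    ENNReal.ofReal ((2 * d) ^ n) = ENNReal.ofReal d ^ n * 2 ^ n := by
  rw [ENNReal.ofReal_pow (by positivity), ENNReal.ofReal_mul (by norm_num), mul_pow, mul_comm]
  simp

/-- Poincare, double integral form -/
theorem IsW1n.poincare2 (hn : 2 ≤ n) (hU : IsOpen U) (h : IsW1n U u D) (hK : IsCompact K)
    (hc : Convex ℝ K) (hKU : K ⊆ U) {d : ℝ} (hd : ∀ x ∈ K, ∀ y ∈ K, dist x y ≤ d) :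
    ∫⁻ y in K, ∫⁻ x in K, ‖u x - u y‖ₑ ^ n ≤ ENNReal.ofReal ((2 * d) ^ n) * volume K * En K D := by
  rcases K.eq_empty_or_nonempty with rfl | ⟨x, hx⟩
  · simp
  have hd0 : 0 ≤ d := by simpa using hd x hx x hx
  refine ((isW1n_iff.1 h).poincare2 (by omega) hU hK hc hKU hd).trans (le_of_eq ?_)
  rw [ofReal_two_mul_pow d hd0, finrank_euclideanSpace_fin, En]
  ring

/-- Poincare -/
theorem IsW1n.poincare (hn : 2 ≤ n) (hU : IsOpen U) (h : IsW1n U u D) (hK : IsCompact K)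
    (hc : Convex ℝ K) (hKU : K ⊆ U) {d : ℝ} (hd : ∀ x ∈ K, ∀ y ∈ K, dist x y ≤ d) :
    ∃ c : ℝ, ∫⁻ x in K, ‖u x - c‖ₑ ^ n ≤ ENNReal.ofReal ((2 * d) ^ n) * En K D := by
  rcases K.eq_empty_or_nonempty with rfl | ⟨x, hx⟩
  · simp
  have hd0 : 0 ≤ d := by simpa using hd x hx x hx
  obtain ⟨c, hc⟩ := (isW1n_iff.1 h).poincare (by omega) hU hK hc hKU hd
  refine ⟨c, hc.trans (le_of_eq ?_)⟩
  rw [ofReal_two_mul_pow d hd0, finrank_euclideanSpace_fin, En]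

/-- scale invariant cut-offs -/
theorem exists_cutoff (n : ℕ) {q : ℝ} (hq : 1 < q) : ∃ C : ℝ, 0 < C ∧ ∀ (z : E n) (ρ : ℝ), 0 < ρ →
    ∃ η : E n → ℝ, ContDiff ℝ ∞ η ∧ (∀ x, 0 ≤ η x ∧ η x ≤ 1) ∧
      (∀ x ∈ closedBall z ρ, η x = 1) ∧ (∀ x, q * ρ ≤ dist x z → η x = 0) ∧
      ∀ x, ‖fderiv ℝ η x‖ ≤ C / ρ := by
  let b : ContDiffBump (0 : E n) := ⟨1, q, one_pos, hq⟩
  have sb : ContDiff ℝ ∞ b := b.contDiff
  obtain ⟨C, hC⟩ := (b.hasCompactSupport.fderiv ℝ).exists_bound_of_continuous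
    (sb.continuous_fderiv (by simp))
  have hC0 : 0 ≤ C := (norm_nonneg _).trans (hC 0)
  refine ⟨C + 1, by positivity, fun z ρ hρ => ⟨fun x => b (ρ⁻¹ • (x - z)),
    sb.comp (by fun_prop), fun x => ⟨b.nonneg, b.le_one⟩, fun x hx => ?_, fun x hx => ?_,
    fun x => ?_⟩⟩
  · refine b.one_of_mem_closedBall ?_
    rw [mem_closedBall, dist_eq_norm] at hx
    rw [mem_closedBall, dist_zero_right, norm_smul, norm_inv, Real.norm_of_nonneg hρ.le,
      inv_mul_le_iff₀ hρ]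
    simpa [b] using hx
  · refine b.zero_of_le_dist ?_
    rw [dist_eq_norm] at hx
    rw [dist_zero_right, norm_smul, norm_inv, Real.norm_of_nonneg hρ.le, le_inv_mul_iff₀ hρ]
    simpa [b, mul_comm] using hx
  · have h1 : HasFDerivAt (fun x : E n => ρ⁻¹ • (x - z))
        (ρ⁻¹ • ContinuousLinearMap.id ℝ (E n)) x :=
      ((hasFDerivAt_id x).sub_const z).const_smul ρ⁻¹
    have h2 := ((sb.differentiable (by simp) (ρ⁻¹ • (x - z))).hasFDerivAt.comp x h1).fderiv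
    rw [show (fun x => b (ρ⁻¹ • (x - z))) = b ∘ fun x : E n => ρ⁻¹ • (x - z) from rfl, h2]
    refine (ContinuousLinearMap.opNorm_comp_le _ _).trans ?_
    rw [norm_smul, norm_inv, Real.norm_of_nonneg hρ.le, div_eq_mul_inv]
    gcongr
    · exact (hC _).trans (by linarith)
    · exact mul_le_of_le_one_right (by positivity) ContinuousLinearMap.norm_id_le

end Sob

end Pool.Agent.P.MP_fecf7d_an
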