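import Pool.Agent.P.MP_fecf7d_an.ExistDecay
import Pool.Agent.P.MP_fecf7d_an.ExistMorrey
import Pool.Agent.P.MP_fecf7d_an.SobAPI1

/-! Existence of continuous ring potentials. -/

open MeasureTheory Set Filter Topology Metric
open scoped ContDiff RealInnerProductSpace ENNReal

namespace Pool.Agent.P.MP_fecf7d_an

variable {n : ℕ} {α β : ℝ} {A : E n → E n → E n}

namespace Ex

theorem one_le_inf : (1 : WithTop ℕ∞) ≤ ((⊤ : ℕ∞) : WithTop ℕ∞) := by exact_mod_cast le_top

theorem grad_add {φ ψ : E n → ℝ} (h₁ : ContDiff ℝ ∞ φ) (h₂ : ContDiff ℝ ∞ ψ) (x : E n) :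
    gradient (fun x => φ x + ψ x) x = gradient φ x + gradient ψ x := by
  rw [gradient, gradient, gradient, ← map_add, fderiv_fun_add
    ((h₁.of_le one_le_inf).differentiable one_ne_zero x)
    ((h₂.of_le one_le_inf).differentiable one_ne_zero x)]

theorem grad_smul {φ : E n → ℝ} (h₁ : ContDiff ℝ ∞ φ) (c : ℝ) (x : E n) :
    gradient (fun x => c • φ x) x = c • gradient φ x := by
  rw [gradient, gradient, ← map_smul, fderiv_fun_const_smul
    ((h₁.of_le one_le_inf).differentiable one_ne_zero x)]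

theorem exists_approx (hn : 2 ≤ n) (hα : 0 < α) (hαβ : α ≤ β) (hA : Adm α β A) (O : Set (E n))
    {θ : E n → ℝ} (hθ : ContDiff ℝ ∞ θ) (hθc : HasCompactSupport θ) :
    ∃ (g : E n → E n) (φ : ℕ → E n → ℝ), (∀ k, IsTest O (φ k)) ∧
      Approx A O g fun k x => θ x + φ k x := by
  have h0 : n ≠ 0 := by omega
  have : Fact (1 ≤ (n : ℝ≥0∞)) := ⟨by exact_mod_cast Nat.one_le_iff_ne_zero.2 h0⟩
  let V₀ : Submodule ℝ (Lp (E n) n (volume : Measure (E n))) :=
    { carrier := {v | ∃ φ, IsTest O φ ∧ v =ᵐ[volume] gradient φ}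
      add_mem' := by
        rintro a b ⟨φ, hφ, ha⟩ ⟨ψ, hψ, hb⟩
        refine ⟨fun x => φ x + ψ x, ⟨hφ.1.add hψ.1, hφ.2.1.add hψ.2.1,
          (tsupport_add φ ψ).trans (union_subset hφ.2.2 hψ.2.2)⟩, ?_⟩
        filter_upwards [Lp.coeFn_add a b, ha, hb] with x h1 h2 h3
        rw [h1, Pi.add_apply, h2, h3, grad_add hφ.1 hψ.1]
      zero_mem' := by
        refine ⟨fun _ => 0, ⟨contDiff_const, HasCompactSupport.zero, by
          change tsupport (0 : E n → ℝ) ⊆ O
          simp⟩, ?_⟩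
        filter_upwards [Lp.coeFn_zero (E n) n (volume : Measure (E n))] with x hx
        rw [hx]; simp
      smul_mem' := by
        rintro c a ⟨φ, hφ, ha⟩
        refine ⟨fun x => c • φ x, ⟨hφ.1.const_smul c, hφ.2.1.smul_left (f := fun _ => c),
          (tsupport_smul_subset_right (fun _ => c) φ).trans hφ.2.2⟩, ?_⟩
        filter_upwards [Lp.coeFn_smul c a, ha] with x h1 h2
        rw [h1, Pi.smul_apply, h2, grad_smul hφ.1] }
  have hθm := memLp_grad (hθ.of_le one_le_inf) hθc n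
  obtain ⟨g, hg, heq⟩ := exists_sol hn hα hαβ hA V₀.topologicalClosure
    V₀.isClosed_topologicalClosure (hθm.toLp _)
  obtain ⟨v, hv, hlim⟩ := mem_closure_iff_seq_limit.1 hg
  choose φ hφ hvφ using hv
  refine ⟨g, φ, hφ, Lp.memLp g, fun k => hθ.add (hφ k).1, ?_, fun ψ hψ => ?_⟩
  · have h1 : Tendsto (fun k => hθm.toLp _ + v k) atTop (𝓝 g) := by
      simpa using hlim.const_add (hθm.toLp _)
    refine (tendsto_lint h0 h1).congr fun k => lintegral_congr_ae ?_
    filter_upwards [Lp.coeFn_add (hθm.toLp _) (v k), hθm.coeFn_toLp, hvφ k] with x h1 h2 h3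
    rw [h1, Pi.add_apply, h2, h3, grad_add hθ (hφ k).1]
  · have hm := memLp_grad (hψ.1.of_le one_le_inf) hψ.2.1 n
    rw [← heq (hm.toLp _) (V₀.le_topologicalClosure ⟨ψ, hψ, hm.coeFn_toLp⟩)]
    refine integral_congr_ae ?_
    filter_upwards [hm.coeFn_toLp] with x hx
    rw [hx]

theorem lint_tri {F : Type*} [NormedAddCommGroup F] {μ : Measure (E n)} {a b c : E n → F}
    (h : AEStronglyMeasurable (fun x => a x - b x) μ) : ∫⁻ x, ‖b x - c x‖ₑ ^ n ∂μ ≤
      2 ^ n * ((∫⁻ x, ‖a x - b x‖ₑ ^ n ∂μ) + ∫⁻ x, ‖a x - c x‖ₑ ^ n ∂μ) := by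
  rw [← lintegral_add_left' (h.enorm.pow_const n), ← lintegral_const_mul' _ _ (by simp)]
  refine lintegral_mono fun x => le_trans ?_ (eadd_pow_le _ _ n)
  gcongr
  rw [show b x - c x = -(a x - b x) + (a x - c x) by abel]
  exact (enorm_add_le _ _).trans (by rw [enorm_neg])

theorem exists_u0 (hn : n ≠ 0) {O : Set (E n)} {g : E n → E n} {u : ℕ → E n → ℝ}
    (hap : Approx A O g u) {y : E n} {R : ℝ} (hR : 0 < R) (hout : ∀ k x, R ≤ dist x y → u k x = 0) :
    ∃ u₀ : E n → ℝ, MemLp u₀ n volume ∧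
      Tendsto (fun k => ∫⁻ x, ‖u k x - u₀ x‖ₑ ^ n) atTop (𝓝 0) := by
  obtain ⟨C, hC, hF⟩ := friedrichs hn y hR
  have hu1 : ∀ k, ContDiff ℝ 1 (u k) := fun k => (hap.sm k).of_le one_le_inf
  refine exists_lim hn (fun k => (hu1 k).continuous.memLp_of_hasCompactSupport
    (HasCompactSupport.intro (isCompact_closedBall y R) fun x hx =>
      hout k x (le_of_lt (by simpa using hx)))) fun ε hε => ?_
  have h1 := ENNReal.Tendsto.const_mul (a := C * 2 ^ n * 2) hap.lim (Or.inr (by finiteness))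
  rw [mul_zero] at h1
  obtain ⟨N, hN⟩ := eventually_atTop.1 (h1.eventually (gt_mem_nhds hε))
  refine ⟨N, fun k hk l hl => ?_⟩
  have h2 := hF (fun x => u k x - u l x) ((hu1 k).sub (hu1 l))
    fun x hx => by simp [hout k x hx, hout l x hx]
  have h3 : ∫⁻ x, ‖fderiv ℝ (fun x => u k x - u l x) x‖ₑ ^ n
      = ∫⁻ x, ‖gradient (u k) x - gradient (u l) x‖ₑ ^ n := by
    refine lintegral_congr fun x => ?_
    rw [fderiv_fun_sub ((hu1 k).differentiable one_ne_zero x)
      ((hu1 l).differentiable one_ne_zero x), gradient, gradient, ← map_sub, ← ofReal_norm,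
      ← ofReal_norm, LinearIsometryEquiv.norm_map]
  have h4 := lint_tri (μ := volume) (a := g) (b := gradient (u k)) (c := gradient (u l))
    (hap.gm.1.sub (cont_grad (hu1 k)).aestronglyMeasurable)
  simp only [enorm_sub_rev (g _)] at h4
  rw [h3] at h2
  refine (h2.trans (mul_le_mul_right h4 _)).trans_lt ?_
  rcases le_total (∫⁻ x, ‖gradient (u k) x - g x‖ₑ ^ n) (∫⁻ x, ‖gradient (u l) x - g x‖ₑ ^ n)
    with h | h
  · refine lt_of_le_of_lt ?_ (hN l hl)
    rw [mul_assoc, mul_assoc, two_mul]; gcongr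
  · refine lt_of_le_of_lt ?_ (hN k hk)
    rw [mul_assoc, mul_assoc, two_mul]; gcongr

theorem exists_cont (hn : n ≠ 0) {O : Set (E n)} {g : E n → E n} {u : ℕ → E n → ℝ}
    (hap : Approx A O g u) {u₀ : E n → ℝ} (hu₀ : MemLp u₀ n volume)
    (hlim : Tendsto (fun k => ∫⁻ x, ‖u k x - u₀ x‖ₑ ^ n) atTop (𝓝 0)) {s₀ θ : ℝ}
    (hs : 0 < s₀) (hθ0 : 0 < θ) (hθ : θ < 1)
    (hdec : ∀ (z : E n) (j : ℕ), ∫⁻ x in closedBall z (s₀ / 16 ^ j), ‖g x‖ₑ ^ n ≤
        ENNReal.ofReal (θ ^ j) * ∫⁻ x, ‖g x‖ₑ ^ n) :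
    ∃ v : E n → ℝ, Continuous v ∧ v =ᵐ[volume] u₀ := by
  set G : ℝ≥0∞ := ∫⁻ x, ‖g x‖ₑ ^ n with hG
  have hGt : G ≠ ⊤ := (lint_lt_top hn hap.gm).ne
  set b : ℝ≥0∞ := volume (ball (0 : E n) 1) with hb
  have hb0 : b ≠ 0 := (measure_ball_pos volume _ one_pos).ne'
  have hbt : b ≠ ⊤ := measure_ball_lt_top.ne
  set K : ℝ≥0∞ := 2 ^ n * (1 + 4 ^ n * (2 ^ n * (G + 1)) * 2) with hK
  have hKt : K / b ≠ ⊤ := ENNReal.div_ne_top (by rw [hK]; finiteness) hb0
  refine morrey hn (hu₀.locallyIntegrable (by exact_mod_cast Nat.one_le_iff_ne_zero.2 hn)) hs hθ0 hθ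
    (C := (K / b).toReal) ENNReal.toReal_nonneg fun z j => ?_
  set s : ℝ := s₀ / 16 ^ j with hsdef
  have hs0 : 0 < s := by positivity
  obtain ⟨k, hk1, hk2⟩ := ((hap.lim.eventually (gt_mem_nhds (a := ENNReal.ofReal (θ ^ j))
    (by simpa using pow_pos hθ0 j))).and (hlim.eventually (gt_mem_nhds
      (a := ENNReal.ofReal (s ^ n) * ENNReal.ofReal (θ ^ j))
      (ENNReal.mul_pos (by simpa using pow_pos hs0 n) (by simpa using pow_pos hθ0 j))))).exists
  have hu1 : ContDiff ℝ 1 (u k) := (hap.sm k).of_le one_le_inf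
  obtain ⟨c, hc⟩ := poinc_ball hu1 z hs0
  refine ⟨c, ?_⟩
  have h1 := lint_tri (μ := volume.restrict (closedBall z s)) (a := u k) (b := u₀)
    (c := fun _ => c) (hu1.continuous.aestronglyMeasurable.sub hu₀.1).restrict
  have h2 := grad_le hap.gm.1 (u k) (closedBall z s)
  have e4 : ENNReal.ofReal ((4 * s) ^ n) = 4 ^ n * ENNReal.ofReal (s ^ n) := by
    rw [mul_pow, ENNReal.ofReal_mul (by positivity), ENNReal.ofReal_pow (by norm_num)]; simp
  calc _ ≤ _ := h1
    _ ≤ 2 ^ n * (ENNReal.ofReal (s ^ n) * ENNReal.ofReal (θ ^ j) + 4 ^ n * ENNReal.ofReal (s ^ n) *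
        (2 ^ n * (ENNReal.ofReal (θ ^ j) * G + ENNReal.ofReal (θ ^ j))) * 2) := by
        refine mul_le_mul_right (add_le_add ((setLIntegral_le_lintegral _ _).trans hk2.le)
          (hc.trans ?_)) _
        rw [e4]
        refine mul_le_mul_left (mul_le_mul_right (h2.trans ?_) _) _
        exact mul_le_mul_right (add_le_add (hdec z j) hk1.le) _
    _ = K * (ENNReal.ofReal (s ^ n) * ENNReal.ofReal (θ ^ j)) := by rw [hK]; ring
    _ = _ := by
        rw [Measure.addHaar_closedBall _ _ hs0.le, finrank_euclideanSpace_fin,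
          ENNReal.ofReal_mul ENNReal.toReal_nonneg, ENNReal.ofReal_toReal hKt]
        conv_lhs => rw [← ENNReal.div_mul_cancel (b := K) hb0 hbt]
        ring

theorem eqOn_of_lim (hn : n ≠ 0) {u : ℕ → E n → ℝ} {v : E n → ℝ} (hv : Continuous v)
    (hlim : Tendsto (fun k => ∫⁻ x, ‖u k x - v x‖ₑ ^ n) atTop (𝓝 0)) {U : Set (E n)}
    (hU : IsOpen U) {c : ℝ} (h : ∀ k, ∀ x ∈ U, u k x = c) : ∀ x ∈ closure U, v x = c := by
  have h1 : ∫⁻ x in U, ‖c - v x‖ₑ ^ n ≤ 0 := by
    refine ge_of_tendsto' hlim fun k => le_trans (le_of_eq ?_) (setLIntegral_le_lintegral U _)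
    exact setLIntegral_congr_fun hU.measurableSet fun x hx => by simp only [h k x hx]
  rw [nonpos_iff_eq_zero, lintegral_eq_zero_iff (f := fun x => ‖c - v x‖ₑ ^ n)
    ((continuous_const.sub hv).enorm.measurable.pow_const n)] at h1
  have h2 : v =ᵐ[volume.restrict U] fun _ => c := by
    filter_upwards [h1] with x hx
    have : ‖c - v x‖ₑ = 0 := (pow_eq_zero_iff hn).1 hx
    rw [enorm_eq_zero, sub_eq_zero] at this
    exact this.symm
  exact (Measure.eqOn_open_of_ae_eq h2 hU hv.continuousOn continuousOn_const).closure hv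
    continuous_const

end Ex

open Ex in
theorem exists_ring (hn : 2 ≤ n) {α β : ℝ} (hα : 0 < α) (hαβ : α ≤ β) {A : E n → E n → E n}
    (hA : Adm α β A) (y : E n) {r R : ℝ} (hr : 0 < r) (hR : r < R) :
    ∃ u : E n → ℝ, Continuous u ∧ (∀ z, dist z y ≤ r → u z = 1) ∧ (∀ z, R ≤ dist z y → u z = 0) ∧
      IsAHarmonic A (Ring y r R) u := by
  have h0 : n ≠ 0 := by omega
  let θ : ContDiffBump y := ⟨(2 * r + R) / 3, (r + 2 * R) / 3, by linarith, by linarith⟩
  obtain ⟨g, φ, hφ, hap⟩ := exists_approx hn hα hαβ hA (Ring y r R) (θ := θ) θ.contDiff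
    θ.hasCompactSupport
  have hz : ∀ k x, x ∉ Ring y r R → ∀ᶠ w in 𝓝 x, φ k w = 0 := fun k x hx =>
    notMem_tsupport_iff_eventuallyEq.1 fun h => hx ((hφ k).2.2 h)
  have hin : ∀ k x, dist x y ≤ r → ∀ᶠ w in 𝓝 x, θ w + φ k w = 1 := fun k x hx => by
    filter_upwards [hz k x fun h => absurd h.1 (not_lt.2 hx),
      isOpen_ball.mem_nhds (show x ∈ ball y ((2 * r + R) / 3) by rw [mem_ball]; linarith)]
      with w h1 h2
    rw [h1, θ.one_of_mem_closedBall (ball_subset_closedBall h2), add_zero]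
  have hout : ∀ k x, R ≤ dist x y → ∀ᶠ w in 𝓝 x, θ w + φ k w = 0 := fun k x hx => by
    filter_upwards [hz k x fun h => absurd h.2 (not_lt.2 hx),
      isClosed_closedBall.isOpen_compl.mem_nhds (show x ∈ (closedBall y ((r + 2 * R) / 3))ᶜ by
        rw [mem_compl_iff, mem_closedBall, not_le]; linarith)] with w h1 h2
    rw [h1, θ.zero_of_le_dist (le_of_lt (by simpa using h2)), add_zero]
  obtain ⟨s₀, τ, hs, hτ0, hτ, hdec⟩ := decay hn hα hαβ hA hr hR hap hin hout
  obtain ⟨u₀, hu₀, hlim⟩ := exists_u0 h0 hap (hr.trans hR)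
    fun k x hx => (hout k x hx).self_of_nhds
  obtain ⟨v, hv, hvu⟩ := exists_cont h0 hap hu₀ hlim hs hτ0 hτ hdec
  have hlim' : Tendsto (fun k => ∫⁻ x, ‖θ x + φ k x - v x‖ₑ ^ n) atTop (𝓝 0) := by
    refine hlim.congr fun k => lintegral_congr_ae ?_
    filter_upwards [hvu] with x hx
    rw [hx]
  have : Nontrivial (E n) := by
    apply Module.nontrivial_of_finrank_pos (R := ℝ)
    rw [finrank_euclideanSpace_fin]; omega
  refine ⟨v, hv, fun z hz => ?_, fun z hz => ?_, hv.continuousOn, g, ?_, hap.eq⟩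
  · refine eqOn_of_lim h0 hv hlim' (U := ball y r) isOpen_ball
      (fun k x hx => (hin k x (mem_ball.1 hx).le).self_of_nhds) z ?_
    rw [closure_ball y hr.ne']; exact hz
  · refine eqOn_of_lim h0 hv hlim' (U := (closedBall y R)ᶜ) isClosed_closedBall.isOpen_compl
      (fun k x hx => (hout k x (le_of_lt (by simpa using hx))).self_of_nhds) z ?_
    rw [closure_compl, interior_closedBall y (hr.trans hR).ne']
    simpa using hz
  · refine isW1n_of_tendsto hn (uk := fun k x => θ x + φ k x)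
      (Dk := fun k => fderiv ℝ fun x => θ x + φ k x)
      (fun k => isW1n_of_contDiff hn ((hap.sm k).of_le one_le_inf))
      (fun K _ _ => ⟨((memLp_congr_ae hvu).2 hu₀).restrict K,
        ((innerSL ℝ (E := E n)).comp_memLp' hap.gm).restrict K⟩) (fun K _ _ => ?_) fun K _ _ => ?_
    · exact tendsto_of_tendsto_of_tendsto_of_le_of_le tendsto_const_nhds hlim'
        (fun _ => zero_le) fun k => setLIntegral_le_lintegral _ _
    · refine tendsto_of_tendsto_of_tendsto_of_le_of_le tendsto_const_nhds hap.lim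
        (fun _ => zero_le) fun k => (setLIntegral_le_lintegral _ _).trans (le_of_eq ?_)
      refine lintegral_congr fun x => ?_
      have e : fderiv ℝ (fun x => θ x + φ k x) x - innerSL ℝ (g x)
          = innerSL ℝ (gradient (fun x => θ x + φ k x) x - g x) := by
        ext w
        rw [innerSL_apply_apply, inner_sub_left, real_inner_comm, inner_grad]; simp
      rw [e, ← ofReal_norm, ← ofReal_norm, innerSL_apply_norm]

end Pool.Agent.P.MP_fecf7d_an
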