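import Pool.Agent.P.MP_fecf7d_an.ExistPoinc

/-! Poincare inequality on an annulus with the energy of a larger annulus. -/

open MeasureTheory Set Filter Topology Metric
open scoped ContDiff RealInnerProductSpace ENNReal

namespace Pool.Agent.P.MP_fecf7d_an.Ex

variable {n : ℕ}

theorem seg_norm {a b : E n} {ρ t : ℝ} (hρ : 0 < ρ) (ha : ρ ≤ ‖a‖) (hb : ρ ≤ ‖b‖)
    (hab : -(ρ ^ 2 / 2) ≤ ⟪a, b⟫) (ht : t ∈ Icc (0 : ℝ) 1) : ρ / 2 ≤ ‖b + t • (a - b)‖ := by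
  have e : b + t • (a - b) = t • a + (1 - t) • b := by
    rw [smul_sub, sub_smul, one_smul]; abel
  have h1 : ‖t • a + (1 - t) • b‖ ^ 2
      = t ^ 2 * ‖a‖ ^ 2 + 2 * (t * (1 - t)) * ⟪a, b⟫ + (1 - t) ^ 2 * ‖b‖ ^ 2 := by
    rw [norm_add_sq_real, norm_smul, norm_smul, real_inner_smul_left, real_inner_smul_right,
      mul_pow, mul_pow, Real.norm_eq_abs, Real.norm_eq_abs, sq_abs, sq_abs]
    ring
  rw [e]
  refine abs_le_of_sq_le_sq' ?_ (norm_nonneg _) |>.2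
  have h2 : ρ ^ 2 ≤ ‖a‖ ^ 2 := by gcongr
  have h3 : ρ ^ 2 ≤ ‖b‖ ^ 2 := by gcongr
  have h4 : 0 ≤ t * (1 - t) := mul_nonneg ht.1 (by linarith [ht.2])
  have h5 : t ^ 2 * ρ ^ 2 ≤ t ^ 2 * ‖a‖ ^ 2 := by gcongr
  have h6 : (1 - t) ^ 2 * ρ ^ 2 ≤ (1 - t) ^ 2 * ‖b‖ ^ 2 := by gcongr
  have h7 : 2 * (t * (1 - t)) * (-(ρ ^ 2 / 2)) ≤ 2 * (t * (1 - t)) * ⟪a, b⟫ := by gcongr
  have h8 : 0 ≤ (2 * t - 1) ^ 2 * ρ ^ 2 := by positivity
  rw [h1]; nlinarith

/-- the annulus carrying the energy -/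
def Om (z : E n) (ρ : ℝ) : Set (E n) := closedBall z (4 * ρ) \ ball z (ρ / 2)

/-- the annulus carrying the gradient of the cut-off -/
def Ann (z : E n) (ρ : ℝ) : Set (E n) := closedBall z (2 * ρ) \ ball z ρ

/-- small reference ball -/
def Bs (z : E n) (ρ : ℝ) (e : E n) : Set (E n) := ball (z + (3 * ρ) • e) (ρ / 16)

theorem measurableSet_Om (z : E n) (ρ : ℝ) : MeasurableSet (Om z ρ) :=
  measurableSet_closedBall.diff measurableSet_ball

theorem measurableSet_Ann (z : E n) (ρ : ℝ) : MeasurableSet (Ann z ρ) :=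
  measurableSet_closedBall.diff measurableSet_ball

theorem poinc_Om {u : E n → ℝ} (hu : ContDiff ℝ 1 u) {z : E n} {ρ : ℝ} (hρ : 0 < ρ)
    {S₁ S₂ : Set (E n)} (h₁ : MeasurableSet S₁) (h₂ : MeasurableSet S₂)
    (n₁ : ∀ x ∈ S₁, ρ ≤ ‖x - z‖ ∧ ‖x - z‖ ≤ 4 * ρ) (n₂ : ∀ x ∈ S₂, ρ ≤ ‖x - z‖ ∧ ‖x - z‖ ≤ 4 * ρ)
    (hi : ∀ x ∈ S₁, ∀ y ∈ S₂, -(ρ ^ 2 / 2) ≤ ⟪x - z, y - z⟫) :
    ∫⁻ y in S₂, ∫⁻ x in S₁, ‖u x - u y‖ₑ ^ n ≤ ENNReal.ofReal ((16 * ρ) ^ n) *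
      (∫⁻ x in Om z ρ, ‖fderiv ℝ u x‖ₑ ^ n) * (volume S₁ + volume S₂) := by
  have h := poinc2 hu h₁ h₂ (measurableSet_Om z ρ) (d := 8 * ρ) (by positivity)
    (fun x hx y hy => by
      have : x - y = (x - z) - (y - z) := by abel
      rw [this]
      linarith [norm_sub_le (x - z) (y - z), (n₁ x hx).2, (n₂ y hy).2])
    (fun x hx y hy t ht => by
      refine ⟨(convex_closedBall z (4 * ρ)).add_smul_sub_mem
        (by rw [mem_closedBall, dist_eq_norm]; exact (n₂ y hy).2)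
        (by rw [mem_closedBall, dist_eq_norm]; exact (n₁ x hx).2) ht, ?_⟩
      rw [mem_ball, dist_eq_norm, not_lt]
      have := seg_norm hρ (n₁ x hx).1 (n₂ y hy).1 (hi x hx y hy) ht
      refine this.trans (le_of_eq ?_)
      congr 1
      rw [show x - z - (y - z) = x - y by abel]; abel)
  rwa [show 2 * (8 * ρ) = 16 * ρ by ring] at h

theorem Bs_decomp {z e y : E n} {ρ : ℝ} (hy : y ∈ Bs z ρ e) :
    ∃ w : E n, ‖w‖ < ρ / 16 ∧ y - z = (3 * ρ) • e + w :=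
  ⟨y - (z + (3 * ρ) • e), by rw [← dist_eq_norm]; exact hy, by abel⟩

theorem Bs_norm {z e : E n} {ρ : ℝ} (hρ : 0 < ρ) (he : ‖e‖ = 1) :
    ∀ y ∈ Bs z ρ e, ρ ≤ ‖y - z‖ ∧ ‖y - z‖ ≤ 4 * ρ := fun y hy => by
  obtain ⟨w, hw, h⟩ := Bs_decomp hy
  have h1 : ‖(3 * ρ) • e‖ = 3 * ρ := by
    rw [norm_smul, he, mul_one, Real.norm_of_nonneg (by positivity)]
  rw [h]
  constructor
  · have := norm_sub_le ((3 * ρ) • e + w) w
    rw [add_sub_cancel_right, h1] at this; linarith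
  · have := norm_add_le ((3 * ρ) • e) w
    linarith

theorem vol_Bs (z e : E n) {ρ : ℝ} (hρ : 0 < ρ) :
    volume (Bs z ρ e) = volume (ball (0 : E n) (ρ / 16)) :=
  Measure.addHaar_ball_center _ _ _

theorem vol_Ann (z : E n) {ρ : ℝ} (hρ : 0 < ρ) :
    volume (Ann z ρ) ≤ 32 ^ n * volume (ball (0 : E n) (ρ / 16)) := by
  refine (measure_mono sdiff_subset).trans (le_of_eq ?_)
  rw [Measure.addHaar_closedBall _ _ (by positivity),
    Measure.addHaar_ball_of_pos _ _ (r := ρ / 16) (by positivity), finrank_euclideanSpace_fin,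
    ← mul_assoc, show 2 * ρ = 32 * (ρ / 16) by ring, mul_pow, ENNReal.ofReal_mul (by positivity),
    ENNReal.ofReal_pow (by norm_num)]
  simp

theorem ann_half {u : E n → ℝ} (hu : ContDiff ℝ 1 u) {z e : E n} {ρ : ℝ} (hρ : 0 < ρ)
    (he : ‖e‖ = 1) {c : ℝ}
    (hc : ∫⁻ x in Bs z ρ e, ‖u x - c‖ₑ ^ n ≤ 4 * (ENNReal.ofReal ((16 * ρ) ^ n) *
      ∫⁻ x in Om z ρ, ‖fderiv ℝ u x‖ₑ ^ n)) :
    ∫⁻ x in Ann z ρ ∩ {x | 0 ≤ ⟪x - z, e⟫}, ‖u x - c‖ₑ ^ n ≤ 2 ^ n * (5 * 32 ^ n + 1) *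
      (ENNReal.ofReal ((16 * ρ) ^ n) * ∫⁻ x in Om z ρ, ‖fderiv ℝ u x‖ₑ ^ n) := by
  set M := ENNReal.ofReal ((16 * ρ) ^ n) * ∫⁻ x in Om z ρ, ‖fderiv ℝ u x‖ₑ ^ n with hM
  set S := Ann z ρ ∩ {x | 0 ≤ ⟪x - z, e⟫} with hS
  set b := volume (ball (0 : E n) (ρ / 16)) with hb
  have hSm : MeasurableSet S := (measurableSet_Ann z ρ).inter
    (isClosed_le continuous_const (by fun_prop)).measurableSet
  have hSv : volume S ≤ 32 ^ n * b := (measure_mono inter_subset_left).trans (vol_Ann z hρ)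
  have h1 := poinc_Om hu hρ (z := z) (S₁ := S) (S₂ := Bs z ρ e) hSm measurableSet_ball
    (fun x hx => by
      have h1 := hx.1.1; have h2 := hx.1.2
      rw [mem_closedBall, dist_eq_norm] at h1
      rw [mem_ball, dist_eq_norm, not_lt] at h2
      exact ⟨h2, by linarith⟩) (Bs_norm hρ he)
    (fun x hx y hy => by
      obtain ⟨w, hw, h⟩ := Bs_decomp hy
      have h1 := hx.1.1
      rw [mem_closedBall, dist_eq_norm] at h1
      have h2 : 0 ≤ ⟪x - z, e⟫ := hx.2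
      have h3 := (abs_le.1 (abs_real_inner_le_norm (x - z) w)).1
      have h4 : ‖x - z‖ * ‖w‖ ≤ (2 * ρ) * (ρ / 16) := by gcongr
      have h5 : 0 ≤ 3 * ρ * ⟪x - z, e⟫ := by positivity
      rw [h, inner_add_right, real_inner_smul_right]; nlinarith)
  have hm : Measurable fun y => (32 ^ n * b) * ‖u y - c‖ₑ ^ n :=
    ((hu.continuous.sub continuous_const).enorm.measurable.pow_const n).const_mul _
  obtain ⟨y, -, hy⟩ := pick ((meas_I hu.continuous S).fun_add hm) (B := Bs z ρ e)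
    (measure_ball_pos volume _ (by positivity)).ne' measure_ball_lt_top.ne
    (M := (5 * 32 ^ n + 1) * M) (by
      rw [lintegral_add_right _ hm, lintegral_const_mul (f := fun y => ‖u y - c‖ₑ ^ n) _
        ((hu.continuous.sub continuous_const).enorm.measurable.pow_const n), vol_Bs z e hρ]
      rw [vol_Bs z e hρ] at h1
      calc _ ≤ M * (32 ^ n * b + b) + (32 ^ n * b) * (4 * M) :=
            add_le_add (h1.trans (by gcongr)) (by gcongr)
        _ = _ := by ring)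
  calc ∫⁻ x in S, ‖u x - c‖ₑ ^ n
      ≤ ∫⁻ x in S, 2 ^ n * (‖u x - u y‖ₑ ^ n + ‖u y - c‖ₑ ^ n) := by
        refine lintegral_mono fun x => le_trans ?_ (eadd_pow_le _ _ n)
        gcongr
        rw [show u x - c = (u x - u y) + (u y - c) by ring]
        exact enorm_add_le _ _
    _ = 2 ^ n * ((∫⁻ x in S, ‖u x - u y‖ₑ ^ n) + volume S * ‖u y - c‖ₑ ^ n) := by
        rw [lintegral_const_mul' _ _ (by simp), lintegral_add_right _ measurable_const]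
        simp [mul_comm]
    _ ≤ 2 ^ n * ((5 * 32 ^ n + 1) * M) := by
        refine mul_le_mul_right (le_trans ?_ hy) _
        gcongr
    _ = _ := by ring

theorem exists_perp (hn : 2 ≤ n) (e : E n) : ∃ e' : E n, ‖e'‖ = 1 ∧ ⟪e, e'⟫ = 0 := by
  have h1 : 0 < Module.finrank ℝ (ℝ ∙ e)ᗮ := by
    have h := Submodule.finrank_add_finrank_orthogonal (ℝ ∙ e)
    have h2 : Module.finrank ℝ (ℝ ∙ e) ≤ 1 := by
      simpa using finrank_span_le_card (R := ℝ) ({e} : Set (E n))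
    rw [finrank_euclideanSpace_fin] at h
    omega
  have := Module.nontrivial_of_finrank_pos h1
  obtain ⟨w, hw⟩ := exists_norm_eq (ℝ ∙ e)ᗮ zero_le_one
  exact ⟨w, hw, Submodule.mem_orthogonal_singleton_iff_inner_right.1 w.2⟩

/-- Annulus Poincare inequality; the constant is a value of `u` on the small ball. -/
theorem poinc_ann (hn : 2 ≤ n) {u : E n → ℝ} (hu : ContDiff ℝ 1 u) {z e : E n} {ρ : ℝ}
    (hρ : 0 < ρ) (he : ‖e‖ = 1) : ∃ w ∈ Bs z ρ e,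
    ∫⁻ x in Ann z ρ, ‖u x - u w‖ₑ ^ n ≤ 2 * (2 ^ n * (5 * 32 ^ n + 1) *
      (ENNReal.ofReal ((16 * ρ) ^ n) * ∫⁻ x in Om z ρ, ‖fderiv ℝ u x‖ₑ ^ n)) := by
  obtain ⟨e', he', hp⟩ := exists_perp hn e
  set M := ENNReal.ofReal ((16 * ρ) ^ n) * ∫⁻ x in Om z ρ, ‖fderiv ℝ u x‖ₑ ^ n with hM
  have key : ∀ f : E n, ‖f‖ = 1 → ⟪e, f⟫ = 0 →
      ∫⁻ y in Bs z ρ e, ∫⁻ x in Bs z ρ f, ‖u x - u y‖ₑ ^ n ≤ 2 * M * volume (Bs z ρ e) :=
    fun f hf hef => by
    have h1 := poinc_Om hu hρ (z := z) (S₁ := Bs z ρ f) (S₂ := Bs z ρ e) measurableSet_ball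
      measurableSet_ball (Bs_norm hρ hf) (Bs_norm hρ he) (fun x hx y hy => by
        obtain ⟨w, hw, h⟩ := Bs_decomp hx
        obtain ⟨w', hw', h'⟩ := Bs_decomp hy
        have a1 := (abs_le.1 (abs_real_inner_le_norm f w')).1
        have a2 := (abs_le.1 (abs_real_inner_le_norm w e)).1
        have a3 := (abs_le.1 (abs_real_inner_le_norm w w')).1
        have a4 : ‖w‖ * ‖w'‖ ≤ (ρ / 16) * (ρ / 16) := by gcongr
        rw [hf, one_mul] at a1
        rw [he, mul_one] at a2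
        have a5 : 3 * ρ * (-(ρ / 16)) ≤ 3 * ρ * ⟪f, w'⟫ := by gcongr; linarith
        have a6 : 3 * ρ * (-(ρ / 16)) ≤ 3 * ρ * ⟪w, e⟫ := by gcongr; linarith
        rw [h, h', inner_add_left, inner_add_right, inner_add_right, real_inner_smul_left,
          real_inner_smul_left, real_inner_smul_right, real_inner_smul_right,
          real_inner_comm e f, hef]
        nlinarith)
    rw [vol_Bs z f hρ, ← vol_Bs z e hρ] at h1
    exact h1.trans (le_of_eq (by ring))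
  obtain ⟨w, hw, h⟩ := pick ((meas_I hu.continuous (Bs z ρ e')).fun_add
    (meas_I hu.continuous (Bs z ρ (-e')))) (B := Bs z ρ e)
    (measure_ball_pos volume _ (by positivity)).ne' measure_ball_lt_top.ne (M := 4 * M) (by
      rw [lintegral_add_right _ (meas_I hu.continuous _)]
      refine (add_le_add (key e' he' hp) (key (-e') (by simpa using he') (by simpa using hp))).trans
        (le_of_eq (by ring)))
  refine ⟨w, hw, ?_⟩
  have h1 := ann_half hu hρ he' (le_self_add.trans h)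
  have h2 := ann_half hu hρ (e := -e') (by simpa using he') (le_add_self.trans h)
  have hsub : Ann z ρ ⊆ (Ann z ρ ∩ {x | 0 ≤ ⟪x - z, e'⟫}) ∪ (Ann z ρ ∩ {x | 0 ≤ ⟪x - z, -e'⟫}) := by
    intro x hx
    rcases le_total 0 ⟪x - z, e'⟫ with h | h
    · exact Or.inl ⟨hx, h⟩
    · exact Or.inr ⟨hx, by simpa using h⟩
  refine (lintegral_mono_set hsub).trans ((lintegral_union_le _ _ _).trans ?_)
  rw [two_mul]
  exact add_le_add h1 h2

end Pool.Agent.P.MP_fecf7d_an.Ex
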