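import Pool.Agent.P.MP_fecf7d_an.ExistHole

/-! Geometric decay of the energy of the ring potential on all small balls. -/

open MeasureTheory Set Filter Topology Metric
open scoped ContDiff RealInnerProductSpace ENNReal

namespace Pool.Agent.P.MP_fecf7d_an.Ex

variable {n : ℕ} {α β : ℝ} {A : E n → E n → E n}

theorem hole (hn : 2 ≤ n) (hα : 0 < α) (hαβ : α ≤ β) (hA : Adm α β A) :
    ∃ K : ℝ≥0∞, K ≠ ⊤ ∧ ∀ (O : Set (E n)) (g : E n → E n) (u : ℕ → E n → ℝ), Approx A O g u →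
      ∀ (z e : E n) (ρ : ℝ), 0 < ρ → ‖e‖ = 1 →
      (∀ η : E n → ℝ, ContDiff ℝ ∞ η → tsupport η ⊆ closedBall z (2 * ρ) → ∀ k, ∀ w ∈ Bs z ρ e,
        IsTest O fun x => η x * (u k x - u k w)) →
      ∫⁻ x in closedBall z ρ, ‖g x‖ₑ ^ n ≤ K * ∫⁻ x in Om z ρ, ‖g x‖ₑ ^ n := by
  have h0 : n ≠ 0 := by omega
  have hβ : 0 ≤ β := hα.le.trans hαβ
  obtain ⟨C, hC, hcut⟩ := cutoff n
  set K₁ : ℝ≥0∞ := ENNReal.ofReal (β * (β / 1) ^ (n - 1) * (16 * C) ^ n) *
    (2 * (2 ^ n * (5 * 32 ^ n + 1))) * 2 ^ n with hK₁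
  have hK₁t : K₁ ≠ ⊤ := by rw [hK₁]; finiteness
  have hαp : ENNReal.ofReal α ≠ 0 := by simpa using hα
  refine ⟨(ENNReal.ofReal α)⁻¹ * (1 + K₁), by finiteness, fun O g u hap z e ρ hρ he ht => ?_⟩
  obtain ⟨η, hη, h01, h1, hsup, hL, hz⟩ := hcut z ρ hρ
  set G : ℝ≥0∞ := ∫⁻ x, ‖g x‖ₑ ^ n with hG
  set H : ℝ≥0∞ := ∫⁻ x in Om z ρ, ‖g x‖ₑ ^ n with hH
  have hGt : G ≠ ⊤ := (lint_lt_top h0 hap.gm).ne
  have hAO : Ann z ρ ⊆ Om z ρ := sdiff_subset_sdiff
    (closedBall_subset_closedBall (by linarith)) (ball_subset_ball (by linarith))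
  have step : ∀ d : ℝ, 0 < d → ∀ k, ENNReal.ofReal α * ∫⁻ x in closedBall z ρ, ‖g x‖ₑ ^ n ≤
      ENNReal.ofReal d * G + (1 + K₁) * H + (ENNReal.ofReal (β * (β / d) ^ (n - 1)) + K₁) *
        ∫⁻ x, ‖gradient (u k) x - g x‖ₑ ^ n := fun d hd k => by
    have hu1 : ContDiff ℝ 1 (u k) := (hap.sm k).of_le (by exact_mod_cast le_top)
    obtain ⟨w, hw, hP⟩ := poinc_ann hn hu1 (z := z) hρ he
    have h2 := hole_step h0 hα hαβ hA hap.gm hu1 (hη.of_le (by exact_mod_cast le_top))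
      ((isCompact_closedBall z (2 * ρ)).of_isClosed_subset (isClosed_tsupport _) hsup)
      hd h01 h1 hL hz (hap.eq _ (ht η hη hsup k w hw))
    have h3 := grad_le hap.gm.1 (u k) (Om z ρ)
    have h4 : ENNReal.ofReal (β * (β / 1) ^ (n - 1) * (C / ρ) ^ n) *
        ENNReal.ofReal ((16 * ρ) ^ n) = ENNReal.ofReal (β * (β / 1) ^ (n - 1) * (16 * C) ^ n) := by
      rw [← ENNReal.ofReal_mul (by positivity), mul_assoc, ← mul_pow]
      congr 3; field_simp
    refine h2.trans ?_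
    calc _ ≤ ENNReal.ofReal d * G +
          ENNReal.ofReal (β * (β / d) ^ (n - 1)) * (∫⁻ x, ‖gradient (u k) x - g x‖ₑ ^ n) +
          (H + ENNReal.ofReal (β * (β / 1) ^ (n - 1) * (C / ρ) ^ n) *
            (2 * (2 ^ n * (5 * 32 ^ n + 1) * (ENNReal.ofReal ((16 * ρ) ^ n) *
              (2 ^ n * (H + ∫⁻ x, ‖gradient (u k) x - g x‖ₑ ^ n)))))) := by
          refine add_le_add le_rfl (add_le_add (lintegral_mono_set hAO)
            (mul_le_mul_right (hP.trans ?_) _))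
          gcongr
      _ = _ := by rw [hK₁, ← h4]; ring
  have step2 : ∀ d : ℝ, 0 < d → ENNReal.ofReal α * ∫⁻ x in closedBall z ρ, ‖g x‖ₑ ^ n ≤
      ENNReal.ofReal d * G + (1 + K₁) * H := fun d hd => by
    have h1 := (ENNReal.Tendsto.const_mul (a := ENNReal.ofReal (β * (β / d) ^ (n - 1)) + K₁)
      hap.lim (Or.inr (by finiteness))).const_add (ENNReal.ofReal d * G + (1 + K₁) * H)
    rw [mul_zero, add_zero] at h1
    exact ge_of_tendsto' h1 (step d hd)
  have step3 : ENNReal.ofReal α * ∫⁻ x in closedBall z ρ, ‖g x‖ₑ ^ n ≤ (1 + K₁) * H := by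
    have h1 : Tendsto (fun d : ℝ => ENNReal.ofReal d) (𝓝[>] 0) (𝓝 0) := by
      have := (ENNReal.continuous_ofReal.tendsto 0).mono_left (nhdsWithin_le_nhds (s := Ioi 0))
      simpa using this
    have h2 := (ENNReal.Tendsto.mul_const (b := G) h1 (Or.inr hGt)).add_const ((1 + K₁) * H)
    rw [zero_mul, zero_add] at h2
    exact ge_of_tendsto h2 (eventually_nhdsWithin_of_forall fun d hd => step2 d hd)
  rw [mul_assoc]
  exact (ENNReal.mul_le_iff_le_inv hαp ENNReal.ofReal_ne_top).1 step3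

theorem exists_dir (hn : n ≠ 0) (v : E n) : ∃ e : E n, ‖e‖ = 1 ∧ v = ‖v‖ • e := by
  have : Nontrivial (E n) := by
    apply Module.nontrivial_of_finrank_pos (R := ℝ)
    rw [finrank_euclideanSpace_fin]; omega
  by_cases hv : v = 0
  · obtain ⟨e, he⟩ := exists_norm_eq (E n) zero_le_one
    exact ⟨e, he, by simp [hv]⟩
  · have : ‖v‖ ≠ 0 := norm_ne_zero_iff.2 hv
    exact ⟨‖v‖⁻¹ • v, by rw [norm_smul]; simp [this], by rw [smul_smul]; simp [this]⟩

theorem ring_test (hn : n ≠ 0) {y : E n} {r R : ℝ} (z : E n) {ρ : ℝ} (hρ : 0 < ρ)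
    (h1 : 4 * ρ ≤ r) (h2 : 4 * ρ < R - r) : ∃ e : E n, ‖e‖ = 1 ∧ ∀ v η : E n → ℝ,
      ContDiff ℝ ∞ v → (∀ x, dist x y ≤ r → ∀ᶠ w in 𝓝 x, v w = 1) →
      (∀ x, R ≤ dist x y → ∀ᶠ w in 𝓝 x, v w = 0) → ContDiff ℝ ∞ η →
      tsupport η ⊆ closedBall z (2 * ρ) → ∀ w ∈ Bs z ρ e,
      IsTest (Ring y r R) fun x => η x * (v x - v w) := by
  obtain ⟨e, he, hv⟩ := exists_dir hn (y - z)
  have hD : ‖y - z‖ = dist z y := by rw [dist_comm, dist_eq_norm]
  have gen : ∀ (v η : E n → ℝ) (c : ℝ), ContDiff ℝ ∞ v → ContDiff ℝ ∞ η →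
      tsupport η ⊆ closedBall z (2 * ρ) →
      (∀ x, dist x z ≤ 2 * ρ → x ∉ Ring y r R → ∀ᶠ w in 𝓝 x, v w = c) →
      IsTest (Ring y r R) fun x => η x * (v x - c) := fun v η c hv hη hs h => by
    refine ⟨hη.mul (hv.sub contDiff_const), HasCompactSupport.mul_right
      ((isCompact_closedBall z (2 * ρ)).of_isClosed_subset (isClosed_tsupport _) hs),
      fun x hx => ?_⟩
    by_contra hx'
    refine (notMem_tsupport_iff_eventuallyEq.2 ?_) hx
    filter_upwards [h x (hs (tsupport_mul_subset_left hx)) hx'] with w hw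
    simp [hw]
  by_cases hB : dist z y ≤ r + 2 * ρ
  · refine ⟨e, he, fun v η hv1 hin hout hη hs w hw => ?_⟩
    have hw1 : dist w y ≤ r := by
      have e1 : z + (3 * ρ) • e - y = (3 * ρ - dist z y) • e := by
        rw [sub_smul, ← hD, ← hv]; abel
      have e2 : dist (z + (3 * ρ) • e) y ≤ r - ρ := by
        rw [dist_eq_norm, e1, norm_smul, he, mul_one, Real.norm_eq_abs, abs_le]
        constructor <;> linarith [dist_nonneg (x := z) (y := y)]
      linarith [dist_triangle w (z + (3 * ρ) • e) y, mem_ball.1 hw]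
    rw [(hin w hw1).self_of_nhds]
    refine gen v η 1 hv1 hη hs fun x hx hx' => hin x ?_
    by_contra h
    exact hx' ⟨not_le.1 h, by linarith [dist_triangle x z y]⟩
  by_cases hC : R ≤ dist z y + 2 * ρ
  · refine ⟨-e, by simpa using he, fun v η hv1 hin hout hη hs w hw => ?_⟩
    have hw1 : R ≤ dist w y := by
      have e1 : z + (3 * ρ) • (-e) - y = (-(3 * ρ + dist z y)) • e := by
        rw [neg_smul, add_smul, ← hD, ← hv, smul_neg]; abel
      have e2 : dist (z + (3 * ρ) • (-e)) y = 3 * ρ + dist z y := by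
        rw [dist_eq_norm, e1, norm_smul, he, mul_one, norm_neg, Real.norm_of_nonneg]
        positivity
      linarith [dist_triangle_left (z + (3 * ρ) • (-e)) y w, mem_ball.1 hw]
    rw [(hout w hw1).self_of_nhds]
    refine gen v η 0 hv1 hη hs fun x hx hx' => hout x ?_
    by_contra h
    exact hx' ⟨by linarith [dist_triangle_left z y x], not_le.1 h⟩
  · refine ⟨e, he, fun v η hv1 hin hout hη hs w hw => gen v η _ hv1 hη hs fun x hx hx' => ?_⟩
    exact absurd ⟨by linarith [dist_triangle_left z y x], by linarith [dist_triangle x z y]⟩ hx'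

theorem decay (hn : 2 ≤ n) (hα : 0 < α) (hαβ : α ≤ β) (hA : Adm α β A) {y : E n} {r R : ℝ}
    (hr : 0 < r) (hR : r < R) {g : E n → E n} {u : ℕ → E n → ℝ} (hap : Approx A (Ring y r R) g u)
    (hin : ∀ k x, dist x y ≤ r → ∀ᶠ w in 𝓝 x, u k w = 1)
    (hout : ∀ k x, R ≤ dist x y → ∀ᶠ w in 𝓝 x, u k w = 0) :
    ∃ s₀ θ : ℝ, 0 < s₀ ∧ 0 < θ ∧ θ < 1 ∧ ∀ (z : E n) (j : ℕ),
      ∫⁻ x in closedBall z (s₀ / 16 ^ j), ‖g x‖ₑ ^ n ≤
        ENNReal.ofReal (θ ^ j) * ∫⁻ x, ‖g x‖ₑ ^ n := by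
  obtain ⟨K, hK, hh⟩ := hole hn hα hαβ hA
  set c : ℝ := K.toReal + 1 with hc
  have hc0 : 0 < c := by positivity
  have hKc : K ≤ ENNReal.ofReal c := by
    rw [← ENNReal.ofReal_toReal hK]; exact ENNReal.ofReal_le_ofReal (by linarith)
  have hθ : 0 < c / (1 + c) := by positivity
  have one : ∀ (z : E n) (s : ℝ), 0 < s → s ≤ r → s < R - r →
      ∫⁻ x in closedBall z (s / 16), ‖g x‖ₑ ^ n ≤
        ENNReal.ofReal (c / (1 + c)) * ∫⁻ x in closedBall z s, ‖g x‖ₑ ^ n := by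
    intro z s hs h1 h2
    obtain ⟨e, he, ht⟩ := ring_test (by omega) (y := y) (r := r) (R := R) z (ρ := s / 4)
      (by positivity) (by linarith) (by linarith)
    have h3 := hh _ g u hap z e (s / 4) (by positivity) he
      fun η hη hsup k w hw => ht (u k) η (hap.sm k) (hin k) (hout k) hη hsup w hw
    set X := ∫⁻ x in ball z (s / 4 / 2), ‖g x‖ₑ ^ n with hX
    have h4 : X ≤ ENNReal.ofReal c * ∫⁻ x in Om z (s / 4), ‖g x‖ₑ ^ n :=
      (lintegral_mono_set (ball_subset_closedBall.trans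
        (closedBall_subset_closedBall (by linarith)))).trans (h3.trans (by gcongr))
    have h5 : X + ∫⁻ x in Om z (s / 4), ‖g x‖ₑ ^ n ≤ ∫⁻ x in closedBall z s, ‖g x‖ₑ ^ n := by
      rw [hX, ← lintegral_union (measurableSet_Om z _) disjoint_sdiff_right]
      refine lintegral_mono_set (union_subset (ball_subset_closedBall.trans
        (closedBall_subset_closedBall (by linarith))) (sdiff_subset.trans
        (closedBall_subset_closedBall (by linarith))))
    have h6 : ENNReal.ofReal (1 + c) * X ≤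
        ENNReal.ofReal c * ∫⁻ x in closedBall z s, ‖g x‖ₑ ^ n := by
      rw [ENNReal.ofReal_add zero_le_one hc0.le, add_mul, ENNReal.ofReal_one, one_mul]
      calc _ ≤ ENNReal.ofReal c * (∫⁻ x in Om z (s / 4), ‖g x‖ₑ ^ n) + ENNReal.ofReal c * X := by
            gcongr
        _ = ENNReal.ofReal c * (X + ∫⁻ x in Om z (s / 4), ‖g x‖ₑ ^ n) := by ring
        _ ≤ _ := by gcongr
    refine (lintegral_mono_set (closedBall_subset_ball (by linarith))).trans
      (show X ≤ _ from ?_)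
    rw [ENNReal.ofReal_div_of_pos (by positivity), div_eq_mul_inv, mul_comm (ENNReal.ofReal c),
      mul_assoc]
    exact (ENNReal.mul_le_iff_le_inv (by simpa using (by positivity : 0 < 1 + c))
      ENNReal.ofReal_ne_top).1 h6
  have hs0 : 0 < min r ((R - r) / 2) := lt_min hr (by linarith)
  refine ⟨min r ((R - r) / 2), c / (1 + c), hs0, hθ, by rw [div_lt_one (by positivity)]; linarith,
    fun z j => ?_⟩
  induction j with
  | zero => simpa using setLIntegral_le_lintegral _ _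
  | succ j ih =>
    have h1 : min r ((R - r) / 2) / 16 ^ j ≤ min r ((R - r) / 2) :=
      div_le_self hs0.le (one_le_pow₀ (by norm_num))
    rw [pow_succ, ← div_div]
    refine (one z _ (by positivity) (h1.trans (min_le_left _ _))
      (by linarith [min_le_right r ((R - r) / 2)])).trans ?_
    rw [pow_succ', ENNReal.ofReal_mul hθ.le, mul_assoc]
    gcongr

end Pool.Agent.P.MP_fecf7d_an.Ex
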