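import Pool.Agent.P.MP_fecf7d_an.ExistAnn

/-! Hole filling. -/

open MeasureTheory Set Filter Topology Metric
open scoped ContDiff RealInnerProductSpace ENNReal

namespace Pool.Agent.P.MP_fecf7d_an.Ex

variable {n : ℕ} {α β : ℝ} {A : E n → E n → E n}

theorem inner_grad (φ : E n → ℝ) (x a : E n) : ⟪a, gradient φ x⟫ = fderiv ℝ φ x a := by
  rw [real_inner_comm, gradient, InnerProductSpace.toDual_symm_apply]

theorem norm_grad (φ : E n → ℝ) (x : E n) : ‖gradient φ x‖ = ‖fderiv ℝ φ x‖ := by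
  rw [gradient, LinearIsometryEquiv.norm_map]

theorem enorm_grad (φ : E n → ℝ) (x : E n) : ‖gradient φ x‖ₑ = ‖fderiv ℝ φ x‖ₑ := by
  rw [← ofReal_norm, ← ofReal_norm, norm_grad]

theorem cont_grad {φ : E n → ℝ} (h : ContDiff ℝ 1 φ) : Continuous (gradient φ) :=
  (InnerProductSpace.toDual ℝ (E n)).symm.continuous.comp (h.continuous_fderiv one_ne_zero)

theorem memLp_grad {φ : E n → ℝ} (h : ContDiff ℝ 1 φ) (hc : HasCompactSupport φ) (p : ℝ≥0∞) :
    MemLp (gradient φ) p volume :=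
  (cont_grad h).memLp_of_hasCompactSupport
    ((hc.fderiv (𝕜 := ℝ)).comp_left (g := (InnerProductSpace.toDual ℝ (E n)).symm) (map_zero _))

theorem cutoff (n : ℕ) : ∃ C : ℝ, 0 < C ∧ ∀ (z : E n) (ρ : ℝ), 0 < ρ →
    ∃ η : E n → ℝ, ContDiff ℝ ∞ η ∧ (∀ x, 0 ≤ η x ∧ η x ≤ 1) ∧
      (∀ x ∈ closedBall z ρ, η x = 1) ∧ tsupport η ⊆ closedBall z (2 * ρ) ∧
      (∀ x, ‖fderiv ℝ η x‖ ≤ C / ρ) ∧ ∀ x ∉ Ann z ρ, fderiv ℝ η x = 0 := by
  let b : ContDiffBump (0 : E n) := ⟨1, 2, one_pos, one_lt_two⟩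
  obtain ⟨C, hC⟩ := ((b.contDiff (n := 1)).continuous_fderiv one_ne_zero
    ).bounded_above_of_compact_support (b.hasCompactSupport.fderiv (𝕜 := ℝ))
  have hC0 : 0 ≤ C := (norm_nonneg _).trans (hC 0)
  refine ⟨C + 1, by linarith, fun z ρ hρ => ?_⟩
  have hn : ∀ x : E n, dist (ρ⁻¹ • (x - z)) 0 = dist x z / ρ := fun x => by
    rw [dist_zero_right, norm_smul, Real.norm_of_nonneg (by positivity), dist_eq_norm]
    field_simp
  have h1 : ∀ x ∈ closedBall z ρ, b (ρ⁻¹ • (x - z)) = 1 := fun x hx =>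
    b.one_of_mem_closedBall (by
      rw [mem_closedBall, hn, div_le_iff₀ hρ]; simpa [b] using hx)
  have h2 : tsupport (fun x => b (ρ⁻¹ • (x - z))) ⊆ closedBall z (2 * ρ) := by
    refine closure_minimal (fun x hx => ?_) isClosed_closedBall
    by_contra h
    refine hx (b.zero_of_le_dist ?_)
    rw [hn, le_div_iff₀ hρ]
    exact (not_le.1 (by simpa using h)).le
  refine ⟨fun x => b (ρ⁻¹ • (x - z)), b.contDiff.comp (by fun_prop),
    fun x => ⟨b.nonneg, b.le_one⟩, h1, h2, fun x => ?_, fun x hx => ?_⟩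
  · have hd : HasFDerivAt (fun x : E n => ρ⁻¹ • (x - z)) (ρ⁻¹ • ContinuousLinearMap.id ℝ (E n)) x :=
      ((hasFDerivAt_id x).sub_const z).const_smul ρ⁻¹
    have := (((b.contDiff (n := 1)).differentiable one_ne_zero _).hasFDerivAt.comp x hd).fderiv
    erw [this]
    refine (ContinuousLinearMap.opNorm_comp_le _ _).trans ?_
    have h3 : ‖ρ⁻¹ • ContinuousLinearMap.id ℝ (E n)‖ ≤ ρ⁻¹ := by
      rw [norm_smul, Real.norm_of_nonneg (by positivity)]
      exact mul_le_of_le_one_right (by positivity) ContinuousLinearMap.norm_id_le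
    rw [div_eq_mul_inv]
    exact mul_le_mul ((hC _).trans (by linarith)) h3 (norm_nonneg _) (by linarith)
  · by_cases h : x ∈ ball z ρ
    · have : (fun x => b (ρ⁻¹ • (x - z))) =ᶠ[𝓝 x] fun _ => 1 := by
        filter_upwards [isOpen_ball.mem_nhds h] with w hw using h1 w (ball_subset_closedBall hw)
      rw [this.fderiv_eq]; simp
    · exact fderiv_of_notMem_tsupport ℝ fun h' => hx ⟨h2 h', h⟩

theorem lint_le_of_int_zero {P N : E n → ℝ≥0∞} {Q : E n → ℝ} (hQ : Integrable Q volume)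
    (h0 : ∫ x, Q x = 0)
    (h : ∀ᵐ x, ∃ p m : ℝ, 0 ≤ p ∧ 0 ≤ m ∧ p ≤ Q x + m ∧ P x ≤ ENNReal.ofReal p ∧
      ENNReal.ofReal m ≤ N x) : ∫⁻ x, P x ≤ ∫⁻ x, N x := by
  have f1 : ∫⁻ x, ENNReal.ofReal (Q x) ≠ ⊤ := hQ.lintegral_lt_top.ne
  have f2 : ∫⁻ x, ENNReal.ofReal (-Q x) ≠ ⊤ := hQ.neg.lintegral_lt_top.ne
  have e : ∫⁻ x, ENNReal.ofReal (Q x) = ∫⁻ x, ENNReal.ofReal (-Q x) := by
    rw [integral_eq_lintegral_pos_part_sub_lintegral_neg_part hQ, sub_eq_zero] at h0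
    exact (ENNReal.toReal_eq_toReal_iff' f1 f2).1 h0
  have h1 : ∫⁻ x, P x + ENNReal.ofReal (-Q x) ≤ ∫⁻ x, N x + ENNReal.ofReal (Q x) := by
    refine lintegral_mono_ae ?_
    filter_upwards [h] with x ⟨p, m, hp, hm, h1, h2, h3⟩
    refine (add_le_add h2 le_rfl).trans (le_trans ?_ (add_le_add h3 le_rfl))
    rcases le_total 0 (Q x) with hq | hq
    · rw [ENNReal.ofReal_of_nonpos (by linarith : -Q x ≤ 0), add_zero,
        ← ENNReal.ofReal_add hm hq]
      exact ENNReal.ofReal_le_ofReal (by linarith)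
    · rw [ENNReal.ofReal_of_nonpos hq, add_zero, ← ENNReal.ofReal_add hp (by linarith)]
      exact ENNReal.ofReal_le_ofReal (by linarith)
  rw [lintegral_add_right' _ hQ.1.aemeasurable.ennreal_ofReal, e] at h1
  exact (ENNReal.add_le_add_iff_right f2).1 ((le_lintegral_add _ _).trans h1)

/-- A weak solution together with smooth approximants. -/
structure Approx (A : E n → E n → E n) (O : Set (E n)) (g : E n → E n) (u : ℕ → E n → ℝ) :
    Prop where
  gm : MemLp g n volume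
  sm : ∀ k, ContDiff ℝ ∞ (u k)
  lim : Tendsto (fun k => ∫⁻ x, ‖gradient (u k) x - g x‖ₑ ^ n) atTop (𝓝 0)
  eq : ∀ φ, IsTest O φ → ∫ x, ⟪A x (g x), gradient φ x⟫ = 0

theorem grad_le {g : E n → E n} (hg : AEStronglyMeasurable g volume) (v : E n → ℝ)
    (S : Set (E n)) : ∫⁻ x in S, ‖fderiv ℝ v x‖ₑ ^ n ≤
      2 ^ n * ((∫⁻ x in S, ‖g x‖ₑ ^ n) + ∫⁻ x, ‖gradient v x - g x‖ₑ ^ n) := by
  calc ∫⁻ x in S, ‖fderiv ℝ v x‖ₑ ^ n
      ≤ ∫⁻ x in S, 2 ^ n * (‖g x‖ₑ ^ n + ‖gradient v x - g x‖ₑ ^ n) := by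
        refine lintegral_mono fun x => le_trans ?_ (eadd_pow_le _ _ n)
        gcongr
        rw [← enorm_grad]
        conv_lhs => rw [show gradient v x = g x + (gradient v x - g x) by abel]
        exact enorm_add_le _ _
    _ = 2 ^ n * ((∫⁻ x in S, ‖g x‖ₑ ^ n) + ∫⁻ x in S, ‖gradient v x - g x‖ₑ ^ n) := by
        rw [lintegral_const_mul' _ _ (by simp),
          lintegral_add_left' (hg.enorm.pow_const n).restrict]
    _ ≤ _ := by gcongr; exact Measure.restrict_le_self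

theorem hole_step (hn : n ≠ 0) (hα : 0 < α) (hαβ : α ≤ β) (hA : Adm α β A)
    {g : E n → E n} (hg : MemLp g n volume) {v η : E n → ℝ} (hv : ContDiff ℝ 1 v)
    (hη : ContDiff ℝ 1 η) (hηc : HasCompactSupport η) {z : E n} {ρ L c d : ℝ} (hd : 0 < d)
    (h01 : ∀ x, 0 ≤ η x ∧ η x ≤ 1) (h1 : ∀ x ∈ closedBall z ρ, η x = 1)
    (hL : ∀ x, ‖fderiv ℝ η x‖ ≤ L) (h0 : ∀ x ∉ Ann z ρ, fderiv ℝ η x = 0)
    (heq : ∫ x, ⟪A x (g x), gradient (fun x => η x * (v x - c)) x⟫ = 0) :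
    ENNReal.ofReal α * ∫⁻ x in closedBall z ρ, ‖g x‖ₑ ^ n ≤
      ENNReal.ofReal d * (∫⁻ x, ‖g x‖ₑ ^ n) +
      ENNReal.ofReal (β * (β / d) ^ (n - 1)) * (∫⁻ x, ‖gradient v x - g x‖ₑ ^ n) +
      ((∫⁻ x in Ann z ρ, ‖g x‖ₑ ^ n) +
        ENNReal.ofReal (β * (β / 1) ^ (n - 1) * L ^ n) * ∫⁻ x in Ann z ρ, ‖v x - c‖ₑ ^ n) := by
  have hβ : 0 ≤ β := hα.le.trans hαβ
  have hL0 : 0 ≤ L := (norm_nonneg _).trans (hL 0)
  have hgm : AEMeasurable (fun x => ‖g x‖ₑ ^ n) volume := hg.1.enorm.pow_const n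
  have hgv : AEMeasurable (fun x => ‖gradient v x - g x‖ₑ ^ n) volume :=
    ((cont_grad hv).aestronglyMeasurable.sub hg.1).enorm.pow_const n
  have hQ : Integrable (fun x => ⟪A x (g x), gradient (fun x => η x * (v x - c)) x⟫) volume :=
    adm_int hn hβ hA hg (memLp_grad (hη.mul (hv.sub contDiff_const)) hηc.mul_right _)
  rw [← lintegral_const_mul' _ _ ENNReal.ofReal_ne_top,
    ← lintegral_const_mul' _ _ ENNReal.ofReal_ne_top,
    ← lintegral_const_mul' _ _ ENNReal.ofReal_ne_top,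
    ← lintegral_const_mul' _ _ ENNReal.ofReal_ne_top,
    ← lintegral_add_left' hgm.restrict, ← lintegral_add_left' (hgm.const_mul _),
    ← lintegral_indicator measurableSet_closedBall, ← lintegral_indicator (measurableSet_Ann z ρ),
    ← lintegral_add_left' ((hgm.const_mul _).fun_add (hgv.const_mul _))]
  refine lint_le_of_int_zero hQ heq ?_
  filter_upwards [hA.ae, adm_bound hn hβ hA hd, adm_bound hn hβ hA one_pos] with x hx hb hb1
  have hfd : fderiv ℝ (fun x => η x * (v x - c)) x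
      = η x • fderiv ℝ v x + (v x - c) • fderiv ℝ η x :=
    ((hη.differentiable one_ne_zero x).hasFDerivAt.mul
      ((hv.differentiable one_ne_zero x).hasFDerivAt.sub_const c)).fderiv
  have hco := (hx.2.1 (g x)).1
  have e1 := hb (g x) (gradient v x - g x)
  have e2 := hb1 (g x) ((v x - c) • gradient η x)
  rw [inner_sub_right, inner_grad] at e1
  rw [real_inner_smul_right, inner_grad, norm_smul, norm_grad, mul_pow] at e2
  have e3 : α * η x * ‖g x‖ ^ n ≤ η x * ⟪A x (g x), g x⟫ := by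
    have := mul_le_mul_of_nonneg_left hco (h01 x).1
    linarith
  have e4 : η x * ⟪A x (g x), g x⟫ ≤ η x * fderiv ℝ v x (A x (g x)) +
      (d * ‖g x‖ ^ n + β * (β / d) ^ (n - 1) * ‖gradient v x - g x‖ ^ n) := by
    have h2 := (abs_le.1 e1).1
    have h3 : 0 ≤ d * ‖g x‖ ^ n + β * (β / d) ^ (n - 1) * ‖gradient v x - g x‖ ^ n := by
      positivity
    nlinarith [(h01 x).1, (h01 x).2]
  refine ⟨α * η x * ‖g x‖ ^ n,
    d * ‖g x‖ ^ n + β * (β / d) ^ (n - 1) * ‖gradient v x - g x‖ ^ n +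
      (Ann z ρ).indicator (fun x => ‖g x‖ ^ n + β * (β / 1) ^ (n - 1) * L ^ n * ‖v x - c‖ ^ n) x,
    by have := (h01 x).1; positivity,
    add_nonneg (by positivity) (indicator_nonneg (fun _ _ => by positivity) _), ?_, ?_, ?_⟩
  · rw [inner_grad, hfd]
    simp only [add_apply, smul_apply, smul_eq_mul]
    by_cases hxA : x ∈ Ann z ρ
    · rw [indicator_of_mem hxA]
      have h2 := (abs_le.1 e2).1
      have h3 : β * (β / 1) ^ (n - 1) * (‖v x - c‖ ^ n * ‖fderiv ℝ η x‖ ^ n)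
          ≤ β * (β / 1) ^ (n - 1) * (‖v x - c‖ ^ n * L ^ n) := by gcongr; exact hL x
      linarith
    · rw [indicator_of_notMem hxA, h0 x hxA]
      simp only [zero_apply, mul_zero, add_zero]
      linarith
  · by_cases hxB : x ∈ closedBall z ρ
    · rw [indicator_of_mem hxB, h1 x hxB, mul_one, ENNReal.ofReal_mul hα.le,
        ENNReal.ofReal_pow (norm_nonneg _), ofReal_norm]
    · rw [indicator_of_notMem hxB]; exact zero_le
  · refine ENNReal.ofReal_add_le.trans (add_le_add (ENNReal.ofReal_add_le.trans (le_of_eq ?_)) ?_)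
    · rw [ENNReal.ofReal_mul hd.le, ENNReal.ofReal_mul (by positivity),
        ENNReal.ofReal_pow (norm_nonneg _), ENNReal.ofReal_pow (norm_nonneg _), ofReal_norm,
        ofReal_norm]
    · by_cases hxA : x ∈ Ann z ρ
      · rw [indicator_of_mem hxA, indicator_of_mem hxA]
        refine ENNReal.ofReal_add_le.trans (le_of_eq ?_)
        rw [ENNReal.ofReal_mul (by positivity), ENNReal.ofReal_pow (norm_nonneg _),
          ENNReal.ofReal_pow (norm_nonneg _), ofReal_norm, ofReal_norm]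
      · rw [indicator_of_notMem hxA, indicator_of_notMem hxA]; simp

end Pool.Agent.P.MP_fecf7d_an.Ex
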