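import Mathlib

/-! Abstract existence theorem for monotone operators in a Banach space with a Clarkson
inequality: finite intersection property from Ville's lemma, then the Minty trick. -/

open Set Filter Topology Metric

namespace Pool.Agent.P.MP_fecf7d_an.Ex

/-- Closed convex subsets of a bounded set with the finite intersection property meet. -/
theorem nested_meet {X : Type*} [NormedAddCommGroup X] [NormedSpace ℝ X] [CompleteSpace X]
    {n : ℕ} (hn : n ≠ 0)
    (hC : ∀ x y : X, ‖x + y‖ ^ n + ‖x - y‖ ^ n ≤ 2 ^ (n - 1) * (‖x‖ ^ n + ‖y‖ ^ n))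
    {ι : Type*} (K : Set X) (R : ℝ) (hKR : ∀ x ∈ K, ‖x‖ ≤ R) (hKc : IsClosed K)
    (hKv : Convex ℝ K) (C : ι → Set X) (hCc : ∀ i, IsClosed (C i)) (hCv : ∀ i, Convex ℝ (C i))
    (hfip : ∀ s : Finset ι, ∃ x ∈ K, ∀ i ∈ s, x ∈ C i) : ∃ x ∈ K, ∀ i, x ∈ C i := by
  classical
  set D : Finset ι → Set X := fun s => {x | x ∈ K ∧ ∀ i ∈ s, x ∈ C i} with hD
  have hDne : ∀ s, (D s).Nonempty := fun s => by
    obtain ⟨x, h1, h2⟩ := hfip s; exact ⟨x, h1, h2⟩
  have hDc : ∀ s, IsClosed (D s) := fun s => by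
    have : D s = K ∩ ⋂ i ∈ s, C i := by ext x; simp [hD]
    rw [this]; exact hKc.inter (isClosed_biInter fun i _ => hCc i)
  have hDv : ∀ s, Convex ℝ (D s) := fun s => by
    have : D s = K ∩ ⋂ i ∈ s, C i := by ext x; simp [hD]
    rw [this]; exact hKv.inter (convex_iInter₂ fun i _ => hCv i)
  set d : Finset ι → ℝ := fun s => sInf ((fun x => ‖x‖ ^ n) '' D s) with hd
  have hbb : ∀ s, BddBelow ((fun x : X => ‖x‖ ^ n) '' D s) := fun s =>
    ⟨0, by rintro _ ⟨x, -, rfl⟩; positivity⟩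
  have hdle : ∀ s, ∀ x ∈ D s, d s ≤ ‖x‖ ^ n := fun s x hx => csInf_le (hbb s) ⟨x, hx, rfl⟩
  have hdR : ∀ s, d s ≤ R ^ n := fun s => by
    obtain ⟨x, hx⟩ := hDne s
    exact (hdle s x hx).trans (pow_le_pow_left₀ (norm_nonneg _) (hKR x hx.1) n)
  have hba : BddAbove (range d) := ⟨R ^ n, by rintro _ ⟨s, rfl⟩; exact hdR s⟩
  set δ : ℝ := ⨆ s, d s with hδ
  have hdδ : ∀ s, d s ≤ δ := fun s => le_ciSup hba s
  set F : Finset ι × {e : ℝ // 0 < e} → Set X :=
    fun p => {x | x ∈ D p.1 ∧ ‖x‖ ^ n < δ + p.2.1} with hF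
  have hFne : ∀ p, (F p).Nonempty := fun p => by
    have h1 : d p.1 < δ + p.2.1 := by linarith [hdδ p.1, p.2.2]
    obtain ⟨_, ⟨x, hx, rfl⟩, h2⟩ := exists_lt_of_csInf_lt ((hDne p.1).image _) h1
    exact ⟨x, hx, h2⟩
  have hdir : Directed (· ≥ ·) fun p => 𝓟 (F p) := by
    intro p q
    refine ⟨(p.1 ∪ q.1, ⟨min p.2.1 q.2.1, lt_min p.2.2 q.2.2⟩), ?_, ?_⟩
    · simp only [ge_iff_le, principal_mono]
      rintro x ⟨⟨h1, h2⟩, h3⟩
      exact ⟨⟨h1, fun i hi => h2 i (Finset.mem_union_left _ hi)⟩,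
        h3.trans_le (by have := min_le_left p.2.1 q.2.1; simpa using this)⟩
    · simp only [ge_iff_le, principal_mono]
      rintro x ⟨⟨h1, h2⟩, h3⟩
      exact ⟨⟨h1, fun i hi => h2 i (Finset.mem_union_right _ hi)⟩,
        h3.trans_le (by have := min_le_right p.2.1 q.2.1; simpa using this)⟩
  have : Nonempty (Finset ι × {e : ℝ // 0 < e}) := ⟨(∅, ⟨1, one_pos⟩)⟩
  have hne : (⨅ p, 𝓟 (F p)).NeBot :=
    iInf_neBot_of_directed hdir fun p => principal_neBot_iff.2 (hFne p)
  have hcau : Cauchy (⨅ p, 𝓟 (F p)) := by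
    rw [Metric.cauchy_iff]
    refine ⟨hne, fun ε hε => ?_⟩
    set η : ℝ := ε ^ n / 2 ^ (n + 1) with hη
    have hη0 : 0 < η := by positivity
    obtain ⟨s, hs⟩ : ∃ s, δ - η < d s := exists_lt_of_lt_ciSup (by linarith)
    refine ⟨F (s, ⟨η, hη0⟩), mem_iInf_of_mem _ (mem_principal_self _), ?_⟩
    rintro x ⟨hx, hx'⟩ y ⟨hy, hy'⟩
    have hm : (1 / 2 : ℝ) • x + (1 / 2 : ℝ) • y ∈ D s :=
      hDv s hx hy (by norm_num) (by norm_num) (by norm_num)
    have h1 := hdle s _ hm
    rw [← smul_add, norm_smul, mul_pow] at h1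
    have h2 : ‖(1 / 2 : ℝ)‖ ^ n * 2 ^ n = 1 := by
      rw [← mul_pow]; norm_num
    have h3 : 2 ^ n * (δ - η) < ‖x + y‖ ^ n := by
      have : (2 : ℝ) ^ n * (δ - η) < 2 ^ n * (‖(1 / 2 : ℝ)‖ ^ n * ‖x + y‖ ^ n) :=
        mul_lt_mul_of_pos_left (hs.trans_le h1) (by positivity)
      calc (2 : ℝ) ^ n * (δ - η) < _ := this
        _ = (‖(1 / 2 : ℝ)‖ ^ n * 2 ^ n) * ‖x + y‖ ^ n := by ring
        _ = _ := by rw [h2, one_mul]
    have h4 : (2 : ℝ) ^ n = 2 ^ (n - 1) * 2 := by
      rw [← pow_succ]; congr 1; omega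
    have h5 := hC x y
    have h6 : (2 : ℝ) ^ (n - 1) * (‖x‖ ^ n + ‖y‖ ^ n) ≤ 2 ^ (n - 1) * (2 * (δ + η)) :=
      mul_le_mul_of_nonneg_left (by simp only at hx' hy'; linarith) (by positivity)
    have h7 : ‖x - y‖ ^ n < ε ^ n := by
      have e : ε ^ n = 2 ^ n * (2 * η) := by
        rw [hη, pow_succ]; field_simp
      rw [e]; rw [h4] at h3 ⊢; nlinarith
    rw [dist_eq_norm]
    exact lt_of_pow_lt_pow_left₀ n hε.le h7
  obtain ⟨x, hx⟩ := CompleteSpace.complete hcau
  have hmem : ∀ s, x ∈ D s := fun s => by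
    have : ∀ᶠ z in ⨅ p, 𝓟 (F p), z ∈ D s :=
      mem_of_superset (mem_iInf_of_mem (s, ⟨1, one_pos⟩) (mem_principal_self _))
        fun z hz => hz.1
    exact (hDc s).mem_of_tendsto (f := id) (tendsto_id'.2 hx) this
  exact ⟨x, (hmem ∅).1, fun i => (hmem {i}).2 i (Finset.mem_singleton_self i)⟩

/-- Ville's lemma. -/
theorem ville {ι : Type*} [Fintype ι] [Nonempty ι] (M : ι → ι → ℝ)
    (hM : ∀ i j, 0 ≤ M i j + M j i) :
    ∃ l ∈ stdSimplex ℝ ι, ∀ i, 0 ≤ ∑ j, l j * M i j := by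
  classical
  by_contra hcon
  push Not at hcon
  set L : (ι → ℝ) →ₗ[ℝ] (ι → ℝ) :=
    { toFun := fun l i => ∑ j, l j * M i j
      map_add' := fun a b => by ext i; simp [add_mul, Finset.sum_add_distrib]
      map_smul' := fun c a => by ext i; simp [Finset.mul_sum, mul_assoc] } with hL
  have hLc : Continuous L := L.continuous_of_finiteDimensional
  have hdisj : Disjoint (L '' stdSimplex ℝ ι) {v : ι → ℝ | ∀ i, 0 ≤ v i} := by
    rw [Set.disjoint_left]
    rintro _ ⟨l, hl, rfl⟩ h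
    obtain ⟨i, hi⟩ := hcon l hl
    exact absurd (h i) (not_le.2 hi)
  have hPc : IsClosed {v : ι → ℝ | ∀ i, 0 ≤ v i} := by
    rw [ofPred_forall]
    exact isClosed_iInter fun i => isClosed_le continuous_const (continuous_apply i)
  have hPv : Convex ℝ {v : ι → ℝ | ∀ i, 0 ≤ v i} := by
    intro a ha b hb s t hs ht _ i
    have := ha i; have := hb i
    simp only [Pi.add_apply, Pi.smul_apply, smul_eq_mul]; positivity
  obtain ⟨f, u, v, h1, h2, h3⟩ := geometric_hahn_banach_compact_closed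
    ((convex_stdSimplex ℝ ι).linear_image L) ((isCompact_stdSimplex ℝ ι).image hLc) hPv hPc hdisj
  have hv : v < 0 := by simpa using h3 0 (fun i => le_rfl)
  set μ : ι → ℝ := fun i => f (Pi.single i 1) with hμ
  have hμ0 : ∀ i, 0 ≤ μ i := fun i => by
    by_contra h
    push Not at h
    have h4 := h3 ((v / μ i) • Pi.single i 1) (fun j => by
      have : 0 ≤ v / μ i := div_nonneg_of_nonpos hv.le h.le
      simp only [Pi.smul_apply, smul_eq_mul]
      exact mul_nonneg this (by by_cases hj : j = i <;> simp [hj]))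
    rw [map_smul, smul_eq_mul] at h4
    change v < v / μ i * μ i at h4
    rw [div_mul_cancel₀ _ h.ne] at h4
    exact lt_irrefl _ h4
  have hf : ∀ w : ι → ℝ, f w = ∑ i, w i * μ i := fun w => by
    conv_lhs => rw [pi_eq_sum_univ' w]
    simp [hμ]
  have hneg : ∀ l ∈ stdSimplex ℝ ι, ∑ i, (∑ j, l j * M i j) * μ i < 0 := fun l hl => by
    have := h1 (L l) ⟨l, hl, rfl⟩
    rw [hf] at this
    exact this.trans (h2.trans hv)
  have hS : 0 < ∑ i, μ i := by
    rcases (Finset.sum_nonneg fun i _ => hμ0 i : 0 ≤ ∑ i, μ i).lt_or_eq with h | h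
    · exact h
    · have h0 : ∀ i, μ i = 0 := fun i =>
        (Finset.sum_eq_zero_iff_of_nonneg fun i _ => hμ0 i).1 h.symm i (Finset.mem_univ i)
      obtain ⟨i⟩ := ‹Nonempty ι›
      have := hneg _ (single_mem_stdSimplex ℝ i)
      simp [h0] at this
  have h5 := hneg (fun i => μ i / ∑ i, μ i) ⟨fun i => div_nonneg (hμ0 i) hS.le, by
    rw [← Finset.sum_div, div_self hS.ne']⟩
  have h6 : 0 ≤ ∑ i, ∑ j, μ i * μ j * (M i j + M j i) :=
    Finset.sum_nonneg fun i _ => Finset.sum_nonneg fun j _ =>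
      mul_nonneg (mul_nonneg (hμ0 i) (hμ0 j)) (hM i j)
  have h7 : ∑ i, ∑ j, μ i * μ j * (M i j + M j i) = 2 * ∑ i, ∑ j, μ i * μ j * M i j := by
    simp only [mul_add, Finset.sum_add_distrib]
    rw [Finset.sum_comm (f := fun i j => μ i * μ j * M j i), two_mul]
    congr 1
    refine Finset.sum_congr rfl fun i _ => Finset.sum_congr rfl fun j _ => by ring
  have h8 : ∑ i, (∑ j, μ j / (∑ i, μ i) * M i j) * μ i
      = (∑ i, ∑ j, μ i * μ j * M i j) / ∑ i, μ i := by
    rw [Finset.sum_div]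
    refine Finset.sum_congr rfl fun i _ => ?_
    rw [Finset.sum_mul, Finset.sum_div]
    refine Finset.sum_congr rfl fun j _ => by ring
  rw [h8] at h5
  have h9 : 0 ≤ (∑ i, ∑ j, μ i * μ j * M i j) / ∑ i, μ i := div_nonneg (by linarith) hS.le
  linarith

/-- Monotone, hemicontinuous, coercive operators have a zero on a closed affine subspace. -/
theorem minty {X : Type*} [NormedAddCommGroup X] [NormedSpace ℝ X] [CompleteSpace X]
    {n : ℕ} (hn : n ≠ 0)
    (hC : ∀ x y : X, ‖x + y‖ ^ n + ‖x - y‖ ^ n ≤ 2 ^ (n - 1) * (‖x‖ ^ n + ‖y‖ ^ n))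
    (V : Submodule ℝ X) (hV : IsClosed (V : Set X)) (T : X → X →ₗ[ℝ] ℝ)
    (hTc : ∀ x, Continuous (T x))
    (hmono : ∀ x y, T y (x - y) ≤ T x (x - y))
    (hhemi : ∀ x v, Tendsto (fun t : ℝ => T (x + t • v) v) (𝓝[>] 0) (𝓝 (T x v)))
    (θ : X) (R : ℝ) (hθ : ‖θ‖ ≤ R) (hco : ∀ x, T x x ≤ T x θ → ‖x‖ < R) :
    ∃ x, x - θ ∈ V ∧ ∀ v ∈ V, T x v = 0 := by
  classical
  set K : Set X := {x | x - θ ∈ V ∧ ‖x‖ ≤ R} with hK
  have hKc : IsClosed K :=
    (hV.preimage (continuous_id.sub continuous_const)).inter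
      (isClosed_le continuous_norm continuous_const)
  have hKv : Convex ℝ K := by
    intro a ha b hb s t hs ht hst
    refine ⟨?_, ?_⟩
    · have : s • a + t • b - θ = s • (a - θ) + t • (b - θ) := by
        have e : θ = s • θ + t • θ := by rw [← add_smul, hst, one_smul]
        conv_lhs => rw [e]
        simp only [smul_sub]; abel
      rw [this]; exact V.add_mem (V.smul_mem _ ha.1) (V.smul_mem _ hb.1)
    · have := convex_closedBall (0 : X) R (mem_closedBall_zero_iff.2 ha.2)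
        (mem_closedBall_zero_iff.2 hb.2) hs ht hst
      exact mem_closedBall_zero_iff.1 this
  have hθK : θ ∈ K := ⟨by simp, hθ⟩
  obtain ⟨x, hxK, hx⟩ := nested_meet hn hC K R (fun x hx => hx.2) hKc hKv
    (fun y : K => {x | 0 ≤ T y (y - x)})
    (fun y => isClosed_le continuous_const ((hTc y).comp (continuous_const.sub continuous_id)))
    (fun y => by
      intro a ha b hb s t hs ht hst
      have : (y : X) - (s • a + t • b) = s • (y - a) + t • (y - b) := by
        have e : (y : X) = s • (y : X) + t • (y : X) := by rw [← add_smul, hst, one_smul]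
        conv_lhs => rw [e]
        simp only [smul_sub]; abel
      simp only [mem_ofPred_eq] at ha hb ⊢
      rw [this, map_add, map_smul, map_smul, smul_eq_mul, smul_eq_mul]; positivity)
    (fun s => by
      rcases s.eq_empty_or_nonempty with rfl | hs
      · exact ⟨θ, hθK, by simp⟩
      have : Nonempty s := hs.to_subtype
      obtain ⟨l, hl, h⟩ := ville (fun i j : s => T (i : K) (((i : K) : X) - ((j : K) : X)))
        (fun i j => by
          have := hmono ((i : K) : X) ((j : K) : X)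
          have e : T ((j : K) : X) (((j : K) : X) - ((i : K) : X))
              = - T ((j : K) : X) (((i : K) : X) - ((j : K) : X)) := by
            rw [← map_neg, neg_sub]
          rw [e]; linarith)
      refine ⟨∑ j : s, l j • ((j : K) : X),
        hKv.sum_mem (fun j _ => hl.1 j) hl.2 (fun j _ => (j : K).2), fun i hi => ?_⟩
      have e : (i : X) - ∑ j : s, l j • ((j : K) : X)
          = ∑ j : s, l j • ((i : X) - ((j : K) : X)) := by
        simp only [smul_sub, Finset.sum_sub_distrib]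
        rw [← Finset.sum_smul, hl.2, one_smul]
      simp only [mem_ofPred_eq]
      rw [e, map_sum]
      simpa using h ⟨i, hi⟩)
  have hvi : ∀ y ∈ K, 0 ≤ T x (y - x) := fun y hy => by
    refine ge_of_tendsto (hhemi x (y - x)) ?_
    filter_upwards [Ioo_mem_nhdsGT (zero_lt_one' ℝ)] with t ht
    have hm : x + t • (y - x) ∈ K := hKv.add_smul_sub_mem hxK hy ⟨ht.1.le, ht.2.le⟩
    have h := hx ⟨_, hm⟩
    simp only [mem_ofPred_eq, add_sub_cancel_left, map_smul, smul_eq_mul] at h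
    exact nonneg_of_mul_nonneg_right h ht.1 |> fun h' => h'
  have hlt : ‖x‖ < R := hco x (by have := hvi θ hθK; rw [map_sub] at this; linarith)
  have hpos : ∀ v ∈ V, 0 ≤ T x v := fun v hv => by
    set t : ℝ := (R - ‖x‖) / (‖v‖ + 1) with ht
    have ht0 : 0 < t := div_pos (by linarith) (by positivity)
    have hm : x + t • v ∈ K := by
      refine ⟨?_, ?_⟩
      · have : x + t • v - θ = (x - θ) + t • v := by abel
        rw [this]; exact V.add_mem hxK.1 (V.smul_mem _ hv)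
      · have h1 : t * (‖v‖ + 1) = R - ‖x‖ := div_mul_cancel₀ _ (by positivity)
        calc ‖x + t • v‖ ≤ ‖x‖ + ‖t • v‖ := norm_add_le _ _
          _ = ‖x‖ + t * ‖v‖ := by rw [norm_smul, Real.norm_of_nonneg ht0.le]
          _ ≤ R := by nlinarith
    have h := hvi _ hm
    rw [add_sub_cancel_left, map_smul, smul_eq_mul] at h
    exact nonneg_of_mul_nonneg_right h ht0 |> fun h' => h'
  refine ⟨x, hxK.1, fun v hv => le_antisymm ?_ (hpos v hv)⟩
  have := hpos (-v) (V.neg_mem hv)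
  rw [map_neg] at this; linarith

end Pool.Agent.P.MP_fecf7d_an.Ex
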