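import Pool.Agent.P.MP_fecf7d_an.Defs2
import Pool.Agent.P.MP_fecf7d_an.ExistMinty

/-! The variational problem in `L^n`: Clarkson inequality and the monotone operator. -/

open MeasureTheory Set Filter Topology Metric
open scoped ContDiff RealInnerProductSpace ENNReal

namespace Pool.Agent.P.MP_fecf7d_an.Ex

theorem young {a b β d : ℝ} {n : ℕ} (hn : n ≠ 0) (ha : 0 ≤ a) (hb : 0 ≤ b) (hβ : 0 ≤ β)
    (hd : 0 < d) : β * a ^ (n - 1) * b ≤ d * a ^ n + β * (β / d) ^ (n - 1) * b ^ n := by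
  obtain ⟨m, rfl⟩ := Nat.exists_eq_succ_of_ne_zero hn
  simp only [Nat.succ_eq_add_one, Nat.add_sub_cancel]
  rcases le_total (β * b) (d * a) with h | h
  · have h1 : β * a ^ m * b ≤ d * a ^ (m + 1) := by
      have := mul_le_mul_of_nonneg_left h (pow_nonneg ha m)
      rw [pow_succ]; nlinarith
    have h2 : 0 ≤ β * (β / d) ^ m * b ^ (m + 1) := by positivity
    linarith
  · have h1 : a ≤ β / d * b := by
      rw [div_mul_eq_mul_div, le_div_iff₀ hd]; linarith
    have h2 : a ^ m ≤ (β / d) ^ m * b ^ m := by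
      rw [← mul_pow]; exact pow_le_pow_left₀ ha h1 m
    have h3 : β * a ^ m * b ≤ β * ((β / d) ^ m * b ^ m) * b := by gcongr
    have h4 : 0 ≤ d * a ^ (m + 1) := by positivity
    rw [pow_succ b]; nlinarith

theorem add_pow_le' {a b : ℝ} (ha : 0 ≤ a) (hb : 0 ≤ b) (n : ℕ) :
    (a + b) ^ n ≤ 2 ^ n * (a ^ n + b ^ n) := by
  refine (add_pow_le ha hb n).trans ?_
  gcongr
  · norm_num
  · omega

theorem eadd_pow_le (a b : ℝ≥0∞) (n : ℕ) : (a + b) ^ n ≤ 2 ^ n * (a ^ n + b ^ n) := by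
  rcases le_total a b with h | h
  · calc (a + b) ^ n ≤ (2 * b) ^ n := by rw [two_mul]; gcongr
      _ = 2 ^ n * b ^ n := mul_pow _ _ _
      _ ≤ _ := by gcongr; exact le_add_self
  · calc (a + b) ^ n ≤ (2 * a) ^ n := by rw [two_mul]; gcongr
      _ = 2 ^ n * a ^ n := mul_pow _ _ _
      _ ≤ _ := by gcongr; exact le_self_add

theorem clarkson_pt {F : Type*} [NormedAddCommGroup F] [InnerProductSpace ℝ F] {n : ℕ}
    (hn : 2 ≤ n) (a b : F) :
    ‖a + b‖ ^ n + ‖a - b‖ ^ n ≤ 2 ^ (n - 1) * (‖a‖ ^ n + ‖b‖ ^ n) := by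
  set q : ℝ := n / 2 with hq
  have hq1 : 1 ≤ q := by
    have : (2 : ℝ) ≤ n := by exact_mod_cast hn
    rw [hq]; linarith
  have key : ∀ t : ℝ, 0 ≤ t → t ^ n = (t ^ 2) ^ q := fun t ht => by
    rw [← Real.rpow_natCast, ← Real.rpow_natCast, ← Real.rpow_mul ht]
    congr 1; rw [hq]; push_cast; ring
  rw [key _ (norm_nonneg _), key _ (norm_nonneg _), key _ (norm_nonneg a), key _ (norm_nonneg b)]
  have h1 := Real.add_rpow_le_rpow_add (sq_nonneg ‖a + b‖) (sq_nonneg ‖a - b‖) hq1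
  have h2 : ‖a + b‖ ^ 2 + ‖a - b‖ ^ 2 = 2 * (‖a‖ ^ 2 + ‖b‖ ^ 2) := by
    have := parallelogram_law_with_norm ℝ a b
    nlinarith
  have h3 : (‖a‖ ^ 2 + ‖b‖ ^ 2) ^ q ≤ 2 ^ (q - 1) * ((‖a‖ ^ 2) ^ q + (‖b‖ ^ 2) ^ q) := by
    have := NNReal.rpow_add_le_mul_rpow_add_rpow (‖a‖₊ ^ 2) (‖b‖₊ ^ 2) hq1
    have h := NNReal.coe_le_coe.2 this
    simpa using h
  have h4 : (2 : ℝ) ^ q * 2 ^ (q - 1) = 2 ^ (n - 1) := by
    rw [← Real.rpow_add two_pos, ← Real.rpow_natCast]
    congr 1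
    rw [Nat.cast_sub (by omega), hq]; push_cast; ring
  rw [h2, Real.mul_rpow two_pos.le (by positivity)] at h1
  calc _ ≤ _ := h1
    _ ≤ 2 ^ q * (2 ^ (q - 1) * ((‖a‖ ^ 2) ^ q + (‖b‖ ^ 2) ^ q)) := by gcongr
    _ = _ := by rw [← mul_assoc, h4]

section Lp
variable {α : Type*} [MeasurableSpace α] {μ : Measure α} {F : Type*} [NormedAddCommGroup F]
  {n : ℕ}

theorem elp_pow (hn : n ≠ 0) (f : α → F) :
    eLpNorm f n μ ^ n = ∫⁻ x, ‖f x‖ₑ ^ n ∂μ := by
  rw [eLpNorm_eq_lintegral_rpow_enorm_toReal (by simpa using hn) (by simp)]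
  simp only [ENNReal.toReal_natCast, ENNReal.rpow_natCast, one_div]
  rw [← ENNReal.rpow_natCast, ← ENNReal.rpow_mul, inv_mul_cancel₀ (by exact_mod_cast hn),
    ENNReal.rpow_one]

theorem lint_lt_top (hn : n ≠ 0) {f : α → F} (hf : MemLp f n μ) :
    ∫⁻ x, ‖f x‖ₑ ^ n ∂μ < ⊤ := by
  rw [← elp_pow hn]; exact ENNReal.pow_lt_top hf.2

theorem int_pow (hn : n ≠ 0) {f : α → F} (hf : MemLp f n μ) :
    Integrable (fun x => ‖f x‖ ^ n) μ := hf.integrable_norm_pow hn

theorem norm_pow_eq [Fact (1 ≤ (n : ℝ≥0∞))] (hn : n ≠ 0) (g : Lp F n μ) :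
    ‖g‖ ^ n = ∫ x, ‖g x‖ ^ n ∂μ := by
  rw [Lp.norm_def, ← ENNReal.toReal_pow, elp_pow hn,
    integral_eq_lintegral_of_nonneg_ae (Eventually.of_forall fun x => by positivity)
      (int_pow hn (Lp.memLp g)).1]
  congr 1
  refine lintegral_congr fun x => ?_
  rw [ENNReal.ofReal_pow (norm_nonneg _), ofReal_norm]

theorem tendsto_lint [Fact (1 ≤ (n : ℝ≥0∞))] (hn : n ≠ 0) {G : ℕ → Lp F n μ} {g : Lp F n μ}
    (h : Tendsto G atTop (𝓝 g)) :
    Tendsto (fun k => ∫⁻ x, ‖G k x - g x‖ₑ ^ n ∂μ) atTop (𝓝 0) := by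
  rw [tendsto_iff_edist_tendsto_0] at h
  have h2 := (ENNReal.continuous_pow n).continuousAt.tendsto.comp h
  rw [zero_pow hn] at h2
  refine h2.congr fun k => ?_
  simp only [Function.comp, Lp.edist_def]
  rw [elp_pow hn]; rfl

/-- completeness of `L^n` in terms of lower integrals -/
theorem exists_lim [CompleteSpace F] (hn : n ≠ 0) {f : ℕ → α → F} (hf : ∀ k, MemLp (f k) n μ)
    (hc : ∀ ε : ℝ≥0∞, 0 < ε → ∃ N, ∀ k ≥ N, ∀ l ≥ N, ∫⁻ x, ‖f k x - f l x‖ₑ ^ n ∂μ < ε) :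
    ∃ g : α → F, MemLp g n μ ∧ Tendsto (fun k => ∫⁻ x, ‖f k x - g x‖ₑ ^ n ∂μ) atTop (𝓝 0) := by
  have : Fact (1 ≤ (n : ℝ≥0∞)) := ⟨by exact_mod_cast Nat.one_le_iff_ne_zero.2 hn⟩
  have hcau : CauchySeq fun k => (hf k).toLp (f k) := by
    rw [EMetric.cauchySeq_iff]
    intro ε hε
    obtain ⟨N, hN⟩ := hc (ε ^ n) (ENNReal.pow_pos hε n)
    refine ⟨N, fun k hk l hl => ?_⟩
    rw [Lp.edist_toLp_toLp]
    by_contra hlt
    have h1 : ε ^ n ≤ eLpNorm (f k - f l) n μ ^ n := by gcongr; exact not_lt.1 hlt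
    rw [elp_pow hn] at h1
    exact absurd (hN k hk l hl) (not_lt.2 h1)
  obtain ⟨g, hg⟩ := cauchySeq_tendsto_of_complete hcau
  refine ⟨g, Lp.memLp g, (tendsto_lint hn hg).congr fun k => lintegral_congr_ae ?_⟩
  filter_upwards [(hf k).coeFn_toLp] with x hx
  rw [hx]

theorem clarkson_Lp [InnerProductSpace ℝ F] [Fact (1 ≤ (n : ℝ≥0∞))] (hn : 2 ≤ n)
    (f g : Lp F n μ) : ‖f + g‖ ^ n + ‖f - g‖ ^ n ≤ 2 ^ (n - 1) * (‖f‖ ^ n + ‖g‖ ^ n) := by
  have h0 : n ≠ 0 := by omega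
  rw [norm_pow_eq h0, norm_pow_eq h0, norm_pow_eq h0, norm_pow_eq h0,
    ← integral_add (int_pow h0 (Lp.memLp _)) (int_pow h0 (Lp.memLp _)),
    ← integral_add (int_pow h0 (Lp.memLp _)) (int_pow h0 (Lp.memLp _)), ← integral_const_mul]
  refine integral_mono_ae ((int_pow h0 (Lp.memLp _)).add (int_pow h0 (Lp.memLp _)))
    (((int_pow h0 (Lp.memLp _)).add (int_pow h0 (Lp.memLp _))).const_mul _) ?_
  filter_upwards [Lp.coeFn_add f g, Lp.coeFn_sub f g] with x h1 h2
  rw [h1, h2]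
  exact clarkson_pt hn _ _

end Lp

variable {n : ℕ} {α β : ℝ} {A : E n → E n → E n}

theorem adm_aesm (hA : Adm α β A) {g : E n → E n} (hg : AEStronglyMeasurable g volume) :
    AEStronglyMeasurable (fun x => A x (g x)) volume := by
  classical
  have hs : ∀ s : SimpleFunc (E n) (E n), AEMeasurable (fun x => A x (s x)) volume := fun s => by
    have : (fun x => A x (s x))
        = fun x => ∑ c ∈ s.range, (s ⁻¹' {c}).indicator (fun x => A x c) x := by
      ext x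
      rw [Finset.sum_eq_single (s x)]
      · simp
      · intro c _ hc
        exact indicator_of_notMem (by simpa using hc.symm) _
      · intro h; exact absurd (s.mem_range_self x) h
    rw [this]
    exact Finset.aemeasurable_fun_sum _ fun c _ =>
      (hA.meas c).indicator (s.measurableSet_fiber c)
  refine aestronglyMeasurable_of_tendsto_ae atTop
    (f := fun k x => A x (hg.stronglyMeasurable_mk.approx k x))
    (fun k => (hs _).aestronglyMeasurable) ?_
  filter_upwards [hA.ae, hg.ae_eq_mk] with x hx h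
  rw [h]
  exact (hx.1.tendsto _).comp (hg.stronglyMeasurable_mk.tendsto_approx x)

theorem adm_bound (hn : n ≠ 0) (hβ : 0 ≤ β) (hA : Adm α β A) {d : ℝ} (hd : 0 < d) :
    ∀ᵐ x : E n, ∀ g h : E n,
      |⟪A x g, h⟫| ≤ d * ‖g‖ ^ n + β * (β / d) ^ (n - 1) * ‖h‖ ^ n := by
  filter_upwards [hA.ae] with x hx g h
  refine (abs_real_inner_le_norm _ _).trans (le_trans ?_
    (young hn (norm_nonneg g) (norm_nonneg h) hβ hd))
  exact mul_le_mul_of_nonneg_right (hx.2.1 g).2 (norm_nonneg _)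

theorem adm_int (hn : n ≠ 0) (hβ : 0 ≤ β) (hA : Adm α β A) {g h : E n → E n}
    (hg : MemLp g n volume) (hh : MemLp h n volume) :
    Integrable (fun x => ⟪A x (g x), h x⟫) volume := by
  refine Integrable.mono' (((int_pow hn hg).const_mul 1).add
    ((int_pow hn hh).const_mul (β * (β / 1) ^ (n - 1)))) ((adm_aesm hA hg.1).inner hh.1) ?_
  filter_upwards [adm_bound hn hβ hA one_pos] with x hx
  exact hx _ _

theorem adm_int_le (hn : n ≠ 0) (hβ : 0 ≤ β) (hA : Adm α β A) {g h : E n → E n}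
    (hg : MemLp g n volume) (hh : MemLp h n volume) {d : ℝ} (hd : 0 < d) :
    |∫ x, ⟪A x (g x), h x⟫| ≤ d * (∫ x, ‖g x‖ ^ n) + β * (β / d) ^ (n - 1) * ∫ x, ‖h x‖ ^ n := by
  refine abs_integral_le_integral_abs.trans ?_
  rw [← integral_const_mul, ← integral_const_mul,
    ← integral_add ((int_pow hn hg).const_mul _) ((int_pow hn hh).const_mul _)]
  refine integral_mono_ae (adm_int hn hβ hA hg hh).abs
    (((int_pow hn hg).const_mul _).add ((int_pow hn hh).const_mul _)) ?_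
  filter_upwards [adm_bound hn hβ hA hd] with x hx
  exact hx _ _

theorem exists_sol [Fact (1 ≤ (n : ℝ≥0∞))] (hn : 2 ≤ n) (hα : 0 < α) (hαβ : α ≤ β)
    (hA : Adm α β A) (V : Submodule ℝ (Lp (E n) n (volume : Measure (E n))))
    (hV : IsClosed (V : Set (Lp (E n) n (volume : Measure (E n)))))
    (θ : Lp (E n) n (volume : Measure (E n))) :
    ∃ g : Lp (E n) n (volume : Measure (E n)), g - θ ∈ V ∧
      ∀ v ∈ V, ∫ x, ⟪A x (g x), v x⟫ = 0 := by
  have h0 : n ≠ 0 := by omega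
  have hβ : 0 ≤ β := hα.le.trans hαβ
  have hI : ∀ g h : Lp (E n) n (volume : Measure (E n)),
      Integrable (fun x => ⟪A x (g x), h x⟫) volume := fun g h =>
    adm_int h0 hβ hA (Lp.memLp g) (Lp.memLp h)
  let T : Lp (E n) n (volume : Measure (E n)) → Lp (E n) n (volume : Measure (E n)) →ₗ[ℝ] ℝ :=
    fun g =>
    { toFun := fun h => ∫ x, ⟪A x (g x), h x⟫
      map_add' := fun a b => by
        rw [← integral_add (hI g a) (hI g b)]
        refine integral_congr_ae ?_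
        filter_upwards [Lp.coeFn_add a b] with x hx
        rw [hx, Pi.add_apply, inner_add_right]
      map_smul' := fun c a => by
        simp only [RingHom.id_apply, smul_eq_mul]
        rw [← integral_const_mul]
        refine integral_congr_ae ?_
        filter_upwards [Lp.coeFn_smul c a] with x hx
        rw [hx, Pi.smul_apply, real_inner_smul_right] }
  have hT : ∀ g h, T g h = ∫ x, ⟪A x (g x), h x⟫ := fun g h => rfl
  have hTle : ∀ g h, ∀ d : ℝ, 0 < d →
      |T g h| ≤ d * ‖g‖ ^ n + β * (β / d) ^ (n - 1) * ‖h‖ ^ n := fun g h d hd => by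
    rw [hT, norm_pow_eq h0, norm_pow_eq h0]
    exact adm_int_le h0 hβ hA (Lp.memLp g) (Lp.memLp h) hd
  set M : ℝ := 2 / α * (β * (β / (α / 2)) ^ (n - 1) * ‖θ‖ ^ n) with hM
  have hM0 : 0 ≤ M := by positivity
  refine minty h0 (clarkson_Lp hn) V hV T (fun g => ?_) (fun g h => ?_) (fun g v => ?_) θ
    (‖θ‖ + M + 1) (by linarith) (fun g hg => ?_)
  · obtain ⟨C, hC⟩ := LinearMap.bound_of_ball_bound one_pos
      (1 * ‖g‖ ^ n + β * (β / 1) ^ (n - 1) * 1) (T g) (fun z hz => by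
        refine (hTle g z 1 one_pos).trans ?_
        have : ‖z‖ ^ n ≤ 1 := pow_le_one₀ (norm_nonneg _) (mem_ball_zero_iff.1 hz).le
        gcongr)
    exact AddMonoidHomClass.continuous_of_bound (T g) C hC
  · rw [hT, hT]
    refine integral_mono_ae (hI _ _) (hI _ _) ?_
    filter_upwards [hA.ae, Lp.coeFn_sub g h] with x hx h1
    have := hx.2.2 (g x) (h x)
    rw [h1, Pi.sub_apply]
    rw [inner_sub_left] at this
    linarith
  · simp only [hT]
    have e : ∀ t : ℝ, ∫ x, ⟪A x ((g + t • v) x), v x⟫ = ∫ x, ⟪A x (g x + t • v x), v x⟫ :=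
      fun t => by
      refine integral_congr_ae ?_
      filter_upwards [Lp.coeFn_add g (t • v), Lp.coeFn_smul t v] with x h1 h2
      rw [h1, Pi.add_apply, h2, Pi.smul_apply]
    simp only [e]
    refine tendsto_integral_filter_of_dominated_convergence
      (fun x => 1 * (2 ^ n * (‖g x‖ ^ n + ‖v x‖ ^ n)) + β * (β / 1) ^ (n - 1) * ‖v x‖ ^ n)
      (Eventually.of_forall fun t => (adm_aesm hA
        ((Lp.memLp g).1.add ((Lp.memLp v).1.const_smul t))).inner (Lp.memLp v).1) ?_ ?_ ?_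
    · filter_upwards [Ioo_mem_nhdsGT (zero_lt_one' ℝ)] with t ht
      filter_upwards [adm_bound h0 hβ hA one_pos] with x hx
      refine (hx _ _).trans ?_
      have h1 : ‖g x + t • v x‖ ≤ ‖g x‖ + ‖v x‖ := by
        refine (norm_add_le _ _).trans ?_
        rw [norm_smul, Real.norm_of_nonneg ht.1.le]
        have := mul_le_of_le_one_left (norm_nonneg (v x)) ht.2.le
        linarith
      have h2 := (pow_le_pow_left₀ (norm_nonneg _) h1 n).trans
        (add_pow_le' (norm_nonneg _) (norm_nonneg _) n)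
      gcongr
    · exact ((((int_pow h0 (Lp.memLp g)).add (int_pow h0 (Lp.memLp v))).const_mul _).const_mul
        _).add ((int_pow h0 (Lp.memLp v)).const_mul _)
    · filter_upwards [hA.ae] with x hx
      have hc : Continuous fun t : ℝ => ⟪A x (g x + t • v x), v x⟫ :=
        (hx.1.comp (by fun_prop)).inner continuous_const
      have := (hc.tendsto 0).mono_left (nhdsWithin_le_nhds (s := Ioi 0))
      simpa using this
  · have h1 : α * ‖g‖ ^ n ≤ T g g := by
      rw [hT, norm_pow_eq h0, ← integral_const_mul]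
      refine integral_mono_ae ((int_pow h0 (Lp.memLp g)).const_mul _) (hI _ _) ?_
      filter_upwards [hA.ae] with x hx
      exact (hx.2.1 _).1
    have h2 := (le_abs_self _).trans (hTle g θ (α / 2) (by positivity))
    have h3 : ‖g‖ ^ n ≤ M := by
      rw [hM, div_mul_eq_mul_div, le_div_iff₀ hα]; linarith
    by_contra hlt
    push Not at hlt
    have h4 : 1 ≤ ‖g‖ := by linarith [norm_nonneg θ]
    have h5 : ‖g‖ ≤ ‖g‖ ^ n := le_self_pow₀ h4 h0
    linarith [norm_nonneg θ]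

end Pool.Agent.P.MP_fecf7d_an.Ex
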