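import Pool.Agent.P.MP_fecf7d_an.ExistLp

/-! Poincare inequalities for smooth functions: two-set form, annulus form, Friedrichs. -/

open MeasureTheory Set Filter Topology Metric
open scoped ContDiff RealInnerProductSpace ENNReal

namespace Pool.Agent.P.MP_fecf7d_an.Ex

variable {n : ℕ}

theorem lint_affine {G : E n → ℝ≥0∞} (hG : Measurable G) {t : ℝ} (ht : 1 / 2 ≤ t) (a : E n) :
    ∫⁻ x, G (a + t • x) ≤ 2 ^ n * ∫⁻ x, G x := by
  have ht0 : 0 < t := by linarith
  have h1 : ∫⁻ x, G (a + t • x) = ∫⁻ x, G (a + x) ∂(Measure.map (t • ·) volume) := by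
    rw [lintegral_map (f := fun x => G (a + x)) (hG.comp (measurable_const_add a))
      (measurable_const_smul t)]
  rw [h1, Measure.map_addHaar_smul _ ht0.ne', lintegral_smul_measure,
    lintegral_add_left_eq_self, smul_eq_mul]
  gcongr
  rw [finrank_euclideanSpace_fin, abs_of_pos (by positivity), ← inv_pow]
  have : t⁻¹ ≤ 2 := by rw [inv_le_comm₀ ht0 two_pos]; linarith
  calc ENNReal.ofReal (t⁻¹ ^ n) ≤ ENNReal.ofReal (2 ^ n) := by gcongr
    _ = 2 ^ n := by rw [ENNReal.ofReal_pow two_pos.le]; simp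

theorem seg_bound {u : E n → ℝ} (hu : ContDiff ℝ 1 u) (x y : E n) {d : ℝ} (hd : ‖x - y‖ ≤ d) :
    ‖u x - u y‖ₑ ^ n ≤ ENNReal.ofReal (d ^ n) *
      ∫⁻ t in Icc (0 : ℝ) 1, ‖fderiv ℝ u (y + t • (x - y))‖ₑ ^ n := by
  have hd0 : 0 ≤ d := (norm_nonneg _).trans hd
  have hc : Continuous fun t : ℝ => fderiv ℝ u (y + t • (x - y)) :=
    (hu.continuous_fderiv one_ne_zero).comp (by fun_prop)
  have hder : ∀ t : ℝ, HasDerivAt (fun t : ℝ => u (y + t • (x - y)))
      (fderiv ℝ u (y + t • (x - y)) (x - y)) t := fun t => by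
    have h1 : HasDerivAt (fun t : ℝ => y + t • (x - y)) (x - y) t := by
      simpa using ((hasDerivAt_id t).smul_const (x - y)).const_add y
    exact (hu.differentiable one_ne_zero _).hasFDerivAt.comp_hasDerivAt t h1
  have h1 : ∫ t in (0 : ℝ)..1, fderiv ℝ u (y + t • (x - y)) (x - y) = u x - u y := by
    rw [intervalIntegral.integral_eq_sub_of_hasDerivAt (fun t _ => hder t)
      ((hc.clm_apply continuous_const).intervalIntegrable _ _)]
    simp
  set h : ℝ → ℝ := fun t => ‖fderiv ℝ u (y + t • (x - y))‖ with hh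
  have hhc : Continuous h := hc.norm
  have h2 : ‖u x - u y‖ ≤ d * ∫ t in Icc (0 : ℝ) 1, h t := by
    rw [← h1, intervalIntegral.integral_of_le zero_le_one, ← integral_Icc_eq_integral_Ioc,
      ← integral_const_mul]
    refine norm_integral_le_of_norm_le ((hhc.integrableOn_Icc).const_mul d)
      (Eventually.of_forall fun t => ?_)
    refine (ContinuousLinearMap.le_opNorm _ _).trans ?_
    rw [mul_comm]; gcongr
  have : IsProbabilityMeasure (volume.restrict (Icc (0 : ℝ) 1)) := ⟨by simp⟩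
  have h3 : (∫ t in Icc (0 : ℝ) 1, h t) ^ n ≤ ∫ t in Icc (0 : ℝ) 1, h t ^ n :=
    (convexOn_pow n).map_integral_le (continuous_pow n).continuousOn isClosed_Ici
      (Eventually.of_forall fun t => norm_nonneg _) hhc.integrableOn_Icc
      (hhc.pow n).integrableOn_Icc
  have h4 : ENNReal.ofReal (∫ t in Icc (0 : ℝ) 1, h t ^ n)
      = ∫⁻ t in Icc (0 : ℝ) 1, ‖fderiv ℝ u (y + t • (x - y))‖ₑ ^ n := by
    rw [ofReal_integral_eq_lintegral_ofReal (f := fun t => h t ^ n) (hhc.pow n).integrableOn_Icc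
      (Eventually.of_forall fun t => pow_nonneg (norm_nonneg _) n)]
    refine lintegral_congr fun t => ?_
    rw [ENNReal.ofReal_pow (norm_nonneg _), ofReal_norm]
  rw [← h4, ← ENNReal.ofReal_mul (by positivity), ← ofReal_norm,
    ← ENNReal.ofReal_pow (norm_nonneg _)]
  refine ENNReal.ofReal_le_ofReal ?_
  calc ‖u x - u y‖ ^ n ≤ (d * ∫ t in Icc (0 : ℝ) 1, h t) ^ n := by gcongr
    _ = d ^ n * (∫ t in Icc (0 : ℝ) 1, h t) ^ n := mul_pow _ _ _
    _ ≤ _ := by gcongr

/-- Two-set Poincare inequality. -/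
theorem poinc2 {u : E n → ℝ} (hu : ContDiff ℝ 1 u) {S₁ S₂ Ω : Set (E n)}
    (h₁ : MeasurableSet S₁) (h₂ : MeasurableSet S₂) (hΩ : MeasurableSet Ω) {d : ℝ}
    (hd0 : 0 ≤ d) (hd : ∀ x ∈ S₁, ∀ y ∈ S₂, ‖x - y‖ ≤ d)
    (hseg : ∀ x ∈ S₁, ∀ y ∈ S₂, ∀ t ∈ Icc (0 : ℝ) 1, y + t • (x - y) ∈ Ω) :
    ∫⁻ y in S₂, ∫⁻ x in S₁, ‖u x - u y‖ₑ ^ n ≤ ENNReal.ofReal ((2 * d) ^ n) *
      (∫⁻ x in Ω, ‖fderiv ℝ u x‖ₑ ^ n) * (volume S₁ + volume S₂) := by
  set G : E n → ℝ≥0∞ := Ω.indicator fun x => ‖fderiv ℝ u x‖ₑ ^ n with hG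
  have hGm : Measurable G :=
    ((hu.continuous_fderiv one_ne_zero).enorm.measurable.pow_const n).indicator hΩ
  have hI : ∫⁻ x in Ω, ‖fderiv ℝ u x‖ₑ ^ n = ∫⁻ x, G x := (lintegral_indicator hΩ _).symm
  have hm3 : Measurable fun p : (E n × E n) × ℝ => G (p.1.1 + p.2 • (p.1.2 - p.1.1)) :=
    hGm.comp (by fun_prop)
  have hm2 : ∀ t : ℝ, Measurable fun p : E n × E n => G (p.1 + t • (p.2 - p.1)) :=
    fun t => hGm.comp (by fun_prop)
  have hΦ : ∀ t ∈ Icc (0 : ℝ) 1, ∫⁻ y in S₂, ∫⁻ x in S₁, G (y + t • (x - y))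
      ≤ 2 ^ n * (∫⁻ x, G x) * (volume S₁ + volume S₂) := fun t ht => by
    rcases le_total (1 / 2) t with h | h
    · calc ∫⁻ y in S₂, ∫⁻ x in S₁, G (y + t • (x - y))
          ≤ ∫⁻ _ in S₂, 2 ^ n * ∫⁻ x, G x := by
            refine lintegral_mono fun y => ?_
            refine (setLIntegral_le_lintegral _ _).trans (le_trans (le_of_eq ?_)
              (lint_affine hGm h (y - t • y)))
            refine lintegral_congr fun x => ?_
            congr 1; rw [smul_sub]; abel
        _ = 2 ^ n * (∫⁻ x, G x) * volume S₂ := by simp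
        _ ≤ _ := by gcongr; exact le_add_self
    · rw [lintegral_lintegral_swap (hm2 t).aemeasurable]
      calc ∫⁻ x in S₁, ∫⁻ y in S₂, G (y + t • (x - y))
          ≤ ∫⁻ _ in S₁, 2 ^ n * ∫⁻ x, G x := by
            refine lintegral_mono fun x => ?_
            refine (setLIntegral_le_lintegral _ _).trans (le_trans (le_of_eq ?_)
              (lint_affine hGm (t := 1 - t) (by linarith) (t • x)))
            refine lintegral_congr fun y => ?_
            congr 1; rw [smul_sub, sub_smul, one_smul]; abel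
        _ = 2 ^ n * (∫⁻ x, G x) * volume S₁ := by simp
        _ ≤ _ := by gcongr; exact le_self_add
  calc ∫⁻ y in S₂, ∫⁻ x in S₁, ‖u x - u y‖ₑ ^ n
      ≤ ∫⁻ y in S₂, ∫⁻ x in S₁, ENNReal.ofReal (d ^ n) *
          ∫⁻ t in Icc (0 : ℝ) 1, G (y + t • (x - y)) := by
        refine setLIntegral_mono' h₂ fun y hy => setLIntegral_mono' h₁ fun x hx => ?_
        refine (seg_bound hu x y (hd x hx y hy)).trans ?_
        refine mul_le_mul_right (setLIntegral_mono' measurableSet_Icc fun t ht => ?_) _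
        rw [hG, indicator_of_mem (hseg x hx y hy t ht)]
    _ = ENNReal.ofReal (d ^ n) * ∫⁻ t in Icc (0 : ℝ) 1,
          ∫⁻ y in S₂, ∫⁻ x in S₁, G (y + t • (x - y)) := by
        simp only [lintegral_const_mul' _ _ ENNReal.ofReal_ne_top]
        congr 1
        rw [lintegral_lintegral (μ := volume.restrict S₂) (ν := volume.restrict S₁)
          (f := fun y x => ∫⁻ t in Icc (0 : ℝ) 1, G (y + t • (x - y)))
          (hm3.lintegral_prod_right').aemeasurable,
          lintegral_lintegral_swap hm3.aemeasurable]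
        refine lintegral_congr fun t => ?_
        rw [lintegral_lintegral (μ := volume.restrict S₂) (ν := volume.restrict S₁)
          (f := fun y x => G (y + t • (x - y))) (hm2 t).aemeasurable]
    _ ≤ ENNReal.ofReal (d ^ n) * ∫⁻ _ in Icc (0 : ℝ) 1,
          2 ^ n * (∫⁻ x, G x) * (volume S₁ + volume S₂) := by
        exact mul_le_mul_right (setLIntegral_mono' measurableSet_Icc hΦ) _
    _ = _ := by
        rw [hI, mul_pow, ENNReal.ofReal_mul (by positivity), ENNReal.ofReal_pow two_pos.le]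
        simp; ring

theorem pick {F : E n → ℝ≥0∞} (hF : Measurable F) {B : Set (E n)} (h0 : volume B ≠ 0)
    (ht : volume B ≠ ⊤) {M : ℝ≥0∞} (h : ∫⁻ y in B, F y ≤ M * volume B) : ∃ y ∈ B, F y ≤ M := by
  obtain ⟨y, hy, h1⟩ := exists_le_setLAverage h0 ht hF.aemeasurable
  refine ⟨y, hy, h1.trans ?_⟩
  rw [setLAverage_eq]
  exact ENNReal.div_le_of_le_mul h

theorem meas_I {u : E n → ℝ} (hu : Continuous u) (S : Set (E n)) :
    Measurable fun y => ∫⁻ x in S, ‖u x - u y‖ₑ ^ n := by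
  have : Measurable fun p : E n × E n => ‖u p.2 - u p.1‖ₑ ^ n :=
    (((hu.comp continuous_snd).sub (hu.comp continuous_fst)).enorm.measurable).pow_const n
  exact this.lintegral_prod_right'

/-- Poincare inequality on a closed ball. -/
theorem poinc_ball {u : E n → ℝ} (hu : ContDiff ℝ 1 u) (z : E n) {s : ℝ} (hs : 0 < s) :
    ∃ c : ℝ, ∫⁻ x in closedBall z s, ‖u x - c‖ₑ ^ n ≤ ENNReal.ofReal ((4 * s) ^ n) *
      (∫⁻ x in closedBall z s, ‖fderiv ℝ u x‖ₑ ^ n) * 2 := by
  have h := poinc2 hu (S₁ := closedBall z s) (S₂ := closedBall z s) (Ω := closedBall z s)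
    measurableSet_closedBall measurableSet_closedBall measurableSet_closedBall
    (d := 2 * s) (by positivity) (fun x hx y hy => by
      rw [← dist_eq_norm]
      linarith [dist_triangle_right x y z, mem_closedBall.1 hx, mem_closedBall.1 hy])
    (fun x hx y hy t ht => (convex_closedBall z s).add_smul_sub_mem hy hx ht)
  obtain ⟨y, -, hy⟩ := pick (meas_I hu.continuous (closedBall z s))
    (measure_closedBall_pos volume z hs).ne' measure_closedBall_lt_top.ne
    (M := ENNReal.ofReal ((4 * s) ^ n) * (∫⁻ x in closedBall z s, ‖fderiv ℝ u x‖ₑ ^ n) * 2)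
    (h.trans (le_of_eq (by rw [show 2 * (2 * s) = 4 * s by ring]; ring)))
  exact ⟨u y, hy⟩

/-- Friedrichs inequality. -/
theorem friedrichs (hn : n ≠ 0) (y : E n) {R : ℝ} (hR : 0 < R) : ∃ C : ℝ≥0∞, C ≠ ⊤ ∧
    ∀ u : E n → ℝ, ContDiff ℝ 1 u → (∀ x, R ≤ dist x y → u x = 0) →
      ∫⁻ x, ‖u x‖ₑ ^ n ≤ C * ∫⁻ x, ‖fderiv ℝ u x‖ₑ ^ n := by
  have : Nontrivial (E n) := by
    apply Module.nontrivial_of_finrank_pos (R := ℝ)
    rw [finrank_euclideanSpace_fin]; omega
  set S : Set (E n) := ball y (2 * R) \ closedBall y R with hS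
  have hSo : IsOpen S := isOpen_ball.sdiff isClosed_closedBall
  have hSne : S.Nonempty := by
    obtain ⟨x, hx⟩ := (NormedSpace.sphere_nonempty (x := y) (r := 3 / 2 * R)).2 (by positivity)
    rw [mem_sphere] at hx
    exact ⟨x, by rw [mem_ball, hx]; linarith, by rw [mem_closedBall, hx]; linarith⟩
  have h0 : volume S ≠ 0 := (hSo.measure_pos volume hSne).ne'
  have ht : volume S ≠ ⊤ := ((measure_mono sdiff_subset).trans_lt measure_ball_lt_top).ne
  refine ⟨ENNReal.ofReal ((2 * (3 * R)) ^ n) * ((volume (ball y R) + volume S) / volume S),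
    ENNReal.mul_ne_top ENNReal.ofReal_ne_top (ENNReal.div_ne_top
      (ENNReal.add_ne_top.2 ⟨measure_ball_lt_top.ne, ht⟩) h0), fun u hu hu0 => ?_⟩
  have h := poinc2 hu (S₁ := ball y R) (S₂ := S) (Ω := univ) measurableSet_ball
    hSo.measurableSet MeasurableSet.univ (d := 3 * R) (by positivity) (fun x hx w hw => by
      rw [← dist_eq_norm]
      linarith [dist_triangle_right x w y, mem_ball.1 hx, mem_ball.1 hw.1])
    (fun _ _ _ _ _ _ => mem_univ _)
  obtain ⟨w, hw, hle⟩ := pick (meas_I hu.continuous (ball y R)) h0 ht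
    (M := ENNReal.ofReal ((2 * (3 * R)) ^ n) * ((volume (ball y R) + volume S) / volume S) *
      ∫⁻ x, ‖fderiv ℝ u x‖ₑ ^ n) (h.trans (le_of_eq (by
        rw [Measure.restrict_univ]
        conv_lhs => rw [← ENNReal.div_mul_cancel (a := volume S) h0 ht
          (b := volume (ball y R) + volume S)]
        ring)))
  have hw0 : u w = 0 := hu0 w (le_of_lt (by simpa using hw.2))
  rw [hw0] at hle
  refine le_trans (le_of_eq ?_) hle
  rw [← lintegral_indicator measurableSet_ball]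
  refine lintegral_congr fun x => ?_
  by_cases hx : x ∈ ball y R
  · simp [hx]
  · rw [indicator_of_notMem hx, hu0 x (by simpa using hx)]; simp [hn]

end Pool.Agent.P.MP_fecf7d_an.Ex
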