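import Pool.Agent.P.MP_fecf7d_an.SgAux

/-!
The Jacobian of an open Sobolev map of locally bounded multiplicity does not change sign.
-/

open MeasureTheory Set Filter Topology Metric
open scoped ENNReal

namespace Pool.Agent.P.MP_fecf7d_an.Sg

variable {n : ℕ}

section

variable {G : Set (X n)} {f : X n → X n} {D : X n → X n →L[ℝ] X n} {σ : ℝ}
variable {U : Set (X n)} {y₀ : X n} {R : ℝ}

theorem Nice.exists_ext (hU : Nice G f D U y₀ R) (hf : ContinuousOn f G) {g : X n → X n}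
    (hg : Continuous g) {e : X n} {K : Set (X n)} (hK : IsCompact K) (hKU : K ⊆ U)
    (hge : ∀ x, x ∉ K → g x = e) {m : ℝ} (hm : 0 < m) :
    ∃ (g' : X n → X n) (K' : Set (X n)), ContDiff ℝ 1 g' ∧ IsCompact K' ∧ K' ⊆ ball y₀ R ∧
      (∀ x ∈ U, x ∈ Sing G D → ‖g' (f x) - g x‖ < m) ∧ ∀ y, y ∉ K' → g' y = e := by
  have hfK : IsCompact (f '' K) := hK.image_of_continuousOn (hf.mono (hKU.trans hU.sub))
  obtain ⟨K', hK', h1, h2⟩ := exists_compact_between hfK isOpen_ball (hU.img ▸ image_mono hKU)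
  obtain ⟨g', hg'⟩ := exists_contMDiffMap_forall_mem_convex_of_local_const (n := (1 : ℕ∞))
    (modelWithCornersSelf ℝ (X n))
    (t := fun y => {z | (∀ x ∈ U, x ∈ Sing G D → f x = y → z ∈ ball (g x) m) ∧ (y ∉ K' → z = e)})
    (fun y => by
      intro a ha b hb s t hs ht hst
      refine ⟨fun x hx hx' e => convex_ball _ _ (ha.1 x hx hx' e) (hb.1 x hx hx' e) hs ht hst,
        fun hy => ?_⟩
      rw [ha.2 hy, hb.2 hy, ← add_smul, hst, one_smul])
    (fun y => by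
      by_cases hy : y ∈ f '' K
      · obtain ⟨c, hc⟩ : ∃ c, ∀ x ∈ U, x ∈ Sing G D → f x = y → g x = c := by
          by_cases h : ∃ x ∈ U, x ∈ Sing G D ∧ f x = y
          · obtain ⟨x₁, a, b, c⟩ := h
            exact ⟨g x₁, fun x hx _ e => by rw [hU.inj x₁ a b x hx (e.trans c.symm)]⟩
          · exact ⟨0, fun x hx hx' e => absurd ⟨x, hx, hx', e⟩ h⟩
        have hZ : IsCompact (U ∩ f ⁻¹' K' ∩ (Sing G D ∩ {x | m ≤ dist c (g x)})) :=
          (hU.proper K' h2 hK').inter_right (isClosed_sing.inter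
            (isClosed_le continuous_const (continuous_const.dist hg)))
        have hZ' := hZ.image_of_continuousOn (hf.mono fun x hx => hU.sub hx.1.1)
        have hyZ : y ∉ f '' (U ∩ f ⁻¹' K' ∩ (Sing G D ∩ {x | m ≤ dist c (g x)})) := by
          rintro ⟨x, hx, e⟩
          have := hx.2.2
          rw [mem_ofPred_eq, hc x hx.1.1 hx.2.1 e, dist_self] at this
          linarith
        refine ⟨c, ?_⟩
        filter_upwards [hZ'.isClosed.isOpen_compl.mem_nhds hyZ,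
          mem_interior_iff_mem_nhds.1 (h1 hy)] with y' a b
        refine ⟨fun x hx hx' e => ?_, fun h => absurd b h⟩
        by_contra h
        exact a ⟨x, ⟨⟨hx, show f x ∈ K' from e ▸ b⟩, hx', show m ≤ dist c (g x) from not_lt.1 h⟩, e⟩
      · refine ⟨e, ?_⟩
        filter_upwards [hfK.isClosed.isOpen_compl.mem_nhds hy] with y' a
        refine ⟨fun x _ _ e' => ?_, fun _ => rfl⟩
        rw [hge x fun h => a ⟨x, h, e'⟩]
        exact mem_ball_self hm)
  exact ⟨g', K', g'.contMDiff.contDiff, hK', h2,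
    fun x hx hx' => mem_ball_iff_norm.1 ((hg' (f x)).1 x hx hx' rfl), fun y => (hg' y).2⟩

theorem Nice.compact_part (hnd : NonDeg G D) (hσ : σ = 1 ∨ σ = -1) {C : Set (X n)}
    (hC : IsCompact C) (hCS : ∀ x ∈ C, x ∉ Sing G D) : IsCompact (C ∩ Pos G D σ) := by
  have hσ0 : σ ≠ 0 := by rcases hσ with rfl | rfl <;> norm_num
  have : C ∩ Pos G D σ = C \ Pos G D (-σ) := by
    refine Subset.antisymm (fun x hx => ⟨hx.1, hnd.disjoint hσ0 hx.2⟩) fun x hx => ?_
    exact ⟨hx.1, ((not_sing_iff hσ).1 (hCS x hx.1)).resolve_right hx.2⟩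
  rw [this]
  exact hC.diff isOpen_pos

theorem Nice.proper_part (hU : Nice G f D U y₀ R) (hnd : NonDeg G D) (hσ : σ = 1 ∨ σ = -1) :
    ProperOver f (U ∩ Pos G D σ) (f '' (U \ Sing G D)) := by
  intro C hC hC'
  rw [inter_right_comm]
  exact Nice.compact_part hnd hσ
    (hU.proper C (hC.trans (hU.img ▸ image_mono sdiff_subset)) hC')
    fun x hx => hU.not_sing hx.1 (hC hx.2)

theorem Nice.deg_part (hn : n ≠ 0) (hU : Nice G f D U y₀ R) (hf : W G f D) (hnd : NonDeg G D)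
    (hopen : ∀ x ∈ G, ∀ N ∈ 𝓝 x, f '' N ∈ 𝓝 (f x)) (hσ : σ = 1 ∨ σ = -1) :
    ∃ d : X n → ℝ, (∀ y ∈ f '' (U \ Sing G D), ∀ᶠ y' in 𝓝 y, d y' = d y) ∧
      (∀ ψ, CTest (f '' (U \ Sing G D)) ψ →
        ∫ x in U ∩ Pos G D σ, ψ (f x) * (D x).det = ∫ y, ψ y * d y) ∧
      (∀ y ∈ f '' (U \ Sing G D), 0 ≤ σ * d y) ∧ ∀ x ∈ U ∩ Pos G D σ, 0 < σ * d (f x) := by
  have hσ0 : σ ≠ 0 := by rcases hσ with rfl | rfl <;> norm_num
  have hV : IsOpen (U ∩ Pos G D σ) := hU.isOpen.inter isOpen_pos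
  have hVG : U ∩ Pos G D σ ⊆ G := inter_subset_left.trans hU.sub
  have hO := hU.isOpen_img hopen
  obtain ⟨d, h1, h2⟩ := deg hn hV hO (hf.mono hVG) (hU.proper_part hnd hσ)
  have key : ∀ y ∈ f '' (U \ Sing G D), ∃ φ, CTest (f '' (U \ Sing G D)) φ ∧ (∀ z, 0 ≤ φ z) ∧
      φ y = 1 ∧ 0 < ∫ z, φ z ∧
      σ * ∫ x in U ∩ Pos G D σ, φ (f x) * (D x).det = σ * d y * ∫ z, φ z := by
    intro y hy
    obtain ⟨N, hN, hN', hyN⟩ := _root_.mem_nhds_iff.1 (inter_mem (h1 y hy) (hO.mem_nhds hy))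
    obtain ⟨φ, a, b, c, e⟩ := exists_bump hN' hyN
    have a' := a.mono (hN.trans inter_subset_right)
    refine ⟨φ, a', b, c, e, ?_⟩
    rw [h2 φ a', mul_assoc, ← integral_const_mul (d y)]
    congr 1
    refine integral_congr_ae (Eventually.of_forall fun z => ?_)
    by_cases hz : z ∈ N
    · have : d z = d y := (hN hz).1
      simp only [this, mul_comm]
    · simp [image_eq_zero_of_notMem_tsupport fun h => hz (a.sub h)]
  refine ⟨d, h1, h2, fun y hy => ?_, fun x hx => ?_⟩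
  · obtain ⟨φ, a, b, c, e, h⟩ := key y hy
    refine nonneg_of_mul_nonneg_left ?_ e
    rw [← h, ← integral_const_mul]
    exact integral_nonneg_of_ae (test_nonneg hV b fun x hx _ => hx.2)
  · obtain ⟨φ, a, b, c, e, h⟩ := key (f x)
      (mem_image_of_mem f ⟨hx.1, (not_sing_iff hσ).2 (Or.inl hx.2)⟩)
    refine (mul_pos_iff_of_pos_right e).1 ?_
    rw [← h]
    exact test_pos hf hnd hσ0 hV hVG (hU.proper_part hnd hσ) a b (fun x hx _ => hx.2) hx
      (by simp [c])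

theorem Nice.no_dipole (hn : n ≠ 0) (hU : Nice G f D U y₀ R) (hf : W G f D) (hnd : NonDeg G D)
    (hopen : ∀ x ∈ G, ∀ N ∈ 𝓝 x, f '' N ∈ 𝓝 (f x)) {x₀ p q : X n} {t : ℝ} (hb : ball x₀ t ⊆ U)
    (hp : p ∈ ball x₀ t) (hq : q ∈ ball x₀ t) (hp' : p ∈ Pos G D 1) (hq' : q ∈ Pos G D (-1)) :
    False := by
  obtain ⟨g, e, K, hg, he, hK, hKb, hge, hgp, hg0, hdp, hdq⟩ :=
    exists_dipole hp hq fun h => hnd.disjoint one_ne_zero hp' (h ▸ hq')
  have hKU := hKb.trans hb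
  have hJ : Continuous fun x => (fderiv ℝ g x).det :=
    ContinuousLinearMap.continuous_det.comp (hg.continuous_fderiv one_ne_zero)
  obtain ⟨m, hm, hme, hmg⟩ : ∃ m : ℝ, 0 < m ∧ 3 * m ≤ ‖e‖ ∧ ∀ x, ‖g x‖ < 3 * m →
      (x ∈ Pos G D 1 ∧ 0 < (fderiv ℝ g x).det) ∨ (x ∈ Pos G D (-1) ∧ (fderiv ℝ g x).det < 0) := by
    set A := (Pos G D 1 ∩ {x | 0 < (fderiv ℝ g x).det}) ∪
      (Pos G D (-1) ∩ {x | (fderiv ℝ g x).det < 0}) with hA
    have hAo : IsOpen A := (isOpen_pos.inter (isOpen_lt continuous_const hJ)).union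
      (isOpen_pos.inter (isOpen_lt hJ continuous_const))
    obtain ⟨a, ha, ha'⟩ := (hK.diff hAo).exists_forall_le' hg.continuous.norm.continuousOn
      (a := 0) fun x hx => norm_pos_iff.2 fun h => by
        rcases hg0 x h with rfl | rfl
        · exact hx.2 (Or.inl ⟨hp', hdp⟩)
        · exact hx.2 (Or.inr ⟨hq', hdq⟩)
    have := norm_pos_iff.2 he
    refine ⟨min a ‖e‖ / 3, by positivity, by linarith [min_le_right a ‖e‖], fun x hx => ?_⟩
    by_contra h
    by_cases hxK : x ∈ K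
    · linarith [ha' x ⟨hxK, h⟩, min_le_left a ‖e‖]
    · rw [hge x hxK] at hx
      linarith [min_le_right a ‖e‖]
  have hgS : ∀ x ∈ Sing G D, 3 * m ≤ ‖g x‖ := fun x hx =>
    not_lt.1 fun h => hx ((hmg x h).imp And.left And.left)
  obtain ⟨g', K', hg', hK', hK'B, hgg', hge'⟩ :=
    hU.exists_ext hf.cont hg.continuous hK hKU hge hm
  obtain ⟨ρ, T, hρ⟩ := exists_dens (n := n) hm
  set O := f '' (U \ Sing G D) with hOdef
  have hO : IsOpen O := hU.isOpen_img hopen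
  set Ψ : X n → ℝ := fun y => ρ (g' y) * (fderiv ℝ g' y).det with hΨ
  have hΨt : CTest O Ψ := by
    have hs : tsupport Ψ ⊆ {y | ‖g' y‖ ≤ m} := by
      refine closure_minimal (fun y hy => ?_) (isClosed_le hg'.continuous.norm continuous_const)
      by_contra h
      exact hy (by simp [hΨ, hρ.zero _ (not_le.1 h).le])
    have hs' : tsupport Ψ ⊆ K' := fun y hy => by
      by_contra h
      have := hs hy
      rw [mem_ofPred_eq, hge' y h] at this
      linarith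
    refine ⟨(hρ.cont.comp hg'.continuous).mul (ContinuousLinearMap.continuous_det.comp
      (hg'.continuous_fderiv one_ne_zero)), hK'.of_isClosed_subset (isClosed_tsupport _) hs',
      fun y hy => ?_⟩
    obtain ⟨x, hx, rfl⟩ : y ∈ f '' U := hU.img ▸ hK'B (hs' hy)
    refine ⟨x, ⟨hx, fun hxS => ?_⟩, rfl⟩
    have h1 : ‖g' (f x)‖ ≤ m := hs hy
    have h2 := hgg' x hx hxS
    have h3 := hgS x hxS
    have h4 := norm_sub_norm_le (g x) (g' (f x))
    rw [norm_sub_rev] at h4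
    linarith
  have hΨ0 : ∫ y, Ψ y = 0 := by
    have := nl_homotopy hn hρ isOpen_univ (W.of_contDiff hn hg')
      (W.of_contDiff hn (contDiff_const (c := e))) hK' (subset_univ _) (l := fun _ => 1)
      (fun y _ hy s _ => by rw [hge' y hy]; simp; linarith)
      (fun _ _ => Eventually.of_forall fun _ => rfl)
    simpa [hρ.zero e (by linarith)] using this
  obtain ⟨d₁, l₁, e₁, n₁, p₁⟩ := hU.deg_part hn hf hnd hopen (σ := 1) (Or.inl rfl)
  obtain ⟨d₂, l₂, e₂, n₂, p₂⟩ := hU.deg_part hn hf hnd hopen (σ := -1) (Or.inr rfl)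
  have hδ : ∀ y ∈ O, 0 < d₁ y - d₂ y := by
    intro y hy
    have a := n₁ y hy
    have b := n₂ y hy
    obtain ⟨x, hx, rfl⟩ := hy
    rcases (not_sing_iff (Or.inl rfl)).1 hx.2 with h | h
    · linarith [p₁ x ⟨hx.1, h⟩]
    · linarith [p₂ x ⟨hx.1, h⟩]
  have hδl : ∀ y ∈ O, ∀ᶠ y' in 𝓝 y, (d₁ y' - d₂ y')⁻¹ = (d₁ y - d₂ y)⁻¹ := fun y hy => by
    filter_upwards [l₁ y hy, l₂ y hy] with y' a b
    rw [a, b]
  have hψ : CTest O fun y => Ψ y * (d₁ y - d₂ y)⁻¹ := hΨt.mul hO (continuousOn_of_lc hδl)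
  set E := (K ∪ U ∩ f ⁻¹' K') ∩ ({x | ‖g x‖ ≤ 2 * m} ∪ {x | m ≤ ‖g' (f x) - g x‖}) with hEdef
  have hK₁ : IsCompact (K ∪ U ∩ f ⁻¹' K') := hK.union (hU.proper K' hK'B hK')
  have hK₁U : K ∪ U ∩ f ⁻¹' K' ⊆ U := union_subset hKU inter_subset_left
  have hE : IsCompact E := by
    rw [hEdef, inter_union_distrib_left]
    refine (hK₁.inter_right (isClosed_le hg.continuous.norm continuous_const)).union ?_
    refine hK₁.of_isClosed_subset ?_ inter_subset_left
    exact ContinuousOn.preimage_isClosed_of_isClosed (f := fun x => ‖g' (f x) - g x‖)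
      (((hg'.continuous.comp_continuousOn (hf.cont.mono (hK₁U.trans hU.sub))).sub
        hg.continuous.continuousOn).norm) hK₁.isClosed isClosed_Ici
  have hES : ∀ x ∈ E, x ∉ Sing G D := by
    rintro x ⟨hx, h | h⟩ hxS
    · have : ‖g x‖ ≤ 2 * m := h
      linarith [hgS x hxS]
    · exact (hgg' x (hK₁U hx) hxS).not_ge h
  have hout : ∀ x ∈ U, x ∉ E → 2 * m < ‖g x‖ ∧ ‖g' (f x) - g x‖ < m := by
    intro x hx hxE
    by_cases hx' : x ∈ K ∪ U ∩ f ⁻¹' K'
    · exact ⟨not_le.1 fun h => hxE ⟨hx', Or.inl h⟩, not_le.1 fun h => hxE ⟨hx', Or.inr h⟩⟩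
    · rw [hge x fun h => hx' (Or.inl h), hge' _ fun h => hx' (Or.inr ⟨hx, h⟩), sub_self,
        norm_zero]
      exact ⟨by linarith, hm⟩
  have hmem : ∀ σ : ℝ, σ = 1 ∨ σ = -1 → ∀ x ∈ U ∩ Pos G D σ, f x ∈ O := fun σ hσ x hx =>
    mem_image_of_mem f ⟨hx.1, (not_sing_iff hσ).2 (Or.inl hx.2)⟩
  have key : ∀ σ : ℝ, σ = 1 ∨ σ = -1 →
      ∫ x in U ∩ Pos G D σ, (d₁ (f x) - d₂ (f x))⁻¹ * (ρ (g x) * (fderiv ℝ g x).det) =
        ∫ x in U ∩ Pos G D σ, Ψ (f x) * (d₁ (f x) - d₂ (f x))⁻¹ * (D x).det := by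
    intro σ hσ
    have hV : IsOpen (U ∩ Pos G D σ) := hU.isOpen.inter isOpen_pos
    have hVG : U ∩ Pos G D σ ⊆ G := inter_subset_left.trans hU.sub
    have := nl_homotopy hn hρ hV (W.of_contDiff hn hg) ((hf.mono hVG).comp hn hg')
      (Nice.compact_part hnd hσ hE hES) (fun x hx => ⟨hK₁U hx.1.1, hx.2⟩)
      (l := fun x => ((d₁ (f x) - d₂ (f x))⁻¹) ^ ((n : ℝ)⁻¹))
      (fun x hx hx' s hs => by
        obtain ⟨a, b⟩ := hout x hx.1 fun h => hx' ⟨h, hx.2⟩
        have h1 := norm_sub_norm_le (g x) (-(s • (g' (f x) - g x)))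
        rw [sub_neg_eq_add, norm_neg, norm_smul, Real.norm_of_nonneg hs.1] at h1
        have h2 := mul_le_of_le_one_left (norm_nonneg (g' (f x) - g x)) hs.2
        linarith)
      (fun x hx => by
        filter_upwards [hf.cont.continuousAt (mem_of_superset (hV.mem_nhds hx) hVG)
          (hδl _ (hmem σ hσ x hx))] with x' hx'
        have : (d₁ (f x') - d₂ (f x'))⁻¹ = (d₁ (f x) - d₂ (f x))⁻¹ := hx'
        rw [this])
    have hpow : ∀ x ∈ U ∩ Pos G D σ, (((d₁ (f x) - d₂ (f x))⁻¹) ^ ((n : ℝ)⁻¹)) ^ n =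
        (d₁ (f x) - d₂ (f x))⁻¹ := fun x hx =>
      Real.rpow_inv_natCast_pow (inv_pos.2 (hδ _ (hmem σ hσ x hx))).le hn
    refine (setIntegral_congr_fun hV.measurableSet fun x hx => ?_).trans
      (this.trans (setIntegral_congr_fun hV.measurableSet fun x hx => ?_))
    · simp only [hpow x hx]
    · simp only [hpow x hx, det_comp', hΨ]
      ring
  have k₁ := key 1 (Or.inl rfl)
  have k₂ := key (-1) (Or.inr rfl)
  rw [e₁ _ hψ] at k₁
  rw [e₂ _ hψ] at k₂
  have hsum : (∫ y, Ψ y * (d₁ y - d₂ y)⁻¹ * d₁ y) - ∫ y, Ψ y * (d₁ y - d₂ y)⁻¹ * d₂ y = 0 := by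
    rw [← integral_sub (hψ.mul hO (continuousOn_of_lc l₁)).integrable
      (hψ.mul hO (continuousOn_of_lc l₂)).integrable, ← hΨ0]
    refine integral_congr_ae (Eventually.of_forall fun y => ?_)
    by_cases hy : y ∈ O
    · have := (hδ y hy).ne'
      field_simp
    · simp [image_eq_zero_of_notMem_tsupport fun h => hy (hΨt.sub h)]
  have hsmall : ∀ x, ρ (g x) ≠ 0 → ‖g x‖ < 3 * m := fun x hx => by
    by_contra h
    exact hx (hρ.zero _ (by linarith))
  have hneg : ∫ x in U ∩ Pos G D (-1),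
      (d₁ (f x) - d₂ (f x))⁻¹ * (ρ (g x) * (fderiv ℝ g x).det) ≤ 0 := by
    refine setIntegral_nonpos (hU.isOpen.inter isOpen_pos).measurableSet fun x hx => ?_
    by_cases h : ρ (g x) = 0
    · simp [h]
    · refine mul_nonpos_of_nonneg_of_nonpos (inv_pos.2 (hδ _ (hmem _ (Or.inr rfl) x hx))).le
        (mul_nonpos_of_nonneg_of_nonpos (hρ.nonneg _) ?_)
      exact ((hmg x (hsmall x h)).resolve_left
        fun h' => hnd.disjoint one_ne_zero h'.1 hx.2).2.le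
  have hpos : 0 < ∫ x in U ∩ Pos G D 1,
      (d₁ (f x) - d₂ (f x))⁻¹ * (ρ (g x) * (fderiv ℝ g x).det) := by
    have hV : IsOpen (U ∩ Pos G D 1) := hU.isOpen.inter isOpen_pos
    have hc : ContinuousOn (fun x => (d₁ (f x) - d₂ (f x))⁻¹ * (ρ (g x) * (fderiv ℝ g x).det))
        (U ∩ Pos G D 1) :=
      ((continuousOn_of_lc hδl).comp (hf.cont.mono (inter_subset_left.trans hU.sub))
        (hmem 1 (Or.inl rfl))).mul ((hρ.cont.comp hg.continuous).mul hJ).continuousOn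
    rw [setIntegral_pos_iff_support_of_nonneg_ae]
    · rw [inter_comm]
      refine (hc.isOpen_inter_preimage hV isOpen_compl_singleton).measure_pos _
        ⟨p, ⟨hb hp, hp'⟩, ?_⟩
      have := inv_pos.2 (hδ _ (hmem _ (Or.inl rfl) p ⟨hb hp, hp'⟩))
      have h2 := hρ.pos
      rw [← hgp] at h2
      exact (mul_pos this (mul_pos h2 hdp)).ne'
    · refine (ae_restrict_iff' hV.measurableSet).2 (Eventually.of_forall fun x hx => ?_)
      by_cases h : ρ (g x) = 0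
      · simp [h]
      · refine mul_nonneg (inv_pos.2 (hδ _ (hmem _ (Or.inl rfl) x hx))).le
          (mul_nonneg (hρ.nonneg _) ?_)
        exact ((hmg x (hsmall x h)).resolve_right
          fun h' => hnd.disjoint one_ne_zero hx.2 h'.1).2.le
    · have hEV : E ∩ Pos G D 1 ⊆ U ∩ Pos G D 1 := fun x hx => ⟨hK₁U hx.1.1, hx.2⟩
      refine ((hc.mono hEV).integrableOn_compact
        (Nice.compact_part hnd (Or.inl rfl) hE hES)).of_forall_sdiff_eq_zero hV.measurableSet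
        fun x hx => ?_
      have := (hout x hx.1.1 fun h => hx.2 ⟨h, hx.1.2⟩).1
      simp [hρ.zero (g x) (by linarith)]
  linarith

end

theorem det_sign (hn : 2 ≤ n) {G : Set (X n)} (hG : IsOpen G) (hGc : IsPreconnected G)
    {f : X n → X n} {D : X n → X n →L[ℝ] X n} (hf : W G f D)
    (hopen : ∀ x ∈ G, ∀ N ∈ 𝓝 x, f '' N ∈ 𝓝 (f x))
    (hmult : ∀ x ∈ G, ∃ N ∈ 𝓝 x, ∃ k : ℕ, ∀ y, (N ∩ f ⁻¹' {y}).encard ≤ k)
    (hnd : ∀ V : Set (X n), IsOpen V → V.Nonempty → V ⊆ G →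
      ¬ ∀ᵐ x, x ∈ V → (D x).det = 0) :
    (∀ᵐ x, x ∈ G → 0 ≤ (D x).det) ∨ (∀ᵐ x, x ∈ G → (D x).det ≤ 0) := by
  have hn0 : n ≠ 0 := by omega
  have hnd' : NonDeg G D := hnd
  have hS : ¬ (Sing G D ∩ G).Nonempty := by
    intro hS
    obtain ⟨x₀, hx₀, N, hN, hxN, hNG, hinj⟩ := exists_inj_nhds hG hf.cont hopen hmult hS
    obtain ⟨U, R, hxU, hUN, hU⟩ := exists_nice hf.cont hopen hx₀ hN hxN hNG hinj
    obtain ⟨t, ht, htU⟩ := Metric.isOpen_iff.1 hU.isOpen x₀ hxU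
    obtain ⟨U', R', hxU', hU't, hU'⟩ := exists_nice hf.cont hopen hx₀ isOpen_ball
      (mem_ball_self ht) (htU.trans hU.sub) fun s hs hs' x hx => hU.inj s (htU hs) hs' x (htU hx)
    obtain ⟨⟨p, hp, hp'⟩, ⟨q, hq, hq'⟩⟩ := hU'.both hn0 hf hnd' hopen hxU' hx₀
    exact hU.no_dipole hn0 hf hnd' hopen htU (hU't hp) (hU't hq) hp' hq'
  have hsub : G ⊆ Pos G D 1 ∪ Pos G D (-1) := fun x hx => by
    by_contra h
    exact hS ⟨x, h, hx⟩
  refine (hGc.subset_or_subset isOpen_pos isOpen_pos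
    (disjoint_left.2 fun x => hnd'.disjoint one_ne_zero) hsub).imp (fun h => ?_) fun h => ?_
  · filter_upwards [ae_pos (G := G) (D := D) (σ := 1)] with x hx hxG
    simpa using hx (h hxG)
  · filter_upwards [ae_pos (G := G) (D := D) (σ := -1)] with x hx hxG
    simpa using hx (h hxG)

theorem sign_ae (hn : 2 ≤ n) {G : Set (E n)} (hG : IsOpen G) (hGc : IsPreconnected G)
    {f : E n → E n} (hf : ContinuousOn f G) (hopen : ∀ W ⊆ G, IsOpen W → IsOpen (f '' W))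
    (hmult : ∀ x ∈ G, ∃ W ∈ 𝓝 x, ∃ N : ℕ, ∀ y, (W ∩ f ⁻¹' {y}).encard ≤ N)
    (hW : IsW1n G f (fderiv ℝ f)) {K : ℝ}
    (hd : ∀ᵐ x ∂(volume.restrict G),
      DifferentiableAt ℝ f x ∧ ‖fderiv ℝ f x‖ ^ n ≤ K * |(fderiv ℝ f x).det|) :
    (∀ᵐ x ∂(volume.restrict G), 0 ≤ (fderiv ℝ f x).det) ∨
      (∀ᵐ x ∂(volume.restrict G), (fderiv ℝ f x).det ≤ 0) := by
  classical
  have hn0 : n ≠ 0 := by omega
  have he : ∀ x ∈ G, G.piecewise f 0 x = f x := fun x hx => piecewise_eq_of_mem _ _ _ hx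
  have hW' : W G (G.piecewise f 0) (fderiv ℝ f) :=
    W.of_isW1n hn0 hG (isW1n_iff.2 ((isW1n_iff.1 hW).congr' (fun x hx => (he x hx).symm)
      fun _ _ => rfl)) (hf.congr he)
      (hf.measurable_piecewise continuousOn_const hG.measurableSet) (measurable_fderiv ℝ f)
  rw [ae_restrict_iff' hG.measurableSet] at hd
  simp only [ae_restrict_iff' hG.measurableSet]
  refine det_sign hn hG hGc hW' (fun x hx N hN => ?_) (fun x hx => ?_) fun V hV hVne hVG h0 => ?_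
  · have h1 := hopen _ inter_subset_right (isOpen_interior (s := N).inter hG)
    rw [he x hx]
    refine mem_of_superset (h1.mem_nhds ⟨x, ⟨mem_interior_iff_mem_nhds.2 hN, hx⟩, rfl⟩) ?_
    rintro _ ⟨z, hz, rfl⟩
    exact ⟨z, interior_subset hz.1, he z hz.2⟩
  · obtain ⟨N, hN, k, hk⟩ := hmult x hx
    refine ⟨N ∩ G, inter_mem hN (hG.mem_nhds hx), k, fun y => (encard_le_encard ?_).trans (hk y)⟩
    exact fun z hz => ⟨hz.1.1, (he z hz.1.2).symm.trans hz.2⟩
  · obtain ⟨x, hx⟩ := hVne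
    obtain ⟨N, hN, k, hk⟩ := hmult x (hVG hx)
    obtain ⟨r, hr, hrV⟩ := nhds_basis_closedBall.mem_iff.1 (inter_mem (hV.mem_nhds hx) hN)
    have hB : closedBall x r ⊆ G := fun z hz => hVG (hrV hz).1
    obtain ⟨c, hc⟩ := (isW1n_iff.1 hW).poincare (by omega) hG (isCompact_closedBall x r)
      (convex_closedBall x r) hB (d := r + r) fun a ha b hb =>
        (dist_triangle_right a b x).trans (add_le_add ha hb)
    have h1 : ∫⁻ z in closedBall x r, ‖fderiv ℝ f z‖ₑ ^ n = 0 := by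
      refine (lintegral_congr_ae ?_).trans lintegral_zero
      rw [EventuallyEq, ae_restrict_iff' measurableSet_closedBall]
      filter_upwards [hd, h0] with z a b hz
      have := (a (hB hz)).2
      rw [b (hrV hz).1, abs_zero, mul_zero] at this
      have h2 : fderiv ℝ f z = 0 :=
        norm_eq_zero.1 (pow_eq_zero_iff hn0 |>.1 (le_antisymm this (by positivity)))
      rw [h2, ← ofReal_norm, norm_zero, ENNReal.ofReal_zero, zero_pow hn0]
    rw [h1, mul_zero, nonpos_iff_eq_zero, lintegral_eq_zero_iff'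
      (f := fun x => ‖f x - c‖ₑ ^ n) (((((hf.mono hB).sub
      continuousOn_const).aestronglyMeasurable measurableSet_closedBall).enorm).pow_const n),
      EventuallyEq, ae_restrict_iff' measurableSet_closedBall] at hc
    have : Nontrivial (E n) := Module.nontrivial_of_finrank_pos (R := ℝ) (by simp; omega)
    have h3 : ∀ᵐ z : E n, z ∉ N ∩ f ⁻¹' {c} :=
      measure_eq_zero_iff_ae_notMem.1 ((finite_of_encard_le_coe (hk c)).measure_zero _)
    refine (measure_closedBall_pos volume x hr).ne' (measure_eq_zero_iff_ae_notMem.2 ?_)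
    filter_upwards [hc, h3] with z a b hz
    refine b ⟨(hrV hz).2, ?_⟩
    simpa [hn0, sub_eq_zero] using a hz

end Pool.Agent.P.MP_fecf7d_an.Sg
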