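import Pool.Agent.P.MP_fecf7d_an.Morph2
import Pool.Agent.P.MP_fecf7d_an.Diff
import Pool.Agent.P.MP_fecf7d_an.SgMain

/-!
Reflections and the final assembly.
-/

open MeasureTheory Set Metric Filter Topology
open scoped ContDiff RealInnerProductSpace ENNReal

set_option maxHeartbeats 400000
set_option maxSynthPendingDepth 3

namespace Pool.Agent.P.MP_fecf7d_an
open Pool.Agent.Lib

variable {n : ℕ}

section Refl
variable {V : Type*} [NormedAddCommGroup V] [InnerProductSpace ℝ V]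

theorem refl_cases {r : V → V} (hr : Isometry r) {a : V} {c : ℝ} (ha : a ≠ 0)
    (h : ∀ x, ⟪a, x⟫ = c → r x = x) (x : V) :
    r x = x ∨ r x = x - (2 * ((⟪a, x⟫ - c) / ‖a‖ ^ 2)) • a := by
  have ha2 : 0 < ‖a‖ ^ 2 := by have := norm_pos_iff.2 ha; positivity
  set m := (⟪a, x⟫ - c) / ‖a‖ ^ 2 with hm
  set p := x - m • a with hp
  have hpc : ⟪a, p⟫ = c := by
    rw [hp, inner_sub_right, real_inner_smul_right, real_inner_self_eq_norm_sq, hm]
    field_simp
    ring
  set w := r x - p with hw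
  have key : ∀ g : V, ⟪a, g⟫ = 0 → ‖w - g‖ = ‖m • a - g‖ := by
    intro g hg
    have h1 := hr.dist_eq x (p + g)
    rw [h (p + g) (by rw [inner_add_right, hpc, hg, add_zero]), dist_eq_norm, dist_eq_norm] at h1
    rw [show w - g = r x - (p + g) by rw [hw]; abel, h1, hp]
    congr 1
    abel
  have h0 : ‖w‖ = ‖m • a‖ := by simpa using key 0 (inner_zero_right _)
  have h1 : ∀ g : V, ⟪a, g⟫ = 0 → ⟪w, g⟫ = 0 := by
    intro g hg
    have h2 := congrArg (· ^ 2) (key g hg)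
    simp only [norm_sub_sq_real, h0, real_inner_smul_left, hg] at h2
    linarith
  set μ := ⟪a, w⟫ / ‖a‖ ^ 2 with hμ
  have h2 : ⟪a, w - μ • a⟫ = 0 := by
    rw [inner_sub_right, real_inner_smul_right, real_inner_self_eq_norm_sq, hμ]
    field_simp
    ring
  have h3 : w = μ • a := by
    have h4 := h1 _ h2
    have h5 : ⟪w - μ • a, w - μ • a⟫ = 0 := by
      rw [inner_sub_left, h4, real_inner_smul_left, h2]; ring
    exact sub_eq_zero.1 (inner_self_eq_zero.1 h5)
  have h4 : |μ| = |m| := by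
    rw [h3, norm_smul, norm_smul, Real.norm_eq_abs, Real.norm_eq_abs] at h0
    exact mul_right_cancel₀ (norm_ne_zero_iff.2 ha) h0
  have h5 : r x = p + μ • a := by rw [← h3, hw]; abel
  rcases abs_eq_abs.1 h4 with h6 | h6
  · left; rw [h5, h6, hp]; abel
  · right; rw [h5, h6, hp, neg_smul, two_mul, add_smul]; abel

theorem refl_eq {r : V → V} (hr : Isometry r) (hid : r ≠ id) {a : V} {c : ℝ} (ha : a ≠ 0)
    (h : ∀ x, ⟪a, x⟫ = c → r x = x) (x : V) :
    r x = x - (2 * ((⟪a, x⟫ - c) / ‖a‖ ^ 2)) • a := by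
  have ha2 : 0 < ‖a‖ ^ 2 := by have := norm_pos_iff.2 ha; positivity
  obtain ⟨x₁, hx₁⟩ : ∃ x₁, r x₁ ≠ x₁ := by
    by_contra hc
    push Not at hc
    exact hid (funext hc)
  have h1 := (refl_cases hr ha h x₁).resolve_left hx₁
  have h2 : ⟪a, x₁⟫ - c ≠ 0 := fun h0 => hx₁ (h x₁ (by linarith))
  rcases refl_cases hr ha h x with h3 | h3
  · have h4 := hr.dist_eq x x₁
    rw [h3, h1, dist_eq_norm, dist_eq_norm,
      show x - (x₁ - (2 * ((⟪a, x₁⟫ - c) / ‖a‖ ^ 2)) • a) =
        (x - x₁) + (2 * ((⟪a, x₁⟫ - c) / ‖a‖ ^ 2)) • a by abel] at h4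
    have h5 := congrArg (· ^ 2) h4
    simp only [norm_add_sq_real, real_inner_smul_right, norm_smul, mul_pow, Real.norm_eq_abs,
      sq_abs, inner_sub_left] at h5
    rw [real_inner_comm a x, real_inner_comm a x₁] at h5
    have h6 : (⟪a, x₁⟫ - c) * (⟪a, x⟫ - c) = 0 := by
      field_simp at h5
      nlinarith
    have h7 := (mul_eq_zero.1 h6).resolve_left h2
    rw [h3, h7]
    simp
  · exact h3

end Refl

theorem IsReflection.affine {r : E n → E n} (hr : IsReflection r) :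
    ∃ (L : E n ≃ₗᵢ[ℝ] E n) (b : E n), (∀ x, r x = L x + b) ∧
      (L.toContinuousLinearEquiv : E n →L[ℝ] E n).det = -1 := by
  obtain ⟨h1, h2, a, c, ha, h⟩ := hr
  refine ⟨(ℝ ∙ a)ᗮ.reflection, (2 * (c / ‖a‖ ^ 2)) • a, fun x => ?_, ?_⟩
  · rw [refl_eq h1 h2 ha h x, Submodule.reflection_orthogonal_apply,
      Submodule.reflection_singleton_apply, sub_div, mul_sub, sub_smul, two_smul, two_mul,
      add_smul]
    simp only [RCLike.ofReal_real_eq_id, id]
    abel
  · have := Submodule.det_reflection (ℝ ∙ a)ᗮ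
    rw [Submodule.orthogonal_orthogonal, finrank_span_singleton ha, pow_one] at this
    exact this

theorem qr_reflect (hn : 2 ≤ n) {G : Set (E n)} {f : E n → E n} {D : E n → E n →L[ℝ] E n}
    (hW : IsW1n G f D) {K : ℝ} (hK : 1 ≤ K)
    (h : ∀ᵐ x ∂(volume.restrict G), ‖D x‖ ^ n ≤ K * -(D x).det) {r : E n → E n}
    (hr : IsReflection r) : IsQR G (r ∘ f) := by
  obtain ⟨L, b, h1, h2⟩ := hr.affine
  have h3 := ((isW1n_iff.1 hW).clm (by omega)
    (L.toContinuousLinearEquiv : E n →L[ℝ] E n)).add_const (by omega) b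
  refine ⟨_, isW1n_iff.2 (h3.congr' (fun x _ => (h1 (f x)).symm) fun _ _ => rfl), K, hK, ?_⟩
  filter_upwards [h] with x hx
  have e1 : ‖(L.toContinuousLinearEquiv : E n →L[ℝ] E n).comp (D x)‖ = ‖D x‖ :=
    L.toLinearIsometry.norm_toContinuousLinearMap_comp
  have e2 : ((L.toContinuousLinearEquiv : E n →L[ℝ] E n).comp (D x)).det = -(D x).det := by
    change LinearMap.det ((L.toContinuousLinearEquiv : E n →L[ℝ] E n).toLinearMap ∘ₗ
      (D x).toLinearMap) = _
    rw [LinearMap.det_comp]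
    change (L.toContinuousLinearEquiv : E n →L[ℝ] E n).det * (D x).det = _
    rw [h2]; ring
  rw [e1, e2]
  exact hx

theorem final (hn : 2 ≤ n) {G : Set (E n)} (hG : IsOpen G) (hGc : IsPreconnected G)
    {f : E n → E n} {As A : E n → E n → E n} (hAs : Admissible As) (hA : Admissible A)
    (hf : IsMorphism As A G f) :
    IsQR G f ∨ ∀ r, IsReflection r → IsQR G (r ∘ f) := by
  obtain ⟨α, β, hα, hαβ, hAdm⟩ := hA.adm
  obtain ⟨α', β', hα', hαβ', hAdm'⟩ := hAs.adm
  obtain ⟨c₁, C₁, C₂, hc₁, hC₁, hC₂, hR⟩ := exists_ringPot hn hα hαβ hAdm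
  have X : Ctx α' β' c₁ C₁ C₂ A G f := ⟨hn, hα', hα'.trans_le hαβ', hc₁, hC₁, hC₂, hG, hf.1,
    fun y r R h1 h2 => by
      obtain ⟨u, lam, P⟩ := hR y r R h1 h2
      exact ⟨u, lam, P, (hf.2 _ (isOpen_Ring _ _ _) u P.harm).sol hAdm'⟩⟩
  rcases X.dichotomy hGc with ⟨y, hy⟩ | hnc
  · left
    have h1 : Sob.WD n G (fun _ : E n => y) (fderiv ℝ fun _ : E n => y) :=
      Sob.WD.of_contDiff (by omega) contDiff_const
    refine ⟨fun _ => 0, isW1n_iff.2 (h1.congr' (fun x hx => (hy x hx).symm) fun x _ => by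
      rw [fderiv_fun_const]; rfl), 1, le_rfl, Eventually.of_forall fun x => ?_⟩
    have : Nonempty (Fin n) := ⟨⟨0, by omega⟩⟩
    simp [ContinuousLinearMap.det, show n ≠ 0 by omega]
  have hopen := X.isOpen_image hnc
  have hmult := X.mult hnc
  obtain ⟨c, hc, hQ⟩ := X.distort (M := 18) (by norm_num)
  obtain ⟨θ, hθ, hθ1, hO⟩ := X.cover
  obtain ⟨hW, K, hK, hd⟩ := diff_main hn hG hf.1 hopen hmult (c := θ * c) (by positivity)
    (fun x t L ht hL hb h1 h2 => by
      obtain ⟨ρ, hρ, h3⟩ := hQ x t L ht hL hb h1 h2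
      refine ⟨ρ, hρ, fun p hp => le_trans ?_ (h3 p hp), ?_⟩
      · have : 0 < c * L := by positivity
        nlinarith
      · rw [mul_assoc]
        exact hO x ρ _ (ht.trans hρ.1) (by positivity)
          ((closedBall_subset_closedBall (by linarith [hρ.2])).trans hb) h3)
  rcases Sg.sign_ae hn hG hGc hf.1 hopen hmult hW hd with hs | hs
  · left
    refine ⟨_, hW, K, hK, ?_⟩
    filter_upwards [hd, hs] with x h1 h2
    rw [abs_of_nonneg h2] at h1
    exact h1.2
  · right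
    intro r hr
    refine qr_reflect hn hW hK ?_ hr
    filter_upwards [hd, hs] with x h1 h2
    rw [abs_of_nonpos h2] at h1
    exact h1.2

end Pool.Agent.P.MP_fecf7d_an
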