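import Pool.Agent.P.MP_fecf7d_an.Defs

/-!
Potentials of quasiharmonic fields.
-/

open MeasureTheory Set
open scoped RealInnerProductSpace

namespace Pool.Agent.P.MP_fecf7d_an

/-- `v` lies in `W^{1,n}_loc(U)` with weak gradient `g`, and there is a measurable vector field
`a`, weakly divergence free in `U`, with `α |g|^n ≤ a · g` and `|a| ≤ β |g|^(n-1)` a.e. in `U`. -/
def QuasiPot {n : ℕ} (α β : ℝ) (U : Set (E n)) (v : E n → ℝ) : Prop :=
  ∃ g a : E n → E n, IsW1n U v (fun x => innerSL ℝ (g x)) ∧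
    AEStronglyMeasurable a (volume.restrict U) ∧
    (∀ᵐ x ∂(volume.restrict U), α * ‖g x‖ ^ n ≤ ⟪a x, g x⟫ ∧ ‖a x‖ ≤ β * ‖g x‖ ^ (n - 1)) ∧
    ∀ φ, IsTest U φ → ∫ x, ⟪a x, gradient φ x⟫ = 0

end Pool.Agent.P.MP_fecf7d_an
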