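import Pool.Agent.P.MP_fecf7d_an.Final
import Pool.Agent.P.MP_fecf7d_an.LogDefs

/-!
Maps for which every `log |f - y|` is a quasiharmonic potential.
-/

open MeasureTheory Set Metric Filter Topology
open scoped ContDiff RealInnerProductSpace ENNReal

set_option maxHeartbeats 400000
set_option maxSynthPendingDepth 3

namespace Pool.Agent.P.MP_fecf7d_an
open Pool.Agent.Lib

variable {n : ℕ} {α β : ℝ}

theorem QuasiPot.sol (hn : 2 ≤ n) {U : Set (E n)} (hU : IsOpen U) {v : E n → ℝ}
    (hv : ContinuousOn v U) (h : QuasiPot α β U v) : ∃ D a, Sol α (max β 1) U v D a := by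
  obtain ⟨g, a, hw, hm, hb, he⟩ := h
  have hb' := (ae_restrict_iff' hU.measurableSet).1 hb
  have n0 : n ≠ 0 := by omega
  refine ⟨U.indicator fun x => innerSL ℝ (g x), U.indicator a, hv,
    hw.congr hU (Eventually.of_forall fun _ => rfl)
      ((ae_restrict_mem hU.measurableSet).mono fun x hx => by rw [indicator_of_mem hx]),
    fun K hK hKc => ?_, ?_, ?_, fun φ hφ => ?_⟩
  · refine (hm.mono_set hK).congr ?_
    exact (ae_restrict_mem hKc.measurableSet).mono fun x hx => (indicator_of_mem (hK hx) _).symm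
  · filter_upwards [hb'] with x hx
    by_cases e : x ∈ U
    · rw [indicator_of_mem e, indicator_of_mem e, innerSL_apply_norm, innerSL_apply_apply,
        real_inner_comm]
      exact (hx e).1
    · simp [indicator_of_notMem e, n0]
  · filter_upwards [hb'] with x hx
    by_cases e : x ∈ U
    · rw [indicator_of_mem e, indicator_of_mem e, innerSL_apply_norm]
      exact (hx e).2.trans (mul_le_mul_of_nonneg_right (le_max_left _ _) (by positivity))
    · rw [indicator_of_notMem e, norm_zero]
      exact mul_nonneg (zero_le_one.trans (le_max_right _ _)) (by positivity)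
  · rw [← he φ hφ]
    refine integral_congr_ae (Eventually.of_forall fun x => ?_)
    simp only [gradient]
    rw [real_inner_comm, InnerProductSpace.toDual_symm_apply]
    by_cases e : x ∈ U
    · rw [indicator_of_mem e]
    · rw [Sob.IsTest.fderiv_zero_of_notMem hφ e]; rfl

theorem Sol.affine (hn : 2 ≤ n) {O : Set (E n)} (hO : IsOpen O) {v w : E n → ℝ}
    {D : E n → E n →L[ℝ] ℝ} {a : E n → E n} (S : Sol α β O v D a) {l c : ℝ} (hl : 0 < l)
    (e : ∀ x ∈ O, w x = l * v x + c) :
    Sol α β O w (fun x => l • D x) (fun x => l ^ (n - 1) • a x) := by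
  obtain ⟨m, rfl⟩ : ∃ m, n = m + 1 := ⟨n - 1, by omega⟩
  refine ⟨((continuousOn_const.mul S.cont).add continuousOn_const).congr e,
    ((S.wd.const_mul l).add_const hn c).congr hO
      ((ae_restrict_mem hO.measurableSet).mono fun x hx => (e x hx).symm)
      (Eventually.of_forall fun _ => rfl),
    fun K hK hc => (S.meas K hK hc).const_smul (l ^ (m + 1 - 1)), ?_, ?_, fun φ hφ => ?_⟩
  · filter_upwards [S.lower] with x hx
    rw [norm_smul, Real.norm_eq_abs, abs_of_pos hl, ContinuousLinearMap.smul_apply, map_smul,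
      smul_eq_mul, smul_eq_mul, Nat.add_sub_cancel, mul_pow]
    have := mul_le_mul_of_nonneg_left hx (pow_pos hl (m + 1)).le
    calc _ = l ^ (m + 1) * (α * ‖D x‖ ^ (m + 1)) := by ring
      _ ≤ _ := this
      _ = _ := by ring
  · filter_upwards [S.upper] with x hx
    rw [norm_smul, norm_smul, Real.norm_eq_abs, Real.norm_eq_abs, abs_of_pos hl,
      abs_of_pos (pow_pos hl _), mul_pow]
    exact (mul_le_mul_of_nonneg_left hx (pow_pos hl _).le).trans_eq (by ring)
  · simp only [map_smul, integral_smul, S.eq φ hφ, smul_zero]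

theorem log_ringPot (hn : 2 ≤ n) (y : E n) {r R : ℝ} (hr : 0 < r) (hR : r < R) :
    RingPot (Real.log 2) 1 1 (fun _ _ => 0) y r R
      (fun z => (Real.log R - Real.log (max r (min (dist z y) R))) * (Real.log R - Real.log r)⁻¹)
      (Real.log R - Real.log r)⁻¹ := by
  have hL : 0 < Real.log R - Real.log r := sub_pos.2 (Real.log_lt_log hr hR)
  have hl := inv_pos.2 hL
  have d0 : ∀ z : E n, 0 < max r (min (dist z y) R) := fun z => hr.trans_le (le_max_left _ _)
  have hc : Continuous fun z : E n => (Real.log R - Real.log (max r (min (dist z y) R))) *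
      (Real.log R - Real.log r)⁻¹ :=
    (continuous_const.sub ((continuous_const.max ((continuous_id.dist continuous_const).min
      continuous_const)).log fun z => (d0 z).ne')).mul continuous_const
  refine ⟨hc, fun z => mul_nonneg (sub_nonneg.2 (Real.log_le_log (d0 z)
    (max_le hR.le (min_le_right _ _)))) hl.le, fun z => ?_, fun z hz => ?_,
    ⟨hc.continuousOn, ?_⟩, hl, fun k ρ z₁ z₂ h1 h2 h3 h4 => ?_, fun z ρ h1 h2 h3 => ?_⟩
  · rw [← div_eq_mul_inv, div_le_one hL]
    exact sub_le_sub_left (Real.log_le_log hr (le_max_left _ _)) _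
  · rw [max_eq_left ((min_le_left _ _).trans hz), mul_inv_cancel₀ hL.ne']
  · have h1 : ContDiffOn ℝ 1 (fun z : E n => (Real.log R - Real.log ‖z - y‖) *
        (Real.log R - Real.log r)⁻¹) (Ring y r R) := fun z hz => by
      have : z - y ≠ 0 := fun e => by
        have := hz.1
        rw [dist_eq_norm, e, norm_zero] at this
        linarith
      exact ((contDiffAt_const.sub (((contDiffAt_id.sub contDiffAt_const).norm ℝ this).log
        (norm_ne_zero_iff.2 this))).mul contDiffAt_const).contDiffWithinAt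
    have h2 := Sob.WD.of_contDiffOn (n := n) (by omega) (isOpen_Ring y r R) h1
    generalize fderiv ℝ (fun z : E n => (Real.log R - Real.log ‖z - y‖) *
      (Real.log R - Real.log r)⁻¹) = D at h2
    refine ⟨fun x => (InnerProductSpace.toDual ℝ (E n)).symm (D x),
      isW1n_iff.2 (h2.congr' (fun z hz => ?_) fun z _ => ?_), fun φ _ => by simp⟩
    · rw [min_eq_left hz.2.le, max_eq_right hz.1.le, dist_eq_norm]
    · exact ((InnerProductSpace.toDual ℝ (E n)).apply_symm_apply _).symm
  · have hρ : 0 < ρ := by linarith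
    have a1 : Real.log (max r (min (dist z₁ y) R)) ≤ Real.log (2 * ρ) :=
      Real.log_le_log (d0 _) (max_le h3 ((min_le_left _ _).trans (by linarith)))
    have a2 : Real.log (2 ^ k * (2 * ρ)) ≤ Real.log (max r (min (dist z₂ y) R)) := by
      refine Real.log_le_log (by positivity) (le_max_of_le_right (le_min ?_ ?_))
      · refine le_trans ?_ h2
        have : (0 : ℝ) < 2 ^ k * ρ := by positivity
        rw [pow_add]; nlinarith
      · rw [pow_succ] at h4; linarith
    rw [Real.log_mul (by positivity) (by positivity), Real.log_pow] at a2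
    rw [← sub_mul]
    exact mul_le_mul_of_nonneg_right (by linarith) hl.le
  · refine mul_le_mul_of_nonneg_right ?_ hl.le
    have a1 : Real.log ρ ≤ Real.log (max r (min (dist z y) R)) :=
      Real.log_le_log h1 (le_max_of_le_right (le_min h3 h2))
    have a2 := Real.log_le_sub_one_of_pos (div_pos (hr.trans hR) h1)
    rw [Real.log_div (hr.trans hR).ne' h1.ne'] at a2
    linarith

theorem Ctx.concl {c₁ C₁ C₂ : ℝ} {A : E n → E n → E n} {G : Set (E n)} {f : E n → E n}
    (X : Ctx α β c₁ C₁ C₂ A G f) (hGc : IsPreconnected G) :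
    IsQR G f ∨ ∀ r, IsReflection r → IsQR G (r ∘ f) := by
  have hn := X.hn
  have hG := X.hG
  rcases X.dichotomy hGc with ⟨y, hy⟩ | hnc
  · left
    have h1 : Sob.WD n G (fun _ : E n => y) (fderiv ℝ fun _ : E n => y) :=
      Sob.WD.of_contDiff (by omega) contDiff_const
    refine ⟨fun _ => 0, isW1n_iff.2 (h1.congr' (fun x hx => (hy x hx).symm) fun x _ => by
      rw [fderiv_fun_const]; rfl), 1, le_rfl, Eventually.of_forall fun x => ?_⟩
    have : Nonempty (Fin n) := ⟨⟨0, by omega⟩⟩
    simp [ContinuousLinearMap.det, show n ≠ 0 by omega]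
  have hopen := X.isOpen_image hnc
  have hmult := X.mult hnc
  obtain ⟨c, hc, hQ⟩ := X.distort (M := 18) (by norm_num)
  obtain ⟨θ, hθ, hθ1, hO⟩ := X.cover
  obtain ⟨hW, K, hK, hd⟩ := diff_main hn hG X.cont hopen hmult (c := θ * c) (by positivity)
    (fun x t L ht hL hb h1 h2 => by
      obtain ⟨ρ, hρ, h3⟩ := hQ x t L ht hL hb h1 h2
      refine ⟨ρ, hρ, fun p hp => le_trans ?_ (h3 p hp), ?_⟩
      · have : 0 < c * L := by positivity
        nlinarith
      · rw [mul_assoc]
        exact hO x ρ _ (ht.trans hρ.1) (by positivity)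
          ((closedBall_subset_closedBall (by linarith [hρ.2])).trans hb) h3)
  rcases Sg.sign_ae hn hG hGc X.cont hopen hmult hW hd with hs | hs
  · left
    refine ⟨_, hW, K, hK, ?_⟩
    filter_upwards [hd, hs] with x h1 h2
    rw [abs_of_nonneg h2] at h1
    exact h1.2
  · right
    intro r hr
    refine qr_reflect hn hW hK ?_ hr
    filter_upwards [hd, hs] with x h1 h2
    rw [abs_of_nonpos h2] at h1
    exact h1.2

theorem log_final (hn : 2 ≤ n) {G : Set (E n)} (hG : IsOpen G) (hGc : IsPreconnected G)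
    {f : E n → E n} (hf : ContinuousOn f G) (hα : 0 < α)
    (h : ∀ y, QuasiPot α β (G \ f ⁻¹' {y}) fun x => Real.log ‖f x - y‖) :
    IsQR G f ∨ ∀ r, IsReflection r → IsQR G (r ∘ f) := by
  refine Ctx.concl (α := α) (β := max β 1) (c₁ := Real.log 2) (C₁ := 1) (C₂ := 1)
    (A := fun _ _ => 0) ⟨hn, hα, one_pos.trans_le (le_max_right _ _), Real.log_pos one_lt_two,
      one_pos, one_pos, hG, hf, fun y r R h1 h2 => ⟨_, _, log_ringPot hn y h1 h2, ?_⟩⟩ hGc
  obtain ⟨D, a, S⟩ := (h y).sol hn (hf.isOpen_inter_preimage hG isOpen_compl_singleton)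
    (((hf.mono diff_subset).sub continuousOn_const).norm.log fun x hx =>
      norm_ne_zero_iff.2 (sub_ne_zero.2 hx.2))
  have hL : 0 < Real.log R - Real.log r := sub_pos.2 (Real.log_lt_log h1 h2)
  refine ⟨_, _, (S.neg.mono fun x hx => ⟨hx.1, fun e => ?_⟩).affine hn
    (hf.isOpen_inter_preimage hG (isOpen_Ring _ _ _)) (inv_pos.2 hL)
    (c := Real.log R * (Real.log R - Real.log r)⁻¹) fun x hx => ?_⟩
  · have := hx.2.1
    rw [show f x = y from e, dist_self] at this
    linarith
  · simp only [Function.comp, Pi.sub_apply]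
    rw [min_eq_left hx.2.2.le, max_eq_right hx.2.1.le, dist_eq_norm]
    ring

end Pool.Agent.P.MP_fecf7d_an
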