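import Pool.Agent.P.MP_fecf7d_an.Ring2

/-!
Harmonic morphisms: Schwarz lemma, distortion of spheres, openness.
-/

open MeasureTheory Set Metric Filter Topology
open scoped ContDiff RealInnerProductSpace ENNReal

set_option maxHeartbeats 400000
set_option maxSynthPendingDepth 3

namespace Pool.Agent.P.MP_fecf7d_an

variable {n : ℕ}

/-- standing hypotheses on a morphism -/
structure Ctx (α β c₁ C₁ C₂ : ℝ) (A : E n → E n → E n) (G : Set (E n)) (f : E n → E n) :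
    Prop where
  hn : 2 ≤ n
  hα : 0 < α
  hβ : 0 < β
  hc₁ : 0 < c₁
  hC₁ : 0 < C₁
  hC₂ : 0 < C₂
  hG : IsOpen G
  cont : ContinuousOn f G
  pot : ∀ (y : E n) (r R : ℝ), 0 < r → r < R → ∃ u lam, RingPot c₁ C₁ C₂ A y r R u lam ∧
    ∃ D a, Sol α β (G ∩ f ⁻¹' Ring y r R) (u ∘ f) D a

variable {α β c₁ C₁ C₂ : ℝ} {A : E n → E n → E n} {G : Set (E n)} {f : E n → E n}

theorem Ctx.isOpen (X : Ctx α β c₁ C₁ C₂ A G f) (y : E n) (r R : ℝ) :
    IsOpen (G ∩ f ⁻¹' Ring y r R) := X.cont.isOpen_inter_preimage X.hG (isOpen_Ring _ _ _)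

theorem Ctx.exists_k (X : Ctx α β c₁ C₁ C₂ A G f) (Q : ℝ) : ∃ k : ℕ, Q < c₁ * k - C₁ := by
  obtain ⟨k, hk⟩ := exists_nat_gt ((Q + C₁) / c₁)
  refine ⟨k, ?_⟩
  rw [div_lt_iff₀ X.hc₁] at hk
  linarith

theorem RingPot.lt_dist {y z : E n} {r R lam : ℝ} {u : E n → ℝ}
    (P : RingPot c₁ C₁ C₂ A y r R u lam) (h : u z < 1) : r < dist z y := by
  by_contra hc
  rw [P.one z (not_lt.1 hc)] at h
  exact lt_irrefl _ h

theorem RingPot.gap' (hn : 2 ≤ n) {y : E n} {r R lam : ℝ} {u : E n → ℝ}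
    (P : RingPot c₁ C₁ C₂ A y r R u lam) (k : ℕ) {ρ : ℝ} (hρ : 0 ≤ ρ) {z : E n}
    (hz : dist z y ≤ ρ) (h1 : r ≤ 2 * ρ) (h2 : 2 ^ (k + 1) * ρ ≤ R) :
    (c₁ * k - C₁) * lam ≤ u z := by
  obtain ⟨z₂, hz₂⟩ := exists_dist_eq' hn y (s := 2 ^ (k + 2) * ρ) (by positivity)
  have := P.gap k ρ z z₂ hz hz₂.ge h1 h2
  linarith [P.nonneg z₂]

theorem Ctx.schwarz (X : Ctx α β c₁ C₁ C₂ A G f) : ∃ θ : ℝ, 0 < θ ∧ θ < 1 ∧
    ∀ (x : E n) (t L : ℝ), 0 < t → closedBall x t ⊆ G →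
      (∀ p ∈ closedBall x t, dist (f p) (f x) ≤ L) →
      ∀ p ∈ closedBall x (t / 8), dist (f p) (f x) ≤ θ * L := by
  obtain ⟨CH, hCH, hH⟩ := Sol.harnack X.hn X.hα X.hβ
  obtain ⟨k, hk⟩ := X.exists_k (CH * (C₂ * 4))
  set ε : ℝ := 1 / 2 ^ (k + 1) with hε
  have hε0 : 0 < ε := by positivity
  have hεk : 2 ^ (k + 1) * ε = 1 := by rw [hε]; field_simp
  have hε1 : ε ≤ 1 / 2 := by
    have : (2 : ℝ) ^ 1 ≤ 2 ^ (k + 1) := pow_le_pow_right₀ (by norm_num) (by omega)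
    rw [hε]
    exact one_div_le_one_div_of_le (by norm_num) (by simpa using this)
  refine ⟨1 - ε, by linarith, by linarith, fun x t L ht hG hL p hp => ?_⟩
  have hp' : p ∈ closedBall x t := closedBall_subset_closedBall (by linarith) hp
  have hL0 : 0 ≤ L := dist_nonneg.trans (hL p hp')
  rcases hL0.eq_or_lt with h0 | h0
  · have := hL p hp'
    rw [← h0] at this ⊢
    simpa using this
  by_contra hc
  push Not at hc
  set δ := dist (f p) (f x) with hδ
  have hδ0 : 0 < δ := lt_of_le_of_lt (by nlinarith) hc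
  have hδL : δ ≤ L := hL p hp'
  set y' := f x + ((1 + ε) * L / δ) • (f p - f x) with hy'
  have hn' : ‖f p - f x‖ = δ := by rw [hδ, dist_eq_norm]
  have d1 : dist (f x) y' = (1 + ε) * L := by
    rw [hy', dist_self_add_right, norm_smul, hn', Real.norm_eq_abs, abs_of_pos (by positivity)]
    field_simp
  have d2 : dist (f p) y' = (1 + ε) * L - δ := by
    have : f p - y' = (1 - (1 + ε) * L / δ) • (f p - f x) := by
      rw [hy', sub_smul, one_smul]; abel
    have h1 : 1 ≤ (1 + ε) * L / δ := by rw [le_div_iff₀ hδ0]; nlinarith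
    rw [dist_eq_norm, this, norm_smul, hn', Real.norm_eq_abs, abs_of_nonpos (by linarith)]
    field_simp
    ring
  obtain ⟨u, lam, P, D, a, S⟩ := X.pot y' (ε * L / 2) (4 * L) (by positivity) (by nlinarith)
  have hsub : closedBall x t ⊆ G ∩ f ⁻¹' Ring y' (ε * L / 2) (4 * L) := by
    intro q hq
    have h1 := hL q hq
    have h2 := dist_triangle (f x) (f q) y'
    have h3 := dist_triangle (f q) (f x) y'
    rw [dist_comm (f x) (f q)] at h2
    have : 0 < ε * L := by positivity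
    exact ⟨hG hq, by nlinarith, by nlinarith⟩
  have h1 := hH _ _ D a x p x (t / 8) (X.isOpen _ _ _) S (fun q _ => P.nonneg _)
    ((closedBall_subset_closedBall (by linarith)).trans hsub) (by positivity) hp
    (mem_closedBall_self (by positivity))
  have h2 := P.gap' X.hn k (ρ := 2 * ε * L) (by positivity) (z := f p) (by nlinarith)
    (by nlinarith) (by nlinarith)
  have h3 := P.up (f x) L h0 (by linarith) (by nlinarith)
  rw [mul_div_assoc, div_self h0.ne', mul_one] at h3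
  have h4 := P.pos
  simp only [Function.comp] at h1
  have h5 : CH * u (f x) ≤ CH * (C₂ * 4 * lam) := by gcongr
  nlinarith

theorem Ctx.distort (X : Ctx α β c₁ C₁ C₂ A G f) {M : ℝ} (hM : 1 ≤ M) : ∃ c : ℝ, 0 < c ∧
    ∀ (x : E n) (t L : ℝ), 0 < t → 0 < L → closedBall x (9 * t) ⊆ G →
      (∃ p ∈ closedBall x t, L ≤ dist (f p) (f x)) →
      (∀ p ∈ closedBall x (9 * t), dist (f p) (f x) ≤ M * L) →
      ∃ ρ ∈ Ioo t (2 * t), ∀ p ∈ sphere x ρ, c * L ≤ dist (f p) (f x) := by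
  obtain ⟨CW, hCW, hW⟩ := Sol.WH (α := α) (β := β) X.hn X.hα X.hβ (κ := 1 / 2) (by norm_num)
  obtain ⟨k, hk⟩ := X.exists_k (CW * (C₂ * (2 * M)))
  have hp2 : (1 : ℝ) ≤ 2 ^ k := one_le_pow₀ (by norm_num)
  refine ⟨1 / 2 ^ k, by positivity, fun x t L ht hL hG ⟨p₀, hp₀, hp₀'⟩ hb => ?_⟩
  by_contra hc
  push Not at hc
  set r := 1 / 2 ^ k * L with hr
  have hr0 : 0 < r := by positivity
  have hrk : 2 ^ k * r = L := by rw [hr]; field_simp
  have hrL : r ≤ L := by nlinarith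
  obtain ⟨u, lam, P, D, a, S⟩ := X.pot (f x) r (2 * M * L) hr0 (by nlinarith)
  have hU : ball x (9 * t) ⊆ G := ball_subset_closedBall.trans hG
  have hv : ContinuousOn (u ∘ f) G := P.cont.comp_continuousOn X.cont
  have hsub : ∀ q ∈ ball x (9 * t), (u ∘ f) q < 1 → q ∈ G ∩ f ⁻¹' Ring (f x) r (2 * M * L) := by
    intro q hq h1
    have := hb q (ball_subset_closedBall hq)
    exact ⟨hU hq, P.lt_dist h1, by nlinarith⟩
  have h1 := P.up (f p₀) L hL (by nlinarith) hp₀'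
  rw [mul_div_assoc, div_self hL.ne', mul_one] at h1
  have hlam := P.pos
  have hC₂ := X.hC₂
  have h2 : 1 ≤ CW * (C₂ * (2 * M) * lam) := by
    rcases le_or_gt 1 (C₂ * (2 * M) * lam) with h3 | h3
    · nlinarith
    · refine hW (ball x (9 * t)) _ _ D a x (2 * t) _ 1 isOpen_ball (X.isOpen _ _ _) S
        (hv.mono hU) (fun q _ => P.nonneg _) hsub (closedBall_subset_ball (by linarith))
        (by positivity) (by positivity) ⟨t, ht.le, by linarith, fun ρ hρ => ?_⟩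
        ⟨t, ht.le, by linarith, fun ρ hρ => ?_⟩
      · obtain ⟨p, hp, hp'⟩ := hc ρ ⟨hρ.1, by linarith [hρ.2]⟩
        exact ⟨p, (P.one _ hp'.le).ge, hp⟩
      · have hρ9 : ρ < 9 * t := by linarith [hρ.2]
        obtain ⟨p, hp, hp'⟩ := S.sphere_min X.hn X.hα X.hβ (x := x) (x' := p₀) (ρ := ρ) (b := 1)
          (hv.mono ((closedBall_subset_ball hρ9).trans hU))
          (fun q hq => hsub q (ball_subset_ball hρ9.le hq)) (lt_of_le_of_lt hp₀ hρ.1) h1 h3
        exact ⟨p, hp', hp⟩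
  have h3 := P.gap' X.hn k (ρ := r) hr0.le (z := f x) (by simpa using hr0.le) (by linarith)
    (by rw [pow_succ]; nlinarith)
  have h4 := P.le_one (f x)
  nlinarith

theorem Ctx.cover (X : Ctx α β c₁ C₁ C₂ A G f) : ∃ θ : ℝ, 0 < θ ∧ θ ≤ 1 ∧
    ∀ (x : E n) (ρ l : ℝ), 0 < ρ → 0 < l → closedBall x ρ ⊆ G →
      (∀ p ∈ sphere x ρ, l ≤ dist (f p) (f x)) → ball (f x) (θ * l) ⊆ f '' ball x ρ := by
  obtain ⟨k, hk⟩ := X.exists_k 0
  set θ : ℝ := 1 / 2 ^ (k + 3) with hθ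
  have hθ0 : 0 < θ := by positivity
  have hθk : 2 ^ k * θ = 1 / 8 := by rw [hθ]; field_simp; ring
  have hp2 : (1 : ℝ) ≤ 2 ^ k := one_le_pow₀ (by norm_num)
  have hθ1 : θ ≤ 1 / 8 := by nlinarith
  refine ⟨θ, hθ0, by linarith, fun x ρ l hρ hl hG hs y₁ hy₁ => ?_⟩
  by_contra hc
  rw [mem_ball] at hy₁
  have hne : ∀ q ∈ closedBall x ρ, 0 < dist (f q) y₁ := by
    intro q hq
    refine dist_pos.2 fun h => ?_
    rcases (mem_closedBall.1 hq).lt_or_eq with h1 | h1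
    · exact hc ⟨q, h1, h⟩
    · have := hs q h1
      rw [h] at this
      nlinarith
  have hcd : ContinuousOn (fun q => dist (f q) y₁) (closedBall x ρ) :=
    (cont_dist y₁).comp_continuousOn (X.cont.mono hG)
  obtain ⟨r₀, hr₀, hr₀'⟩ := (isCompact_closedBall x ρ).exists_forall_le' hcd hne
  obtain ⟨B, hB⟩ := (isCompact_closedBall x ρ).exists_bound_of_continuousOn hcd
  have hm1 := min_le_left (r₀ / 2) (θ * l)
  have hm2 := min_le_right (r₀ / 2) (θ * l)
  have hM1 := le_max_left B l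
  have hM2 := le_max_right B l
  obtain ⟨u, lam, P, D, a, S⟩ := X.pot y₁ (min (r₀ / 2) (θ * l)) (max B l + 1)
    (lt_min (by positivity) (by positivity)) (by nlinarith)
  have hv : ContinuousOn (u ∘ f) G := P.cont.comp_continuousOn X.cont
  obtain ⟨p, hp, hp'⟩ := S.sphere_max X.hn X.hα X.hβ (x := x) (x' := x) (ρ := ρ)
    (s := u (f x)) (b := u (f x) - 1) (hv.mono hG) (fun q hq _ => by
      have hq' := ball_subset_closedBall hq
      have h1 := hr₀' q hq'
      have h2 := hB q hq'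
      rw [Real.norm_eq_abs, abs_of_nonneg dist_nonneg] at h2
      exact ⟨hG hq', by linarith, by linarith⟩) (mem_ball_self hρ) le_rfl (by linarith)
  have h1 := hs p hp
  have h2 := dist_triangle (f p) y₁ (f x)
  have h3 := P.gap k (θ * l) (f x) (f p) (by rw [dist_comm]; exact hy₁.le)
    (by rw [pow_add]; nlinarith) (by nlinarith) (by rw [pow_add]; nlinarith)
  have h4 := P.pos
  simp only [Function.comp] at hp'
  nlinarith

theorem Ctx.sphere_avoid (X : Ctx α β c₁ C₁ C₂ A G f) {x p : E n} {t : ℝ} (ht : 0 < t)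
    (hG : closedBall x (9 * t) ⊆ G) (hp : p ∈ closedBall x t) (hne : f p ≠ f x) :
    ∃ ρ ∈ Ioo t (2 * t), ∃ l : ℝ, 0 < l ∧ ∀ q ∈ sphere x ρ, l ≤ dist (f q) (f x) := by
  have hcd : ContinuousOn (fun q => dist (f q) (f x)) (closedBall x (9 * t)) :=
    (cont_dist (f x)).comp_continuousOn (X.cont.mono hG)
  obtain ⟨B, hB⟩ := (isCompact_closedBall x (9 * t)).exists_bound_of_continuousOn hcd
  have hL : 0 < dist (f p) (f x) := dist_pos.2 hne
  obtain ⟨c, hc, h⟩ := X.distort (M := max 1 (B / dist (f p) (f x))) (le_max_left _ _)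
  obtain ⟨ρ, hρ, h'⟩ := h x t _ ht hL hG ⟨p, hp, le_rfl⟩ (fun q hq => by
    have h2 := hB q hq
    rw [Real.norm_eq_abs, abs_of_nonneg dist_nonneg] at h2
    exact h2.trans ((div_le_iff₀ hL).1 (le_max_right _ _)))
  exact ⟨ρ, hρ, _, by positivity, h'⟩

theorem Ctx.const_double (X : Ctx α β c₁ C₁ C₂ A G f) {x y : E n} {a : ℝ} (ha : 0 < a)
    (hG : closedBall x (10 * a) ⊆ G) (h : ∀ q ∈ closedBall x a, f q = y) :
    ∀ q ∈ closedBall x (2 * a), f q = y := by
  intro q hq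
  rw [mem_closedBall] at hq
  rcases le_or_gt (dist q x) a with h1 | h1
  · exact h q h1
  set δ := dist q x with hδ
  have hδ0 : 0 < δ := ha.trans h1
  have hn' : ‖q - x‖ = δ := by rw [hδ, dist_eq_norm]
  have key : ∀ s s' : ℝ, dist (x + (s / δ) • (q - x)) (x + (s' / δ) • (q - x)) = |s - s'| := by
    intro s s'
    rw [dist_add_left, dist_eq_norm, ← sub_smul, norm_smul, hn', Real.norm_eq_abs, ← sub_div,
      abs_div, abs_of_pos hδ0, div_mul_cancel₀ _ hδ0.ne']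
  have e0 : x + ((0 : ℝ) / δ) • (q - x) = x := by simp
  have e1 : x + (δ / δ) • (q - x) = q := by rw [div_self hδ0.ne']; simp
  set x₂ := x + (a / δ) • (q - x) with hx₂
  have d1 : dist x₂ x = a := by
    have := key a 0
    rwa [e0, sub_zero, abs_of_pos ha] at this
  have d2 : dist q x₂ = δ - a := by
    have := key δ a
    rwa [e1, abs_of_pos (by linarith)] at this
  have f2 : f x₂ = y := h x₂ d1.le
  by_contra hne
  obtain ⟨ρ, hρ, l, hl, h'⟩ := X.sphere_avoid (x := x₂) (p := q) ha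
    ((closedBall_subset_closedBall' (by linarith)).trans hG) (by rw [mem_closedBall]; linarith)
    (by rwa [f2])
  have d3 := key (a - ρ) a
  have d4 := key (a - ρ) 0
  rw [show a - ρ - a = -ρ by ring, abs_neg, abs_of_pos (ha.trans hρ.1)] at d3
  rw [e0, sub_zero, abs_of_neg (by linarith [hρ.1])] at d4
  have := h' _ d3
  rw [h _ (by rw [mem_closedBall, d4]; linarith [hρ.2]), f2, dist_self] at this
  linarith

theorem Ctx.const_pow (X : Ctx α β c₁ C₁ C₂ A G f) {x y : E n} {a : ℝ} (ha : 0 < a)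
    (h : ∀ q ∈ closedBall x a, f q = y) (j : ℕ) (hG : closedBall x (5 * (2 ^ j * a)) ⊆ G) :
    ∀ q ∈ closedBall x (2 ^ j * a), f q = y := by
  induction j with
  | zero => simpa using h
  | succ j ih =>
    have hp : 0 < 2 ^ j * a := by positivity
    have e : (2 : ℝ) ^ (j + 1) * a = 2 * (2 ^ j * a) := by ring
    rw [e] at hG ⊢
    exact X.const_double hp ((closedBall_subset_closedBall (by linarith)).trans hG)
      (ih ((closedBall_subset_closedBall (by linarith)).trans hG))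

theorem Ctx.dichotomy (X : Ctx α β c₁ C₁ C₂ A G f) (hGc : IsPreconnected G) :
    (∃ y, ∀ x ∈ G, f x = y) ∨ ∀ x ∈ G, ∀ t : ℝ, 0 < t → ∃ p ∈ closedBall x t, f p ≠ f x := by
  by_cases h : ∀ x ∈ G, ∀ t : ℝ, 0 < t → ∃ p ∈ closedBall x t, f p ≠ f x
  · exact Or.inr h
  left
  push Not at h
  obtain ⟨x₁, hx₁, t, ht, h⟩ := h
  refine ⟨f x₁, fun x hx => ?_⟩
  have hsub : G ⊆ {x | ∀ᶠ p in 𝓝 x, f p = f x₁} := by
    refine hGc.subset_of_closure_inter_subset isOpen_setOfPred_eventually_nhds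
      ⟨x₁, hx₁, mem_of_superset (closedBall_mem_nhds x₁ ht) h⟩ ?_
    rintro x₀ ⟨h1, h2⟩
    obtain ⟨τ, hτ, hτG⟩ := Metric.nhds_basis_closedBall.mem_iff.1 (X.hG.mem_nhds h2)
    set σ := τ / 21 with hσ
    have hσ0 : 0 < σ := by positivity
    obtain ⟨x₂, hx₂, hd⟩ := Metric.mem_closure_iff.1 h1 σ hσ0
    obtain ⟨a₀, ha₀, ha₀'⟩ := Metric.nhds_basis_closedBall.mem_iff.1 hx₂
    set a := min a₀ σ with ha
    have ha0 : 0 < a := lt_min ha₀ hσ0
    have haσ : a ≤ σ := min_le_right _ _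
    obtain ⟨m, hm1, hm2⟩ := exists_nat_pow_near (x := 2 * σ / a) (y := 2)
      (by rw [le_div_iff₀ ha0]; linarith) (by norm_num)
    rw [le_div_iff₀ ha0] at hm1
    rw [div_lt_iff₀ ha0] at hm2
    have e : (2 : ℝ) ^ (m + 1) * a = 2 * (2 ^ m * a) := by ring
    have := X.const_pow (x := x₂) (y := f x₁) ha0
      (fun q hq => ha₀' (closedBall_subset_closedBall (min_le_left _ _) hq)) (m + 1)
      ((closedBall_subset_closedBall' (by rw [dist_comm]; linarith)).trans hτG)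
    refine mem_of_superset (ball_mem_nhds x₀ hσ0) fun q hq => this q ?_
    rw [mem_ball] at hq
    rw [mem_closedBall]
    linarith [dist_triangle q x₀ x₂]
  exact (hsub hx).self_of_nhds

theorem Ctx.isOpen_image (X : Ctx α β c₁ C₁ C₂ A G f)
    (hnc : ∀ x ∈ G, ∀ t : ℝ, 0 < t → ∃ p ∈ closedBall x t, f p ≠ f x) :
    ∀ W ⊆ G, IsOpen W → IsOpen (f '' W) := by
  intro W hWG hW
  obtain ⟨θ, hθ, -, hO⟩ := X.cover
  rw [Metric.isOpen_iff]
  rintro _ ⟨x, hx, rfl⟩
  obtain ⟨τ, hτ, hτW⟩ := Metric.nhds_basis_closedBall.mem_iff.1 (hW.mem_nhds hx)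
  obtain ⟨p, hp, hne⟩ := hnc x (hWG hx) (τ / 9) (by positivity)
  obtain ⟨ρ, hρ, l, hl, h⟩ := X.sphere_avoid (t := τ / 9) (by positivity)
    ((closedBall_subset_closedBall (by linarith)).trans (hτW.trans hWG)) hp hne
  have hρW : closedBall x ρ ⊆ W := (closedBall_subset_closedBall (by linarith [hρ.2])).trans hτW
  exact ⟨θ * l, by positivity, (hO x ρ l (by linarith [hρ.1]) hl (hρW.trans hWG) h).trans
    (image_mono (ball_subset_closedBall.trans hρW))⟩

end Pool.Agent.P.MP_fecf7d_an
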