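import Pool.Agent.P.MP_fecf7d_an.Morph1

/-!
Harmonic morphisms: energy bound for pulled back potentials and bounded multiplicity.
-/

open MeasureTheory Set Metric Filter Topology
open scoped ContDiff RealInnerProductSpace ENNReal

set_option maxHeartbeats 400000
set_option maxSynthPendingDepth 3

namespace Pool.Agent.P.MP_fecf7d_an

variable {n : ℕ} {α β c₁ C₁ C₂ : ℝ} {A : E n → E n → E n} {G : Set (E n)} {f : E n → E n}

theorem En_le_Plog {W : Set (E n)} (hW : MeasurableSet W) {v : E n → ℝ}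
    {D : E n → E n →L[ℝ] ℝ} {b ε M : ℝ} (hε : 0 < ε) (hM : 0 ≤ M)
    (h : ∀ x ∈ W, 0 ≤ v x ∧ v x < b ∧ v x ≤ M) :
    En W D ≤ ENNReal.ofReal ((M + ε) ^ n) * En W (Plog v D b ε) := by
  unfold En
  rw [← lintegral_const_mul' _ _ ENNReal.ofReal_ne_top]
  refine setLIntegral_mono' hW fun x hx => ?_
  obtain ⟨h0, h1, h2⟩ := h x hx
  have hmem : x ∈ {x | -(ε / 2) < v x ∧ v x < b} := ⟨by linarith, h1⟩
  have hpos : 0 < v x + ε := by linarith
  rw [Plog, indicator_of_mem hmem, ENNReal.ofReal_pow (by linarith), ← mul_pow, ← ofReal_norm,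
    ← ofReal_norm, ← ENNReal.ofReal_mul (by linarith)]
  gcongr
  rw [norm_smul, Real.norm_eq_abs, abs_of_pos (inv_pos.2 hpos), ← mul_assoc]
  refine le_mul_of_one_le_left (norm_nonneg _) ?_
  rw [← div_eq_mul_inv, one_le_div hpos]
  linarith

theorem Ctx.energy (X : Ctx α β c₁ C₁ C₂ A G f) {x₀ : E n} {ρ₀ d₀ : ℝ} (hρ₀ : 0 < ρ₀)
    (hd₀ : 0 < d₀) (hG : closedBall x₀ ρ₀ ⊆ G)
    (hs : ∀ p ∈ sphere x₀ ρ₀, d₀ ≤ dist (f p) (f x₀)) :
    ∃ R C₀ : ℝ, d₀ ≤ R ∧ 0 < C₀ ∧ (∀ q ∈ closedBall x₀ ρ₀, dist (f q) (f x₀) ≤ R / 2) ∧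
      ∀ (y : E n) (r lam s t : ℝ) (u : E n → ℝ) (D : E n → E n →L[ℝ] ℝ) (a : E n → E n),
        dist y (f x₀) < d₀ / 4 → RingPot c₁ C₁ C₂ A y r R u lam →
        Sol α β (G ∩ f ⁻¹' Ring y r R) (u ∘ f) D a → 0 ≤ s → s < t → t < 1 →
        (∀ z, d₀ / 4 ≤ dist z y → u z ≤ s) →
        En (ball x₀ ρ₀ ∩ {x | s < (u ∘ f) x ∧ (u ∘ f) x < t}) D ≤
          ENNReal.ofReal (C₀ * (t - s) * lam ^ (n - 1)) := by
  have hn := X.hn
  have hα := X.hα
  have hβ := X.hβ
  have hC₂ := X.hC₂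
  have hcd : ContinuousOn (fun q => dist (f q) (f x₀)) (closedBall x₀ ρ₀) :=
    (cont_dist (f x₀)).comp_continuousOn (X.cont.mono hG)
  obtain ⟨B, hB⟩ := (isCompact_closedBall x₀ ρ₀).exists_bound_of_continuousOn hcd
  have hK₀ : IsCompact (closedBall x₀ ρ₀ ∩ (fun q => dist (f q) (f x₀)) ⁻¹' Iic (d₀ / 2)) :=
    (isCompact_closedBall _ _).of_isClosed_subset
      (hcd.preimage_isClosed_of_isClosed isClosed_closedBall isClosed_Iic) inter_subset_left
  obtain ⟨e, he, he'⟩ := hK₀.exists_forall_le' (f := fun q => ρ₀ - dist q x₀) (a := 0)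
    (continuous_const.sub (cont_dist x₀)).continuousOn (fun q hq => by
      rcases (mem_closedBall.1 hq.1).lt_or_eq with h | h
      · linarith
      · have h1 := hs q h
        have h2 : dist (f q) (f x₀) ≤ d₀ / 2 := hq.2
        linarith)
  have heρ : e ≤ ρ₀ := by
    have := he' x₀ ⟨mem_closedBall_self hρ₀.le, by simp; positivity⟩
    simpa using this
  set ρ₁ := ρ₀ - e / 2 with hρ₁
  set ρ₂ := ρ₀ - e / 4 with hρ₂
  set ρ₃ := ρ₀ - e / 8 with hρ₃
  have hρ₁0 : 0 < ρ₁ := by linarith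
  have hρ₂0 : 0 < ρ₂ := by linarith
  have shell : ∀ q, ρ₁ ≤ dist q x₀ → dist q x₀ ≤ ρ₀ → d₀ / 2 < dist (f q) (f x₀) := by
    intro q h1 h2
    by_contra hc
    have := he' q ⟨h2, not_lt.1 hc⟩
    linarith
  obtain ⟨Cψ, hCψ, hcut⟩ := exists_cut n (q := ρ₂ / ρ₁) ((one_lt_div hρ₁0).2 (by linarith))
  obtain ⟨ψ, hψ, hψI⟩ := hcut x₀ ρ₁ hρ₁0
  rw [div_mul_cancel₀ _ hρ₁0.ne'] at hψ
  obtain ⟨Cη, hCη, hcut'⟩ := exists_cutoff' n (q := ρ₃ / ρ₂) ((one_lt_div hρ₂0).2 (by linarith))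
  obtain ⟨η, hη, hη0, hη1, -, -, hηI⟩ := hcut' x₀ ρ₂ hρ₂0
  rw [div_mul_cancel₀ _ hρ₂0.ne'] at hη
  obtain ⟨CL, hCL, hLC⟩ := Sol.LC hn hα hβ
  set R := max d₀ (2 * B) with hR
  have hR1 : d₀ ≤ R := le_max_left _ _
  have hR2 : 2 * B ≤ R := le_max_right _ _
  have hRB : ∀ q ∈ closedBall x₀ ρ₀, dist (f q) (f x₀) ≤ R / 2 := fun q hq => by
    have h2 := hB q hq
    rw [Real.norm_eq_abs, abs_of_nonneg dist_nonneg] at h2
    linarith
  set M₁ := C₂ * (R / (d₀ / 4)) with hM₁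
  have hM₁0 : 0 < M₁ := by have : 0 < R := by linarith
                           positivity
  refine ⟨R, ((M₁ + 1) ^ n * (CL * Cη) + β ^ n * Cψ) / α, hR1, by positivity, hRB, ?_⟩
  intro y r lam s t u D a hy P S hs0 hst ht hus
  have hlam := P.pos
  have hv : ContinuousOn (u ∘ f) G := P.cont.comp_continuousOn X.cont
  have hUG : ball x₀ ρ₀ ⊆ G := ball_subset_closedBall.trans hG
  have hsub : ∀ q ∈ ball x₀ ρ₀, (u ∘ f) q ≤ t → q ∈ G ∩ f ⁻¹' Ring y r R := by
    intro q hq h1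
    have h2 := hRB q (ball_subset_closedBall hq)
    have h3 := dist_triangle (f q) (f x₀) y
    rw [dist_comm (f x₀) y] at h3
    exact ⟨hUG hq, P.lt_dist (h1.trans_lt ht), by linarith⟩
  have shell' : ∀ q, ρ₁ ≤ dist q x₀ → dist q x₀ ≤ ρ₀ → d₀ / 4 ≤ dist (f q) y := by
    intro q h1 h2
    have h3 := shell q h1 h2
    have h4 := dist_triangle (f q) y (f x₀)
    linarith
  set K := closedBall x₀ ρ₂ ∩ (u ∘ f) ⁻¹' Iic t with hKdef
  have h₂U : closedBall x₀ ρ₂ ⊆ ball x₀ ρ₀ := closedBall_subset_ball (by linarith)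
  have hK : IsCompact K := (isCompact_closedBall _ _).of_isClosed_subset
    ((hv.mono (h₂U.trans hUG)).preimage_isClosed_of_isClosed isClosed_closedBall isClosed_Iic)
    inter_subset_left
  have hKO : K ⊆ G ∩ f ⁻¹' Ring y r R := fun q hq => hsub q (h₂U hq.1) hq.2
  have hTE := (S.mono (U := ball x₀ ρ₀ ∩ (G ∩ f ⁻¹' Ring y r R)) inter_subset_right).TE hn hβ
    (isOpen_ball.inter (X.isOpen _ _ _)) hK (fun q hq => ⟨h₂U hq.1, hKO hq⟩) hst
    (hψ.smooth.of_le (by simp)) (fun q hq hqK => by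
      have hq0 : dist q x₀ ≤ ρ₀ := le_of_lt hq.1
      by_cases h1 : dist q x₀ ≤ ρ₂
      · have h2 : t < (u ∘ f) q := by
          by_contra hc
          exact hqK ⟨h1, not_lt.1 hc⟩
        have h3 : dist q x₀ ≤ ρ₁ := by
          by_contra hc
          have := hus _ (shell' q (not_le.1 hc).le hq0)
          simp only [Function.comp] at h2
          linarith
        rw [hψ.one q h3, T_of_ge h2.le, mul_one]
      · have h2 := not_le.1 h1
        have h3 : (u ∘ f) q ≤ s := hus _ (shell' q (by linarith) hq0)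
        rw [hψ.zero q h2.le, T_of_le hst.le h3, mul_zero, sub_self])
  have hAK : Ann x₀ ρ₁ ρ₂ ⊆ K := fun q hq =>
    ⟨hq.2, (hus _ (shell' q hq.1 (by linarith [hq.2]))).trans hst.le⟩
  have hA := isCompact_Ann x₀ ρ₁ ρ₂
  have e1 : ∫ x in K, fderiv ℝ ψ x (a x) = ∫ x in Ann x₀ ρ₁ ρ₂, fderiv ℝ ψ x (a x) :=
    setIntegral_eq_of_subset_of_forall_sdiff_eq_zero hK.measurableSet hAK fun x hx => by
      rw [hψ.fderiv_eq hx.2]; rfl
  have e2 := S.abs_int_le hn hβ (hAK.trans hKO) hA (memLp_fderiv hA (hψ.smooth.of_le (by simp)))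
    (d := 1 / lam) (by positivity)
  have e3 : ∫ x in Ann x₀ ρ₁ ρ₂, ‖fderiv ℝ ψ x‖ ^ n ≤ Cψ := by
    rw [setIntegral_eq_integral_of_forall_compl_eq_zero]
    · exact hψI
    · intro x hx
      rw [hψ.fderiv_eq hx, norm_zero, zero_pow (by omega)]
  have e4 : ∫ x in Ann x₀ ρ₁ ρ₂, ‖D x‖ ^ n ≤ (M₁ * lam + lam) ^ n * (CL * Cη) := by
    have h1 := hLC (ball x₀ ρ₀) _ _ D a η t lam (X.isOpen _ _ _) S (hv.mono hUG)
      (fun q _ => P.nonneg _) hsub
      ⟨hη.1, hη.2.1, hη.2.2.trans (closedBall_subset_ball (by linarith))⟩ (fun x => (hη0 x).1)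
      (by linarith) hlam (Ann x₀ ρ₁ ρ₂) hA.measurableSet (fun q hq => hη1 q hq.2)
    have h2 := En_le_Plog (D := D) (v := u ∘ f) (b := t) (M := M₁ * lam) hA.measurableSet hlam
      (by positivity) (fun q hq => by
        have h3 := shell' q hq.1 (by linarith [hq.2])
        exact ⟨P.nonneg _, (hus _ h3).trans_lt hst,
          P.up (f q) (d₀ / 4) (by positivity) (by linarith) h3⟩)
    rw [S.En_eq hn hA (hAK.trans hKO) subset_rfl] at h2
    refine (ENNReal.ofReal_le_ofReal_iff (by positivity)).1 (h2.trans ?_)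
    rw [ENNReal.ofReal_mul (p := (M₁ * lam + lam) ^ n) (by positivity)]
    gcongr
    exact h1.trans (ENNReal.ofReal_le_ofReal (by gcongr))
  have e5 : ∫ x in K, fderiv ℝ ψ x (a x) ≤
      ((M₁ + 1) ^ n * (CL * Cη) + β ^ n * Cψ) * lam ^ (n - 1) := by
    rw [e1]
    refine (le_abs_self _).trans (e2.trans ?_)
    calc 1 / lam * (∫ x in Ann x₀ ρ₁ ρ₂, ‖D x‖ ^ n) +
          β * (β / (1 / lam)) ^ (n - 1) * ∫ x in Ann x₀ ρ₁ ρ₂, ‖fderiv ℝ ψ x‖ ^ n
        ≤ 1 / lam * ((M₁ * lam + lam) ^ n * (CL * Cη)) + β * (β / (1 / lam)) ^ (n - 1) * Cψ := by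
          gcongr
      _ = _ := by
          obtain ⟨m, rfl⟩ : ∃ m, n = m + 1 := ⟨n - 1, by omega⟩
          simp only [Nat.add_sub_cancel]
          rw [show M₁ * lam + lam = (M₁ + 1) * lam by ring, mul_pow, div_div_eq_mul_div, div_one,
            mul_pow]
          field_simp
          ring
  have hsub2 : ball x₀ ρ₀ ∩ {x | s < (u ∘ f) x ∧ (u ∘ f) x < t} ⊆
      K ∩ {x | s < (u ∘ f) x ∧ (u ∘ f) x < t} := by
    rintro q ⟨hq, h1⟩
    refine ⟨⟨?_, h1.2.le⟩, h1⟩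
    by_contra hc
    have h2 : ρ₂ < dist q x₀ := not_le.1 hc
    have h3 : (u ∘ f) q ≤ s := hus _ (shell' q (by linarith) (le_of_lt hq))
    linarith [h1.1]
  refine (En_mono hsub2).trans ?_
  rw [S.En_eq hn hK hKO inter_subset_left]
  refine ENNReal.ofReal_le_ofReal ?_
  have hts : 0 < t - s := by linarith
  have e6 := hTE.trans (mul_le_mul_of_nonneg_left e5 hts.le)
  rw [div_mul_eq_mul_div, div_mul_eq_mul_div, le_div_iff₀ hα]
  linarith

theorem exists_delta {x y : E n} {σ ρ : ℝ} (hσ : 0 < σ) (hρ : 0 < ρ)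
    (hf : ContinuousOn f (closedBall x σ)) (hx : f x = y)
    (hp : ∃ p ∈ closedBall x σ, ρ ≤ dist (f p) y) :
    ∃ δ : ℝ, 0 < δ ∧ δ ≤ σ ∧ (∀ q ∈ closedBall x (δ / 2), dist (f q) y ≤ ρ) ∧
      ∀ τ, δ < τ → ∃ p ∈ ball x τ, ρ ≤ dist (f p) y := by
  set Z := closedBall x σ ∩ (fun q => dist (f q) y) ⁻¹' Ici ρ with hZ
  have hZc : IsClosed Z := ((cont_dist y).comp_continuousOn hf).preimage_isClosed_of_isClosed
    isClosed_closedBall isClosed_Ici
  obtain ⟨p, hp1, hp2⟩ := hp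
  have hpZ : p ∈ Z := ⟨hp1, hp2⟩
  have hxZ : x ∉ Z := fun h => by
    have : ρ ≤ dist (f x) y := h.2
    rw [hx, dist_self] at this
    linarith
  have hδ : 0 < infDist x Z := (hZc.notMem_iff_infDist_pos ⟨p, hpZ⟩).1 hxZ
  have hδσ : infDist x Z ≤ σ := (infDist_le_dist_of_mem hpZ).trans (by
    rw [dist_comm]; exact hp1)
  refine ⟨infDist x Z, hδ, hδσ, fun q hq => ?_, fun τ hτ => ?_⟩
  · by_contra hc
    rw [mem_closedBall] at hq
    have hqZ : q ∈ Z := ⟨by rw [mem_closedBall]; linarith, (not_le.1 hc).le⟩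
    have := infDist_le_dist_of_mem (x := x) hqZ
    rw [dist_comm] at this
    linarith
  · obtain ⟨q, hq, hq'⟩ := (infDist_lt_iff ⟨p, hpZ⟩).1 hτ
    exact ⟨q, by rwa [mem_ball, dist_comm], hq.2⟩

theorem Ctx.schwarz_iter (X : Ctx α β c₁ C₁ C₂ A G f) {th : ℝ} (hth : 0 < th) :
    ∃ κ : ℝ, 0 < κ ∧ κ ≤ 1 ∧ ∀ (x : E n) (t L : ℝ), 0 < t → closedBall x t ⊆ G →
      (∀ p ∈ closedBall x t, dist (f p) (f x) ≤ L) →
      ∀ p ∈ closedBall x (κ * t), dist (f p) (f x) ≤ th * L := by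
  obtain ⟨θ, hθ0, hθ1, h⟩ := X.schwarz
  obtain ⟨j, hj⟩ := exists_pow_lt_of_lt_one hth hθ1
  refine ⟨(1 / 8) ^ j, by positivity, pow_le_one₀ (by norm_num) (by norm_num),
    fun x t L ht hG hL => ?_⟩
  have hL0 : 0 ≤ L := dist_nonneg.trans (hL x (mem_closedBall_self ht.le))
  have key : ∀ i : ℕ, ∀ p ∈ closedBall x ((1 / 8) ^ i * t), dist (f p) (f x) ≤ θ ^ i * L := by
    intro i
    induction i with
    | zero => simpa using hL
    | succ i ih =>
      have h1 : (1 / 8 : ℝ) ^ i * t ≤ t :=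
        mul_le_of_le_one_left ht.le (pow_le_one₀ (by norm_num) (by norm_num))
      have := h x _ _ (by positivity) ((closedBall_subset_closedBall h1).trans hG) ih
      rw [show (1 / 8 : ℝ) ^ (i + 1) * t = (1 / 8) ^ i * t / 8 by ring,
        show θ ^ (i + 1) * L = θ * (θ ^ i * L) by ring]
      exact this
  intro p hp
  exact (key j p hp).trans (by gcongr)

theorem Ctx.mult (X : Ctx α β c₁ C₁ C₂ A G f)
    (hnc : ∀ x ∈ G, ∀ t : ℝ, 0 < t → ∃ p ∈ closedBall x t, f p ≠ f x) :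
    ∀ x ∈ G, ∃ W ∈ 𝓝 x, ∃ N : ℕ, ∀ y, (W ∩ f ⁻¹' {y}).encard ≤ N := by
  intro x₀ hx₀
  have hn := X.hn
  obtain ⟨τ, hτ, hτG⟩ := Metric.nhds_basis_closedBall.mem_iff.1 (X.hG.mem_nhds hx₀)
  obtain ⟨p₀, hp₀, hne⟩ := hnc x₀ hx₀ (τ / 9) (by positivity)
  obtain ⟨ρ₀, hρ₀, d₀, hd₀, hs⟩ := X.sphere_avoid (t := τ / 9) (by positivity)
    ((closedBall_subset_closedBall (by linarith)).trans hτG) hp₀ hne
  have hρ₀0 : 0 < ρ₀ := by linarith [hρ₀.1]
  have hG : closedBall x₀ ρ₀ ⊆ G :=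
    (closedBall_subset_closedBall (by linarith [hρ₀.2])).trans hτG
  have hUG : ball x₀ ρ₀ ⊆ G := ball_subset_closedBall.trans hG
  obtain ⟨R, C₀, hR, hC₀, hRB, hE⟩ := X.energy hρ₀0 hd₀ hG hs
  obtain ⟨CL, hCL, hL⟩ := loewner hn
  obtain ⟨k, hk⟩ := X.exists_k 1
  set th : ℝ := 1 / 2 ^ (k + 2) with hth
  have hth0 : 0 < th := by positivity
  have hthk : 2 ^ (k + 2) * th = 1 := by rw [hth]; field_simp
  have hth1 : th ≤ 1 := by
    have : (1 : ℝ) ≤ 2 ^ (k + 2) := one_le_pow₀ (by norm_num)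
    nlinarith
  obtain ⟨κ, hκ, hκ1, hS⟩ := X.schwarz_iter hth0
  have main : ∀ (y : E n) (F : Finset (E n)), dist y (f x₀) < d₀ / 4 →
      (∀ x ∈ F, x ∈ ball x₀ ρ₀ ∧ f x = y) → (F.card : ℝ) ≤ C₀ * 2 ^ (n - 1) * (4 * CL) / κ := by
    intro y F hy hF
    have ev : ∀ c e : ℝ, 0 < e → ∀ᶠ σ in 𝓝[>] (0 : ℝ), c * σ < e := fun c e he =>
      mem_nhdsWithin_of_mem_nhds ((by fun_prop : Continuous fun σ : ℝ => c * σ).continuousAt.eventually_lt
        continuousAt_const (by simpa using he))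
    obtain ⟨σ, ⟨hσ1, hσ2⟩, hσ⟩ := ((((eventually_all_finset F).2 fun x hx =>
      ev 4 (ρ₀ - dist x x₀) (sub_pos.2 (hF x hx).1)).and
      ((eventually_all_finset F).2 fun x _ => (eventually_all_finset F).2 fun x' _ =>
        (show ∀ᶠ σ in 𝓝[>] (0 : ℝ), x ≠ x' → 8 * σ < dist x x' by
          by_cases h : x = x'
          · exact Eventually.of_forall fun _ h' => absurd h h'
          · exact (ev 8 _ (dist_pos.2 h)).mono fun _ h' _ => h'))).and
      self_mem_nhdsWithin).exists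
    have hσ0 : 0 < σ := hσ
    have hB : ∀ x ∈ F, closedBall x (4 * σ) ⊆ ball x₀ ρ₀ := fun x hx =>
      closedBall_subset_ball' (by linarith [hσ1 x hx])
    obtain ⟨ρ, ⟨hρ1, hρ2⟩, hρ⟩ := ((((eventually_all_finset F).2 fun x hx =>
      (show ∀ᶠ ρ in 𝓝[>] (0 : ℝ), ∃ p ∈ closedBall x σ, ρ ≤ dist (f p) y by
        obtain ⟨p, hp, hp'⟩ := hnc x (hUG (hF x hx).1) σ hσ0
        rw [(hF x hx).2] at hp'
        exact (ev 1 _ (dist_pos.2 hp')).mono fun ρ h' => ⟨p, hp, by linarith⟩)).and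
      (ev 1 (d₀ / 4) (by positivity))).and self_mem_nhdsWithin).exists
    have hρ0 : 0 < ρ := hρ
    have hrρ : th * ρ ≤ ρ := mul_le_of_le_one_left hρ0.le hth1
    obtain ⟨u, lam, P, D, a, S⟩ := X.pot y (th * ρ) R (by positivity) (by linarith)
    have hlam := P.pos
    obtain ⟨z₀, hz₀⟩ := exists_dist_eq' hn y hρ0.le
    have hne' : (u '' {z | ρ ≤ dist z y}).Nonempty := ⟨_, z₀, hz₀.ge, rfl⟩
    have hbdd : BddAbove (u '' {z | ρ ≤ dist z y}) := ⟨1, by
      rintro _ ⟨z, -, rfl⟩; exact P.le_one z⟩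
    set s := sSup (u '' {z | ρ ≤ dist z y}) with hsdef
    have hs1 : ∀ z, ρ ≤ dist z y → u z ≤ s := fun z hz => le_csSup hbdd ⟨z, hz, rfl⟩
    have hs0 : 0 ≤ s := (P.nonneg z₀).trans (hs1 z₀ hz₀.ge)
    have hs2 : ∀ z, dist z y ≤ th * ρ → s + lam ≤ u z := by
      intro z hz
      have : s ≤ u z - lam := csSup_le hne' (by
        rintro _ ⟨z₂, hz₂, rfl⟩
        have h1 := P.gap k (th * ρ) z z₂ hz (by rw [← mul_assoc, hthk, one_mul]; exact hz₂)
          (by nlinarith) (by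
            have : (2 : ℝ) ^ (k + 2) = 2 ^ (k + 1) * 2 := by ring
            nlinarith)
        nlinarith)
      linarith
    have ht1 : s + lam / 2 < 1 := by
      have h1 := hs2 y (by simp; positivity)
      linarith [P.le_one y]
    have hst : s < s + lam / 2 := by linarith
    have hEn := hE y _ lam s (s + lam / 2) u D a hy P S hs0 hst ht1
      (fun z hz => hs1 z (by linarith))
    have hv : ContinuousOn (u ∘ f) (ball x₀ ρ₀) := P.cont.comp_continuousOn (X.cont.mono hUG)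
    have hsub : ∀ q ∈ ball x₀ ρ₀, (u ∘ f) q < 1 → q ∈ G ∩ f ⁻¹' Ring y (th * ρ) R := by
      intro q hq h1
      have h2 := hRB q (ball_subset_closedBall hq)
      have h3 := dist_triangle (f q) (f x₀) y
      rw [dist_comm (f x₀) y] at h3
      exact ⟨hUG hq, P.lt_dist h1, by linarith⟩
    set Lv := {x | s < (u ∘ f) x ∧ (u ∘ f) x < s + lam / 2} with hLv
    have hW : IsW1n (ball x₀ ρ₀) (fun x => T s (s + lam / 2) ((u ∘ f) x) - s) (Lv.indicator D) := by
      have := S.wd.trunc_glue hn isOpen_ball (X.isOpen _ _ _) hv hst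
        (fun q hq h1 => hsub q hq (h1.trans_lt ht1)) (H := fun y => y - s) (H' := fun _ => 1)
        (fun y _ => (hasDerivAt_id y).sub_const s) continuousOn_const
      simpa only [one_smul] using this
    have hmeas : ∀ x ∈ F, ∀ e ≤ 4 * σ, MeasurableSet (closedBall x e ∩ Lv) := fun x hx e he =>
      measurableSet_level isOpen_ball hv measurableSet_closedBall
        ((closedBall_subset_closedBall he).trans (hB x hx)) _ _
    have low : ∀ x ∈ F, ENNReal.ofReal ((lam / 2) ^ n * κ / (4 * CL)) ≤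
        En (closedBall x (4 * σ) ∩ Lv) D := by
      intro x hx
      have hfx := (hF x hx).2
      have hxG : closedBall x (4 * σ) ⊆ G := (hB x hx).trans hUG
      obtain ⟨δ, hδ, hδσ, hδ1, hδ2⟩ := exists_delta hσ0 hρ0
        (X.cont.mono ((closedBall_subset_closedBall (by linarith)).trans hxG)) hfx (hρ1 x hx)
      have h1 := hS x (δ / 2) ρ (by positivity)
        ((closedBall_subset_closedBall (by linarith)).trans hxG) (by rw [hfx]; exact hδ1)
      rw [hfx] at h1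
      have hl : κ * (δ / 2) ≤ δ / 2 := mul_le_of_le_one_left (by positivity) hκ1
      have h2 := hL (ball x₀ ρ₀) _ _ x (2 * δ) (κ * (δ / 2)) 0 (lam / 2) isOpen_ball hW
        (((continuous_T _ _).comp_continuousOn hv).sub continuousOn_const)
        ((closedBall_subset_closedBall (by linarith)).trans (hB x hx)) (by positivity)
        (by positivity)
        ⟨0, le_rfl, by linarith, fun e he => by
          obtain ⟨p, hp⟩ := exists_dist_eq' hn x he.1.le
          refine ⟨p, ?_, hp⟩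
          have h3 := hs2 (f p) (h1 p (by rw [mem_closedBall, hp]; linarith [he.2]))
          have h4 : s + lam / 2 ≤ (u ∘ f) p := by simp only [Function.comp]; linarith
          rw [mem_ofPred_eq, T_of_ge h4]
          linarith⟩
        ⟨δ, hδ.le, by linarith, fun e he => by
          obtain ⟨p, hp, hp'⟩ := hδ2 e he.1
          have he4 : closedBall x e ⊆ ball x₀ ρ₀ :=
            (closedBall_subset_closedBall (by linarith [he.2])).trans (hB x hx)
          obtain ⟨q, hq, hq'⟩ := S.sphere_min hn X.hα X.hβ (x := x) (x' := p) (ρ := e) (s := s)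
            (b := 1) (hv.mono he4) (fun q hq => hsub q (he4 (ball_subset_closedBall hq))) hp
            (hs1 _ hp') (by linarith)
          refine ⟨q, ?_, hq⟩
          rw [mem_ofPred_eq, T_of_le hst.le hq', sub_self]⟩
      have h3 : En (closedBall x (2 * (2 * δ))) (Lv.indicator D) ≤
          En (closedBall x (4 * σ) ∩ Lv) D := by
        rcases En_indicator (D := D) (K := closedBall x (2 * (2 * δ))) (S := Lv)
          measurableSet_closedBall (hmeas x hx _ (by linarith)) with h | h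
        · rw [h]
          exact En_mono (inter_subset_inter_left _ (closedBall_subset_closedBall (by linarith)))
        · omega
      have h4 : ENNReal.ofReal ((lam / 2 - 0) ^ n * (κ * (δ / 2))) =
          ENNReal.ofReal (CL * (2 * δ)) * ENNReal.ofReal ((lam / 2) ^ n * κ / (4 * CL)) := by
        rw [← ENNReal.ofReal_mul (by positivity), sub_zero]
        congr 1
        field_simp
        ring
      rw [h4] at h2
      exact ((ENNReal.mul_le_mul_iff_right (by simp; positivity) ENNReal.ofReal_ne_top).1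
        h2).trans h3
    have hsum : ∑ x ∈ F, En (closedBall x (4 * σ) ∩ Lv) D ≤ En (ball x₀ ρ₀ ∩ Lv) D := by
      unfold En
      rw [← lintegral_biUnion_finset (fun x hx x' hx' hne => ?_)
        (fun x hx => hmeas x hx _ le_rfl)]
      · refine lintegral_mono_set (iUnion₂_subset fun x hx => ?_)
        exact inter_subset_inter_left _ (hB x hx)
      · refine Disjoint.mono inter_subset_left inter_subset_left
          (closedBall_disjoint_closedBall ?_)
        linarith [hσ2 x hx x' hx' hne]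
    have h5 : ENNReal.ofReal (F.card * ((lam / 2) ^ n * κ / (4 * CL))) ≤
        ENNReal.ofReal (C₀ * (s + lam / 2 - s) * lam ^ (n - 1)) := by
      rw [ENNReal.ofReal_mul (Nat.cast_nonneg _), ENNReal.ofReal_natCast, ← nsmul_eq_mul]
      exact (Finset.card_nsmul_le_sum F _ _ low).trans (hsum.trans hEn)
    have h6 := (ENNReal.ofReal_le_ofReal_iff (by
      rw [add_sub_cancel_left]; positivity)).1 h5
    obtain ⟨m, rfl⟩ : ∃ m, n = m + 1 := ⟨n - 1, by omega⟩
    simp only [Nat.add_sub_cancel, add_sub_cancel_left] at h6 ⊢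
    have h7 : 0 < (lam / 2) ^ (m + 1) * κ / (4 * CL) := by positivity
    rw [← le_div_iff₀ h7] at h6
    refine h6.trans (le_of_eq ?_)
    rw [div_pow]
    field_simp
    ring
  refine ⟨ball x₀ ρ₀ ∩ f ⁻¹' ball (f x₀) (d₀ / 4), inter_mem (ball_mem_nhds _ hρ₀0)
    ((X.cont.continuousAt (X.hG.mem_nhds hx₀)).preimage_mem_nhds
      (ball_mem_nhds _ (by positivity))), ⌈C₀ * 2 ^ (n - 1) * (4 * CL) / κ⌉₊, fun y => ?_⟩
  by_contra hc
  have hc' := Order.add_one_le_of_lt (not_le.1 hc)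
  obtain ⟨Z, hZ, hZ'⟩ := exists_subset_encard_eq hc'
  have hfin : Z.Finite := finite_of_encard_eq_coe (k := ⌈C₀ * 2 ^ (n - 1) * (4 * CL) / κ⌉₊ + 1)
    (by rw [hZ']; norm_cast)
  have hcard : hfin.toFinset.card = ⌈C₀ * 2 ^ (n - 1) * (4 * CL) / κ⌉₊ + 1 := by
    have := hfin.encard_eq_coe_toFinset_card
    rw [hZ'] at this
    exact_mod_cast this.symm
  obtain ⟨x, hx⟩ : hfin.toFinset.Nonempty := Finset.card_pos.1 (by omega)
  have hx' := hZ (hfin.mem_toFinset.1 hx)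
  have hy : dist y (f x₀) < d₀ / 4 := by
    have h1 : f x = y := hx'.2
    rw [← h1]; exact hx'.1.2
  have := main y hfin.toFinset hy fun x hx =>
    ⟨(hZ (hfin.mem_toFinset.1 hx)).1.1, (hZ (hfin.mem_toFinset.1 hx)).2⟩
  rw [hcard] at this
  have h2 := Nat.le_ceil (C₀ * 2 ^ (n - 1) * (4 * CL) / κ)
  push_cast at this
  linarith

end Pool.Agent.P.MP_fecf7d_an
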