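import Pool.Agent.P.MP_fecf7d_an.Sol3
import Pool.Agent.P.MP_fecf7d_an.Exist

/-!
Ring potentials: flux, energy of level slices.
-/

open MeasureTheory Set Metric Filter Topology
open scoped ContDiff RealInnerProductSpace ENNReal

set_option maxHeartbeats 400000
set_option maxSynthPendingDepth 3

namespace Pool.Agent.P.MP_fecf7d_an

variable {n : ℕ}

/-- closed annulus -/
def Ann (y : E n) (r R : ℝ) : Set (E n) := {z | r ≤ dist z y ∧ dist z y ≤ R}

theorem cont_dist (y : E n) : Continuous fun z : E n => dist z y := by fun_prop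

theorem isClosed_Ann (y : E n) (r R : ℝ) : IsClosed (Ann y r R) :=
  IsClosed.and (isClosed_le continuous_const (cont_dist y))
    (isClosed_le (cont_dist y) continuous_const)

theorem isCompact_Ann (y : E n) (r R : ℝ) : IsCompact (Ann y r R) :=
  (isCompact_closedBall y R).of_isClosed_subset (isClosed_Ann y r R) fun _ hz => hz.2

theorem isOpen_Ring (y : E n) (r R : ℝ) : IsOpen (Ring y r R) :=
  IsOpen.and (isOpen_lt continuous_const (cont_dist y)) (isOpen_lt (cont_dist y) continuous_const)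

theorem isBounded_Ring (y : E n) (r R : ℝ) : Bornology.IsBounded (Ring y r R) :=
  (isBounded_ball (x := y) (r := R)).subset fun _ hz => hz.2

theorem exists_dist_eq' (hn : 2 ≤ n) (y : E n) {s : ℝ} (hs : 0 ≤ s) : ∃ p : E n, dist p y = s := by
  have := nontrivial_E hn
  exact (NormedSpace.sphere_nonempty (E := E n) (x := y) (r := s)).2 hs

/-- data of a ring potential -/
structure Pot (α β : ℝ) (y : E n) (r R : ℝ) (u : E n → ℝ) (D : E n → E n →L[ℝ] ℝ)
    (a : E n → E n) : Prop where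
  hn : 2 ≤ n
  hα : 0 < α
  hβ : 0 < β
  hr : 0 < r
  hR : r < R
  cont : Continuous u
  one : ∀ z, dist z y ≤ r → u z = 1
  zero : ∀ z, R ≤ dist z y → u z = 0
  sol : Sol α β (Ring y r R) u D a

/-- admissible cut-off functions for the flux -/
structure Cut (y : E n) (r' R' : ℝ) (ψ : E n → ℝ) : Prop where
  smooth : ContDiff ℝ ∞ ψ
  one : ∀ z, dist z y ≤ r' → ψ z = 1
  zero : ∀ z, R' ≤ dist z y → ψ z = 0

variable {α β r R : ℝ} {y : E n} {u : E n → ℝ} {D : E n → E n →L[ℝ] ℝ} {a : E n → E n}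

theorem Cut.fderiv_eq {r' R' : ℝ} {ψ : E n → ℝ} (h : Cut y r' R' ψ) {x : E n}
    (hx : x ∉ Ann y r' R') : fderiv ℝ ψ x = 0 := by
  have : dist x y < r' ∨ R' < dist x y := by
    by_contra hc
    push Not at hc
    exact hx hc
  rcases this with h1 | h1
  · have : ψ =ᶠ[𝓝 x] fun _ => 1 := by
      filter_upwards [isOpen_ball.mem_nhds (mem_ball.2 h1)] with z hz
      exact h.one z (le_of_lt hz)
    rw [this.fderiv_eq, fderiv_fun_const]; rfl
  · have : ψ =ᶠ[𝓝 x] fun _ => 0 := by
      filter_upwards [(isOpen_lt continuous_const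
        (show Continuous fun z : E n => dist z y by fun_prop)).mem_nhds h1] with z hz
      exact h.zero z (le_of_lt hz)
    rw [this.fderiv_eq, fderiv_fun_const]; rfl

theorem exists_cut (n : ℕ) {q : ℝ} (hq : 1 < q) : ∃ C : ℝ, 0 < C ∧ ∀ (y : E n) (ρ : ℝ), 0 < ρ →
    ∃ ψ, Cut y ρ (q * ρ) ψ ∧ ∫ x, ‖fderiv ℝ ψ x‖ ^ n ≤ C := by
  obtain ⟨C, hC, h⟩ := exists_cutoff' n hq
  refine ⟨C, hC, fun y ρ hρ => ?_⟩
  obtain ⟨η, h1, -, h3, h4, -, h6⟩ := h y ρ hρ
  exact ⟨η, ⟨h1.1, h3, h4⟩, h6⟩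

theorem Pot.mem (P : Pot α β y r R u D a) {z : E n} (h0 : 0 < u z) (h1 : u z < 1) :
    z ∈ Ring y r R := by
  constructor
  · by_contra hc
    rw [P.one z (not_lt.1 hc)] at h1
    exact lt_irrefl _ h1
  · by_contra hc
    rw [P.zero z (not_lt.1 hc)] at h0
    exact lt_irrefl _ h0

theorem Pot.off (P : Pot α β y r R u D a) {z : E n} (hz : z ∉ Ring y r R) :
    u z = 1 ∨ u z = 0 := by
  by_cases h : dist z y ≤ r
  · exact Or.inl (P.one z h)
  · refine Or.inr (P.zero z ?_)
    by_contra hc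
    exact hz ⟨not_le.1 h, not_le.1 hc⟩

theorem Pot.bounds (P : Pot α β y r R u D a) (z : E n) : 0 ≤ u z ∧ u z ≤ 1 := by
  have hf : ∀ p ∈ frontier (Ring y r R), 0 ≤ u p ∧ u p ≤ 1 := by
    intro p hp
    rw [(isOpen_Ring y r R).frontier_eq] at hp
    rcases P.off hp.2 with h | h <;> simp [h]
  by_cases hz : z ∈ Ring y r R
  · exact ⟨P.sol.minP P.hn P.hα P.hβ (isOpen_Ring _ _ _) (isBounded_Ring _ _ _)
      P.cont.continuousOn (fun p hp => (hf p hp).1) z hz,
      P.sol.maxP P.hn P.hα P.hβ (isOpen_Ring _ _ _) (isBounded_Ring _ _ _)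
      P.cont.continuousOn (fun p hp => (hf p hp).2) z hz⟩
  · rcases P.off hz with h | h <;> simp [h]

theorem Pot.out (P : Pot α β y r R u D a) {z : E n} {ρ b : ℝ} (hρ : 0 < ρ) (hz : ρ ≤ dist z y)
    (hb : 0 < b) (hbz : b ≤ u z) : ∃ p, b ≤ u p ∧ dist p y = ρ := by
  by_contra hc
  push Not at hc
  have hc' : ∀ p ∈ sphere y ρ, -b < -u p := fun p hp => by
    by_contra h
    exact hc p (by linarith) hp
  obtain ⟨μ, hμ, hμ'⟩ := (isCompact_sphere y ρ).exists_forall_le'
    P.cont.neg.continuousOn hc'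
  rcases le_or_gt ρ r with h | h
  · obtain ⟨p, hp⟩ := exists_dist_eq' P.hn y hρ.le
    refine hc p ?_ hp
    rw [P.one p (by rw [hp]; exact h)]
    exact hbz.trans (P.bounds z).2
  · have hlt : max (-μ) 0 < b := max_lt (by linarith) hb
    have hzR : dist z y < R := by
      by_contra h'
      rw [P.zero z (not_lt.1 h')] at hbz
      linarith
    have hzρ : ρ < dist z y := lt_of_le_of_ne hz fun h' => hc z hbz h'.symm
    have := (P.sol.mono (U := Ring y ρ R) fun p hp => ⟨h.trans hp.1, hp.2⟩).maxP P.hn P.hα P.hβ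
      (isOpen_Ring _ _ _) (isBounded_Ring _ _ _) P.cont.continuousOn (M := max (-μ) 0)
      (fun p hp => by
        have h1 : ρ ≤ dist p y := closure_minimal (fun q hq => (le_of_lt hq.1 : ρ ≤ dist q y))
          (isClosed_le continuous_const (cont_dist y)) hp.1
        rw [(isOpen_Ring y ρ R).frontier_eq] at hp
        by_cases h2 : R ≤ dist p y
        · rw [P.zero p h2]; exact le_max_right _ _
        · have h3 : dist p y = ρ := by
            by_contra h4
            exact hp.2 ⟨lt_of_le_of_ne h1 (Ne.symm h4), not_le.1 h2⟩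
          have := hμ' p h3
          simp only [Pi.neg_apply] at this
          exact le_trans (by linarith) (le_max_left _ _)) z ⟨hzρ, hzR⟩
    linarith

theorem Pot.inn (P : Pot α β y r R u D a) {z : E n} {ρ s : ℝ} (hz : dist z y < ρ)
    (hs : s < 1) (hsz : u z ≤ s) : ∃ p, u p ≤ s ∧ dist p y = ρ := by
  rcases le_or_gt ρ R with h | h
  · obtain ⟨p, hp, hp'⟩ := P.sol.sphere_min P.hn P.hα P.hβ (x := y) (x' := z) (ρ := ρ) (s := s)
      (b := 1) P.cont.continuousOn (fun p hp h1 => ⟨by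
        by_contra hc
        rw [P.one p (not_lt.1 hc)] at h1
        exact lt_irrefl _ h1, lt_of_lt_of_le hp h⟩) hz hsz hs
    exact ⟨p, hp', hp⟩
  · obtain ⟨p, hp⟩ := exists_dist_eq' P.hn y (dist_nonneg.trans hz.le)
    refine ⟨p, ?_, hp⟩
    rw [P.zero p (by rw [hp]; exact h.le)]
    exact (P.bounds z).1.trans hsz

theorem Ann_subset {r' R' : ℝ} (h1 : r < r') (h2 : R' < R) : Ann y r' R' ⊆ Ring y r R :=
  fun _ hz => ⟨h1.trans_le hz.1, hz.2.trans_lt h2⟩

theorem Pot.flux_eq_set (_P : Pot α β y r R u D a) {r' R' : ℝ} {ψ : E n → ℝ}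
    (h : Cut y r' R' ψ) {K : Set (E n)} (hK : Ann y r' R' ⊆ K) :
    ∫ x in K, fderiv ℝ ψ x (a x) = ∫ x, fderiv ℝ ψ x (a x) :=
  setIntegral_eq_integral_of_forall_compl_eq_zero fun x hx => by
    rw [h.fderiv_eq fun h' => hx (hK h')]; rfl

theorem Pot.flux_integrable (P : Pot α β y r R u D a) {r' R' : ℝ} {ψ : E n → ℝ}
    (h : Cut y r' R' ψ) (h1 : r < r') (h2 : R' < R) :
    Integrable fun x => fderiv ℝ ψ x (a x) := by
  refine (integrableOn_iff_integrable_of_support_subset (s := Ann y r' R') ?_).1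
    (P.sol.integrableOn P.hn P.hβ (Ann_subset h1 h2) (isCompact_Ann _ _ _)
      (memLp_fderiv (isCompact_Ann _ _ _) (h.smooth.of_le (by simp))))
  intro x hx
  by_contra hc
  apply hx
  simp only
  rw [h.fderiv_eq hc]; rfl

theorem Pot.flux_indep (P : Pot α β y r R u D a) {r₁ R₁ r₂ R₂ : ℝ} {ψ₁ ψ₂ : E n → ℝ}
    (h₁ : Cut y r₁ R₁ ψ₁) (h₂ : Cut y r₂ R₂ ψ₂) (a1 : r < r₁) (a2 : R₁ < R) (b1 : r < r₂)
    (b2 : R₂ < R) : ∫ x, fderiv ℝ ψ₁ x (a x) = ∫ x, fderiv ℝ ψ₂ x (a x) := by
  have hs : tsupport (fun x => ψ₁ x - ψ₂ x) ⊆ Ann y (min r₁ r₂) (max R₁ R₂) := by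
    refine closure_minimal (fun x hx => ?_) (isClosed_Ann _ _ _)
    constructor
    · by_contra hc
      have hc' := not_le.1 hc
      apply hx
      simp only
      rw [h₁.one x (hc'.le.trans (min_le_left _ _)), h₂.one x (hc'.le.trans (min_le_right _ _)),
        sub_self]
    · by_contra hc
      have hc' := not_le.1 hc
      apply hx
      simp only
      rw [h₁.zero x ((le_max_left _ _).trans hc'.le), h₂.zero x ((le_max_right _ _).trans hc'.le),
        sub_self]
  have h := P.sol.eq (fun x => ψ₁ x - ψ₂ x) ⟨h₁.smooth.sub h₂.smooth,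
    (isCompact_Ann _ _ _).of_isClosed_subset (isClosed_tsupport _) hs,
    hs.trans (Ann_subset (lt_min a1 b1) (max_lt a2 b2))⟩
  have he : ∀ x, fderiv ℝ (fun x => ψ₁ x - ψ₂ x) x (a x) =
      fderiv ℝ ψ₁ x (a x) - fderiv ℝ ψ₂ x (a x) := fun x => by
    rw [fderiv_fun_sub (h₁.smooth.differentiable (by simp) x)
      (h₂.smooth.differentiable (by simp) x), sub_apply]
  simp only [he] at h
  rw [integral_sub (P.flux_integrable h₁ a1 a2) (P.flux_integrable h₂ b1 b2)] at h
  linarith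

theorem Pot.energy_le (P : Pot α β y r R u D a) {r' R' : ℝ} {ψ : E n → ℝ}
    (h : Cut y r' R' ψ) (h1 : r < r') (h2 : R' < R) {s t : ℝ} (hs : 0 < s)
    (hst : s < t) (ht : t < 1) :
    0 ≤ ∫ x, fderiv ℝ ψ x (a x) ∧ En {x | s < u x ∧ u x < t} D ≤
      ENNReal.ofReal ((t - s) * (∫ x, fderiv ℝ ψ x (a x)) / α) := by
  set K : Set (E n) := {x | (u x ≤ t ∨ r' ≤ dist x y) ∧ (s ≤ u x ∨ dist x y ≤ R')} with hKdef
  have hKO : K ⊆ Ring y r R := by
    rintro x ⟨a1, a2⟩
    constructor
    · rcases a1 with a1 | a1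
      · by_contra hc
        rw [P.one x (not_lt.1 hc)] at a1
        linarith
      · linarith
    · rcases a2 with a2 | a2
      · by_contra hc
        rw [P.zero x (not_lt.1 hc)] at a2
        linarith
      · linarith
  have hKc : IsClosed K :=
    IsClosed.and (IsClosed.union (isClosed_le P.cont continuous_const)
      (isClosed_le continuous_const (cont_dist y)))
      (IsClosed.union (isClosed_le continuous_const P.cont)
        (isClosed_le (cont_dist y) continuous_const))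
  have hK : IsCompact K := (isCompact_closedBall y R).of_isClosed_subset hKc
    fun x hx => le_of_lt (hKO hx).2
  have hTE := P.sol.TE P.hn P.hβ (isOpen_Ring _ _ _) hK hKO hst (h.smooth.of_le (by simp))
    (fun x _ hx => by
      have : (t < u x ∧ dist x y < r') ∨ (u x < s ∧ R' < dist x y) := by
        by_contra hc
        push Not at hc
        refine hx ⟨?_, ?_⟩
        · rcases le_or_gt (u x) t with h4 | h4
          · exact Or.inl h4
          · exact Or.inr (hc.1 h4)
        · rcases le_or_gt s (u x) with h4 | h4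
          · exact Or.inl h4
          · exact Or.inr (hc.2 h4)
      rcases this with h4 | h4
      · rw [h.one x h4.2.le, T_of_ge h4.1.le, mul_one]
      · rw [h.zero x h4.2.le, T_of_le hst.le h4.1.le, mul_zero, sub_self])
  have hsub : {x | s < u x ∧ u x < t} ⊆ K := fun x hx => ⟨Or.inl hx.2.le, Or.inl hx.1.le⟩
  rw [inter_eq_right.2 hsub, P.flux_eq_set h (K := K) (fun x hx => ⟨Or.inr hx.1, Or.inr hx.2⟩)]
    at hTE
  have h0 : 0 ≤ ∫ x in {x | s < u x ∧ u x < t}, ‖D x‖ ^ n := integral_nonneg fun x => by positivity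
  have hα := P.hα
  refine ⟨?_, ?_⟩
  · have h5 : 0 ≤ (t - s) * ∫ x, fderiv ℝ ψ x (a x) := le_trans (by positivity) hTE
    exact nonneg_of_mul_nonneg_right h5 (by linarith) |>.trans le_rfl
  · rw [P.sol.En_eq P.hn hK hKO hsub]
    refine ENNReal.ofReal_le_ofReal ?_
    rw [le_div_iff₀ hα]
    linarith

theorem Pot.energy_le' (P : Pot α β y r R u D a) {Φ : ℝ} (hΦ : 0 ≤ Φ)
    (h : ∀ s t : ℝ, 0 < s → s < t → t < 1 →
      En {x | s < u x ∧ u x < t} D ≤ ENNReal.ofReal ((t - s) * Φ / α)) (s t : ℝ) :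
    En (Ring y r R ∩ {x | s < u x ∧ u x < t}) D ≤ ENNReal.ofReal ((t - s) * Φ / α) := by
  set S : ℕ → Set (E n) := fun k =>
    {x | max s (1 / (k + 1 : ℝ)) < u x ∧ u x < min t (1 - 1 / (k + 1 : ℝ))} with hS
  have hopen : ∀ s t : ℝ, IsOpen {x | s < u x ∧ u x < t} := fun s t =>
    IsOpen.and (isOpen_lt continuous_const P.cont) (isOpen_lt P.cont continuous_const)
  have hmono : Monotone S := by
    intro k l hkl x hx
    have h1 : (1 : ℝ) / (l + 1) ≤ 1 / (k + 1) := by
      have : (k : ℝ) ≤ l := by exact_mod_cast hkl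
      gcongr
    exact ⟨lt_of_le_of_lt (max_le_max le_rfl h1) hx.1,
      lt_of_lt_of_le hx.2 (min_le_min le_rfl (by linarith))⟩
  have hα := P.hα
  have h1 : En (⋃ k, S k) D ≤ ENNReal.ofReal ((t - s) * Φ / α) := by
    unfold En
    rw [setLIntegral_iUnion_of_directed _ hmono.directed_le]
    refine iSup_le fun k => ?_
    rcases lt_or_ge (max s (1 / (k + 1 : ℝ))) (min t (1 - 1 / (k + 1 : ℝ))) with h2 | h2
    · have h3 : (0 : ℝ) < 1 / (k + 1) := by positivity
      refine (h _ _ (h3.trans_le (le_max_right _ _)) h2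
        ((min_le_right _ _).trans_lt (by linarith))).trans (ENNReal.ofReal_le_ofReal ?_)
      have := le_max_left s (1 / (k + 1 : ℝ))
      have := min_le_left t (1 - 1 / (k + 1 : ℝ))
      gcongr
    · have : S k = ∅ := eq_empty_of_forall_notMem fun x hx => by
        have := hx.1.trans hx.2
        linarith
      simp [this]
  refine le_trans ?_ h1
  unfold En
  rw [← lintegral_indicator ((isOpen_Ring _ _ _).inter (hopen s t)).measurableSet,
    ← lintegral_indicator (isOpen_iUnion fun k => hopen _ _).measurableSet]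
  refine lintegral_mono_ae ?_
  filter_upwards [P.sol.wd.ae_zero_on_level P.hn (isOpen_Ring _ _ _) 0,
    P.sol.wd.ae_zero_on_level P.hn (isOpen_Ring _ _ _) 1] with x h0 h1
  by_cases hx : x ∈ Ring y r R ∩ {x | s < u x ∧ u x < t}
  · rw [indicator_of_mem hx]
    have hn : n ≠ 0 := by have := P.hn; omega
    rcases (P.bounds x).1.eq_or_lt with e0 | e0
    · rw [h0 hx.1 e0.symm]; simp [hn]
    rcases (P.bounds x).2.eq_or_lt with e1 | e1
    · rw [h1 hx.1 e1]; simp [hn]
    obtain ⟨k, hk⟩ := exists_nat_one_div_lt (lt_min e0 (sub_pos.2 e1))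
    have hxk : x ∈ ⋃ k, S k := mem_iUnion.2 ⟨k, max_lt hx.2.1 (hk.trans_le (min_le_left _ _)),
      lt_min hx.2.2 (by have := hk.trans_le (min_le_right _ _); linarith)⟩
    rw [indicator_of_mem hxk]
  · rw [indicator_of_notMem hx]; exact zero_le

theorem Pot.isW1n_trunc (P : Pot α β y r R u D a) {s t : ℝ} (hs : 0 < s) (hst : s < t)
    (ht : t < 1) : IsW1n univ (fun x => T s t (u x) - s) ({x | s < u x ∧ u x < t}.indicator D) := by
  have h1 := P.sol.wd.trunc P.hn (isOpen_Ring _ _ _) hst s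
  have h2 := h1.glue_const P.hn (isOpen_ball (x := y) (ε := R)) (isOpen_Ring _ _ _)
    (isClosed_le P.cont (continuous_const (y := t))) (fun x hx => ⟨by
      by_contra hc
      have := hx.1
      rw [mem_ofPred_eq, P.one x (not_lt.1 hc)] at this
      linarith, hx.2⟩) (t - s) (fun x _ hx => by
      have h3 : t < u x := not_le.1 hx
      exact ⟨by rw [T_of_ge h3.le], indicator_of_notMem (fun h => absurd h.2 (not_lt.2 h3.le)) _⟩)
  exact h2.glue P.hn isOpen_univ isOpen_ball (isClosed_le (continuous_const (y := s)) P.cont)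
    (fun x hx => by
      by_contra hc
      have := hx.1
      rw [mem_ofPred_eq, P.zero x (not_lt.1 hc)] at this
      linarith) (fun x _ hx => by
      have h3 : u x < s := not_le.1 hx
      exact ⟨by rw [T_of_le hst.le h3.le, sub_self],
        indicator_of_notMem (fun h => absurd h.1 (not_lt.2 h3.le)) _⟩)

end Pool.Agent.P.MP_fecf7d_an
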