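import Pool.Agent.P.MP_fecf7d_an.Ring1

/-!
The ring lemma: two-sided logarithmic behaviour of ring potentials.
-/

open MeasureTheory Set Metric Filter Topology
open scoped ContDiff RealInnerProductSpace ENNReal

set_option maxHeartbeats 400000
set_option maxSynthPendingDepth 3

namespace Pool.Agent.P.MP_fecf7d_an

variable {n : ℕ}

theorem le_max_mul {x l Q : ℝ} {m : ℕ} (hm : m ≠ 0) (hl : 0 < l) (h : x ^ m ≤ Q * l ^ m) :
    x ≤ max 1 Q * l := by
  rcases le_total x l with h1 | h1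
  · exact h1.trans (le_mul_of_one_le_left hl.le (le_max_left _ _))
  · have h2 : 1 ≤ x / l := (one_le_div hl).2 h1
    have h3 : (x / l) ^ m ≤ Q := by rw [div_pow, div_le_iff₀ (by positivity)]; exact h
    have h4 : x / l ≤ max 1 Q := ((le_self_pow₀ h2 hm).trans h3).trans (le_max_right _ _)
    exact (div_le_iff₀ hl).1 h4

/-- the conclusions of the ring lemma -/
structure RingPot (c₁ C₁ C₂ : ℝ) (A : E n → E n → E n) (y : E n) (r R : ℝ) (u : E n → ℝ)
    (lam : ℝ) : Prop where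
  cont : Continuous u
  nonneg : ∀ z, 0 ≤ u z
  le_one : ∀ z, u z ≤ 1
  one : ∀ z, dist z y ≤ r → u z = 1
  harm : IsAHarmonic A (Ring y r R) u
  pos : 0 < lam
  gap : ∀ (k : ℕ) (ρ : ℝ) (z₁ z₂ : E n), dist z₁ y ≤ ρ → 2 ^ (k + 2) * ρ ≤ dist z₂ y →
    r ≤ 2 * ρ → 2 ^ (k + 1) * ρ ≤ R → (c₁ * k - C₁) * lam ≤ u z₁ - u z₂
  up : ∀ (z : E n) (ρ : ℝ), 0 < ρ → ρ ≤ R → ρ ≤ dist z y → u z ≤ C₂ * (R / ρ) * lam

variable {α β r R : ℝ} {y : E n} {u : E n → ℝ} {D : E n → E n →L[ℝ] ℝ} {a : E n → E n}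

theorem Pot.slice (P : Pot α β y r R u D a) {CL Φ : ℝ} (hCL : 0 < CL) (hΦ : 0 ≤ Φ)
    (hL : ∀ (U : Set (E n)) (w : E n → ℝ)
      (D : E n → E n →L[ℝ] ℝ) (z : E n) (d l a b : ℝ), IsOpen U → IsW1n U w D →
      ContinuousOn w U → closedBall z (2 * d) ⊆ U → 0 < l → a ≤ b →
      Meets {x | b ≤ w x} z d l → Meets {x | w x ≤ a} z d l →
      ENNReal.ofReal ((b - a) ^ n * l) ≤ ENNReal.ofReal (CL * d) * En (closedBall z (2 * d)) D)
    (h : ∀ s t : ℝ, 0 < s → s < t → t < 1 →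
      En {x | s < u x ∧ u x < t} D ≤ ENNReal.ofReal ((t - s) * Φ / α))
    {s t d l : ℝ} (hs : 0 < s) (hst : s < t) (ht : t < 1) (hd : 0 < d) (hl : 0 < l)
    (m1 : Meets {x | t ≤ u x} y d l) (m2 : Meets {x | u x ≤ s} y d l) :
    (t - s) ^ (n - 1) ≤ CL / α * (d / l) * Φ := by
  have hn := P.hn
  have hα := P.hα
  have h1 := hL univ _ _ y d l 0 (t - s) isOpen_univ (P.isW1n_trunc hs hst ht)
    (((continuous_T s t).comp P.cont).sub continuous_const).continuousOn (subset_univ _) hl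
    (by linarith)
    (m1.mono fun p hp _ => by
      have : t ≤ u p := hp
      simp only [mem_ofPred_eq, T_of_ge this, le_refl])
    (m2.mono fun p hp _ => by
      have : u p ≤ s := hp
      simp only [mem_ofPred_eq, T_of_le hst.le this, sub_self, le_refl])
  have hop : IsOpen {x | s < u x ∧ u x < t} :=
    IsOpen.and (isOpen_lt continuous_const P.cont) (isOpen_lt P.cont continuous_const)
  have h2 : En (closedBall y (2 * d)) ({x | s < u x ∧ u x < t}.indicator D) ≤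
      ENNReal.ofReal ((t - s) * Φ / α) := by
    rcases En_indicator (D := D) (K := closedBall y (2 * d)) (S := {x | s < u x ∧ u x < t})
      measurableSet_closedBall (measurableSet_closedBall.inter hop.measurableSet) with h3 | h3
    · rw [h3]
      exact (En_mono inter_subset_right).trans (h s t hs hst ht)
    · omega
  have hts : 0 < t - s := by linarith
  have h3 : ENNReal.ofReal ((t - s - 0) ^ n * l) ≤
      ENNReal.ofReal (CL * d * ((t - s) * Φ / α)) := by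
    rw [ENNReal.ofReal_mul (p := CL * d) (by positivity)]
    exact h1.trans (by gcongr)
  have h4 := (ENNReal.ofReal_le_ofReal_iff (by positivity)).1 h3
  obtain ⟨m, rfl⟩ : ∃ m, n = m + 1 := ⟨n - 1, by omega⟩
  simp only [Nat.add_sub_cancel, sub_zero] at h4 ⊢
  have h5 : CL / α * (d / l) * Φ = CL * d * ((t - s) * Φ / α) / ((t - s) * l) := by
    field_simp
  rw [h5, le_div_iff₀ (by positivity)]
  calc (t - s) ^ m * ((t - s) * l) = (t - s) ^ (m + 1) * l := by ring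
    _ ≤ _ := h4

theorem exists_ringPot (hn : 2 ≤ n) (hα : 0 < α) (hαβ : α ≤ β) {A : E n → E n → E n}
    (hA : Adm α β A) : ∃ c₁ C₁ C₂ : ℝ, 0 < c₁ ∧ 0 < C₁ ∧ 0 < C₂ ∧ ∀ (y : E n) (r R : ℝ),
      0 < r → r < R → ∃ u lam, RingPot c₁ C₁ C₂ A y r R u lam := by
  have hβ : 0 < β := hα.trans_le hαβ
  obtain ⟨CL, hCL, hL⟩ := loewner hn
  obtain ⟨Cη, hCη, hcut⟩ := exists_cut n (q := 7 / 5) (by norm_num)
  set C := max 1 (CL / α * 2) with hC
  have hC1 : 1 ≤ C := le_max_left _ _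
  set κ := max 1 (2 * β ^ n * Cη) with hκ
  have hκ1 : 1 ≤ κ := le_max_left _ _
  refine ⟨α / (2 * κ), 2 * (C + 1), C, by positivity, by positivity, by positivity, ?_⟩
  intro y r R hr hR
  obtain ⟨u, hu, h1, h0, hharm⟩ := exists_ring hn hα hαβ hA y hr hR
  obtain ⟨D, a, S⟩ := hharm.sol hA
  have P : Pot α β y r R u D a := ⟨hn, hα, hβ, hr, hR, hu, h1, h0, S⟩
  obtain ⟨r', hr', hr''⟩ := exists_between hR
  obtain ⟨R', hR', hR''⟩ := exists_between hr''
  have hr'0 : 0 < r' := hr.trans hr'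
  obtain ⟨C', -, hcut'⟩ := exists_cut n (q := R' / r') ((one_lt_div hr'0).2 hR')
  obtain ⟨ψ₀, hψ₀, -⟩ := hcut' y r' hr'0
  rw [div_mul_cancel₀ _ hr'0.ne'] at hψ₀
  set Φ := ∫ x, fderiv ℝ ψ₀ x (a x) with hΦdef
  have hΦ0 : 0 ≤ Φ := (P.energy_le hψ₀ hr' hR'' (s := 1 / 3) (t := 2 / 3) (by norm_num)
    (by norm_num) (by norm_num)).1
  have hE : ∀ s t : ℝ, 0 < s → s < t → t < 1 →
      En {x | s < u x ∧ u x < t} D ≤ ENNReal.ofReal ((t - s) * Φ / α) :=
    fun s t a1 a2 a3 => (P.energy_le hψ₀ hr' hR'' a1 a2 a3).2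
  have hR0 : 0 < R := hr.trans hR
  have far : ∀ s l : ℝ, 0 ≤ s → l ≤ R → Meets {x | u x ≤ s} y (2 * R) l := by
    intro s l hs hl
    refine ⟨R, hR0.le, by linarith, fun ρ hρ => ?_⟩
    obtain ⟨p, hp⟩ := exists_dist_eq' hn y (hR0.le.trans hρ.1.le)
    refine ⟨p, ?_, hp⟩
    rw [mem_ofPred_eq, h0 p (by rw [hp]; exact hρ.1.le)]
    exact hs
  have hΦ : 0 < Φ := by
    have h2 := P.slice hCL hΦ0 hL hE (s := 1 / 3) (t := 2 / 3) (d := 2 * R) (l := r)
      (by norm_num) (by norm_num) (by norm_num) (by positivity) hr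
      ⟨0, le_rfl, by linarith, fun ρ hρ => by
        obtain ⟨p, hp⟩ := exists_dist_eq' hn y hρ.1.le
        refine ⟨p, ?_, hp⟩
        rw [mem_ofPred_eq, h1 p (by rw [hp]; linarith [hρ.2])]
        norm_num⟩ (far _ _ (by norm_num) hR.le)
    rcases hΦ0.eq_or_lt with h3 | h3
    · rw [← h3, mul_zero] at h2
      have : (0 : ℝ) < (2 / 3 - 1 / 3) ^ (n - 1) := by positivity
      linarith
    · exact h3
  have hm : n - 1 ≠ 0 := by omega
  set lam := Φ ^ (((n - 1 : ℕ) : ℝ)⁻¹) with hlam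
  have hlam0 : 0 < lam := Real.rpow_pos_of_pos hΦ _
  have hlamΦ : lam ^ (n - 1) = Φ := Real.rpow_inv_natCast_pow hΦ0 hm
  have osc : ∀ a₀ b₀ d l : ℝ, 0 ≤ a₀ → b₀ ≤ 1 → 0 < d → 0 < l →
      (∀ s, a₀ < s → s < 1 → Meets {x | u x ≤ s} y d l) →
      (∀ t, 0 < t → t < b₀ → Meets {x | t ≤ u x} y d l) →
      b₀ - a₀ ≤ max 1 (CL / α * (d / l)) * lam := by
    intro a₀ b₀ d l ha hb hd hl m1 m2
    refine le_of_forall_pos_le_add fun ε hε => ?_
    rcases lt_or_ge (a₀ + ε / 2) (b₀ - ε / 2) with h2 | h2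
    · have h3 := P.slice hCL hΦ0 hL hE (by linarith) h2 (by linarith) hd hl
        (m2 _ (by linarith) (by linarith)) (m1 _ (by linarith) (by linarith))
      rw [← hlamΦ] at h3
      have := le_max_mul hm hlam0 h3
      linarith
    · have : 0 ≤ max 1 (CL / α * (d / l)) * lam :=
        mul_nonneg (zero_le_one.trans (le_max_left _ _)) hlam0.le
      linarith
  have U1 : ∀ (ρ : ℝ) (z₁ z₂ : E n), 0 < ρ → 2 * ρ ≤ dist z₁ y → dist z₂ y ≤ ρ →
      u z₁ - u z₂ ≤ C * lam := by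
    intro ρ z₁ z₂ hρ a1 a2
    have := osc (u z₂) (u z₁) (2 * ρ) ρ (P.bounds z₂).1 (P.bounds z₁).2 (by positivity) hρ
      (fun s b1 b2 => ⟨ρ, hρ.le, by linarith, fun τ hτ =>
        P.inn (a2.trans_lt hτ.1) b2 b1.le⟩)
      (fun t b1 b2 => ⟨ρ, hρ.le, by linarith, fun τ hτ =>
        P.out (hρ.trans hτ.1) (by linarith [hτ.2]) b1 b2.le⟩)
    rwa [mul_div_assoc, div_self hρ.ne', mul_one] at this
  have U2 : ∀ σ : ℝ, r ≤ σ → 2 * σ ≤ R →
      ENNReal.ofReal (Φ * lam / (2 * κ)) ≤ En (Ann y (5 / 4 * σ) (7 / 4 * σ)) D := by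
    intro σ a1 a2
    have hσ : 0 < σ := hr.trans_le a1
    obtain ⟨ψ, hψ, hI⟩ := hcut y (5 / 4 * σ) (by positivity)
    rw [show 7 / 5 * (5 / 4 * σ) = 7 / 4 * σ by ring] at hψ
    have b1 : r < 5 / 4 * σ := by linarith
    have b2 : 7 / 4 * σ < R := by linarith
    have hK := isCompact_Ann y (5 / 4 * σ) (7 / 4 * σ)
    have hKO : Ann y (5 / 4 * σ) (7 / 4 * σ) ⊆ Ring y r R := Ann_subset b1 b2
    have h2 := S.abs_int_le hn hβ hKO hK (memLp_fderiv hK (hψ.smooth.of_le (by simp)))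
      (d := κ / lam) (by positivity)
    rw [P.flux_eq_set hψ subset_rfl, P.flux_indep hψ hψ₀ b1 b2 hr' hR'', ← hΦdef,
      abs_of_pos hΦ] at h2
    have h3 : ∫ x in Ann y (5 / 4 * σ) (7 / 4 * σ), ‖fderiv ℝ ψ x‖ ^ n ≤ Cη := by
      rw [setIntegral_eq_integral_of_forall_compl_eq_zero]
      · exact hI
      · intro x hx
        rw [hψ.fderiv_eq hx, norm_zero, zero_pow (by omega)]
    have h4 : β * (β / (κ / lam)) ^ (n - 1) * Cη ≤ Φ / 2 := by
      have e1 : β * (β / (κ / lam)) ^ (n - 1) * Cη = β ^ n * Cη / κ ^ (n - 1) * Φ := by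
        rw [← hlamΦ, div_div_eq_mul_div, div_pow, mul_pow]
        obtain ⟨m, rfl⟩ : ∃ m, n = m + 1 := ⟨n - 1, by omega⟩
        simp only [Nat.add_sub_cancel]
        field_simp
        ring
      have e2 : β ^ n * Cη / κ ^ (n - 1) ≤ 1 / 2 := by
        rw [div_le_iff₀ (by positivity)]
        have := le_self_pow₀ hκ1 hm
        have := le_max_right 1 (2 * β ^ n * Cη)
        linarith
      rw [e1]
      nlinarith
    have h5 : β * (β / (κ / lam)) ^ (n - 1) *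
        ∫ x in Ann y (5 / 4 * σ) (7 / 4 * σ), ‖fderiv ℝ ψ x‖ ^ n ≤
        β * (β / (κ / lam)) ^ (n - 1) * Cη := by gcongr
    rw [S.En_eq hn hK hKO subset_rfl]
    refine ENNReal.ofReal_le_ofReal ?_
    have h6 : Φ / 2 ≤ κ / lam * ∫ x in Ann y (5 / 4 * σ) (7 / 4 * σ), ‖D x‖ ^ n := by linarith
    rw [div_mul_eq_mul_div, le_div_iff₀ hlam0] at h6
    rw [div_le_iff₀ (by positivity)]
    linarith
  have U3 : ∀ (σ : ℝ) (k : ℕ), r ≤ σ → 2 ^ k * σ ≤ R →
      ENNReal.ofReal (k * (Φ * lam / (2 * κ))) ≤ En (Ring y r R ∩ Ann y σ (2 ^ k * σ)) D := by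
    intro σ k a1
    have hσ : 0 < σ := hr.trans_le a1
    induction k with
    | zero => intro _; simp
    | succ k ih =>
      intro a2
      have hp : (1 : ℝ) ≤ 2 ^ k := one_le_pow₀ (by norm_num)
      have e1 : (2 : ℝ) ^ (k + 1) * σ = 2 * (2 ^ k * σ) := by ring
      have hσ' : σ ≤ 2 ^ k * σ := le_mul_of_one_le_left hσ.le hp
      have i1 := ih (by linarith)
      have i2 := U2 (2 ^ k * σ) (by linarith) (by linarith)
      have hdis : Disjoint (Ring y r R ∩ Ann y σ (2 ^ k * σ))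
          (Ann y (5 / 4 * (2 ^ k * σ)) (7 / 4 * (2 ^ k * σ))) :=
        disjoint_left.2 fun x hx hx' => by linarith [hx.2.2, hx'.1]
      have hsub : Ring y r R ∩ Ann y σ (2 ^ k * σ) ∪
          Ann y (5 / 4 * (2 ^ k * σ)) (7 / 4 * (2 ^ k * σ)) ⊆
          Ring y r R ∩ Ann y σ (2 ^ (k + 1) * σ) := by
        rintro x (hx | hx)
        · exact ⟨hx.1, hx.2.1, by linarith [hx.2.2]⟩
        · exact ⟨⟨by linarith [hx.1], by linarith [hx.2]⟩, by linarith [hx.1], by linarith [hx.2]⟩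
      refine le_trans ?_ (En_mono hsub)
      unfold En at i1 i2 ⊢
      rw [lintegral_union (isClosed_Ann _ _ _).measurableSet hdis]
      push_cast
      rw [add_mul, one_mul, ENNReal.ofReal_add (by positivity) (by positivity)]
      exact add_le_add i1 i2
  refine ⟨u, lam, hu, fun z => (P.bounds z).1, fun z => (P.bounds z).2, h1, hharm, hlam0, ?_, ?_⟩
  · intro k ρ z₁ z₂ a1 a2 a3 a4
    have hρ : 0 < ρ := by linarith
    have hp : (1 : ℝ) ≤ 2 ^ k := one_le_pow₀ (by norm_num)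
    have e1 : (2 : ℝ) ^ (k + 1) * ρ = 2 ^ k * (2 * ρ) := by ring
    have e2 : (2 : ℝ) ^ (k + 2) * ρ = 2 * (2 ^ k * (2 * ρ)) := by ring
    have hσ' : 2 * ρ ≤ 2 ^ k * (2 * ρ) := le_mul_of_one_le_left (by positivity) hp
    have b1 := U3 (2 * ρ) k a3 (by linarith)
    have b2 := P.energy_le' hΦ0 hE (u z₂ - (C + 1) * lam) (u z₁ + (C + 1) * lam)
    have b3 := U1 ρ z₂ z₁ hρ (by linarith) a1
    have hsub : Ring y r R ∩ Ann y (2 * ρ) (2 ^ k * (2 * ρ)) ⊆ Ring y r R ∩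
        {x | u z₂ - (C + 1) * lam < u x ∧ u x < u z₁ + (C + 1) * lam} := by
      rintro x ⟨hx, hx1, hx2⟩
      have c1 := U1 ρ x z₁ hρ hx1 a1
      have c2 := U1 (2 ^ k * (2 * ρ)) z₂ x (by positivity) (by linarith) hx2
      exact ⟨hx, by linarith, by linarith⟩
    have hpos : 0 ≤ u z₁ + (C + 1) * lam - (u z₂ - (C + 1) * lam) := by nlinarith
    have b4 := (ENNReal.ofReal_le_ofReal_iff (by positivity)).1
      (b1.trans ((En_mono hsub).trans b2))
    rw [le_div_iff₀ hα] at b4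
    have b5 : α / (2 * κ) * k * lam * Φ ≤
        (u z₁ + (C + 1) * lam - (u z₂ - (C + 1) * lam)) * Φ := by
      refine le_trans (le_of_eq ?_) b4
      field_simp
    have b6 := le_of_mul_le_mul_right b5 hΦ
    linarith
  · intro z ρ a1 a2 a3
    have := osc 0 (u z) (2 * R) ρ le_rfl (P.bounds z).2 (by positivity) a1
      (fun s b1 _ => far s ρ b1.le a2)
      (fun t b1 b2 => ⟨0, le_rfl, by linarith, fun τ hτ =>
        P.out hτ.1 (by linarith [hτ.2]) b1 b2.le⟩)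
    have h2 : 1 ≤ R / ρ := (one_le_div a1).2 a2
    have h3 : max 1 (CL / α * (2 * R / ρ)) ≤ C * (R / ρ) := by
      refine max_le (by nlinarith) ?_
      have := le_max_right 1 (CL / α * 2)
      calc CL / α * (2 * R / ρ) = CL / α * 2 * (R / ρ) := by ring
        _ ≤ C * (R / ρ) := by gcongr
    have h4 := mul_le_mul_of_nonneg_right h3 hlam0.le
    linarith

end Pool.Agent.P.MP_fecf7d_an
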