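import Pool.Agent.P.MP_fecf7d_an.SgDeg

/-!
Points of positive and of negative orientation, normal neighbourhoods, the dipole map.
-/

open MeasureTheory Set Filter Topology Metric
open scoped ENNReal

namespace Pool.Agent.P.MP_fecf7d_an.Sg

variable {n : ℕ}

/-- Points near which `σ` times the Jacobian is nonnegative almost everywhere. -/
def Pos (G : Set (X n)) (D : X n → X n →L[ℝ] X n) (σ : ℝ) : Set (X n) :=
  {x | ∃ N ∈ 𝓝 x, N ⊆ G ∧ ∀ᵐ z, z ∈ N → 0 ≤ σ * (D z).det}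

/-- Points without local orientation. -/
def Sing (G : Set (X n)) (D : X n → X n →L[ℝ] X n) : Set (X n) := (Pos G D 1 ∪ Pos G D (-1))ᶜ

/-- The Jacobian does not vanish identically on open sets. -/
def NonDeg (G : Set (X n)) (D : X n → X n →L[ℝ] X n) : Prop :=
  ∀ V : Set (X n), IsOpen V → V.Nonempty → V ⊆ G → ¬ ∀ᵐ x, x ∈ V → (D x).det = 0

variable {G : Set (X n)} {f : X n → X n} {D : X n → X n →L[ℝ] X n} {σ : ℝ}

theorem isOpen_pos : IsOpen (Pos G D σ) := by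
  rw [isOpen_iff_mem_nhds]
  rintro x ⟨N, hN, h⟩
  filter_upwards [eventually_mem_nhds_iff.2 hN] with y hy
  exact ⟨N, hy, h⟩

theorem pos_subset : Pos G D σ ⊆ G := fun _ ⟨_, hN, h, _⟩ => h (mem_of_mem_nhds hN)

theorem ae_pos : ∀ᵐ z, z ∈ Pos G D σ → 0 ≤ σ * (D z).det := by
  rw [ae_iff]
  refine measure_null_of_locally_null _ fun x hx => ?_
  simp only [mem_ofPred_eq, Classical.not_imp] at hx
  obtain ⟨N, hN, -, h⟩ := hx.1
  refine ⟨_, inter_mem_nhdsWithin _ hN, measure_mono_null ?_ (ae_iff.1 h)⟩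
  rintro z ⟨h1, h2⟩ h3
  exact h1 fun _ => h3 h2

theorem isClosed_sing : IsClosed (Sing G D) := (isOpen_pos.union isOpen_pos).isClosed_compl

theorem not_sing_iff (hσ : σ = 1 ∨ σ = -1) {x : X n} :
    x ∉ Sing G D ↔ x ∈ Pos G D σ ∨ x ∈ Pos G D (-σ) := by
  rcases hσ with rfl | rfl <;> simp only [Sing, mem_compl_iff, not_not, mem_union, neg_neg, or_comm]

theorem NonDeg.disjoint (h : NonDeg G D) (hσ : σ ≠ 0) {x : X n} (h1 : x ∈ Pos G D σ)
    (h2 : x ∈ Pos G D (-σ)) : False := by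
  refine h _ (isOpen_pos.inter isOpen_pos) ⟨x, h1, h2⟩ (inter_subset_left.trans pos_subset) ?_
  filter_upwards [ae_pos (G := G) (D := D) (σ := σ), ae_pos (G := G) (D := D) (σ := -σ)]
    with z a b hz
  have := a hz.1
  have := b hz.2
  exact (mul_eq_zero.1 (show σ * (D z).det = 0 by linarith)).resolve_left hσ

theorem test_nonneg {V : Set (X n)} (hV : IsOpen V) {ψ : X n → ℝ} (h0 : ∀ y, 0 ≤ ψ y)
    (hs : ∀ x ∈ V, ψ (f x) ≠ 0 → x ∈ Pos G D σ) :
    ∀ᵐ x ∂volume.restrict V, 0 ≤ σ * (ψ (f x) * (D x).det) := by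
  rw [ae_restrict_iff' hV.measurableSet]
  filter_upwards [ae_pos (G := G) (D := D) (σ := σ)] with z hz hzV
  by_cases h : ψ (f z) = 0
  · simp [h]
  · rw [mul_left_comm]
    exact mul_nonneg (h0 _) (hz (hs z hzV h))

theorem test_pos (hf : W G f D) (hnd : NonDeg G D) (hσ : σ ≠ 0) {V O : Set (X n)}
    (hV : IsOpen V) (hVG : V ⊆ G) (hp : ProperOver f V O) {ψ : X n → ℝ} (hψ : CTest O ψ)
    (h0 : ∀ y, 0 ≤ ψ y) (hs : ∀ x ∈ V, ψ (f x) ≠ 0 → x ∈ Pos G D σ) {x : X n} (hx : x ∈ V)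
    (hx' : ψ (f x) ≠ 0) : 0 < σ * ∫ x in V, ψ (f x) * (D x).det := by
  rw [← integral_const_mul]
  refine (integral_nonneg_of_ae (test_nonneg hV h0 hs)).lt_of_ne fun h => ?_
  have := (integral_eq_zero_iff_of_nonneg_ae (test_nonneg hV h0 hs)
    (((hf.mono hVG).integrableOn_test hV hp hψ).const_mul σ)).1 h.symm
  rw [EventuallyEq, ae_restrict_iff' hV.measurableSet] at this
  refine hnd (V ∩ f ⁻¹' {y | ψ y ≠ 0})
    ((hf.cont.mono hVG).isOpen_inter_preimage hV (isOpen_ne_fun hψ.cont continuous_const))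
    ⟨x, hx, hx'⟩ (inter_subset_left.trans hVG) ?_
  filter_upwards [this] with z hz hz'
  have := hz hz'.1
  simp only [Pi.zero_apply, mul_eq_zero, hσ, false_or] at this
  exact this.resolve_left hz'.2

theorem exists_inj_nhds (hG : IsOpen G) (hf : ContinuousOn f G)
    (hopen : ∀ x ∈ G, ∀ N ∈ 𝓝 x, f '' N ∈ 𝓝 (f x))
    (hmult : ∀ x ∈ G, ∃ N ∈ 𝓝 x, ∃ k : ℕ, ∀ y, (N ∩ f ⁻¹' {y}).encard ≤ k) {S : Set (X n)}
    (hS : (S ∩ G).Nonempty) : ∃ x₀ ∈ S, ∃ N, IsOpen N ∧ x₀ ∈ N ∧ N ⊆ G ∧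
      ∀ s ∈ N, s ∈ S → ∀ x ∈ N, f x = f s → x = s := by
  classical
  have hex : ∃ k : ℕ, ∃ x ∈ S ∩ G, ∃ N ∈ 𝓝 x, ∀ y, (N ∩ f ⁻¹' {y}).encard ≤ k := by
    obtain ⟨x, hx⟩ := hS
    obtain ⟨N, hN, k, hk⟩ := hmult x hx.2
    exact ⟨k, x, hx, N, hN, hk⟩
  obtain ⟨x₀, hx₀, N, hN, hk⟩ := Nat.find_spec hex
  set k := Nat.find hex with hkdef
  have hN' : IsOpen (interior N ∩ G) := isOpen_interior.inter hG
  refine ⟨x₀, hx₀.1, interior N ∩ G, hN', ⟨mem_interior_iff_mem_nhds.2 hN, hx₀.2⟩,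
    inter_subset_right, fun s hs hsS x hx hxs => ?_⟩
  by_contra hne
  obtain ⟨A', A, hA', hA, hxA, hsA, hd⟩ := t2_separation hne
  have h1 : f '' (A' ∩ (interior N ∩ G)) ∈ 𝓝 (f s) :=
    hxs ▸ hopen x hx.2 _ ((hA'.inter hN').mem_nhds ⟨hxA, hx⟩)
  have h2 : A ∩ (interior N ∩ G) ∩ f ⁻¹' (f '' (A' ∩ (interior N ∩ G))) ∈ 𝓝 s :=
    inter_mem ((hA.inter hN').mem_nhds ⟨hsA, hs⟩) (hf.continuousAt (hG.mem_nhds hs.2) h1)
  have hk1 : 1 ≤ k := by
    have := (encard_le_encard (show {s} ⊆ N ∩ f ⁻¹' {f s} from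
      singleton_subset_iff.2 ⟨interior_subset hs.1, rfl⟩)).trans (hk (f s))
    rw [encard_singleton] at this
    exact_mod_cast this
  refine Nat.find_min hex (show k - 1 < k by omega) ⟨s, ⟨hsS, hs.2⟩, _, h2, fun y => ?_⟩
  set Z := A ∩ (interior N ∩ G) ∩ f ⁻¹' (f '' (A' ∩ (interior N ∩ G))) ∩ f ⁻¹' {y} with hZ
  rcases Z.eq_empty_or_nonempty with h | ⟨z, ⟨-, x', hx', hx''⟩, hz⟩
  · simp [h]
  · have h3 : x' ∉ Z := fun h => disjoint_left.1 hd hx'.1 h.1.1.1
    have h4 : insert x' Z ⊆ N ∩ f ⁻¹' {y} := by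
      rintro w (rfl | hw)
      · exact ⟨interior_subset hx'.2.1, hx''.trans hz⟩
      · exact ⟨interior_subset hw.1.1.2.1, hw.2⟩
    have h5 := (encard_le_encard h4).trans (hk y)
    rw [encard_insert_of_notMem h3, show k = (k - 1) + 1 by omega, Nat.cast_add,
      Nat.cast_one] at h5
    exact (ENat.add_le_add_iff_right ENat.one_ne_top).1 h5

/-- Normal neighbourhoods on which the singular points are alone in their fibres. -/
structure Nice (G : Set (X n)) (f : X n → X n) (D : X n → X n →L[ℝ] X n) (U : Set (X n))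
    (y₀ : X n) (R : ℝ) : Prop where
  isOpen : IsOpen U
  sub : U ⊆ G
  pos : 0 < R
  img : f '' U = ball y₀ R
  proper : ProperOver f U (ball y₀ R)
  inj : ∀ s ∈ U, s ∈ Sing G D → ∀ x ∈ U, f x = f s → x = s

theorem exists_nice (hf : ContinuousOn f G) (hopen : ∀ x ∈ G, ∀ N ∈ 𝓝 x, f '' N ∈ 𝓝 (f x))
    {x₀ : X n} (hx₀ : x₀ ∈ Sing G D) {N : Set (X n)} (hN : IsOpen N) (hxN : x₀ ∈ N) (hNG : N ⊆ G)
    (hinj : ∀ s ∈ N, s ∈ Sing G D → ∀ x ∈ N, f x = f s → x = s) :
    ∃ U R, x₀ ∈ U ∧ U ⊆ N ∧ Nice G f D U (f x₀) R := by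
  obtain ⟨t, ht, htN⟩ := nhds_basis_closedBall.mem_iff.1 (hN.mem_nhds hxN)
  have hc : ContinuousOn f (closedBall x₀ t) := hf.mono (htN.trans hNG)
  have h1 : IsCompact (f '' sphere x₀ t) :=
    (isCompact_sphere x₀ t).image_of_continuousOn (hc.mono sphere_subset_closedBall)
  have h2 : f x₀ ∉ f '' sphere x₀ t := by
    rintro ⟨x, hx, hx'⟩
    have := hinj x₀ hxN hx₀ x (htN (sphere_subset_closedBall hx)) hx'
    rw [this, mem_sphere, dist_self] at hx
    exact ht.ne hx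
  obtain ⟨R, hR, hR'⟩ := Metric.mem_nhds_iff.1 (inter_mem
    (h1.isClosed.isOpen_compl.mem_nhds h2) (hopen x₀ (hNG hxN) _ (ball_mem_nhds x₀ ht)))
  have hUN : ball x₀ t ∩ f ⁻¹' ball (f x₀) R ⊆ N :=
    inter_subset_left.trans (ball_subset_closedBall.trans htN)
  refine ⟨ball x₀ t ∩ f ⁻¹' ball (f x₀) R, R, ⟨mem_ball_self ht, mem_ball_self hR⟩, hUN,
    (hc.mono ball_subset_closedBall).isOpen_inter_preimage isOpen_ball isOpen_ball,
    hUN.trans hNG, hR, ?_, fun C hC hC' => ?_, fun s hs hs' x hx => hinj s (hUN hs) hs' x (hUN hx)⟩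
  · rw [image_inter_preimage]
    exact inter_eq_right.2 fun y hy => (hR' hy).2
  · have : ball x₀ t ∩ f ⁻¹' ball (f x₀) R ∩ f ⁻¹' C = closedBall x₀ t ∩ f ⁻¹' C := by
      refine Subset.antisymm (fun x hx => ⟨ball_subset_closedBall hx.1.1, hx.2⟩) fun x hx => ?_
      refine ⟨⟨?_, hC hx.2⟩, hx.2⟩
      by_contra h
      exact (hR' (hC hx.2)).1 ⟨x, le_antisymm hx.1 (not_lt.1 h), rfl⟩
    rw [this]
    exact (isCompact_closedBall x₀ t).of_isClosed_subset
      (hc.preimage_isClosed_of_isClosed isClosed_closedBall hC'.isClosed) inter_subset_left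

variable {U : Set (X n)} {y₀ : X n} {R : ℝ}

theorem Nice.compact_nonneg (hU : Nice G f D U y₀ R) (hf : W G f D)
    (hd : ∀ ψ, CTest (ball y₀ R) ψ → (∀ y, 0 ≤ ψ y) → 0 ≤ σ * ∫ x in U, ψ (f x) * (D x).det)
    {P : Set (X n)} (hP : IsCompact P) (hne : P.Nonempty) (hPU : P ⊆ U) (hPS : P ⊆ Sing G D) :
    0 ≤ σ * ∫ x in P, (D x).det := by
  have hC : IsCompact (f '' P) := hP.image_of_continuousOn (hf.cont.mono (hPU.trans hU.sub))
  have hCB : f '' P ⊆ ball y₀ R := hU.img ▸ image_mono hPU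
  obtain ⟨χ, ⟨hχ, hχc, hχV⟩, hχ1, hχ01⟩ := exists_cutoff hC isOpen_ball hCB
  have tχ : CTest (ball y₀ R) χ := ⟨hχ.continuous, hχc, hχV⟩
  let a : X n → ℝ := fun y => max (1 - infDist y (f '' P)) 0
  have ha : Continuous a := (continuous_const.sub (continuous_infDist_pt _)).max continuous_const
  have ha0 : ∀ y, 0 ≤ a y := fun y => le_max_right _ _
  have ha1 : ∀ y, a y ≤ 1 := fun y => max_le (by linarith [infDist_nonneg (x := y) (s := f '' P)])
    zero_le_one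
  have hi := (hf.mono hU.sub).integrableOn_test hU.isOpen hU.proper tχ
  have hlim := tendsto_integral_of_dominated_convergence (μ := volume.restrict U)
    (F := fun k x => χ (f x) * a (f x) ^ k * (D x).det) (f := P.indicator fun x => (D x).det)
    (fun x => ‖χ (f x) * (D x).det‖)
    (fun k => ((hf.mono hU.sub).integrableOn_test hU.isOpen hU.proper
      (tχ.mul isOpen_ball (ha.pow k).continuousOn)).aestronglyMeasurable) hi.norm
    (fun k => Eventually.of_forall fun x => by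
      rw [mul_right_comm, norm_mul]
      refine mul_le_of_le_one_right (norm_nonneg _) ?_
      rw [Real.norm_of_nonneg (pow_nonneg (ha0 _) _)]
      exact pow_le_one₀ (ha0 _) (ha1 _))
    ((ae_restrict_iff' hU.isOpen.measurableSet).2 (Eventually.of_forall fun x hx => by
      by_cases hxP : x ∈ P
      · have h1 : f x ∈ f '' P := mem_image_of_mem f hxP
        simp [indicator_of_mem hxP, hχ1.self_of_nhdsSet _ h1, a, infDist_zero_of_mem h1]
      · have h1 : f x ∉ f '' P := by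
          rintro ⟨s, hs, hs'⟩
          exact hxP (hU.inj s (hPU hs) (hPS hs) x hx hs'.symm ▸ hs)
        have h2 : 0 < infDist (f x) (f '' P) :=
          (hC.isClosed.notMem_iff_infDist_pos (hne.image f)).1 h1
        have h3 := ((tendsto_pow_atTop_nhds_zero_of_lt_one (ha0 (f x))
          (max_lt (by linarith) one_pos)).const_mul (χ (f x))).mul_const (D x).det
        simpa [indicator_of_notMem hxP] using h3))
  rw [integral_indicator hP.measurableSet, Measure.restrict_restrict hP.measurableSet,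
    inter_eq_left.2 hPU] at hlim
  refine ge_of_tendsto' (hlim.const_mul σ) fun k => ?_
  exact hd _ (tχ.mul isOpen_ball (ha.pow k).continuousOn)
    fun y => mul_nonneg (hχ01 y).1 (pow_nonneg (ha0 _) _)

theorem Nice.ae_sing (hU : Nice G f D U y₀ R) (hf : W G f D)
    (hd : ∀ ψ, CTest (ball y₀ R) ψ → (∀ y, 0 ≤ ψ y) → 0 ≤ σ * ∫ x in U, ψ (f x) * (D x).det) :
    ∀ᵐ z, z ∈ U ∩ Sing G D → 0 ≤ σ * (D z).det := by
  have hm : MeasurableSet (U ∩ Sing G D ∩ {z | σ * (D z).det < 0}) :=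
    (hU.isOpen.measurableSet.inter isClosed_sing.measurableSet).inter
      (measurableSet_lt (hf.measurable_det.const_mul σ) measurable_const)
  have h0 : volume (U ∩ Sing G D ∩ {z | σ * (D z).det < 0}) = 0 := by
    by_contra h
    obtain ⟨P, hP1, hP, hP0⟩ := hm.exists_lt_isCompact (pos_iff_ne_zero.2 h)
    have hPU : P ⊆ U := fun x hx => (hP1 hx).1.1
    have h1 := hU.compact_nonneg hf hd hP (nonempty_of_measure_ne_zero hP0.ne') hPU
      fun x hx => (hP1 hx).1.2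
    have h2 : 0 < ∫ x in P, -(σ * (D x).det) := by
      rw [setIntegral_pos_iff_support_of_nonneg_ae]
      · refine hP0.trans_le (measure_mono fun x hx => ⟨?_, hx⟩)
        exact neg_ne_zero.2 (ne_of_lt (hP1 hx).2)
      · exact (ae_restrict_iff' hP.measurableSet).2 (Eventually.of_forall fun x hx =>
          neg_nonneg.2 (le_of_lt (hP1 hx).2))
      · exact ((hf.integrableOn_det hP (hPU.trans hU.sub)).const_mul σ).neg
    rw [integral_neg, integral_const_mul] at h2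
    linarith
  filter_upwards [measure_eq_zero_iff_ae_notMem.1 h0] with z hz hz'
  exact not_lt.1 fun h => hz ⟨hz', h⟩

theorem Nice.isOpen_img (hU : Nice G f D U y₀ R)
    (hopen : ∀ x ∈ G, ∀ N ∈ 𝓝 x, f '' N ∈ 𝓝 (f x)) : IsOpen (f '' (U \ Sing G D)) := by
  rw [isOpen_iff_mem_nhds]
  rintro _ ⟨x, hx, rfl⟩
  exact hopen x (hU.sub hx.1) _ ((hU.isOpen.sdiff isClosed_sing).mem_nhds hx)

theorem Nice.not_sing (hU : Nice G f D U y₀ R) {x : X n} (hx : x ∈ U)
    (h : f x ∈ f '' (U \ Sing G D)) : x ∉ Sing G D := by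
  obtain ⟨x', hx', e⟩ := h
  intro hs
  exact hx'.2 (hU.inj x hx hs x' hx'.1 e ▸ hs)

theorem Nice.both (hn : n ≠ 0) (hU : Nice G f D U y₀ R) (hf : W G f D) (hnd : NonDeg G D)
    (hopen : ∀ x ∈ G, ∀ N ∈ 𝓝 x, f '' N ∈ 𝓝 (f x)) {x₀ : X n} (hx₀ : x₀ ∈ U)
    (hx₀' : x₀ ∈ Sing G D) : (U ∩ Pos G D 1).Nonempty ∧ (U ∩ Pos G D (-1)).Nonempty := by
  obtain ⟨d, hd⟩ := deg_ball hn hU.isOpen (hf.mono hU.sub) hU.pos hU.proper
  have key : ∀ τ : ℝ, τ = 1 ∨ τ = -1 → 0 ≤ τ * d →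
      (U ∩ Pos G D τ).Nonempty ∧ (U ∩ Pos G D (-τ)).Nonempty := by
    intro τ hτ h0
    have hτ0 : -τ ≠ 0 := by rcases hτ with rfl | rfl <;> norm_num
    have h1 : (U ∩ Pos G D (-τ)).Nonempty := by
      by_contra h
      refine (not_sing_iff hτ).2 (Or.inl ⟨U, hU.isOpen.mem_nhds hx₀, hU.sub, ?_⟩) hx₀'
      filter_upwards [hU.ae_sing (σ := τ) hf fun ψ hψ hψ0 => by
        rw [hd ψ hψ, ← mul_assoc]
        exact mul_nonneg h0 (integral_nonneg hψ0), ae_pos (G := G) (D := D) (σ := τ)]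
        with z a b hz
      by_cases hs : z ∈ Sing G D
      · exact a ⟨hz, hs⟩
      · exact b (((not_sing_iff hτ).1 hs).resolve_right fun h' => h ⟨z, hz, h'⟩)
    refine ⟨?_, h1⟩
    by_contra h
    obtain ⟨q, hq, hq'⟩ := h1
    obtain ⟨φ, hφ, hφ0, hφ1, hφp⟩ := exists_bump (hU.isOpen_img hopen)
      (mem_image_of_mem f ⟨hq, (not_sing_iff hτ).2 (Or.inr hq')⟩)
    have hφ' : CTest (ball y₀ R) φ := hφ.mono (hU.img ▸ image_mono sdiff_subset)
    have := test_pos hf hnd hτ0 hU.isOpen hU.sub hU.proper hφ' hφ0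
      (fun x hx hx' => ((not_sing_iff hτ).1 (hU.not_sing hx
        (hφ.sub (subset_tsupport _ hx')))).resolve_left fun h' => h ⟨x, hx, h'⟩) hq
      (by simp [hφ1])
    rw [hd φ hφ'] at this
    nlinarith
  rcases le_total 0 d with h | h
  · exact key 1 (Or.inl rfl) (by linarith)
  · simpa using (key (-1) (Or.inr rfl) (by linarith)).symm

theorem exists_dipole {p q x₀ : X n} {t : ℝ} (hp : p ∈ ball x₀ t) (hq : q ∈ ball x₀ t)
    (hpq : p ≠ q) : ∃ (g : X n → X n) (e : X n) (K : Set (X n)), ContDiff ℝ 1 g ∧ e ≠ 0 ∧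
      IsCompact K ∧ K ⊆ ball x₀ t ∧ (∀ x, x ∉ K → g x = e) ∧ g p = 0 ∧
      (∀ x, g x = 0 → x = p ∨ x = q) ∧ 0 < (fderiv ℝ g p).det ∧ (fderiv ℝ g q).det < 0 := by
  set e : X n := (1 / 2 : ℝ) • (p - q) with he
  set c : X n := (1 / 2 : ℝ) • (p + q) with hc
  have he0 : e ≠ 0 := smul_ne_zero (by norm_num) (sub_ne_zero.2 hpq)
  obtain ⟨L, hLe⟩ : ∃ L : X n →L[ℝ] ℝ, L e = 1 := by
    obtain ⟨g, -, hg⟩ := exists_dual_vector ℝ e (norm_ne_zero_iff.2 he0)
    exact ⟨‖e‖⁻¹ • g, by simp [hg, he0]⟩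
  have hpe : p = c + e := by rw [he, hc]; module
  have hqe : q = c - e := by rw [he, hc]; module
  let g₀ : X n → X n := fun x => (x - c) + (L (x - c) ^ 2 - 1 - L (x - c)) • e
  have hg₀ : ContDiff ℝ 1 g₀ := by fun_prop
  have hder : ∀ x, (fderiv ℝ g₀ x).det = 2 * L (x - c) := by
    intro x
    have h1 : HasFDerivAt (fun x => L (x - c)) L x :=
      L.hasFDerivAt.comp x ((hasFDerivAt_id x).sub_const c)
    have h2 := ((hasFDerivAt_id x).sub_const c).add
      ((((h1.pow 2).sub_const 1).sub h1).smul_const e)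
    have h3 : fderiv ℝ g₀ x = _ := h2.fderiv
    have h4 := LinearMap.transvection.det (((2 * L (x - c) - 1) • L : X n →L[ℝ] ℝ) :
      X n →ₗ[ℝ] ℝ) e
    rw [h3, ContinuousLinearMap.det]
    convert h4 using 1
    · congr 1
      refine LinearMap.ext fun v => ?_
      simp [LinearMap.transvection.apply, sub_mul]
    · simp [hLe]
  have hseg : segment ℝ q p ⊆ ball x₀ t := (convex_ball x₀ t).segment_subset hq hp
  have hsc : IsCompact (segment ℝ q p) := by
    rw [segment_eq_image]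
    exact isCompact_Icc.image (by fun_prop)
  obtain ⟨χ, ⟨hχ, hχc, hχV⟩, hχ1, hχ01⟩ := exists_cutoff hsc isOpen_ball hseg
  have hχ' : ContDiff ℝ 1 χ := hχ.of_le (by simp)
  have hloc : ∀ x ∈ segment ℝ q p, (fun x => e + χ x • (g₀ x - e)) =ᶠ[𝓝 x] g₀ := by
    intro x hx
    filter_upwards [hχ1.filter_mono (nhds_le_nhdsSet hx)] with y hy
    simp [hy]
  have hLp : L (p - c) = 1 := by rw [hpe]; simpa using hLe
  have hLq : L (q - c) = -1 := by rw [hqe]; simpa using hLe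
  refine ⟨fun x => e + χ x • (g₀ x - e), e, tsupport χ, by fun_prop, he0, hχc, hχV,
    fun x hx => by simp [image_eq_zero_of_notMem_tsupport hx], ?_, fun x hx => ?_, ?_, ?_⟩
  · rw [(hloc p (right_mem_segment _ _ _)).self_of_nhds]
    simp only [g₀, hLp]
    rw [hpe]
    module
  · set s := L (x - c) with hs
    have h1 : 1 + χ x * (s ^ 2 - 2) = 0 := by
      have := congrArg L hx
      simp only [g₀, map_add, map_smul, map_sub L _ e, hLe, map_zero, smul_eq_mul, ← hs] at this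
      linear_combination this
    have hχ0 : χ x ≠ 0 := fun h => by simp [h] at h1
    have h2 : x - c = s • e := by
      refine smul_right_injective _ hχ0 ?_
      have h3 : e + χ x • ((x - c) + (s ^ 2 - 1 - s) • e - e) = 0 := hx
      have h4 : (1 + χ x * (s ^ 2 - 2)) • e = 0 := by rw [h1, zero_smul]
      show χ x • (x - c) = χ x • s • e
      linear_combination (norm := module) h3 - h4
    have h5 : s ^ 2 ≤ 1 := by
      have a := (hχ01 x).1
      have b := (hχ01 x).2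
      by_contra h
      have : 0 < χ x := lt_of_le_of_ne a hχ0.symm
      nlinarith
    have h6 : x ∈ segment ℝ q p := by
      have := abs_le.1 ((sq_le_one_iff_abs_le_one s).1 h5)
      refine ⟨(1 - s) / 2, (1 + s) / 2, by linarith, by linarith, by ring, ?_⟩
      rw [show x = c + s • e by rw [← h2]; abel]
      conv_lhs => rw [hpe, hqe]
      module
    rw [hχ1.self_of_nhdsSet x h6] at h1
    have h7 : (s - 1) * (s + 1) = 0 := by linarith
    rcases mul_eq_zero.1 h7 with h | h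
    · left
      rw [hpe, show x = c + s • e by rw [← h2]; abel, show s = 1 by linarith, one_smul]
    · right
      rw [hqe, show x = c + s • e by rw [← h2]; abel, show s = -1 by linarith]
      module
  · rw [(hloc p (right_mem_segment _ _ _)).fderiv_eq, hder, hLp]
    norm_num
  · rw [(hloc q (left_mem_segment _ _ _)).fderiv_eq, hder, hLq]
    norm_num

end Pool.Agent.P.MP_fecf7d_an.Sg
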