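import Pool.Agent.P.MP_fecf7d_an.SobAPI1

/-!
Continuous maps which are limits of `C^1` maps in the Sobolev sense, and their calculus.
-/

open MeasureTheory Set Filter Topology Metric
open scoped ENNReal

set_option linter.unusedSectionVars false

namespace Pool.Agent.P.MP_fecf7d_an.Sg

open Pool.Agent.Lib

/-- The model space. -/
abbrev X (n : ℕ) : Type := E n

variable {n : ℕ}

theorem add_pow_le' {a b : ℝ} (ha : 0 ≤ a) (hb : 0 ≤ b) :
    (a + b) ^ n ≤ 2 ^ n * (a ^ n + b ^ n) := by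
  have h1 : a + b ≤ 2 * max a b := by
    have := le_max_left a b; have := le_max_right a b; linarith
  have h2 : (max a b) ^ n ≤ a ^ n + b ^ n := by
    rcases le_total a b with h | h
    · rw [max_eq_right h]; have : 0 ≤ a ^ n := by positivity
      linarith
    · rw [max_eq_left h]; have : 0 ≤ b ^ n := by positivity
      linarith
  calc (a + b) ^ n ≤ (2 * max a b) ^ n := by gcongr
    _ = 2 ^ n * (max a b) ^ n := mul_pow _ _ _
    _ ≤ _ := by gcongr

theorem norm_add_pow_le {V : Type*} [SeminormedAddCommGroup V] (a b : V) :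
    ‖a + b‖ ^ n ≤ 2 ^ n * (‖a‖ ^ n + ‖b‖ ^ n) :=
  (pow_le_pow_left₀ (norm_nonneg _) (norm_add_le a b) n).trans
    (add_pow_le' (norm_nonneg _) (norm_nonneg _))

theorem norm_sub_pow_le {V : Type*} [SeminormedAddCommGroup V] (a b : V) :
    ‖a - b‖ ^ n ≤ 2 ^ n * (‖a‖ ^ n + ‖b‖ ^ n) :=
  (pow_le_pow_left₀ (norm_nonneg _) (norm_sub_le a b) n).trans
    (add_pow_le' (norm_nonneg _) (norm_nonneg _))

theorem norm_pow_le_sub {V : Type*} [SeminormedAddCommGroup V] (a b : V) :
    ‖a‖ ^ n ≤ 2 ^ n * (‖a - b‖ ^ n + ‖b‖ ^ n) := by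
  simpa using norm_add_pow_le (n := n) (a - b) b

theorem abs_det_le (A : X n →L[ℝ] X n) : |A.det| ≤ n.factorial * ‖A‖ ^ n := by
  classical
  let b := EuclideanSpace.basisFun (Fin n) ℝ
  have h1 : A.det = (LinearMap.toMatrix b.toBasis b.toBasis (A : X n →ₗ[ℝ] X n)).det := by
    rw [ContinuousLinearMap.det, LinearMap.det_toMatrix]
  have h2 := Matrix.det_le (A := LinearMap.toMatrix b.toBasis b.toBasis (A : X n →ₗ[ℝ] X n))
    (abv := AbsoluteValue.abs) (x := ‖A‖) (by
      intro i j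
      simp only [LinearMap.toMatrix_apply, AbsoluteValue.abs_apply]
      calc |b.toBasis.repr ((A : X n →ₗ[ℝ] X n) (b.toBasis j)) i| ≤ ‖A (b j)‖ := by
            simpa [b] using PiLp.norm_apply_le (A (b j)) i
        _ ≤ ‖A‖ * ‖b j‖ := A.le_opNorm _
        _ = ‖A‖ := by rw [b.orthonormal.1 j, mul_one])
  rw [h1]
  simpa using h2

theorem exists_cutoff {K U : Set (X n)} (hK : IsCompact K) (hU : IsOpen U) (hKU : K ⊆ U) :
    ∃ η : X n → ℝ, IsTest U η ∧ (∀ᶠ x in 𝓝ˢ K, η x = 1) ∧ ∀ x, η x ∈ Icc (0 : ℝ) 1 :=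
  Sob.exists_cutoff hK hU hKU

section Meas

variable {Ω : Type*} [MeasurableSpace Ω] {μ : Measure Ω}

/-- A sequence tending to zero in `L^1` has a dominated subsequence tending to zero a.e. -/
theorem exists_subseq_dom (e : ℕ → Ω → ℝ) (h0 : ∀ k x, 0 ≤ e k x)
    (hi : ∀ k, Integrable (e k) μ) (hc : Tendsto (fun k => ∫ x, e k x ∂μ) atTop (𝓝 0)) :
    ∃ φ : ℕ → ℕ, StrictMono φ ∧ ∃ H : Ω → ℝ, Integrable H μ ∧
      (∀ᵐ x ∂μ, ∀ j, e (φ j) x ≤ H x) ∧
      ∀ᵐ x ∂μ, Tendsto (fun j => e (φ j) x) atTop (𝓝 0) := by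
  obtain ⟨φ, hφ, hφ'⟩ := extraction_forall_of_eventually
    (P := fun j k => ∫ x, e k x ∂μ ≤ (1 / 2) ^ j)
    (fun j => hc.eventually (ge_mem_nhds (by positivity)))
  refine ⟨φ, hφ, fun x => (∑' j, ENNReal.ofReal (e (φ j) x)).toReal, ?_⟩
  have hm : ∀ j, AEMeasurable (fun x => ENNReal.ofReal (e (φ j) x)) μ := fun j =>
    (hi _).aemeasurable.ennreal_ofReal
  have hfin : ∫⁻ x, ∑' j, ENNReal.ofReal (e (φ j) x) ∂μ ≠ ⊤ := by
    rw [lintegral_tsum hm]
    have h1 : ∀ j, ∫⁻ x, ENNReal.ofReal (e (φ j) x) ∂μ ≤ ENNReal.ofReal ((1 / 2) ^ j) := by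
      intro j
      rw [← ofReal_integral_eq_lintegral_ofReal (hi _) (Eventually.of_forall (h0 _))]
      exact ENNReal.ofReal_le_ofReal (hφ' j)
    refine ne_top_of_le_ne_top ?_ (ENNReal.tsum_le_tsum h1)
    rw [← ENNReal.ofReal_tsum_of_nonneg (fun j => by positivity) summable_geometric_two]
    exact ENNReal.ofReal_ne_top
  have hm' : AEMeasurable (fun x => ∑' j, ENNReal.ofReal (e (φ j) x)) μ :=
    AEMeasurable.tsum hm
  have hae := ae_lt_top' hm' hfin
  refine ⟨integrable_toReal_of_lintegral_ne_top hm' hfin, ?_, ?_⟩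
  · filter_upwards [hae] with x hx j
    have := ENNReal.toReal_mono hx.ne (ENNReal.le_tsum (f := fun j =>
      ENNReal.ofReal (e (φ j) x)) j)
    rwa [ENNReal.toReal_ofReal (h0 _ _)] at this
  · filter_upwards [hae] with x hx
    have h1 := ENNReal.tendsto_atTop_zero_of_tsum_ne_top hx.ne
    have h2 := (ENNReal.tendsto_toReal ENNReal.zero_ne_top).comp h1
    simpa [Function.comp_def, ENNReal.toReal_ofReal (h0 _ _)] using h2

/-- Continuity of integral functionals with growth of order `n` under `L^n` convergence. -/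
theorem tendsto_integral_of_pow {V : Type*} [NormedAddCommGroup V]
    {F : Type*} [NormedAddCommGroup F] [NormedSpace ℝ F] (hn : n ≠ 0)
    (L : ℕ → Ω → V) (L₀ : Ω → V) (ψ : ℕ → Ω → F) (ψ₀ : Ω → F) (G : Ω → ℝ) (C : ℝ) (hC : 0 ≤ C)
    (hL₀ : Integrable (fun x => ‖L₀ x‖ ^ n) μ)
    (hL : ∀ k, Integrable (fun x => ‖L k x - L₀ x‖ ^ n) μ)
    (hconv : Tendsto (fun k => ∫ x, ‖L k x - L₀ x‖ ^ n ∂μ) atTop (𝓝 0))
    (hψ : ∀ k, AEStronglyMeasurable (ψ k) μ) (hG : Integrable G μ)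
    (hb : ∀ k, ∀ᵐ x ∂μ, ‖ψ k x‖ ≤ G x + C * ‖L k x‖ ^ n)
    (hpt : ∀ᵐ x ∂μ, ∀ φ : ℕ → ℕ, Tendsto φ atTop atTop →
      Tendsto (fun j => L (φ j) x) atTop (𝓝 (L₀ x)) →
      Tendsto (fun j => ψ (φ j) x) atTop (𝓝 (ψ₀ x))) :
    Tendsto (fun k => ∫ x, ψ k x ∂μ) atTop (𝓝 (∫ x, ψ₀ x ∂μ)) := by
  refine tendsto_of_subseq_tendsto fun ns hns => ?_
  obtain ⟨φ, hφ, H, hH, hdom, hlim⟩ := exists_subseq_dom
    (fun k x => ‖L (ns k) x - L₀ x‖ ^ n) (fun k x => by positivity) (fun k => hL _)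
    (hconv.comp hns)
  refine ⟨φ, ?_⟩
  refine tendsto_integral_of_dominated_convergence
    (fun x => G x + C * (2 ^ n * (H x + ‖L₀ x‖ ^ n))) (fun j => hψ _)
    (hG.add (((hH.add hL₀).const_mul _).const_mul _)) (fun j => ?_) ?_
  · filter_upwards [hb (ns (φ j)), hdom] with x hx hx'
    refine hx.trans ?_
    have := norm_pow_le_sub (n := n) (L (ns (φ j)) x) (L₀ x)
    have h2 := hx' j
    gcongr
    refine this.trans ?_
    gcongr
  · filter_upwards [hpt, hlim] with x hx hx'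
    refine hx (fun j => ns (φ j)) (hns.comp hφ.tendsto_atTop) ?_
    rw [tendsto_iff_norm_sub_tendsto_zero]
    have h3 : Tendsto (fun j => (‖L (ns (φ j)) x - L₀ x‖ ^ n) ^ ((n : ℝ)⁻¹)) atTop
        (𝓝 ((0 : ℝ) ^ ((n : ℝ)⁻¹))) :=
      hx'.rpow_const (Or.inr (by positivity))
    rw [Real.zero_rpow (by positivity)] at h3
    refine h3.congr fun j => ?_
    exact Real.pow_rpow_inv_natCast (norm_nonneg _) hn

end Meas

section Defs

variable {F : Type} [NormedAddCommGroup F] [NormedSpace ℝ F] [MeasurableSpace F]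

/-- `w k` are `C^1`, converge boundedly to `u` on `K`, derivatives converge to `D` in `L^n(K)`. -/
structure Apx (K : Set (X n)) (u : X n → F) (D : X n → X n →L[ℝ] F) (w : ℕ → X n → F) :
    Prop where
  smooth : ∀ k, ContDiff ℝ 1 (w k)
  ptw : ∀ x ∈ K, Tendsto (fun k => w k x) atTop (𝓝 (u x))
  bdd : ∃ C, ∀ k, ∀ x ∈ K, ‖w k x‖ ≤ C
  conv : Tendsto (fun k => ∫ x in K, ‖fderiv ℝ (w k) x - D x‖ ^ n) atTop (𝓝 0)

/-- Continuous maps on `U` which are local Sobolev limits of `C^1` maps. -/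
structure W (U : Set (X n)) (u : X n → F) (D : X n → X n →L[ℝ] F) : Prop where
  cont : ContinuousOn u U
  meas : Measurable u
  measD : Measurable D
  int : ∀ K ⊆ U, IsCompact K → IntegrableOn (fun x => ‖D x‖ ^ n) K
  apx : ∀ K ⊆ U, IsCompact K → ∃ w, Apx K u D w

end Defs

variable {F : Type} [NormedAddCommGroup F] [NormedSpace ℝ F] [FiniteDimensional ℝ F]
  [MeasurableSpace F] [BorelSpace F]
variable {F' : Type} [NormedAddCommGroup F'] [NormedSpace ℝ F'] [FiniteDimensional ℝ F']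
  [MeasurableSpace F'] [BorelSpace F']
variable {U : Set (X n)} {u : X n → F} {D : X n → X n →L[ℝ] F}

omit [FiniteDimensional ℝ F] [BorelSpace F] in
theorem W.mono (h : W U u D) {V : Set (X n)} (hV : V ⊆ U) : W V u D :=
  ⟨h.cont.mono hV, h.meas, h.measD, fun K hK => h.int K (hK.trans hV),
    fun K hK => h.apx K (hK.trans hV)⟩

theorem W.of_contDiff (hn : n ≠ 0) (hu : ContDiff ℝ 1 u) : W U u (fderiv ℝ u) := by
  have hD := hu.continuous_fderiv one_ne_zero
  refine ⟨hu.continuous.continuousOn, hu.continuous.measurable, hD.measurable,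
    fun K _ hK => (hD.norm.pow n).continuousOn.integrableOn_compact hK, fun K _ hK => ?_⟩
  obtain ⟨C, hC⟩ := hK.exists_bound_of_continuousOn hu.continuous.continuousOn
  exact ⟨fun _ => u, fun _ => hu, fun _ _ => tendsto_const_nhds, ⟨C, fun _ => hC⟩, by simp [hn]⟩

theorem W.int_sub (h : W U u D) {K : Set (X n)} (hKU : K ⊆ U) (hK : IsCompact K) {w : X n → F}
    (hw : ContDiff ℝ 1 w) : IntegrableOn (fun x => ‖fderiv ℝ w x - D x‖ ^ n) K := by
  have hD := hw.continuous_fderiv one_ne_zero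
  refine Integrable.mono' ((((hD.norm.pow n).continuousOn.integrableOn_compact hK).add
    (h.int K hKU hK)).const_mul (2 ^ n)) ?_ (Eventually.of_forall fun x => ?_)
  · exact ((hD.measurable.sub h.measD).norm.pow_const n).aestronglyMeasurable
  · rw [Real.norm_of_nonneg (by positivity)]
    exact norm_sub_pow_le _ _

omit [FiniteDimensional ℝ F] [MeasurableSpace F] [BorelSpace F] [FiniteDimensional ℝ F']
  [MeasurableSpace F'] [BorelSpace F'] in
theorem norm_prod_pow_le (A : X n →L[ℝ] F) (B : X n →L[ℝ] F') :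
    ‖A.prod B‖ ^ n ≤ ‖A‖ ^ n + ‖B‖ ^ n := by
  rw [ContinuousLinearMap.opNorm_prod, Prod.norm_mk]
  rcases le_total ‖A‖ ‖B‖ with h | h
  · rw [max_eq_right h]
    exact le_add_of_nonneg_left (by positivity)
  · rw [max_eq_left h]
    exact le_add_of_nonneg_right (by positivity)

theorem W.pair (h : W U u D) {u' : X n → F'} {D' : X n → X n →L[ℝ] F'} (h' : W U u' D') :
    W U (fun x => (u x, u' x)) (fun x => (D x).prod (D' x)) := by
  have hm : Measurable fun x => (D x).prod (D' x) :=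
    (ContinuousLinearMap.prodₗᵢ ℝ : ((X n →L[ℝ] F) × (X n →L[ℝ] F')) ≃ₗᵢ[ℝ]
      (X n →L[ℝ] F × F')).continuous.measurable.comp (h.measD.prodMk h'.measD)
  refine ⟨h.cont.prodMk h'.cont, h.meas.prodMk h'.meas, hm, fun K hKU hK => ?_,
    fun K hKU hK => ?_⟩
  · refine Integrable.mono' ((h.int K hKU hK).add (h'.int K hKU hK))
      (hm.norm.pow_const n).aestronglyMeasurable (Eventually.of_forall fun x => ?_)
    rw [Real.norm_of_nonneg (by positivity)]
    exact norm_prod_pow_le _ _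
  · obtain ⟨w, a1, a2, ⟨C, a3⟩, a4⟩ := h.apx K hKU hK
    obtain ⟨w', b1, b2, ⟨C', b3⟩, b4⟩ := h'.apx K hKU hK
    refine ⟨fun k x => (w k x, w' k x), fun k => (a1 k).prodMk (b1 k),
      fun x hx => (a2 x hx).prodMk_nhds (b2 x hx),
      ⟨max C C', fun k x hx => max_le_max (a3 k x hx) (b3 k x hx)⟩, ?_⟩
    refine squeeze_zero (fun k => integral_nonneg fun x => by positivity) (fun k => ?_)
      (by simpa using a4.add b4)
    rw [← integral_add (h.int_sub hKU hK (a1 k)) (h'.int_sub hKU hK (b1 k))]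
    refine integral_mono_of_nonneg (Eventually.of_forall fun x => by positivity)
      ((h.int_sub hKU hK (a1 k)).add (h'.int_sub hKU hK (b1 k)))
      (Eventually.of_forall fun x => ?_)
    have e := (((a1 k).differentiable one_ne_zero x).hasFDerivAt.prodMk
      ((b1 k).differentiable one_ne_zero x).hasFDerivAt).fderiv
    simp only [e]
    refine le_trans (le_of_eq ?_) (norm_prod_pow_le _ _)
    congr 2

theorem Apx.comp (hn : n ≠ 0) (h : W U u D) {K : Set (X n)} (hKU : K ⊆ U) (hK : IsCompact K)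
    {w : ℕ → X n → F} (hA : Apx K u D w) {Φ : F → F'} (hΦ : ContDiff ℝ 1 Φ) :
    IntegrableOn (fun x => ‖(fderiv ℝ Φ (u x)).comp (D x)‖ ^ n) K ∧
    Apx K (fun x => Φ (u x)) (fun x => (fderiv ℝ Φ (u x)).comp (D x)) fun k x => Φ (w k x) := by
  obtain ⟨a1, a2, ⟨C, a3⟩, a4⟩ := hA
  have hDΦ := hΦ.continuous_fderiv one_ne_zero
  obtain ⟨C₁, hC₁⟩ := (isCompact_closedBall (0 : F) C).exists_bound_of_continuousOn
    hΦ.continuous.continuousOn
  obtain ⟨C₂, hC₂⟩ := (isCompact_closedBall (0 : F) C).exists_bound_of_continuousOn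
    hDΦ.continuousOn
  have hu : ∀ x ∈ K, ‖u x‖ ≤ C := fun x hx => le_of_tendsto' (a2 x hx).norm fun k => a3 k x hx
  have hb : ∀ y : F, ‖y‖ ≤ C → ∀ A : X n →L[ℝ] F,
      ‖(fderiv ℝ Φ y).comp A‖ ^ n ≤ |C₂| ^ n * ‖A‖ ^ n := by
    intro y hy A
    rw [← mul_pow]
    refine pow_le_pow_left₀ (norm_nonneg _) ((ContinuousLinearMap.opNorm_comp_le _ _).trans ?_) n
    exact mul_le_mul_of_nonneg_right ((hC₂ y (by simpa using hy)).trans (le_abs_self _))
      (norm_nonneg _)
  have hcc : Continuous fun p : F × (X n →L[ℝ] F) => (fderiv ℝ Φ p.1).comp p.2 :=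
    (hDΦ.comp continuous_fst).clm_comp continuous_snd
  have hm : Measurable fun x => (fderiv ℝ Φ (u x)).comp (D x) :=
    hcc.measurable.comp (h.meas.prodMk h.measD)
  have hi : IntegrableOn (fun x => ‖(fderiv ℝ Φ (u x)).comp (D x)‖ ^ n) K := by
    refine Integrable.mono' ((h.int K hKU hK).const_mul (|C₂| ^ n))
      (hm.norm.pow_const n).aestronglyMeasurable
      ((ae_restrict_iff' hK.measurableSet).2 (Eventually.of_forall fun x hx => ?_))
    rw [Real.norm_of_nonneg (by positivity)]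
    exact hb _ (hu x hx) _
  refine ⟨hi, fun k => hΦ.comp (a1 k), fun x hx => (hΦ.continuous.tendsto _).comp (a2 x hx),
    ⟨C₁, fun k x hx => hC₁ _ (by simpa using a3 k x hx)⟩, ?_⟩
  have hd : ∀ k x, fderiv ℝ (fun x => Φ (w k x)) x =
      (fderiv ℝ Φ (w k x)).comp (fderiv ℝ (w k) x) := fun k x =>
    ((hΦ.differentiable one_ne_zero _).hasFDerivAt.comp x
      ((a1 k).differentiable one_ne_zero x).hasFDerivAt).fderiv
  simp only [hd]
  have := tendsto_integral_of_pow (μ := volume.restrict K) hn (fun k x => fderiv ℝ (w k) x) D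
    (fun k x => ‖(fderiv ℝ Φ (w k x)).comp (fderiv ℝ (w k) x) -
      (fderiv ℝ Φ (u x)).comp (D x)‖ ^ n) (fun _ => 0)
    (fun x => 2 ^ n * ‖(fderiv ℝ Φ (u x)).comp (D x)‖ ^ n) (2 ^ n * |C₂| ^ n) (by positivity)
    (h.int K hKU hK) (fun k => h.int_sub hKU hK (a1 k)) a4
    (fun k => (((hcc.comp ((a1 k).continuous.prodMk
      ((a1 k).continuous_fderiv one_ne_zero))).measurable.sub hm).norm.pow_const
        n).aestronglyMeasurable) (hi.const_mul _)
    (fun k => (ae_restrict_iff' hK.measurableSet).2 (Eventually.of_forall fun x hx => by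
      rw [Real.norm_of_nonneg (by positivity)]
      refine (norm_sub_pow_le _ _).trans ?_
      have := hb _ (a3 k x hx) (fderiv ℝ (w k) x)
      rw [mul_add, add_comm, mul_assoc]
      gcongr))
    ((ae_restrict_iff' hK.measurableSet).2 (Eventually.of_forall fun x hx φ hφ hL => by
      have h1 := (hcc.tendsto (u x, D x)).comp (((a2 x hx).comp hφ).prodMk_nhds hL)
      have h2 := (tendsto_iff_norm_sub_tendsto_zero.1 h1).pow n
      rwa [zero_pow hn] at h2))
  simpa using this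

theorem W.comp (hn : n ≠ 0) (h : W U u D) {Φ : F → F'} (hΦ : ContDiff ℝ 1 Φ) :
    W U (fun x => Φ (u x)) (fun x => (fderiv ℝ Φ (u x)).comp (D x)) := by
  have hcc : Continuous fun p : F × (X n →L[ℝ] F) => (fderiv ℝ Φ p.1).comp p.2 :=
    ((hΦ.continuous_fderiv one_ne_zero).comp continuous_fst).clm_comp continuous_snd
  refine ⟨hΦ.continuous.comp_continuousOn h.cont, hΦ.continuous.measurable.comp h.meas,
    hcc.measurable.comp (h.meas.prodMk h.measD), fun K hKU hK => ?_, fun K hKU hK => ?_⟩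
  · obtain ⟨w, hw⟩ := h.apx K hKU hK
    exact (Apx.comp hn h hKU hK hw hΦ).1
  · obtain ⟨w, hw⟩ := h.apx K hKU hK
    exact ⟨_, (Apx.comp hn h hKU hK hw hΦ).2⟩

theorem W.add (hn : n ≠ 0) (h : W U u D) {u' : X n → F} {D' : X n → X n →L[ℝ] F}
    (h' : W U u' D') : W U (fun x => u x + u' x) (fun x => D x + D' x) := by
  have := (h.pair h').comp hn (Φ := fun p : F × F => p.1 + p.2) (contDiff_fst.add contDiff_snd)
  convert this using 2 with x
  rw [(hasFDerivAt_fst.fun_add hasFDerivAt_snd).fderiv]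
  ext1 v
  simp

theorem W.sub (hn : n ≠ 0) (h : W U u D) {u' : X n → F} {D' : X n → X n →L[ℝ] F}
    (h' : W U u' D') : W U (fun x => u x - u' x) (fun x => D x - D' x) := by
  have := (h.pair h').comp hn (Φ := fun p : F × F => p.1 - p.2) (contDiff_fst.sub contDiff_snd)
  convert this using 2 with x
  rw [(hasFDerivAt_fst.fun_sub hasFDerivAt_snd).fderiv]
  ext1 v
  simp

omit [FiniteDimensional ℝ F] [MeasurableSpace F] [BorelSpace F] in
theorem smul_deriv (a : ℝ) (b : F) (L : X n →L[ℝ] ℝ) (A : X n →L[ℝ] F) :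
    (fderiv ℝ (fun p : ℝ × F => p.1 • p.2) (a, b)).comp (L.prod A) = a • A + L.smulRight b := by
  rw [(hasFDerivAt_fst.fun_smul hasFDerivAt_snd).fderiv]
  ext1 v
  simp

theorem W.smul (hn : n ≠ 0) (h : W U u D) {η : X n → ℝ} (hη : ContDiff ℝ 1 η) :
    W U (fun x => η x • u x) (fun x => η x • D x + (fderiv ℝ η x).smulRight (u x)) := by
  have := ((W.of_contDiff hn hη).pair h).comp hn (Φ := fun p : ℝ × F => p.1 • p.2)
    (contDiff_fst.smul contDiff_snd)
  simpa only [smul_deriv] using this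

/-- Approximation by maps with compact support in `U`. -/
theorem W.exists_apx_compact (hn : n ≠ 0) (hU : IsOpen U) (h : W U u D) {K : Set (X n)}
    (hK : IsCompact K) (hKU : K ⊆ U) (h0 : ∀ x ∈ U, x ∉ K → u x = 0 ∧ D x = 0) :
    ∃ K' : Set (X n), IsCompact K' ∧ K ⊆ K' ∧ K' ⊆ U ∧ ∃ w : ℕ → X n → F,
      (∀ k, tsupport (w k) ⊆ K') ∧ Apx K' u D w := by
  obtain ⟨χ, ⟨hχ, hχc, hχV⟩, hχ1, -⟩ := exists_cutoff hK hU hKU
  have hχ' : ContDiff ℝ 1 χ := hχ.of_le (by simp)
  have hW := (W.of_contDiff (U := U) hn hχ').pair h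
  obtain ⟨w, hw⟩ := h.apx _ hχV hχc
  have hA : Apx (tsupport χ) (fun x => (χ x, u x)) (fun x => (fderiv ℝ χ x).prod (D x))
      fun k x => (χ x, w k x) := by
    obtain ⟨C, hC⟩ := hχc.exists_bound_of_continuous hχ.continuous
    obtain ⟨C', hC'⟩ := hw.bdd
    refine ⟨fun k => hχ'.prodMk (hw.smooth k),
      fun x hx => tendsto_const_nhds.prodMk_nhds (hw.ptw x hx),
      ⟨max C C', fun k x hx => max_le_max (hC x) (hC' k x hx)⟩, hw.conv.congr fun k => ?_⟩
    refine integral_congr_ae (Eventually.of_forall fun x => ?_)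
    have e := ((hχ'.differentiable one_ne_zero x).hasFDerivAt.prodMk
      ((hw.smooth k).differentiable one_ne_zero x).hasFDerivAt).fderiv
    have e' : (fderiv ℝ χ x).prod (fderiv ℝ (w k) x) - (fderiv ℝ χ x).prod (D x) =
        (0 : X n →L[ℝ] ℝ).prod (fderiv ℝ (w k) x - D x) := by
      ext1 v
      simp
    simp only [e, e', ContinuousLinearMap.opNorm_prod, Prod.norm_mk, norm_zero,
      max_eq_right (norm_nonneg _)]
  obtain ⟨b1, b2, b3, b4⟩ := (Apx.comp hn hW hχV hχc hA (Φ := fun p : ℝ × F => p.1 • p.2)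
    (contDiff_fst.smul contDiff_snd)).2
  have key : ∀ x ∈ tsupport χ, χ x • u x = u x ∧
      χ x • D x + (fderiv ℝ χ x).smulRight (u x) = D x := by
    intro x hx
    by_cases hxK : x ∈ K
    · have h1 : ∀ᶠ y in 𝓝 x, χ y = 1 := hχ1.filter_mono (nhds_le_nhdsSet hxK)
      have e3 : fderiv ℝ χ x = 0 := by
        have : χ =ᶠ[𝓝 x] fun _ => 1 := h1
        rw [this.fderiv_eq]
        simp
      simp [h1.self_of_nhds, e3]
    · simp [h0 x (hχV hx) hxK]
  refine ⟨tsupport χ, hχc, fun x hx => subset_tsupport _ (by simp [hχ1.self_of_nhdsSet x hx]),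
    hχV, fun k x => χ x • w k x, fun k => closure_mono fun x hx h => hx (by simp [h]),
    b1, fun x hx => (key x hx).1 ▸ b2 x hx, b3, b4.congr fun k => ?_⟩
  refine setIntegral_congr_fun (isClosed_tsupport χ).measurableSet fun x hx => ?_
  simp only [smul_deriv, (key x hx).2]

theorem W.of_isW1n (hn : n ≠ 0) (hU : IsOpen U) (h : IsW1n U u D) (hc : ContinuousOn u U)
    (hm : Measurable u) (hD : Measurable D) : W U u D := by
  have hn1 : 1 ≤ n := Nat.one_le_iff_ne_zero.2 hn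
  have : CompleteSpace F := FiniteDimensional.complete ℝ F
  refine ⟨hc, hm, hD, fun K hKU hK => (h.1 K hKU hK).2.integrable_norm_pow hn,
    fun K hKU hK => ?_⟩
  obtain ⟨u', D', K', O, hg, m1, m2, k1, -, -, hKO, -, z1, -, e1, e2, hc'⟩ :=
    (isW1n_iff.1 h).exists_global hn1 hU hK hKU
  have lu := hg.1.locallyIntegrable hn1
  have cu := hc' hc
  obtain ⟨C, hC⟩ := (HasCompactSupport.intro k1 z1).exists_bound_of_continuous cu
  have hs : ∀ k, ContDiff ℝ 1 (Sob.moll k u') := fun k =>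
    (Sob.contDiff_moll k lu).of_le (by simp)
  refine ⟨fun k => Sob.moll k u', hs, fun x hx => ?_, ⟨C + (C + C), fun k x _ => ?_⟩, ?_⟩
  · rw [← e1 x (hKO hx)]
    exact Sob.tendsto_moll_of_continuous cu x
  · have := ContDiffBump.dist_normed_convolution_le (φ := Sob.bump (X n) k) (μ := volume)
      (x₀ := x) (ε := C + C) cu.aestronglyMeasurable
      fun y _ => (dist_le_norm_add_norm _ _).trans (add_le_add (hC _) (hC _))
    rw [dist_eq_norm] at this
    linarith [norm_sub_norm_le (Sob.moll k u' x) (u' x), hC x, show ‖Sob.moll k u' x - u' x‖ ≤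
      C + C from this]
  · have t : Tendsto (fun k => ∫⁻ x in K, ‖fderiv ℝ (Sob.moll k u') x - D x‖ₑ ^ n) atTop
        (𝓝 0) := by
      refine tendsto_of_tendsto_of_tendsto_of_le_of_le tendsto_const_nhds
        (Sob.tendsto_lintegral_moll hn1 m2) (fun _ => zero_le) fun k => ?_
      refine le_trans (le_of_eq ?_) (setLIntegral_le_lintegral K _)
      exact setLIntegral_congr_fun hK.measurableSet fun x hx => by
        rw [e2 x (hKO hx), hg.fderiv_moll hn1]
    have t' := (ENNReal.tendsto_toReal ENNReal.zero_ne_top).comp t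
    refine t'.congr fun k => ?_
    rw [integral_eq_lintegral_of_nonneg_ae
      (f := fun x => ‖fderiv ℝ (Sob.moll k u') x - D x‖ ^ n) (Eventually.of_forall fun x => by positivity)
      (((((hs k).continuous_fderiv one_ne_zero).measurable.sub hD).norm.pow_const
        n).aestronglyMeasurable)]
    simp only [Function.comp_apply, ENNReal.ofReal_pow (norm_nonneg _), ofReal_norm]

end Pool.Agent.P.MP_fecf7d_an.Sg
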