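import Pool.Agent.P.MP_fecf7d_an.SgNull

/-!
The analytic degree of a proper continuous Sobolev map.
-/

open MeasureTheory Set Filter Topology Metric
open scoped ENNReal

namespace Pool.Agent.P.MP_fecf7d_an.Sg

variable {n : ℕ}

/-- `f` is proper from `V` over `O`. -/
def ProperOver (f : X n → X n) (V O : Set (X n)) : Prop :=
  ∀ C ⊆ O, IsCompact C → IsCompact (V ∩ f ⁻¹' C)

/-- Continuous test functions. -/
structure CTest (O : Set (X n)) (ψ : X n → ℝ) : Prop where
  cont : Continuous ψ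
  comp : HasCompactSupport ψ
  sub : tsupport ψ ⊆ O

theorem ProperOver.mono {f : X n → X n} {V O O' : Set (X n)} (h : ProperOver f V O)
    (hO : O' ⊆ O) : ProperOver f V O' := fun C hC => h C (hC.trans hO)

theorem CTest.mono {O O' : Set (X n)} {ψ : X n → ℝ} (h : CTest O ψ) (hO : O ⊆ O') :
    CTest O' ψ := ⟨h.cont, h.comp, h.sub.trans hO⟩

theorem CTest.integrable {O : Set (X n)} {ψ : X n → ℝ} (h : CTest O ψ) : Integrable ψ :=
  h.cont.integrable_of_hasCompactSupport h.comp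

theorem CTest.mul {O : Set (X n)} (hO : IsOpen O) {ψ a : X n → ℝ} (h : CTest O ψ)
    (ha : ContinuousOn a O) : CTest O fun y => ψ y * a y := by
  have hs : tsupport (fun y => ψ y * a y) ⊆ tsupport ψ :=
    closure_mono fun x hx h => hx (by simp [h])
  exact ⟨(h.cont.continuousOn.mul ha).continuous_of_tsupport_subset hO (hs.trans h.sub),
    h.comp.of_isClosed_subset (isClosed_tsupport _) hs, hs.trans h.sub⟩

theorem continuousOn_of_lc {O : Set (X n)} {a : X n → ℝ}
    (ha : ∀ y ∈ O, ∀ᶠ y' in 𝓝 y, a y' = a y) : ContinuousOn a O := fun y hy =>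
  (continuousAt_const.congr (EventuallyEq.symm (ha y hy))).continuousWithinAt

theorem exists_bump {O : Set (X n)} (hO : IsOpen O) {y : X n} (hy : y ∈ O) :
    ∃ φ, CTest O φ ∧ (∀ z, 0 ≤ φ z) ∧ φ y = 1 ∧ 0 < ∫ z, φ z := by
  obtain ⟨χ, ⟨hχ, hχc, hχV⟩, hχ1, hχ01⟩ :=
    exists_cutoff isCompact_singleton hO (singleton_subset_iff.2 hy)
  have h1 := hχ1.self_of_nhdsSet y rfl
  exact ⟨χ, ⟨hχ.continuous, hχc, hχV⟩, fun z => (hχ01 z).1, h1,
    hχ.continuous.integral_pos_of_hasCompactSupport_nonneg_nonzero (x := y) hχc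
      (fun z => (hχ01 z).1) (by simp [h1])⟩

variable {V O : Set (X n)} {f : X n → X n} {D : X n → X n →L[ℝ] X n}

theorem W.integrableOn_bdd (h : W V f D) {K : Set (X n)} (hK : IsCompact K) (hKV : K ⊆ V)
    {ψ : X n → ℝ} (hψ : Measurable ψ) {C : ℝ} (hC : ∀ y, ‖ψ y‖ ≤ C) :
    IntegrableOn (fun x => ψ (f x) * (D x).det) K :=
  (h.integrableOn_det hK hKV).bdd_mul (hψ.comp h.meas).aestronglyMeasurable
    (Eventually.of_forall fun _ => hC _)

theorem W.integrableOn_test (hV : IsOpen V) (h : W V f D) (hp : ProperOver f V O)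
    {ψ : X n → ℝ} (hψ : CTest O ψ) : IntegrableOn (fun x => ψ (f x) * (D x).det) V := by
  obtain ⟨C, hC⟩ := hψ.comp.exists_bound_of_continuous hψ.cont
  refine (h.integrableOn_bdd (hp _ hψ.sub hψ.comp) inter_subset_left hψ.cont.measurable
    hC).of_forall_sdiff_eq_zero hV.measurableSet fun x hx => ?_
  rw [image_eq_zero_of_notMem_tsupport fun h' => hx.2 ⟨hx.1, h'⟩, zero_mul]

theorem Dens.comp {m : ℝ} {ρ : X n → ℝ} {T : X n → X n} (hρ : Dens m ρ T) :
    HasCompactSupport ρ :=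
  HasCompactSupport.intro (isCompact_closedBall 0 m) fun y hy =>
    hρ.zero y (by simpa using (not_le.1 (by simpa using hy) : m < ‖y‖).le)

theorem Dens.integral_pos {m : ℝ} {ρ : X n → ℝ} {T : X n → X n} (hρ : Dens m ρ T) :
    0 < ∫ y, ρ y :=
  hρ.cont.integral_pos_of_hasCompactSupport_nonneg_nonzero (x := 0) hρ.comp hρ.nonneg hρ.pos.ne'

theorem Dens.conv_le {m : ℝ} {ρ : X n → ℝ} {T : X n → X n} (hρ : Dens m ρ T) {ψ : X n → ℝ}
    (hψ : Continuous ψ) {ω : ℝ} (hω : ∀ y z, ‖z - y‖ < m → |ψ y - ψ z| ≤ ω) (z : X n) :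
    |(∫ y, ψ y * ρ (z - y)) - (∫ y, ρ y) * ψ z| ≤ ω * ∫ y, ρ y := by
  have hc : Continuous fun y => ρ (z - y) := hρ.cont.comp (continuous_const.sub continuous_id)
  have hs : HasCompactSupport fun y => ρ (z - y) :=
    hρ.comp.comp_homeomorph (Homeomorph.subLeft z)
  have hi : Integrable fun y => ρ (z - y) := hc.integrable_of_hasCompactSupport hs
  have hi' : Integrable fun y => ψ y * ρ (z - y) :=
    (hψ.mul hc).integrable_of_hasCompactSupport hs.mul_left
  rw [← integral_sub_left_eq_self ρ volume z, ← integral_mul_const, ← integral_const_mul,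
    ← integral_sub hi' (hi.mul_const _),
    ← Real.norm_eq_abs]
  refine norm_integral_le_of_norm_le (hi.const_mul _) (Eventually.of_forall fun y => ?_)
  rw [mul_comm (ρ (z - y)), ← sub_mul, norm_mul, Real.norm_of_nonneg (hρ.nonneg _)]
  by_cases hy : ‖z - y‖ < m
  · exact mul_le_mul_of_nonneg_right (hω y z hy) (hρ.nonneg _)
  · simp [hρ.zero _ (not_lt.1 hy)]

theorem deg_step (hn : n ≠ 0) (hV : IsOpen V) (h : W V f D) {y₀ : X n} {R₁ R₂ m : ℝ}
    (hR : 0 < R₁) (hm : 0 < m) (hm' : R₁ + m ≤ R₂) (hK : IsCompact (V ∩ f ⁻¹' closedBall y₀ R₂)) :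
    ∃ a c : ℝ, 0 < a ∧ ∀ (ψ : X n → ℝ) (ω : ℝ), CTest (ball y₀ R₁) ψ →
      (∀ y z, ‖z - y‖ < m → |ψ y - ψ z| ≤ ω) →
      |c * (∫ y, ψ y) - a * ∫ x in V, ψ (f x) * (D x).det| ≤
        ω * a * ∫ x in V ∩ f ⁻¹' closedBall y₀ R₂, |(D x).det| := by
  obtain ⟨ρ, T, hρ⟩ := exists_dens (n := n) hm
  set K := V ∩ f ⁻¹' closedBall y₀ R₂ with hKdef
  have hout : ∀ x ∈ V, x ∉ K → ∀ y ∈ ball y₀ R₁, m ≤ ‖f x - y‖ := by
    intro x hx hx' y hy
    have h1 : R₂ < dist (f x) y₀ := not_le.1 fun h => hx' ⟨hx, h⟩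
    have h2 := dist_triangle (f x) y y₀
    rw [mem_ball] at hy
    rw [← dist_eq_norm]
    linarith
  have hW : ∀ y, W V (fun x => f x - y) D := fun y => by
    simpa using h.sub hn (W.of_contDiff (U := V) hn (contDiff_const (c := y)))
  have hconst : ∀ y ∈ ball y₀ R₁, ∫ x in K, ρ (f x - y) * (D x).det =
      ∫ x in V, ρ (f x - y₀) * (D x).det := by
    intro y hy
    have := nl_homotopy hn hρ hV (hW y) (hW y₀) hK inter_subset_left (l := fun _ => 1)
      (fun x hx hx' s hs => by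
        have := hout x hx hx' _ ((convex_ball y₀ R₁).add_smul_sub_mem hy (mem_ball_self hR) hs)
        convert this using 2
        simp only [smul_sub]
        abel) (fun _ _ => Eventually.of_forall fun _ => rfl)
    simp only [one_pow, one_mul] at this
    rw [← this]
    refine (setIntegral_eq_of_subset_of_forall_sdiff_eq_zero hV.measurableSet
      inter_subset_left fun x hx => ?_).symm
    rw [hρ.zero _ (hout x hx.1 hx.2 y hy), zero_mul]
  refine ⟨∫ y, ρ y, ∫ x in V, ρ (f x - y₀) * (D x).det, hρ.integral_pos, fun ψ ω hψ hω => ?_⟩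
  have hJ := h.integrableOn_det hK inter_subset_left
  obtain ⟨C, hC⟩ := hρ.comp.exists_bound_of_continuous hρ.cont
  obtain ⟨C', hC'⟩ := hψ.comp.exists_bound_of_continuous hψ.cont
  have hprod : Integrable (Function.uncurry fun (y x : X n) => ψ y * (ρ (f x - y) * (D x).det))
      (volume.prod (volume.restrict K)) := by
    have h1 := (hψ.integrable.mul_prod hJ).bdd_mul (f := fun p : X n × X n => ρ (f p.2 - p.1))
      (hρ.cont.measurable.comp ((h.meas.comp measurable_snd).sub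
        measurable_fst)).aestronglyMeasurable (Eventually.of_forall fun _ => hC _)
    refine h1.congr (Eventually.of_forall fun p => ?_)
    simp only [Function.uncurry]
    ring
  have e1 : (∫ x in V, ρ (f x - y₀) * (D x).det) * ∫ y, ψ y =
      ∫ x in K, (∫ y, ψ y * ρ (f x - y)) * (D x).det := by
    have e0 : ∀ x, (∫ y, ψ y * ρ (f x - y)) * (D x).det =
        ∫ y, ψ y * (ρ (f x - y) * (D x).det) := fun x => by
      simp_rw [← integral_mul_const, mul_assoc]
    simp_rw [e0]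
    rw [← integral_integral_swap hprod, ← integral_const_mul]
    refine integral_congr_ae (Eventually.of_forall fun y => ?_)
    simp only
    rw [integral_const_mul, mul_comm]
    by_cases hy : y ∈ ball y₀ R₁
    · rw [hconst y hy]
    · simp [image_eq_zero_of_notMem_tsupport fun h => hy (hψ.sub h)]
  have e2 : ∫ x in V, ψ (f x) * (D x).det = ∫ x in K, ψ (f x) * (D x).det := by
    refine setIntegral_eq_of_subset_of_forall_sdiff_eq_zero hV.measurableSet
      inter_subset_left fun x hx => ?_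
    rw [image_eq_zero_of_notMem_tsupport (f := ψ) fun h' => ?_, zero_mul]
    have := hout x hx.1 hx.2 _ (hψ.sub h')
    rw [sub_self, norm_zero] at this
    linarith
  have i1 : IntegrableOn (fun x => (∫ y, ψ y * ρ (f x - y)) * (D x).det) K := by
    refine hprod.integral_prod_right.congr (Eventually.of_forall fun x => ?_)
    simp only [Function.uncurry, ← mul_assoc]
    rw [integral_mul_const]
  have i2 := h.integrableOn_bdd hK inter_subset_left hψ.cont.measurable hC'
  rw [e1, e2, ← integral_const_mul, ← integral_sub i1 (i2.const_mul _), ← integral_const_mul,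
    ← Real.norm_eq_abs]
  refine norm_integral_le_of_norm_le (hJ.abs.const_mul _) (Eventually.of_forall fun x => ?_)
  rw [← mul_assoc, ← sub_mul, norm_mul]
  exact mul_le_mul_of_nonneg_right (hρ.conv_le hψ.cont hω _) (abs_nonneg _)

theorem deg_ball (hn : n ≠ 0) (hV : IsOpen V) (h : W V f D) {y₀ : X n} {R : ℝ} (hR : 0 < R)
    (hp : ProperOver f V (ball y₀ R)) :
    ∃ d : ℝ, ∀ ψ, CTest (ball y₀ R) ψ → ∫ x in V, ψ (f x) * (D x).det = d * ∫ y, ψ y := by
  obtain ⟨φ, hφ, -, -, hφ0⟩ := exists_bump (isOpen_ball (x := y₀) (ε := R)) (mem_ball_self hR)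
  refine ⟨(∫ x in V, φ (f x) * (D x).det) / ∫ y, φ y, fun ψ hψ => ?_⟩
  obtain ⟨R₁, ⟨hR₁, hR₁'⟩, hs⟩ := exists_pos_lt_subset_ball hR
    ((isClosed_tsupport φ).union (isClosed_tsupport ψ)) (union_subset hφ.sub hψ.sub)
  have hK := hp _ (closedBall_subset_ball (show (R₁ + R) / 2 < R by linarith))
    (isCompact_closedBall y₀ _)
  set A := ∫ x in V ∩ f ⁻¹' closedBall y₀ ((R₁ + R) / 2), |(D x).det| with hA
  set Iφ := ∫ y, φ y
  set Iψ := ∫ y, ψ y
  set νφ := ∫ x in V, φ (f x) * (D x).det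
  set νψ := ∫ x in V, ψ (f x) * (D x).det
  have key : ∀ ω : ℝ, 0 < ω → |Iφ * νψ - Iψ * νφ| ≤ ω * ((|Iφ| + |Iψ|) * A) := by
    intro ω hω
    obtain ⟨δ₁, hδ₁, h₁⟩ := Metric.uniformContinuous_iff.1
      (hφ.comp.uniformContinuous_of_continuous hφ.cont) ω hω
    obtain ⟨δ₂, hδ₂, h₂⟩ := Metric.uniformContinuous_iff.1
      (hψ.comp.uniformContinuous_of_continuous hψ.cont) ω hω
    obtain ⟨a, c, ha, H⟩ := deg_step hn hV h hR₁
      (m := min (min δ₁ δ₂) ((R - R₁) / 2)) (by positivity)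
      (by have := min_le_right (min δ₁ δ₂) ((R - R₁) / 2); linarith) hK
    have b₁ := H φ ω ⟨hφ.cont, hφ.comp, subset_union_left.trans hs⟩ fun y z hyz => by
      rw [← Real.dist_eq]
      refine (h₁ ?_).le
      rw [dist_comm, dist_eq_norm]
      exact hyz.trans_le ((min_le_left _ _).trans (min_le_left _ _))
    have b₂ := H ψ ω ⟨hψ.cont, hψ.comp, subset_union_right.trans hs⟩ fun y z hyz => by
      rw [← Real.dist_eq]
      refine (h₂ ?_).le
      rw [dist_comm, dist_eq_norm]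
      exact hyz.trans_le ((min_le_left _ _).trans (min_le_right _ _))
    refine le_of_mul_le_mul_left ?_ ha
    calc a * |Iφ * νψ - Iψ * νφ| = |Iψ * (c * Iφ - a * νφ) - Iφ * (c * Iψ - a * νψ)| := by
          rw [← abs_of_pos ha, ← abs_mul, abs_of_pos ha]
          congr 1
          ring
      _ ≤ |Iψ| * (ω * a * A) + |Iφ| * (ω * a * A) := by
          refine (abs_sub _ _).trans ?_
          rw [abs_mul, abs_mul]
          gcongr
      _ = _ := by ring
  have h0 : |Iφ * νψ - Iψ * νφ| ≤ 0 := by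
    have : Tendsto (fun ω : ℝ => ω * ((|Iφ| + |Iψ|) * A)) (𝓝[>] 0) (𝓝 0) := by
      have : Tendsto (fun ω : ℝ => ω * ((|Iφ| + |Iψ|) * A)) (𝓝 0)
          (𝓝 (0 * ((|Iφ| + |Iψ|) * A))) := tendsto_id.mul_const _
      rw [zero_mul] at this
      exact this.mono_left nhdsWithin_le_nhds
    exact ge_of_tendsto this (eventually_nhdsWithin_of_forall key)
  have := abs_nonpos_iff.1 h0
  field_simp
  linarith

theorem deg (hn : n ≠ 0) (hV : IsOpen V) (hO : IsOpen O) (h : W V f D) (hp : ProperOver f V O) :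
    ∃ d : X n → ℝ, (∀ y ∈ O, ∀ᶠ y' in 𝓝 y, d y' = d y) ∧
      ∀ ψ, CTest O ψ → ∫ x in V, ψ (f x) * (D x).det = ∫ y, ψ y * d y := by
  have h1 : ∀ y, ∃ R d : ℝ, y ∈ O → 0 < R ∧ ball y R ⊆ O ∧
      ∀ ψ, CTest (ball y R) ψ → ∫ x in V, ψ (f x) * (D x).det = d * ∫ y, ψ y := by
    intro y
    by_cases hy : y ∈ O
    · obtain ⟨R, hR, hRO⟩ := Metric.isOpen_iff.1 hO y hy
      obtain ⟨d, hd⟩ := deg_ball hn hV h hR (hp.mono hRO)
      exact ⟨R, d, fun _ => ⟨hR, hRO, hd⟩⟩
    · exact ⟨0, 0, fun h => absurd h hy⟩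
  choose R d hd using h1
  have h2 : ∀ y ∈ O, ∀ y' ∈ ball y (R y), d y' = d y := by
    intro y hy y' hy'
    have hy'O := (hd y hy).2.1 hy'
    obtain ⟨φ, hφ, -, -, hφ0⟩ := exists_bump (O := ball y (R y) ∩ ball y' (R y'))
      (isOpen_ball.inter isOpen_ball) ⟨hy', mem_ball_self (hd y' hy'O).1⟩
    have e1 := (hd y hy).2.2 φ (hφ.mono inter_subset_left)
    have e2 := (hd y' hy'O).2.2 φ (hφ.mono inter_subset_right)
    exact mul_right_cancel₀ hφ0.ne' (e2.symm.trans e1)
  have h3 : ∀ y ∈ O, ∀ᶠ y' in 𝓝 y, d y' = d y := fun y hy =>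
    mem_of_superset (ball_mem_nhds y (hd y hy).1) (h2 y hy)
  refine ⟨d, h3, fun ψ hψ => ?_⟩
  have key : ∃ N, IsOpen N ∧ tsupport ψ ⊆ N ∧ N ⊆ O ∧
      ∀ ψ, CTest N ψ → ∫ x in V, ψ (f x) * (D x).det = ∫ y, ψ y * d y := by
    refine IsCompact.induction_on (p := fun s => ∃ N, IsOpen N ∧ s ⊆ N ∧ N ⊆ O ∧
      ∀ ψ, CTest N ψ → ∫ x in V, ψ (f x) * (D x).det = ∫ y, ψ y * d y) hψ.comp ?_ ?_ ?_ ?_
    · refine ⟨∅, isOpen_empty, Subset.rfl, empty_subset _, fun ψ hψ => ?_⟩
      have : ∀ y, ψ y = 0 := fun y => image_eq_zero_of_notMem_tsupport fun h => hψ.sub h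
      simp [this]
    · rintro s t hst ⟨N, a, b, c⟩
      exact ⟨N, a, hst.trans b, c⟩
    · rintro s t ⟨N, a, b, c, e⟩ ⟨N', a', b', c', e'⟩
      refine ⟨N ∪ N', a.union a', union_subset_union b b', union_subset c c', fun ψ hψ => ?_⟩
      obtain ⟨K₁, K₂, k1, k2, k3, k4, k5⟩ := hψ.comp.binary_compact_cover a a' hψ.sub
      obtain ⟨χ, ⟨hχ, hχc, hχV⟩, hχ1, -⟩ := exists_cutoff k1 a k3
      have t1 : CTest N fun y => χ y * ψ y :=
        CTest.mul a ⟨hχ.continuous, hχc, hχV⟩ hψ.cont.continuousOn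
      have t2 : CTest N' fun y => ψ y * (1 - χ y) := by
        have hs : tsupport (fun y => ψ y * (1 - χ y)) ⊆ K₂ := by
          refine closure_minimal (fun y hy => ?_) k2.isClosed
          have hy' : y ∈ tsupport ψ := subset_tsupport _ fun h => hy (by simp [h])
          rcases k5.subset hy' with h | h
          · exact absurd (by simp [hχ1.self_of_nhdsSet y h]) hy
          · exact h
        exact ⟨hψ.cont.mul (continuous_const.sub hχ.continuous),
          k2.of_isClosed_subset (isClosed_tsupport _) hs, hs.trans k4⟩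
      have s1 := integral_add (h.integrableOn_test hV hp (t1.mono c))
        (h.integrableOn_test hV hp (t2.mono c'))
      have s2 := integral_add ((t1.mono c).mul hO (continuousOn_of_lc h3)).integrable
        ((t2.mono c').mul hO (continuousOn_of_lc h3)).integrable
      rw [e _ t1, e' _ t2, ← s2] at s1
      convert s1 using 2
      · funext x; ring
      · funext x; ring
    · intro y hy
      have hyO := hψ.sub hy
      refine ⟨ball y (R y), mem_nhdsWithin_of_mem_nhds (ball_mem_nhds y (hd y hyO).1),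
        ball y (R y), isOpen_ball, Subset.rfl, (hd y hyO).2.1, fun φ hφ => ?_⟩
      rw [(hd y hyO).2.2 φ hφ, ← integral_const_mul]
      refine integral_congr_ae (Eventually.of_forall fun z => ?_)
      by_cases hz : z ∈ ball y (R y)
      · simp only [h2 y hyO z hz, mul_comm]
      · simp [image_eq_zero_of_notMem_tsupport fun h => hz (hφ.sub h)]
  obtain ⟨N, -, b, -, e⟩ := key
  exact e ψ ⟨hψ.cont, hψ.comp, b⟩

end Pool.Agent.P.MP_fecf7d_an.Sg
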