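import Pool.Agent.P.MP_fecf7d_an.SignA

/-!
Maps whose Jacobian is a limit of smooth Jacobians; homotopy invariance for such maps.
-/

open MeasureTheory Set Metric Filter Topology Module
open scoped ContDiff RealInnerProductSpace ENNReal Pointwise NNReal

namespace Pool.Agent.P.MP_fecf7d_an.Sgn

variable {n : ℕ} {V K : Set (E n)} {F : E n → E n} {J : E n → ℝ}

/-- `F` is a locally uniform limit of smooth maps whose Jacobians tend to `J` in `L^1_loc`. -/
structure Ap (V : Set (E n)) (F : E n → E n) (J : E n → ℝ) : Prop where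
  cont : ContinuousOn F V
  int : ∀ K ⊆ V, IsCompact K → IntegrableOn J K
  apx : ∀ K ⊆ V, IsCompact K → ∃ w : ℕ → E n → E n, (∀ k, ContDiff ℝ 1 (w k)) ∧
    TendstoUniformlyOn w F atTop K ∧
    Tendsto (fun k => ∫⁻ x in K, ‖(fderiv ℝ (w k) x).det - J x‖ₑ) atTop (𝓝 0)

theorem unif_comp {X : Type*} [PseudoMetricSpace X] (hK : IsCompact K) (hF : ContinuousOn F K)
    {w : ℕ → E n → E n} (hw : TendstoUniformlyOn w F atTop K) {h : E n → X} (hh : Continuous h) :
    TendstoUniformlyOn (fun k x => h (w k x)) (fun x => h (F x)) atTop K := by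
  have hQ : IsCompact (cthickening 1 (F '' K)) := (hK.image_of_continuousOn hF).cthickening
  have hu := hQ.uniformContinuousOn_of_continuous hh.continuousOn
  rw [Metric.tendstoUniformlyOn_iff] at hw ⊢
  intro ε hε
  obtain ⟨δ, hδ, h1⟩ := Metric.uniformContinuousOn_iff.1 hu ε hε
  filter_upwards [hw (min δ 1) (lt_min hδ one_pos)] with k hk x hx
  have h2 := hk x hx
  rw [lt_min_iff] at h2
  exact h1 _ (self_subset_cthickening _ (mem_image_of_mem F hx)) _
    (mem_cthickening_of_dist_le _ (F x) _ _ (mem_image_of_mem F hx)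
      (by rw [dist_comm]; exact h2.2.le)) h2.1

theorem l1_lim (hK : IsCompact K) (hF : ContinuousOn F K) (hJ : IntegrableOn J K)
    {w : ℕ → E n → E n} (hw : TendstoUniformlyOn w F atTop K) {j : ℕ → E n → ℝ}
    (hj : Tendsto (fun k => ∫⁻ x in K, ‖j k x - J x‖ₑ) atTop (𝓝 0)) {h : E n → ℝ}
    (hh : Continuous h) :
    Tendsto (fun k => ∫⁻ x in K, ‖h (w k x) * j k x - h (F x) * J x‖ₑ) atTop (𝓝 0) := by
  obtain ⟨M, hM⟩ := hK.exists_bound_of_continuousOn (hh.comp_continuousOn hF)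
  have hu := Metric.tendstoUniformlyOn_iff.1 (unif_comp hK hF hw hh)
  have hI : ∫⁻ x in K, ‖J x‖ₑ ≠ ⊤ := hJ.2.ne
  have h1 := ENNReal.Tendsto.const_mul (a := ENNReal.ofReal (M + 1)) hj
    (Or.inr ENNReal.ofReal_ne_top)
  rw [mul_zero] at h1
  rw [ENNReal.tendsto_nhds_zero] at h1 ⊢
  intro ε hε
  have hε2 : 0 < ε / 2 := ENNReal.half_pos hε.ne'
  obtain ⟨η, hη, hηI⟩ := ENNReal.exists_nnreal_pos_mul_lt hI hε2.ne'
  filter_upwards [h1 _ hε2, hu (min η 1) (lt_min hη one_pos)] with k hk1 hk2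
  calc ∫⁻ x in K, ‖h (w k x) * j k x - h (F x) * J x‖ₑ
      ≤ ∫⁻ x in K, (ENNReal.ofReal (M + 1) * ‖j k x - J x‖ₑ + η * ‖J x‖ₑ) := by
        refine setLIntegral_mono' hK.measurableSet fun x hx => ?_
        have h2 := hk2 x hx
        rw [lt_min_iff, dist_comm, dist_eq_norm] at h2
        have e : h (w k x) * j k x - h (F x) * J x =
            h (w k x) * (j k x - J x) + (h (w k x) - h (F x)) * J x := by ring
        rw [e]
        refine (enorm_add_le _ _).trans ?_
        rw [enorm_mul, enorm_mul]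
        gcongr
        · rw [← ofReal_norm]
          refine ENNReal.ofReal_le_ofReal ?_
          have h3 := norm_add_le (h (w k x) - h (F x)) (h (F x))
          rw [sub_add_cancel] at h3
          have h4 : ‖h (F x)‖ ≤ M := hM x hx
          linarith [h2.2]
        · rw [← ofReal_norm, ← ENNReal.ofReal_coe_nnreal]
          exact ENNReal.ofReal_le_ofReal h2.1.le
    _ = ENNReal.ofReal (M + 1) * (∫⁻ x in K, ‖j k x - J x‖ₑ) + η * ∫⁻ x in K, ‖J x‖ₑ := by
        rw [lintegral_add_right' _ (hJ.1.enorm.const_mul _),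
          lintegral_const_mul' _ _ ENNReal.ofReal_ne_top, lintegral_const_mul' _ _ ENNReal.coe_ne_top]
    _ ≤ ε / 2 + ε / 2 := add_le_add hk1 hηI.le
    _ = ε := ENNReal.add_halves ε

theorem Ap.mono (h : Ap V F J) {V' : Set (E n)} (hV : V' ⊆ V) : Ap V' F J :=
  ⟨h.cont.mono hV, fun K hK => h.int K (hK.trans hV), fun K hK => h.apx K (hK.trans hV)⟩

theorem Ap.int_mul (h : Ap V F J) (hKV : K ⊆ V) (hK : IsCompact K) {g : E n → ℝ}
    (hg : Continuous g) : IntegrableOn (fun x => g (F x) * J x) K :=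
  (h.int K hKV hK).continuousOn_mul (hg.comp_continuousOn (h.cont.mono hKV)) hK

theorem ap_smooth {Φ : E n → E n} (hΦ : ContDiff ℝ 1 Φ) :
    Ap V Φ fun x => (fderiv ℝ Φ x).det :=
  ⟨hΦ.continuous.continuousOn,
    fun _ _ hK => (continuous_det_fderiv hΦ).continuousOn.integrableOn_compact hK,
    fun _ _ _ => ⟨fun _ => Φ, fun _ => hΦ, Metric.tendstoUniformlyOn_iff.2 fun ε hε => by
      simp [hε], by simp⟩⟩

theorem Ap.comp (h : Ap V F J) {Ψ : E n → E n} (hΨ : ContDiff ℝ 1 Ψ) :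
    Ap V (fun x => Ψ (F x)) fun x => (fderiv ℝ Ψ (F x)).det * J x := by
  refine ⟨hΨ.continuous.comp_continuousOn h.cont,
    fun K hKV hK => h.int_mul hKV hK (continuous_det_fderiv hΨ), fun K hKV hK => ?_⟩
  obtain ⟨w, h1, h2, h3⟩ := h.apx K hKV hK
  refine ⟨fun k => Ψ ∘ w k, fun k => hΨ.comp (h1 k),
    unif_comp hK (h.cont.mono hKV) h2 hΨ.continuous, ?_⟩
  refine (l1_lim hK (h.cont.mono hKV) (h.int K hKV hK) h2 h3 (continuous_det_fderiv hΨ)).congr
    fun k => lintegral_congr fun x => ?_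
  rw [fderiv_comp x (hΨ.differentiable one_ne_zero _) ((h1 k).differentiable one_ne_zero _)]
  congr 2
  exact (LinearMap.det_comp (fderiv ℝ Ψ (w k x) : E n →ₗ[ℝ] E n) (fderiv ℝ (w k) x)).symm

theorem Ap.sub_const (h : Ap V F J) (y : E n) : Ap V (fun x => F x - y) J := by
  have := h.comp (Ψ := fun z => z - y) (contDiff_id.sub contDiff_const)
  simpa [fderiv_sub_const, ContinuousLinearMap.det] using this

theorem inv_ap {r r' : ℝ} {ρ : E n → ℝ} (hρ : Wt r ρ) (hr : r < r') (hV : IsOpen V)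
    {F₀ F₁ : E n → E n} {J₀ J₁ : E n → ℝ} (h₀ : Ap V F₀ J₀) (h₁ : Ap V F₁ J₁) (hK : IsCompact K)
    (hKV : K ⊆ V)
    (h : ∀ x ∈ V, x ∉ K → ∀ t ∈ Icc (0 : ℝ) 1, r' ≤ ‖F₀ x + t • (F₁ x - F₀ x)‖) :
    ∫ x in K, ρ (F₀ x) * J₀ x = ∫ x in K, ρ (F₁ x) * J₁ x := by
  obtain ⟨K', hK', hKK', hK'V⟩ := exists_compact_between hK hV hKV
  have hsub : K ⊆ K' := hKK'.trans interior_subset
  have key : ∀ {F : E n → E n} {J : E n → ℝ}, Ap V F J → ∃ w : ℕ → E n → E n,
      (∀ k, ContDiff ℝ 1 (w k)) ∧ (∀ᶠ k in atTop, ∀ x ∈ K', ‖w k x - F x‖ ≤ r' - r) ∧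
      Tendsto (fun k => ∫ x in K, ρ (w k x) * (fderiv ℝ (w k) x).det) atTop
        (𝓝 (∫ x in K, ρ (F x) * J x)) := by
    intro F J hF
    obtain ⟨w, h1, h2, h3⟩ := hF.apx K' hK'V hK'
    refine ⟨w, h1, ?_, ?_⟩
    · filter_upwards [Metric.tendstoUniformlyOn_iff.1 h2 _ (sub_pos.2 hr)] with k hk x hx
      rw [← dist_eq_norm, dist_comm]; exact (hk x hx).le
    · refine tendsto_integral_of_L1 _ (hF.int_mul hKV hK hρ.cont).1
        (Eventually.of_forall fun k => ((ap_smooth (V := univ) (h1 k)).int_mul (subset_univ _) hK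
          hρ.cont)) ?_
      refine l1_lim hK (hF.cont.mono hKV) (hF.int K hKV hK) (h2.mono hsub) ?_ hρ.cont
      exact tendsto_of_tendsto_of_tendsto_of_le_of_le tendsto_const_nhds h3 (fun _ => zero_le)
        fun k => lintegral_mono_set hsub
  obtain ⟨w₀, a1, a2, a3⟩ := key h₀
  obtain ⟨w₁, b1, b2, b3⟩ := key h₁
  refine tendsto_nhds_unique a3 (b3.congr' ?_)
  filter_upwards [a2, b2] with k ha hb
  refine (inv_smooth hρ (a1 k) (b1 k) hK isOpen_interior hKK' fun x hx hxK t ht => ?_).symm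
  have hx' := interior_subset hx
  have h1 := h x (hK'V hx') hxK t ht
  have e : F₀ x + t • (F₁ x - F₀ x) = (w₀ k x + t • (w₁ k x - w₀ k x)) -
      ((1 - t) • (w₀ k x - F₀ x) + t • (w₁ k x - F₁ x)) := by module
  have h2 : ‖(1 - t) • (w₀ k x - F₀ x) + t • (w₁ k x - F₁ x)‖ ≤ r' - r := by
    refine (norm_add_le _ _).trans ?_
    rw [norm_smul, norm_smul, Real.norm_eq_abs, Real.norm_eq_abs, abs_of_nonneg ht.1,
      abs_of_nonneg (sub_nonneg.2 ht.2)]
    have h3 := mul_le_mul_of_nonneg_left (ha x hx') (sub_nonneg.2 ht.2)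
    have h4 := mul_le_mul_of_nonneg_left (hb x hx') ht.1
    linarith
  rw [e] at h1
  linarith [norm_sub_le (w₀ k x + t • (w₁ k x - w₀ k x))
    ((1 - t) • (w₀ k x - F₀ x) + t • (w₁ k x - F₁ x))]

theorem abs_det_le (T : E n →L[ℝ] E n) : |T.det| ≤ ‖T‖ ^ n := by
  have hsub : T '' closedBall 0 1 ⊆ closedBall (0 : E n) ‖T‖ := by
    rintro _ ⟨v, hv, rfl⟩
    rw [mem_closedBall_zero_iff] at hv ⊢
    exact (T.le_opNorm v).trans (mul_le_of_le_one_right (norm_nonneg _) hv)
  have hm := measure_mono (μ := volume) hsub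
  rw [Measure.addHaar_image_continuousLinearMap, Measure.addHaar_closedBall' _ _ (norm_nonneg T),
    finrank_euclideanSpace_fin] at hm
  have hb0 : volume (closedBall (0 : E n) 1) ≠ 0 := (measure_closedBall_pos _ _ one_pos).ne'
  have hb1 : volume (closedBall (0 : E n) 1) ≠ ⊤ := measure_closedBall_lt_top.ne
  rw [ENNReal.mul_le_mul_iff_left hb0 hb1, ENNReal.ofReal_le_ofReal_iff (by positivity)] at hm
  exact hm

theorem enorm_det_le (T : E n →L[ℝ] E n) : ‖T.det‖ₑ ≤ ‖T‖ₑ ^ n := by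
  rw [← ofReal_norm, ← ofReal_norm, ← ENNReal.ofReal_pow (norm_nonneg _)]
  exact ENNReal.ofReal_le_ofReal (abs_det_le T)

theorem ap_of_isW1n (hn : 1 ≤ n) {G : Set (E n)} (hG : IsOpen G) {f : E n → E n}
    (hf : ContinuousOn f G) {D : E n → E n →L[ℝ] E n} (h : IsW1n G f D) :
    Ap G f fun x => (D x).det := by
  have hint : ∀ {μ : Measure (E n)} {D : E n → E n →L[ℝ] E n}, MemLp D n μ →
      Integrable (fun x => (D x).det) μ := fun {μ D} hD =>
    ⟨ContinuousLinearMap.continuous_det.comp_aestronglyMeasurable hD.1,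
      lt_of_le_of_lt (lintegral_mono fun x => enorm_det_le (D x))
        (Lib.Sob.lintegral_pow_lt_top hn hD)⟩
  refine ⟨hf, fun K hKG hK => hint (h.1 K hKG hK).2, fun K hKG hK => ?_⟩
  obtain ⟨u', D', K', O, hg, m1, m2, hK', -, -, hKO, -, z1, -, e1, e2, hc⟩ :=
    (isW1n_iff.1 h).exists_global hn hG hK hKG
  have lu := hg.1.locallyIntegrable hn
  have lD := hg.2.1.locallyIntegrable hn
  have cu := hc hf
  refine ⟨fun k => Lib.Sob.moll k u', fun k => (Lib.Sob.contDiff_moll k lu).of_le (by simp), ?_, ?_⟩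
  · have uc : UniformContinuous u' :=
      (HasCompactSupport.intro hK' z1).uniformContinuous_of_continuous cu
    rw [Metric.tendstoUniformlyOn_iff]
    intro ε hε
    obtain ⟨δ, hδ, h1⟩ := Metric.uniformContinuous_iff.1 uc (ε / 2) (half_pos hε)
    filter_upwards [(Lib.Sob.tendsto_bump_rOut (E := E n)).eventually (gt_mem_nhds hδ)] with k hk
      x hx
    have := (Lib.Sob.bump (E n) k).dist_normed_convolution_le (μ := volume) (x₀ := x) (ε := ε / 2)
      cu.aestronglyMeasurable fun z hz => (h1 (lt_trans hz hk)).le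
    rw [← e1 x (hKO hx), dist_comm]
    exact lt_of_le_of_lt this (half_lt_self hε)
  · have hm : ∀ k, AEStronglyMeasurable (Lib.Sob.moll k D') volume := fun k =>
      (Lib.Sob.contDiff_moll k lD).continuous.aestronglyMeasurable
    have h1 : Tendsto (fun k => ∫⁻ x, ‖(Lib.Sob.moll k D' x).det - (D' x).det‖ₑ) atTop (𝓝 0) := by
      refine Lib.Sob.tendsto_lintegral_pratt
        (G := fun k x => ‖Lib.Sob.moll k D' x‖ₑ ^ n + ‖D' x‖ₑ ^ n)
        (g := fun x => ‖D' x‖ₑ ^ n + ‖D' x‖ₑ ^ n) (fun k => ?_) (fun k => ?_) (fun k x => ?_) ?_ ?_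
        (fun k => ?_) ?_
      · exact ((ContinuousLinearMap.continuous_det.comp_aestronglyMeasurable (hm k)).sub
          (hint m2).1).enorm
      · exact ((hm k).enorm.pow_const n).add (m2.1.enorm.pow_const n)
      · exact enorm_sub_le.trans (add_le_add (enorm_det_le _) (enorm_det_le _))
      · filter_upwards [Lib.Sob.ae_tendsto_moll lD] with x hx
        have := (((ContinuousLinearMap.continuous_det.tendsto _).comp hx).sub_const
          (D' x).det).enorm
        simpa using this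
      · filter_upwards [Lib.Sob.ae_tendsto_moll lD] with x hx
        exact (ENNReal.Tendsto.pow hx.enorm).add_const _
      · rw [lintegral_add_right' _ (m2.1.enorm.pow_const n),
          lintegral_add_right' _ (m2.1.enorm.pow_const n)]
        exact add_le_add (Lib.Sob.lintegral_moll_le hn k m2.1) le_rfl
      · rw [lintegral_add_right' _ (m2.1.enorm.pow_const n)]
        exact ENNReal.add_ne_top.2 ⟨(Lib.Sob.lintegral_pow_lt_top hn m2).ne,
          (Lib.Sob.lintegral_pow_lt_top hn m2).ne⟩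
    refine tendsto_of_tendsto_of_tendsto_of_le_of_le tendsto_const_nhds h1 (fun _ => zero_le)
      fun k => ?_
    refine le_trans (le_of_eq ?_) (setLIntegral_le_lintegral K _)
    exact setLIntegral_congr_fun hK.measurableSet fun x hx => by
      rw [e2 x (hKO hx), hg.fderiv_moll hn]

end Pool.Agent.P.MP_fecf7d_an.Sgn
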