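import Pool.Agent.P.MP_fecf7d_an.SignB

/-!
The real valued degree function.
-/

open MeasureTheory Set Metric Filter Topology Module
open scoped ContDiff RealInnerProductSpace ENNReal Pointwise NNReal Convolution

namespace Pool.Agent.P.MP_fecf7d_an.Sgn

variable {n : ℕ} {V B : Set (E n)} {f : E n → E n} {J : E n → ℝ}

theorem Wt.hasCompactSupport {r : ℝ} {ρ : E n → ℝ} (h : Wt r ρ) : HasCompactSupport ρ :=
  HasCompactSupport.intro (isCompact_closedBall 0 r) fun y hy =>
    h.supp y (not_le.1 (by simpa using hy)).le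

theorem Wt.support_subset {r : ℝ} {ρ : E n → ℝ} (h : Wt r ρ) : Function.support ρ ⊆ ball 0 r :=
  fun y hy => by
    rw [mem_ball_zero_iff]
    by_contra h'
    exact hy (h.supp y (not_lt.1 h'))

theorem deg_loc (hV : IsOpen V) (h : Ap V f J) {r η : ℝ} {ρ : E n → ℝ} (hρ : Wt r ρ) (hr : r < η)
    {y₀ y : E n} (hK : IsCompact (V ∩ f ⁻¹' closedBall y₀ (2 * η))) (hy : y ∈ ball y₀ η) :
    ∫ x in V, ρ (f x - y) * J x = ∫ x in V, ρ (f x - y₀) * J x := by
  have hy' : ‖y - y₀‖ < η := by rwa [mem_ball, dist_eq_norm] at hy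
  have key : ∀ x ∈ V, x ∉ V ∩ f ⁻¹' closedBall y₀ (2 * η) → ∀ t ∈ Icc (0 : ℝ) 1,
      η ≤ ‖(f x - y₀) + t • ((f x - y) - (f x - y₀))‖ := by
    intro x hx hx' t ht
    have h1 : 2 * η < ‖f x - y₀‖ := by
      by_contra h2
      exact hx' ⟨hx, by rw [mem_preimage, mem_closedBall, dist_eq_norm]; exact not_lt.1 h2⟩
    have e : f x - y₀ = ((f x - y₀) + t • ((f x - y) - (f x - y₀))) + t • (y - y₀) := by module
    have h2 : ‖t • (y - y₀)‖ ≤ η := by
      rw [norm_smul, Real.norm_eq_abs, abs_of_nonneg ht.1]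
      nlinarith [ht.1, ht.2, norm_nonneg (y - y₀)]
    have h3 := norm_add_le ((f x - y₀) + t • ((f x - y) - (f x - y₀))) (t • (y - y₀))
    rw [← e] at h3
    linarith
  have e := inv_ap hρ hr hV (h.sub_const y₀) (h.sub_const y) hK inter_subset_left key
  rw [setIntegral_eq_of_subset_of_forall_sdiff_eq_zero hV.measurableSet inter_subset_left
      (s := V ∩ f ⁻¹' closedBall y₀ (2 * η)),
    setIntegral_eq_of_subset_of_forall_sdiff_eq_zero hV.measurableSet inter_subset_left
      (s := V ∩ f ⁻¹' closedBall y₀ (2 * η)), e]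
  · intro x hx
    have := key x hx.1 hx.2 0 ⟨le_rfl, zero_le_one⟩
    rw [hρ.supp _ (by simpa using hr.le.trans this), zero_mul]
  · intro x hx
    have := key x hx.1 hx.2 1 ⟨zero_le_one, le_rfl⟩
    rw [hρ.supp _ (by simpa using hr.le.trans this), zero_mul]

theorem deg_fubini (hV : IsOpen V) (h : Ap V f J) (hB : IsOpen B)
    (hp : ∀ Q ⊆ B, IsCompact Q → IsCompact (V ∩ f ⁻¹' Q)) {r : ℕ → ℝ} {ρ : ℕ → E n → ℝ}
    (hρ : ∀ k, Wt (r k) (ρ k)) (hr : Tendsto r atTop (𝓝 0)) {g : E n → ℝ} (hg : Continuous g)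
    (hgc : HasCompactSupport g) (hgB : tsupport g ⊆ B) :
    (∀ᶠ k in atTop, AEStronglyMeasurable (fun y => g y * ∫ x in V, ρ k (f x - y) * J x) volume) ∧
    Tendsto (fun k => ∫ y, g y * ∫ x in V, ρ k (f x - y) * J x) atTop
      (𝓝 (∫ x in V, g (f x) * J x)) := by
  obtain ⟨δ, hδ, hδB⟩ := hgc.isCompact.exists_cthickening_subset_open hB hgB
  have hK := hp _ hδB hgc.isCompact.cthickening
  set K := V ∩ f ⁻¹' cthickening δ (tsupport g) with hKdef
  have hKV : K ⊆ V := inter_subset_left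
  have hfK : AEStronglyMeasurable f (volume.restrict K) :=
    (h.cont.mono hKV).aestronglyMeasurable hK.measurableSet
  have hJ := h.int K hKV hK
  have hgi : Integrable g := hg.integrable_of_hasCompactSupport hgc
  obtain ⟨M, hM⟩ := hg.bounded_above_of_compact_support hgc
  have hint : ∀ k, Integrable (Function.uncurry fun y x => g y * (ρ k (f x - y) * J x))
      (volume.prod (volume.restrict K)) := by
    intro k
    obtain ⟨C, hC⟩ := (hρ k).cont.bounded_above_of_compact_support (hρ k).hasCompactSupport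
    have h1 := (hgi.mul_prod hJ).bdd_mul (c := C) (f := fun z : E n × E n => ρ k (f z.2 - z.1))
      ((hρ k).cont.comp_aestronglyMeasurable (hfK.comp_snd.sub measurable_fst.aestronglyMeasurable))
      (Eventually.of_forall fun z => hC _)
    refine h1.congr (Eventually.of_forall fun z => ?_)
    simp only [Function.uncurry]
    ring
  have e1 : ∀ᶠ k in atTop, ∀ y, g y * ∫ x in V, ρ k (f x - y) * J x =
      ∫ x in K, g y * (ρ k (f x - y) * J x) := by
    filter_upwards [hr.eventually (gt_mem_nhds hδ)] with k hk y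
    rw [integral_const_mul]
    by_cases hy : y ∈ tsupport g
    · congr 1
      refine setIntegral_eq_of_subset_of_forall_sdiff_eq_zero hV.measurableSet hKV fun x hx => ?_
      rw [(hρ k).supp, zero_mul]
      by_contra h'
      refine hx.2 ⟨hx.1, mem_cthickening_of_dist_le _ y _ _ hy ?_⟩
      rw [dist_eq_norm]; linarith [not_le.1 h']
    · simp [image_eq_zero_of_notMem_tsupport hy]
  refine ⟨?_, ?_⟩
  · filter_upwards [e1] with k hk
    rw [funext hk]
    exact (hint k).integral_prod_left.1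
  have e2 : ∫ x in V, g (f x) * J x = ∫ x in K, g (f x) * J x := by
    refine setIntegral_eq_of_subset_of_forall_sdiff_eq_zero hV.measurableSet hKV fun x hx => ?_
    have : f x ∉ tsupport g := fun h' =>
      hx.2 ⟨hx.1, mem_preimage.2 (self_subset_cthickening (tsupport g) h')⟩
    rw [image_eq_zero_of_notMem_tsupport this, zero_mul]
  have e3 : ∀ᶠ k in atTop, ∫ x in K, (ρ k ⋆[ContinuousLinearMap.lsmul ℝ ℝ, volume] g) (f x) * J x =
      ∫ y, g y * ∫ x in V, ρ k (f x - y) * J x := by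
    filter_upwards [e1] with k hk
    rw [funext hk, integral_integral_swap (hint k)]
    refine integral_congr_ae (Eventually.of_forall fun x => ?_)
    simp only
    rw [convolution_lsmul_swap, ← integral_mul_const]
    refine integral_congr_ae (Eventually.of_forall fun y => ?_)
    simp only [smul_eq_mul]
    ring
  rw [e2]
  refine Tendsto.congr' e3 ?_
  have hcc : ∀ k, Continuous (ρ k ⋆[ContinuousLinearMap.lsmul ℝ ℝ, volume] g) := fun k =>
    (hρ k).hasCompactSupport.continuous_convolution_left _ (hρ k).cont hg.locallyIntegrable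
  refine tendsto_integral_of_dominated_convergence (fun x => M * ‖J x‖)
    (fun k => ((hcc k).comp_aestronglyMeasurable hfK).mul hJ.1) (hJ.norm.const_mul M)
    (fun k => Eventually.of_forall fun x => ?_) (Eventually.of_forall fun x => ?_)
  · rw [norm_mul]
    gcongr
    have := dist_convolution_le (μ := volume) (x₀ := f x) (z₀ := (0 : ℝ))
      ((norm_nonneg _).trans (hM 0)) (hρ k).support_subset (hρ k).nonneg (hρ k).int
      hg.aestronglyMeasurable fun z _ => by simpa using hM z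
    simpa using this
  · refine Tendsto.mul_const _ (Metric.tendsto_nhds.2 fun ε hε => ?_)
    obtain ⟨η, hη, h1⟩ := Metric.continuousAt_iff.1 (hg.continuousAt (x := f x)) (ε / 2)
      (half_pos hε)
    filter_upwards [hr.eventually (gt_mem_nhds hη)] with k hk
    exact lt_of_le_of_lt (dist_convolution_le (half_pos hε).le (hρ k).support_subset (hρ k).nonneg
      (hρ k).int hg.aestronglyMeasurable fun z hz => (h1 (lt_trans hz hk)).le) (half_lt_self hε)

theorem deg (hV : IsOpen V) (h : Ap V f J) (hB : IsOpen B)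
    (hp : ∀ Q ⊆ B, IsCompact Q → IsCompact (V ∩ f ⁻¹' Q)) :
    ∃ p : E n → ℝ, (∀ y ∈ B, ∀ᶠ y' in 𝓝 y, p y' = p y) ∧
      ∀ g : E n → ℝ, Continuous g → HasCompactSupport g → tsupport g ⊆ B →
        ∫ x in V, g (f x) * J x = ∫ y, g y * p y := by
  set r : ℕ → ℝ := fun k => 1 / ((k : ℝ) + 1) with hrdef
  have hr : Tendsto r atTop (𝓝 0) := tendsto_one_div_add_atTop_nhds_zero_nat
  choose ρ hρ using fun k : ℕ => exists_wt (n := n) (r := r k) (by positivity)
  set d : ℕ → E n → ℝ := fun k y => ∫ x in V, ρ k (f x - y) * J x with hd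
  have hloc : ∀ y₀ ∈ B, ∃ η > 0, ∃ c : ℝ, Tendsto (fun k => d k y₀) atTop (𝓝 c) ∧
      ∀ᶠ k in atTop, ∀ y ∈ ball y₀ η, d k y = d k y₀ := by
    intro y₀ hy₀
    obtain ⟨ε, hε, hεB⟩ := Metric.isOpen_iff.1 hB y₀ hy₀
    set η := ε / 3 with hη
    have η0 : 0 < η := by positivity
    have hQ : closedBall y₀ (2 * η) ⊆ B := (closedBall_subset_ball (by linarith)).trans hεB
    have h1 : ∀ᶠ k in atTop, ∀ y ∈ ball y₀ η, d k y = d k y₀ := by
      filter_upwards [hr.eventually (gt_mem_nhds η0)] with k hk y hy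
      exact deg_loc hV h (hρ k) hk (hp _ hQ (isCompact_closedBall _ _)) hy
    obtain ⟨b, hb⟩ := exists_wt (n := n) η0
    have hs : tsupport (fun y => b (y - y₀)) ⊆ closedBall y₀ η :=
      closure_minimal (fun y hy => by
        have := hb.support_subset hy
        rw [mem_ball_zero_iff] at this
        rw [mem_closedBall, dist_eq_norm]; exact this.le) isClosed_closedBall
    have h2 := (deg_fubini hV h hB hp hρ hr (g := fun y => b (y - y₀))
      (hb.cont.comp (continuous_id.sub continuous_const))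
      ((isCompact_closedBall y₀ η).of_isClosed_subset (isClosed_tsupport _) hs)
      (hs.trans ((closedBall_subset_closedBall (by linarith)).trans hQ))).2
    refine ⟨η, η0, _, h2.congr' ?_, h1⟩
    filter_upwards [h1] with k hk
    have : ∀ y, b (y - y₀) * d k y = b (y - y₀) * d k y₀ := by
      intro y
      by_cases hy : y ∈ ball y₀ η
      · rw [hk y hy]
      · rw [hb.supp _ (by simpa [dist_eq_norm] using hy), zero_mul, zero_mul]
    change ∫ y, b (y - y₀) * d k y = _
    simp_rw [this]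
    rw [integral_mul_const, integral_sub_right_eq_self b y₀, hb.int, one_mul]
  set p : E n → ℝ := fun y => limUnder atTop fun k => d k y with hpdef
  have hloc' : ∀ y₀ ∈ B, ∃ η > 0, (∀ y ∈ ball y₀ η, p y = p y₀) ∧
      Tendsto (fun k => d k y₀) atTop (𝓝 (p y₀)) ∧
      ∀ᶠ k in atTop, ∀ y ∈ ball y₀ η, d k y = d k y₀ := by
    intro y₀ hy₀
    obtain ⟨η, η0, c, hc, h1⟩ := hloc y₀ hy₀
    have e0 : p y₀ = c := hc.limUnder_eq
    refine ⟨η, η0, fun y hy => ?_, e0 ▸ hc, h1⟩
    rw [e0]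
    exact (hc.congr' (h1.mono fun k hk => (hk y hy).symm)).limUnder_eq
  have hlc : ∀ y ∈ B, ∀ᶠ y' in 𝓝 y, p y' = p y := by
    intro y hy
    obtain ⟨η, η0, h1, -⟩ := hloc' y hy
    filter_upwards [ball_mem_nhds y η0] with y' hy' using h1 y' hy'
  refine ⟨p, hlc, fun g hg hgc hgB => ?_⟩
  obtain ⟨h1, h2⟩ := deg_fubini hV h hB hp hρ hr hg hgc hgB
  refine tendsto_nhds_unique h2 ?_
  have hpc : ContinuousOn p (tsupport g) := fun y hy =>
    (continuousAt_const.congr ((hlc y (hgB hy)).mono fun _ h => h.symm)).continuousWithinAt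
  have hb : ∀ᶠ k in atTop, ∀ y ∈ tsupport g, ‖d k y‖ ≤ ‖p y‖ + 1 := by
    refine hgc.isCompact.induction_on (p := fun S => ∀ᶠ k in atTop, ∀ y ∈ S, ‖d k y‖ ≤ ‖p y‖ + 1)
      (by simp) (fun s t hst ht => ht.mono fun k hk y hy => hk y (hst hy))
      (fun s t hs ht => (hs.and ht).mono fun k hk y hy => hy.elim (hk.1 y) (hk.2 y)) ?_
    intro y₀ hy₀
    obtain ⟨η, η0, a1, a2, a3⟩ := hloc' y₀ (hgB hy₀)
    refine ⟨ball y₀ η, mem_nhdsWithin_of_mem_nhds (ball_mem_nhds _ η0), ?_⟩
    filter_upwards [a3, a2.norm.eventually (gt_mem_nhds (lt_add_one _))] with k hk hk' y hy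
    rw [hk y hy, a1 y hy]; exact hk'.le
  refine tendsto_integral_filter_of_dominated_convergence (fun y => ‖g y‖ * (‖p y‖ + 1)) h1
    (hb.mono fun k hk => Eventually.of_forall fun y => ?_) ?_ (Eventually.of_forall fun y => ?_)
  · by_cases hy : y ∈ tsupport g
    · rw [norm_mul]; gcongr; exact hk y hy
    · simp [image_eq_zero_of_notMem_tsupport hy]
  · refine (integrableOn_iff_integrable_of_support_subset (s := tsupport g) fun y hy => ?_).1
      ((hg.continuousOn.norm.mul (hpc.norm.add continuousOn_const)).integrableOn_compact hgc)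
    by_contra h'
    exact hy (by simp [image_eq_zero_of_notMem_tsupport h'])
  · by_cases hy : y ∈ tsupport g
    · obtain ⟨η, -, -, a2, -⟩ := hloc' y (hgB hy)
      exact a2.const_mul _
    · simp [image_eq_zero_of_notMem_tsupport hy]

/-- The properties of the pair (map, Jacobian) used in the orientation argument. -/
structure Good (G : Set (E n)) (f : E n → E n) (J : E n → ℝ) : Prop where
  int : ∀ K ⊆ G, IsCompact K → IntegrableOn J K
  deg : ∀ V ⊆ G, IsOpen V → ∀ B, IsOpen B → (∀ Q ⊆ B, IsCompact Q → IsCompact (V ∩ f ⁻¹' Q)) →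
    ∃ p : E n → ℝ, (∀ y ∈ B, ∀ᶠ y' in 𝓝 y, p y' = p y) ∧
      ∀ g : E n → ℝ, Continuous g → HasCompactSupport g → tsupport g ⊆ B →
        ∫ x in V, g (f x) * J x = ∫ y, g y * p y
  inv : ∃ σ : ℝ, σ ≠ 0 ∧ ∀ (r r' : ℝ) (ρ : E n → ℝ), Wt r ρ → r < r' → ∀ Ψ Φ : E n → E n,
    ContDiff ℝ 1 Ψ → ContDiff ℝ 1 Φ → ∀ V ⊆ G, IsOpen V → ∀ K ⊆ V, IsCompact K →
    (∀ x ∈ V, x ∉ K → ∀ t ∈ Icc (0 : ℝ) 1, r' ≤ ‖Ψ (f x) + t • (Φ x - Ψ (f x))‖) →
    ∫ x in K, ρ (Ψ (f x)) * (fderiv ℝ Ψ (f x)).det * J x =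
      σ * ∫ x in K, ρ (Φ x) * (fderiv ℝ Φ x).det

theorem Ap.good {G : Set (E n)} (h : Ap G f J) : Good G f J := by
  refine ⟨h.int, fun V hVG hV B hB hp => deg hV (h.mono hVG) hB hp, 1, one_ne_zero,
    fun r r' ρ hρ hr Ψ Φ hΨ hΦ V hVG hV K hKV hK hb => ?_⟩
  simp_rw [one_mul, mul_assoc]
  exact inv_ap hρ hr hV ((h.mono hVG).comp hΨ) (ap_smooth hΦ) hK hKV hb

theorem Good.neg {G : Set (E n)} (h : Good G f J) : Good G f fun x => -J x := by
  refine ⟨fun K hK hK' => (h.int K hK hK').neg, fun V hVG hV B hB hp => ?_, ?_⟩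
  · obtain ⟨p, h1, h2⟩ := h.deg V hVG hV B hB hp
    refine ⟨fun y => -p y, fun y hy => (h1 y hy).mono fun y' h' => by simp only [h'],
      fun g a b c => ?_⟩
    simp only [mul_neg, integral_neg, h2 g a b c]
  · obtain ⟨σ, hσ, h1⟩ := h.inv
    refine ⟨-σ, neg_ne_zero.2 hσ, fun r r' ρ hρ hr Ψ Φ hΨ hΦ V hVG hV K hKV hK hb => ?_⟩
    simp only [mul_neg, integral_neg, neg_mul, h1 r r' ρ hρ hr Ψ Φ hΨ hΦ V hVG hV K hKV hK hb]

end Pool.Agent.P.MP_fecf7d_an.Sgn
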