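import Pool.Agent.P.MP_fecf7d_an.SignC

/-!
Auxiliary constructions for the orientation argument: probes, one-sided degrees, dipoles.
-/

open MeasureTheory Set Metric Filter Topology Module
open scoped ContDiff RealInnerProductSpace ENNReal Pointwise NNReal

namespace Pool.Agent.P.MP_fecf7d_an.Sgn

variable {n : ℕ} {G V B : Set (E n)} {f : E n → E n} {J : E n → ℝ}

theorem probe {y : E n} {O : Set (E n)} (hO : O ∈ 𝓝 y) : ∃ g : E n → ℝ, Continuous g ∧
    HasCompactSupport g ∧ tsupport g ⊆ O ∧ (∀ z, 0 ≤ g z) ∧ 0 < g y ∧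
    ∀ p : E n → ℝ, (∀ z ∈ O, p z = p y) → ∫ z, g z * p z = p y := by
  obtain ⟨ε, hε, hεO⟩ := Metric.nhds_basis_closedBall.mem_iff.1 hO
  obtain ⟨b, hb⟩ := exists_wt (n := n) hε
  have hs : tsupport (fun z => b (z - y)) ⊆ closedBall y ε :=
    closure_minimal (fun z hz => by
      have := hb.support_subset hz
      rw [mem_ball_zero_iff] at this
      rw [mem_closedBall, dist_eq_norm]; exact this.le) isClosed_closedBall
  refine ⟨fun z => b (z - y), hb.cont.comp (continuous_id.sub continuous_const),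
    (isCompact_closedBall y ε).of_isClosed_subset (isClosed_tsupport _) hs, hs.trans hεO,
    fun z => hb.nonneg _, by simpa using hb.pos, fun p hp => ?_⟩
  have : ∀ z, b (z - y) * p z = b (z - y) * p y := by
    intro z
    by_cases hz : z ∈ tsupport fun z => b (z - y)
    · rw [hp z (hεO (hs hz))]
    · have : b (z - y) = 0 := image_eq_zero_of_notMem_tsupport (f := fun z => b (z - y)) hz
      rw [this, zero_mul, zero_mul]
  simp_rw [this]
  rw [integral_mul_const, integral_sub_right_eq_self b y, hb.int, one_mul]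

theorem side (h : Good G f J) (hf : ContinuousOn f G)
    (hJ : ∀ W ⊆ G, IsOpen W → W.Nonempty → ¬∀ᵐ x, x ∈ W → J x = 0) {C : Set (E n)}
    (hC : IsCompact C) (hCG : C ⊆ G) (hV : IsOpen V) (hVC : V ⊆ C) (hB : IsOpen B)
    (hp : ∀ Q ⊆ B, IsCompact Q → IsCompact (V ∩ f ⁻¹' Q)) (h0 : ∀ᵐ x, x ∈ V → 0 ≤ J x) :
    ∃ p : E n → ℝ, (∀ y ∈ B, ∀ᶠ y' in 𝓝 y, p y' = p y) ∧
      (∀ g : E n → ℝ, Continuous g → HasCompactSupport g → tsupport g ⊆ B →
        ∫ x in V, g (f x) * J x = ∫ y, g y * p y) ∧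
      (∀ y ∈ B, 0 ≤ p y) ∧ (∀ x ∈ V, f x ∈ B → 0 < p (f x)) ∧
      ∀ y ∈ B, p y ≠ 0 → y ∈ f '' V := by
  have hVG := hVC.trans hCG
  obtain ⟨p, h1, h2⟩ := h.deg V hVG hV B hB hp
  have hnn : ∀ g : E n → ℝ, (∀ z, 0 ≤ g z) → 0 ≤ᵐ[volume.restrict V] fun x => g (f x) * J x := by
    intro g hg
    filter_upwards [ae_restrict_of_ae h0, ae_restrict_mem hV.measurableSet] with x hx hxV
    exact mul_nonneg (hg _) (hx hxV)
  refine ⟨p, h1, h2, fun y hy => ?_, fun x hx hy => ?_, fun y hy hp0 => ?_⟩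
  · obtain ⟨g, a1, a2, a3, a4, -, a6⟩ := probe (inter_mem (hB.mem_nhds hy) (h1 y hy))
    rw [← a6 p fun z hz => hz.2, ← h2 g a1 a2 (a3.trans inter_subset_left)]
    exact integral_nonneg_of_ae (hnn g a4)
  · obtain ⟨g, a1, a2, a3, a4, a5, a6⟩ := probe (inter_mem (hB.mem_nhds hy) (h1 _ hy))
    rw [← a6 p fun z hz => hz.2, ← h2 g a1 a2 (a3.trans inter_subset_left)]
    refine lt_of_le_of_ne (integral_nonneg_of_ae (hnn g a4)) fun h3 => ?_
    have hi : IntegrableOn (fun x => g (f x) * J x) V :=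
      ((h.int C hCG hC).continuousOn_mul (a1.comp_continuousOn (hf.mono hCG)) hC).mono_set hVC
    have h4 := (setIntegral_eq_zero_iff_of_nonneg_ae (hnn g a4) hi).1 h3.symm
    refine hJ (V ∩ (fun x => g (f x)) ⁻¹' Ioi 0) (inter_subset_left.trans hVG)
      ((a1.comp_continuousOn (hf.mono hVG)).isOpen_inter_preimage hV isOpen_Ioi) ⟨x, hx, a5⟩ ?_
    filter_upwards [(ae_restrict_iff' hV.measurableSet).1 h4] with z hz hz'
    exact (mul_eq_zero.1 (hz hz'.1)).resolve_left (ne_of_gt hz'.2)
  · by_contra hy'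
    obtain ⟨ε, hε, hεB⟩ := Metric.nhds_basis_closedBall.mem_iff.1 (hB.mem_nhds hy)
    have hK := hp _ hεB (isCompact_closedBall y ε)
    have hcl : IsClosed (f '' (V ∩ f ⁻¹' closedBall y ε)) :=
      (hK.image_of_continuousOn (hf.mono (inter_subset_left.trans hVG))).isClosed
    obtain ⟨g, a1, a2, a3, -, -, a6⟩ := probe (inter_mem (inter_mem (closedBall_mem_nhds y hε)
      (hcl.isOpen_compl.mem_nhds fun h' => hy' (image_mono inter_subset_left h'))) (h1 y hy))
    refine hp0 ?_
    rw [← a6 p fun z hz => hz.2, ← h2 g a1 a2 fun z hz => hεB (a3 hz).1.1]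
    refine setIntegral_eq_zero_of_forall_eq_zero fun x hx => ?_
    rw [image_eq_zero_of_notMem_tsupport fun h' => (a3 h').1.2 ⟨x, ⟨hx, (a3 h').1.1⟩, rfl⟩,
      zero_mul]

/-- On a set of points with singleton fibres the Jacobian has the sign of the degree. -/
theorem ae_nonneg_of_single (hf : ContinuousOn f G) (hJm : Measurable J) {C U S : Set (E n)}
    (hC : IsCompact C) (hCG : C ⊆ G) (hJ : IntegrableOn J C) (hU : IsOpen U) (hUC : U ⊆ C)
    (hB : IsOpen B) (hUB : MapsTo f U B) (hS : MeasurableSet S) (hSU : S ⊆ U)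
    (hinj : ∀ s ∈ S, ∀ z ∈ U, f z = f s → z = s)
    (h : ∀ g : E n → ℝ, Continuous g → HasCompactSupport g → tsupport g ⊆ B → (∀ y, 0 ≤ g y) →
      0 ≤ ∫ x in U, g (f x) * J x) : ∀ᵐ x, x ∈ S → 0 ≤ J x := by
  have hN : MeasurableSet (S ∩ {x | J x < 0}) := hS.inter (measurableSet_lt hJm measurable_const)
  have hfin : volume (S ∩ {x | J x < 0}) ≠ ⊤ :=
    ((measure_mono ((inter_subset_left.trans hSU).trans hUC)).trans_lt hC.measure_lt_top).ne
  rw [ae_iff]
  have e : {x | ¬(x ∈ S → 0 ≤ J x)} = S ∩ {x | J x < 0} := by ext x; simp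
  rw [e]
  by_contra h0
  obtain ⟨K, hKN, hK, hK0⟩ := hN.exists_lt_isCompact_of_ne_top hfin (pos_iff_ne_zero.2 h0)
  have hKU : K ⊆ U := (hKN.trans inter_subset_left).trans hSU
  have hne : (f '' K).Nonempty := (nonempty_of_measure_ne_zero hK0.ne').image f
  have hfK : IsCompact (f '' K) := hK.image_of_continuousOn (hf.mono ((hKU.trans hUC).trans hCG))
  obtain ⟨δ, hδ, hδB⟩ := hfK.exists_cthickening_subset_open hB (hUB.mono_left hKU).image_subset
  set g : ℕ → E n → ℝ := fun k y => max 0 (1 - ((k : ℝ) + 1) / δ * infDist y (f '' K)) with hg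
  have gc : ∀ k, Continuous (g k) := fun k =>
    continuous_const.max (continuous_const.sub (continuous_const.mul (continuous_infDist_pt _)))
  have gs : ∀ k, tsupport (g k) ⊆ cthickening δ (f '' K) := by
    intro k
    refine closure_minimal (fun y hy => thickening_subset_cthickening _ _ ?_) isClosed_cthickening
    rw [mem_thickening_iff_infDist_lt hne]
    by_contra h'
    refine hy (max_eq_left ?_)
    have : 1 / δ * δ ≤ ((k : ℝ) + 1) / δ * infDist y (f '' K) := by
      gcongr
      · linarith [Nat.cast_nonneg (α := ℝ) k]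
      · exact not_lt.1 h'
    rw [one_div, inv_mul_cancel₀ hδ.ne'] at this
    linarith
  have hlim : Tendsto (fun k => ∫ x in U, g k (f x) * J x) atTop
      (𝓝 (∫ x in U, K.indicator J x)) := by
    refine tendsto_integral_of_dominated_convergence (fun x => ‖J x‖) (fun k => ?_)
      (hJ.mono_set hUC).norm (fun k => Eventually.of_forall fun x => ?_) ?_
    · exact (((gc k).comp_continuousOn (hf.mono (hUC.trans hCG))).aestronglyMeasurable
        hU.measurableSet).mul hJm.aestronglyMeasurable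
    · rw [norm_mul]
      refine mul_le_of_le_one_left (norm_nonneg _) ?_
      rw [Real.norm_eq_abs, abs_of_nonneg (le_max_left _ _)]
      refine max_le zero_le_one (sub_le_self _ ?_)
      exact mul_nonneg (by positivity) infDist_nonneg
    · filter_upwards [ae_restrict_mem hU.measurableSet] with x hx
      by_cases hxK : x ∈ K
      · simp [hg, infDist_zero_of_mem (mem_image_of_mem f hxK), hxK]
      · have hx' : f x ∉ f '' K := by
          rintro ⟨s, hs, hfs⟩
          exact hxK (hinj s (hKN hs).1 x hx hfs.symm ▸ hs)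
        have hpos : 0 < infDist (f x) (f '' K) := (hfK.isClosed.notMem_iff_infDist_pos hne).1 hx'
        rw [indicator_of_notMem hxK]
        refine tendsto_const_nhds.congr' ?_
        obtain ⟨m, hm⟩ := exists_nat_ge (δ / infDist (f x) (f '' K))
        filter_upwards [eventually_ge_atTop m] with k hk
        have h1 : (m : ℝ) ≤ k := by exact_mod_cast hk
        rw [div_le_iff₀ hpos] at hm
        have : g k (f x) = 0 := by
          refine max_eq_left (sub_nonpos.2 ?_)
          rw [div_mul_eq_mul_div, one_le_div hδ]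
          nlinarith
        rw [this, zero_mul]
  have h1 : 0 ≤ ∫ x in U, K.indicator J x := ge_of_tendsto' hlim fun k =>
    h _ (gc k) (hfK.cthickening.of_isClosed_subset (isClosed_tsupport _) (gs k)) ((gs k).trans hδB)
      fun y => le_max_left _ _
  rw [setIntegral_indicator hK.measurableSet, inter_eq_right.2 hKU] at h1
  have h2 : 0 ≤ᵐ[volume.restrict K] fun x => -J x :=
    ae_restrict_of_forall_mem hK.measurableSet fun x hx => neg_nonneg.2 (le_of_lt (hKN hx).2)
  have h3 := (setIntegral_pos_iff_support_of_nonneg_ae h2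
    (hJ.mono_set (hKU.trans hUC)).neg).2 (lt_of_lt_of_le hK0 (measure_mono fun x hx =>
      ⟨neg_ne_zero.2 (ne_of_lt (hKN hx).2), hx⟩))
  rw [integral_neg] at h3
  linarith

theorem dipole {x₀ a b : E n} {η : ℝ} (ha : a ∈ ball x₀ η) (hb : b ∈ ball x₀ η) (hab : a ≠ b) :
    ∃ (Φ : E n → E n) (w : E n), ContDiff ℝ 1 Φ ∧ w ≠ 0 ∧
      (∀ x, x ∉ ball x₀ (2 * η) → Φ x = w) ∧ (∀ x, Φ x = 0 → x = a ∨ x = b) ∧ Φ a = 0 ∧
      (fderiv ℝ Φ a).det ≠ 0 := by
  have hη : 0 < η := pos_of_mem_ball ha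
  obtain ⟨χ, hχ, h1, h01⟩ := Lib.Sob.exists_cutoff (isCompact_closedBall x₀ η) isOpen_ball
    (closedBall_subset_ball (by linarith : η < 2 * η))
  set w := b - a with hw
  have w0 : w ≠ 0 := sub_ne_zero.2 hab.symm
  have hN : 0 < ⟪w, w⟫ := real_inner_self_pos.2 w0
  set lam : E n →L[ℝ] ℝ := (⟪w, w⟫)⁻¹ • innerSL ℝ w with hlam
  have lw : lam w = 1 := by simp only [hlam, smul_apply, innerSL_apply_apply, smul_eq_mul]; field_simp
  set l : E n → ℝ := fun x => lam (x - a) with hl
  have l1 : ContDiff ℝ 1 l := lam.contDiff.comp (contDiff_id.sub contDiff_const)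
  set φ : E n → E n := fun x => x - a + (l x * (l x - 2)) • w with hφ
  have φ1 : ContDiff ℝ 1 φ :=
    (contDiff_id.sub contDiff_const).add ((l1.mul (l1.sub contDiff_const)).smul contDiff_const)
  have hχ1 : ContDiff ℝ 1 χ := hχ.1.of_le (by simp)
  have one : ∀ x ∈ closedBall x₀ η, ∀ᶠ z in 𝓝 x, χ z = 1 := fun x hx =>
    h1.filter_mono (nhds_le_nhdsSet hx)
  have ha' := ball_subset_closedBall ha
  refine ⟨fun x => χ x • φ x + (1 - χ x) • w, w,
    (hχ1.smul φ1).add ((contDiff_const.sub hχ1).smul contDiff_const), w0,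
    fun x hx => by simp [hχ.zero_of_notMem hx], fun x hx => ?_, ?_, ?_⟩
  · have e1 : χ x * (l x * (l x - 1)) + (1 - χ x) = 0 := by
      have := congrArg lam hx
      simp only [hφ, map_add, map_smul, lw, smul_eq_mul, map_zero] at this
      change χ x * (l x + l x * (l x - 2) * 1) + (1 - χ x) * 1 = 0 at this
      linarith
    have c0 : 0 < χ x := by
      refine lt_of_le_of_ne (h01 x).1 fun h => ?_
      rw [← h] at e1; norm_num at e1
    have e2 : χ x • (x - a - l x • w) = 0 := by
      have : χ x • (x - a - l x • w) = (χ x • φ x + (1 - χ x) • w) -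
          (χ x * (l x * (l x - 1)) + (1 - χ x)) • w := by simp only [hφ]; module
      have hx' : χ x • φ x + (1 - χ x) • w = 0 := hx
      rw [this, hx', e1]; simp
    have e3 : x = a + l x • w := by
      have := (smul_eq_zero.1 e2).resolve_left c0.ne'
      linear_combination (norm := module) this
    have e4 : l x * (l x - 1) ≤ 0 := by
      by_contra h
      nlinarith [mul_pos c0 (not_le.1 h), (h01 x).2]
    have e5 : 0 ≤ l x ∧ l x ≤ 1 := by constructor <;> nlinarith
    have e6 : x ∈ closedBall x₀ η := by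
      rw [e3]
      exact (convex_closedBall x₀ η).add_smul_sub_mem ha' (ball_subset_closedBall hb) e5
    rw [(one x e6).self_of_nhds] at e1
    rcases mul_eq_zero.1 (show l x * (l x - 1) = 0 by linarith) with h | h
    · left; rw [e3, h]; simp
    · right; rw [e3, sub_eq_zero.1 h]; simp [hw]
  · simp [(one a ha').self_of_nhds, hφ, hl]
  · have e : (fun x => χ x • φ x + (1 - χ x) • w) =ᶠ[𝓝 a] φ := by
      filter_upwards [one a ha'] with z hz
      simp [hz]
    have hld : HasFDerivAt l lam a := by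
      have := lam.hasFDerivAt.comp a ((hasFDerivAt_id a).sub_const a)
      rw [ContinuousLinearMap.comp_id] at this
      exact this
    have hd := (((hasFDerivAt_id a).sub_const a).add
      ((hld.mul (hld.sub_const 2)).smul_const w)).fderiv
    rw [e.fderiv_eq]
    intro h0
    obtain ⟨v, hv, hv0⟩ := (Submodule.ne_bot_iff _).1 (LinearMap.bot_lt_ker_of_det_eq_zero h0).ne'
    have hv' : fderiv ℝ φ a v = 0 := hv
    have hd' : fderiv ℝ φ a = _ := hd
    rw [hd'] at hv'
    have la : l a = 0 := by simp [hl]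
    simp [la] at hv'
    have h2 := congrArg lam hv'
    simp only [map_add, map_smul, map_neg, lw, smul_eq_mul, map_zero] at h2
    have h3 : lam v = 0 := by linarith
    rw [h3] at hv'
    exact hv0 (by simpa using hv')

theorem target {S : Set (E n)} (hS : IsCompact S) (hf : ContinuousOn f S) (hi : InjOn f S)
    {Φ : E n → E n} (hΦ : Continuous Φ) {w y₀ : E n} {R ε : ℝ} (hR : 0 < R) (hε : 0 < ε)
    (h : ∀ s ∈ S, f s ∉ ball y₀ R → Φ s = w) :
    ∃ Ψ : E n → E n, ContDiff ℝ 1 Ψ ∧ (∀ y, y ∉ ball y₀ (3 / 2 * R) → Ψ y = w) ∧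
      ∀ s ∈ S, ‖Ψ (f s) - Φ s‖ < ε := by
  have : CompactSpace S := isCompact_iff_compactSpace.1 hS
  have : TietzeExtension.{0, 0} (E n) := TietzeExtension.of_tvs ℝ
  have he : IsClosedEmbedding fun s : S => f s :=
    (continuousOn_iff_continuous_domRestrict.1 hf).isClosedEmbedding
      fun s t hst => Subtype.ext (hi s.2 t.2 hst)
  obtain ⟨ψ, hψ⟩ := ContinuousMap.exists_extension' he
    (⟨fun s : S => Φ s - w, by fun_prop⟩ : C(S, E n))
  obtain ⟨χ, hχ, h1, -⟩ := Lib.Sob.exists_cutoff (isCompact_closedBall y₀ R) isOpen_ball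
    (closedBall_subset_ball (by linarith : R < 3 / 2 * R))
  obtain ⟨g, g1, g2, g3⟩ := (hχ.continuous.smul ψ.continuous).exists_contDiff_approx 1
    (ε := fun _ => ε) continuous_const fun _ => hε
  refine ⟨fun y => w + g y, contDiff_const.add g1, fun y hy => ?_, fun s hs => ?_⟩
  · have : g y = 0 := by
      by_contra h'
      exact g3 h' (by simp [hχ.zero_of_notMem hy])
    simp [this]
  · have h2 := g2 (f s)
    have h3 : ψ (f s) = Φ s - w := congrFun hψ ⟨s, hs⟩
    have h4 : χ (f s) • ψ (f s) = Φ s - w := by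
      by_cases hb : f s ∈ ball y₀ R
      · rw [(h1.filter_mono (nhds_le_nhdsSet (ball_subset_closedBall hb))).self_of_nhds, one_smul,
          h3]
      · rw [h3, h s hs hb]; simp
    rw [dist_eq_norm] at h2
    change ‖g (f s) - χ (f s) • ψ (f s)‖ < ε at h2
    rw [h4] at h2
    have e : w + g (f s) - Φ s = g (f s) - (Φ s - w) := by abel
    change ‖w + g (f s) - Φ s‖ < ε
    rwa [e]

end Pool.Agent.P.MP_fecf7d_an.Sgn
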