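import Pool.Agent.P.MP_fecf7d_an.SignD

/-!
The dipole argument.
-/

open MeasureTheory Set Metric Filter Topology Module
open scoped ContDiff RealInnerProductSpace ENNReal Pointwise NNReal

namespace Pool.Agent.P.MP_fecf7d_an.Sgn

variable {n : ℕ} {G : Set (E n)} {f : E n → E n} {J : E n → ℝ}

theorem isOpen_level {B : Set (E n)} {p : E n → ℝ} (hB : IsOpen B)
    (hp : ∀ y ∈ B, ∀ᶠ y' in 𝓝 y, p y' = p y) (A : Set ℝ) : IsOpen (B ∩ p ⁻¹' A) := by
  rw [isOpen_iff_mem_nhds]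
  intro y hy
  filter_upwards [hB.mem_nhds hy.1, hp y hy.1] with y' h1 h2
  exact ⟨h1, by rw [mem_preimage, h2]; exact hy.2⟩

/-- The final step: a map with a positive degree on all of the complement cannot exist. -/
theorem no_dipole (h : Good G f J) (hf : ContinuousOn f G) {C V M B T : Set (E n)}
    (hC : IsCompact C) (hCG : C ⊆ G) (hV : IsOpen V) (hVC : V ⊆ C) (hM : IsOpen M)
    (hVM : Disjoint V M) (hB : IsOpen B) (hVB : MapsTo f V B) {p : E n → ℝ}
    (p1 : ∀ y ∈ B, ∀ᶠ y' in 𝓝 y, p y' = p y)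
    (p2 : ∀ g : E n → ℝ, Continuous g → HasCompactSupport g → tsupport g ⊆ B →
      ∫ x in V, g (f x) * J x = ∫ y, g y * p y) (p3 : ∀ y ∈ B, 0 < p y)
    {Φ Ψ : E n → E n} (hΦ : ContDiff ℝ 1 Φ) (hΨ : ContDiff ℝ 1 Ψ) {a w : E n} (ha : a ∈ V)
    (hΦa : Φ a = 0) (hda : (fderiv ℝ Φ a).det ≠ 0) (hz : ∀ x ∈ V, Φ x = 0 → x = a)
    (hz' : ∀ x ∈ C, Φ x = 0 → x ∈ V ∪ M) {m : ℝ} (hm : 0 < m) (hw : m < ‖w‖) (hT : IsCompact T)
    (hΨw : ∀ y ∉ T, Ψ y = w) (hΨB : ∀ y, ‖Ψ y‖ ≤ m → y ∈ B)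
    (hH : ∀ x ∈ C, ∀ t ∈ Icc (0 : ℝ) 1, ‖Ψ (f x) + t • (Φ x - Ψ (f x))‖ ≤ m → x ∈ V ∪ M) :
    False := by
  obtain ⟨σ, hσ, hinv⟩ := h.inv
  have hVG := hVC.trans hCG
  have cd := continuous_det_fderiv hΦ
  set s := (fderiv ℝ Φ a).det with hs
  set c₀ := p (f a) with hc₀
  set N := (V ∩ f ⁻¹' (B ∩ p ⁻¹' {c₀})) ∩ {x | 0 < (fderiv ℝ Φ x).det * s} with hN
  have hlev : ∀ A : Set ℝ, IsOpen (V ∩ f ⁻¹' (B ∩ p ⁻¹' A)) := fun A =>
    (hf.mono hVG).isOpen_inter_preimage hV (isOpen_level hB p1 A)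
  have hNo : IsOpen N := (hlev _).inter (isOpen_lt continuous_const (cd.mul continuous_const))
  have haN : a ∈ N := ⟨⟨ha, hVB ha, rfl⟩, mul_self_pos.2 hda⟩
  obtain ⟨m', m'0, hm'⟩ : ∃ m' > 0, ∀ x ∈ C \ (N ∪ M), m' ≤ ‖Φ x‖ := by
    refine (hC.diff (hNo.union hM)).exists_forall_le' hΦ.continuous.norm.continuousOn
      fun x hx => norm_pos_iff.2 fun h0 => hx.2 ?_
    rcases hz' x hx.1 h0 with h1 | h1
    · exact Or.inl (hz x h1 h0 ▸ haN)
    · exact Or.inr h1
  set r' := min m m' with hr'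
  have r'0 : 0 < r' := lt_min hm m'0
  have r'm : r' ≤ m := min_le_left _ _
  have r'm' : r' ≤ m' := min_le_right _ _
  obtain ⟨ρ, hρ⟩ := exists_wt (n := n) (half_pos r'0)
  have hrr : r' / 2 < r' := half_lt_self r'0
  set κ : E n → ℝ := fun y => ρ (Ψ y) * (fderiv ℝ Ψ y).det with hκ
  have κc : Continuous κ := (hρ.cont.comp hΨ.continuous).mul (continuous_det_fderiv hΨ)
  set T' := {y | ‖Ψ y‖ ≤ m} with hT'
  have hT'c : IsCompact T' := hT.of_isClosed_subset
    (isClosed_le hΨ.continuous.norm continuous_const) fun y hy => by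
      by_contra h'
      have : ‖Ψ y‖ ≤ m := hy
      rw [hΨw y h'] at this
      linarith
  have κ0 : ∀ y, r' / 2 ≤ ‖Ψ y‖ → κ y = 0 := fun y hy => by
    simp only [hκ]; rw [hρ.supp _ hy, zero_mul]
  have κT : ∀ y ∉ T', κ y = 0 := fun y hy => κ0 y (by
    have : m < ‖Ψ y‖ := not_le.1 hy
    linarith)
  have iκ : ∫ y, κ y = 0 := by
    have e := inv_smooth hρ hΨ (contDiff_const (c := w)) hT isOpen_univ (subset_univ _)
      fun y _ hy t _ => by rw [hΨw y hy]; simp; linarith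
    rw [hρ.supp w (by linarith)] at e
    rw [← setIntegral_eq_integral_of_forall_compl_eq_zero (s := T) fun y hy =>
      κ0 y (by rw [hΨw y hy]; linarith)]
    simpa using e
  set H := {x | x ∈ C ∧ ∃ t ∈ Icc (0 : ℝ) 1, ‖Ψ (f x) + t • (Φ x - Ψ (f x))‖ ≤ r'} with hHdef
  have hHc : IsCompact H := by
    have c1 : ContinuousOn (fun q : E n × ℝ => Ψ (f q.1)) (C ×ˢ Icc (0 : ℝ) 1) :=
      hΨ.continuous.comp_continuousOn ((hf.mono hCG).comp continuousOn_fst fun q hq => hq.1)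
    have c2 : ContinuousOn (fun q : E n × ℝ => ‖Ψ (f q.1) + q.2 • (Φ q.1 - Ψ (f q.1))‖)
        (C ×ˢ Icc (0 : ℝ) 1) :=
      (c1.add (continuousOn_snd.smul ((hΦ.continuous.comp continuous_fst).continuousOn.sub c1))).norm
    have hK := hC.prod (isCompact_Icc (a := (0 : ℝ)) (b := 1))
    have := (hK.of_isClosed_subset (c2.preimage_isClosed_of_isClosed hK.isClosed
      (isClosed_Iic (a := r'))) inter_subset_left).image continuous_fst
    convert this using 1
    ext x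
    constructor
    · rintro ⟨h1, t, ht, h2⟩
      exact ⟨(x, t), ⟨⟨h1, ht⟩, h2⟩, rfl⟩
    · rintro ⟨⟨x, t⟩, ⟨⟨h1, ht⟩, h2⟩, rfl⟩
      exact ⟨h1, t, ht, h2⟩
  set κc' : ℝ → E n → ℝ := fun c => (B ∩ p ⁻¹' {c}).indicator κ with hκc'
  have sup : ∀ c, tsupport (κc' c) ⊆ T' \ (B ∩ p ⁻¹' {c}ᶜ) := fun c =>
    closure_minimal (fun y hy => by
      have h1 : y ∈ B ∩ p ⁻¹' {c} := mem_of_indicator_ne_zero hy
      refine ⟨?_, fun h2 => h2.2 h1.2⟩
      by_contra h2
      exact hy (by simp only [hκc']; rw [indicator_of_mem h1, κT y h2]))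
      (hT'c.diff (isOpen_level hB p1 _)).isClosed
  have cont : ∀ c, Continuous (κc' c) := by
    intro c
    refine continuous_iff_continuousAt.2 fun y => ?_
    by_cases hy : y ∈ B ∩ p ⁻¹' {c}
    · refine κc.continuousAt.congr ?_
      filter_upwards [(isOpen_level hB p1 {c}).mem_nhds hy] with y' hy'
      exact (indicator_of_mem hy' _).symm
    · have : y ∉ tsupport (κc' c) := fun h1 => by
        have h2 := sup c h1
        refine hy ⟨hΨB y h2.1, ?_⟩
        by_contra h3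
        exact h2.2 ⟨hΨB y h2.1, h3⟩
      exact continuousAt_const.congr (notMem_tsupport_iff_eventuallyEq.1 this).symm
  have csup : ∀ c, HasCompactSupport (κc' c) := fun c =>
    hT'c.of_isClosed_subset (isClosed_tsupport _) ((sup c).trans sdiff_subset)
  set Kc : ℝ → Set (E n) := fun c => H \ (M ∪ V ∩ f ⁻¹' (B ∩ p ⁻¹' {c}ᶜ)) with hKc
  have Kcc : ∀ c, IsCompact (Kc c) := fun c => hHc.diff (hM.union (hlev _))
  have KcV : ∀ c, Kc c ⊆ V ∩ f ⁻¹' (B ∩ p ⁻¹' {c}) := by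
    rintro c x ⟨⟨h1, t, ht, h2⟩, h3⟩
    have h4 : x ∈ V := (hH x h1 t ht (h2.trans r'm)).resolve_right fun h => h3 (Or.inl h)
    refine ⟨h4, hVB h4, ?_⟩
    by_contra h5
    exact h3 (Or.inr ⟨h4, hVB h4, h5⟩)
  have memK : ∀ c, ∀ x ∈ V ∩ f ⁻¹' (B ∩ p ⁻¹' {c}), ∀ t ∈ Icc (0 : ℝ) 1,
      ‖Ψ (f x) + t • (Φ x - Ψ (f x))‖ ≤ r' → x ∈ Kc c := fun c x hx t ht h1 =>
    ⟨⟨hVC hx.1, t, ht, h1⟩, fun h2 => h2.elim (Set.disjoint_left.1 hVM hx.1)
      fun h3 => h3.2.2 hx.2.2⟩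
  have main : ∀ c, c * ∫ y, κc' c y = σ * ∫ x in Kc c, ρ (Φ x) * (fderiv ℝ Φ x).det := by
    intro c
    rw [← hinv _ r' ρ hρ hrr Ψ Φ hΨ hΦ _ (inter_subset_left.trans hVG) (hlev {c}) _ (KcV c) (Kcc c)
      fun x hx hx' t ht => (not_le.1 fun h1 => hx' (memK c x hx t ht h1)).le]
    have e1 : c * ∫ y, κc' c y = ∫ y, κc' c y * p y := by
      rw [← integral_const_mul]
      refine integral_congr_ae (Eventually.of_forall fun y => ?_)
      by_cases hy : y ∈ B ∩ p ⁻¹' {c}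
      · have : p y = c := hy.2
        simp only [this, mul_comm]
      · simp only [hκc', indicator_of_notMem hy, mul_zero, zero_mul]
    rw [e1, ← p2 _ (cont c) (csup c) fun y hy => hΨB y (sup c hy).1,
      setIntegral_eq_of_subset_of_forall_sdiff_eq_zero hV.measurableSet
        ((KcV c).trans inter_subset_left)]
    · refine setIntegral_congr_fun (Kcc c).measurableSet fun x hx => ?_
      have h1 : f x ∈ B ∩ p ⁻¹' {c} := (KcV c hx).2
      simp only [hκc']
      rw [indicator_of_mem h1]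
    · intro x hx
      by_cases h1 : f x ∈ B ∩ p ⁻¹' {c}
      · simp only [hκc']
        rw [indicator_of_mem h1, κ0, zero_mul]
        by_contra h2
        exact hx.2 (memK c x ⟨hx.1, h1⟩ 0 ⟨le_rfl, zero_le_one⟩ (by
          rw [zero_smul, add_zero]; linarith [not_le.1 h2]))
      · simp only [hκc', indicator_of_notMem h1, zero_mul]
  have inN : ∀ x ∈ V, ρ (Φ x) ≠ 0 → x ∈ N := by
    intro x hx h1
    by_contra h2
    refine h1 (hρ.supp _ ?_)
    have := hm' x ⟨hVC hx, fun h3 => h3.elim h2 (Set.disjoint_left.1 hVM hx)⟩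
    linarith
  have z1 : ∀ c ≠ c₀, ∫ y, κc' c y = 0 := by
    intro c hc
    by_cases hc0 : c = 0
    · have : B ∩ p ⁻¹' {c} = ∅ := eq_empty_of_forall_notMem fun y hy =>
        (p3 y hy.1).ne' (hc0 ▸ hy.2)
      simp [hκc', this]
    have := main c
    rw [setIntegral_eq_zero_of_forall_eq_zero, mul_zero] at this
    · exact (mul_eq_zero.1 this).resolve_left hc0
    · intro x hx
      have h1 := KcV c hx
      by_contra h2
      have h3 := inN x h1.1 (left_ne_zero_of_mul h2)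
      exact hc ((show p (f x) = c from h1.2.2).symm.trans h3.1.2.2)
  have z2 : ∫ y, κc' c₀ y ≠ 0 := by
    intro h0
    have h1 := main c₀
    rw [h0, mul_zero] at h1
    have h2 := (mul_eq_zero.1 h1.symm).resolve_left hσ
    have cF : Continuous fun x => ρ (Φ x) * (fderiv ℝ Φ x).det * s :=
      ((hρ.cont.comp hΦ.continuous).mul cd).mul continuous_const
    have h3 : 0 < ∫ x in Kc c₀, ρ (Φ x) * (fderiv ℝ Φ x).det * s := by
      refine (setIntegral_pos_iff_support_of_nonneg_ae ?_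
        (cF.continuousOn.integrableOn_compact (Kcc c₀))).2 ?_
      · refine ae_restrict_of_forall_mem (Kcc c₀).measurableSet fun x hx => ?_
        by_cases h4 : ρ (Φ x) = 0
        · simp [h4]
        · have := (inN x (KcV c₀ hx).1 h4).2
          simp only [mul_assoc, Pi.zero_apply]
          exact mul_nonneg (hρ.nonneg _) (le_of_lt this)
      · have ho : IsOpen (N ∩ {x | ρ (Φ x) ≠ 0}) :=
          hNo.inter (isOpen_ne_fun (hρ.cont.comp hΦ.continuous) continuous_const)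
        refine lt_of_lt_of_le (ho.measure_pos volume ⟨a, haN, ?_⟩) (measure_mono fun x hx => ⟨?_, ?_⟩)
        · simpa [hΦa] using hρ.pos.ne'
        · rw [Function.mem_support, mul_assoc]
          exact mul_ne_zero hx.2 (ne_of_gt hx.1.2)
        · refine memK c₀ x hx.1.1 1 ⟨zero_le_one, le_rfl⟩ ?_
          rw [one_smul, add_sub_cancel]
          by_contra h5
          exact hx.2 (hρ.supp _ (by linarith [not_le.1 h5]))
    rw [integral_mul_const, h2, zero_mul] at h3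
    exact lt_irrefl _ h3
  have hfin : (p '' T').Finite := by
    refine hT'c.induction_on (p := fun S => (p '' S).Finite) (by simp)
      (fun s t hst ht => ht.subset (image_mono hst))
      (fun s t hs ht => by rw [image_union]; exact hs.union ht) fun y hy => ?_
    refine ⟨{y' | p y' = p y}, mem_nhdsWithin_of_mem_nhds (p1 y (hΨB y hy)),
      (finite_singleton (p y)).subset ?_⟩
    rintro _ ⟨y', hy', rfl⟩
    exact hy'
  classical
  have hsum : ∀ y, κ y = ∑ c ∈ insert c₀ hfin.toFinset, κc' c y := by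
    intro y
    by_cases hy : y ∈ T'
    · rw [Finset.sum_eq_single (p y)]
      · exact (indicator_of_mem (show y ∈ B ∩ p ⁻¹' {p y} from ⟨hΨB y hy, rfl⟩) _).symm
      · exact fun c _ hc => indicator_of_notMem (fun h1 => hc (Eq.symm h1.2)) _
      · exact fun h1 => (h1 (Finset.mem_insert_of_mem
          (hfin.mem_toFinset.2 (mem_image_of_mem p hy)))).elim
    · rw [κT y hy]
      exact (Finset.sum_eq_zero fun c _ => image_eq_zero_of_notMem_tsupport
        fun h1 => hy (sup c h1).1).symm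
  rw [funext hsum, integral_finsetSum _ fun c _ => (cont c).integrable_of_hasCompactSupport (csup c),
    Finset.sum_eq_single c₀ (fun c _ hc => z1 c hc)
      fun h1 => (h1 (Finset.mem_insert_self _ _)).elim] at iκ
  exact z2 iκ

end Pool.Agent.P.MP_fecf7d_an.Sgn
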