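import Pool.Agent.P.MP_fecf7d_an.SobAPI1
import Pool.Agent.Lib.Sob.Loewner

/-! Sobolev toolkit: the Loewner estimate (the rest is in `SobAPI1`). -/

open MeasureTheory Set Metric Filter Topology
open scoped ContDiff RealInnerProductSpace ENNReal

namespace Pool.Agent.P.MP_fecf7d_an
open Pool.Agent.Lib

variable {n : ℕ}

/-- Loewner estimate -/
theorem loewner (hn : 2 ≤ n) : ∃ C : ℝ, 0 < C ∧ ∀ (U : Set (E n)) (w : E n → ℝ)
    (D : E n → E n →L[ℝ] ℝ) (z : E n) (d l a b : ℝ), IsOpen U → IsW1n U w D →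
    ContinuousOn w U → closedBall z (2 * d) ⊆ U → 0 < l → a ≤ b →
    Meets {x | b ≤ w x} z d l → Meets {x | w x ≤ a} z d l →
    ENNReal.ofReal ((b - a) ^ n * l) ≤ ENNReal.ofReal (C * d) * En (closedBall z (2 * d)) D := by
  have h0 : 0 < Sob.cmpConst (E n) n := Sob.cmpConst_pos
  refine ⟨2 ^ n * (8 * (2 * n + 2) ^ n * Sob.cmpConst (E n) n), by positivity, ?_⟩
  rintro U w D z d l a b hU h hc hB hl hab ⟨s₀, h1, h2, h3⟩ ⟨s₁, h4, h5, h6⟩
  exact (isW1n_iff.1 h).loewner (by omega) finrank_euclideanSpace_fin hU hc hB hl hab h1 h2 h4 h5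
    h3 h6

end Pool.Agent.P.MP_fecf7d_an
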