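import Pool.Agent.P.MP_fecf7d_an.SobAPI

/-!
Abstract solutions: testing with Sobolev functions, maximum principle, truncated energy.
-/

open MeasureTheory Set Metric Filter Topology
open scoped ContDiff RealInnerProductSpace ENNReal

set_option maxHeartbeats 400000
set_option maxSynthPendingDepth 3

namespace Pool.Agent.P.MP_fecf7d_an

variable {n : ℕ}

theorem young (hn : 1 ≤ n) {β d x y : ℝ} (hβ : 0 < β) (hd : 0 < d) (hx : 0 ≤ x) (hy : 0 ≤ y) :
    β * x ^ (n - 1) * y ≤ d * x ^ n + β * (β / d) ^ (n - 1) * y ^ n := by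
  obtain ⟨m, rfl⟩ : ∃ m, n = m + 1 := ⟨n - 1, by omega⟩
  simp only [Nat.add_sub_cancel]
  have h1 : 0 ≤ d * x ^ (m + 1) := by positivity
  have h2 : 0 ≤ β * (β / d) ^ m * y ^ (m + 1) := by positivity
  rcases le_total (β * y) (d * x) with h | h
  · have : β * x ^ m * y ≤ d * x ^ (m + 1) := by
      have h3 : x ^ m * (β * y) ≤ x ^ m * (d * x) := by gcongr
      calc β * x ^ m * y = x ^ m * (β * y) := by ring
        _ ≤ x ^ m * (d * x) := h3
        _ = d * x ^ (m + 1) := by ring
    linarith
  · have hx' : x ≤ β / d * y := by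
      rw [div_mul_eq_mul_div, le_div_iff₀ hd]; linarith
    have : β * x ^ m * y ≤ β * (β / d) ^ m * y ^ (m + 1) := by
      have h3 : x ^ m ≤ (β / d * y) ^ m := by gcongr
      calc β * x ^ m * y ≤ β * (β / d * y) ^ m * y := by gcongr
        _ = β * (β / d) ^ m * y ^ (m + 1) := by rw [mul_pow]; ring
    linarith

theorem integral_norm_pow_eq {X : Type*} [NormedAddCommGroup X] {μ : Measure (E n)}
    {g : E n → X} (hg : AEStronglyMeasurable g μ) (k : ℕ) :
    ∫ x, ‖g x‖ ^ k ∂μ = (∫⁻ x, ‖g x‖ₑ ^ k ∂μ).toReal := by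
  have hm : AEStronglyMeasurable (fun x => ‖g x‖ ^ k) μ := hg.norm.pow k
  rw [integral_eq_lintegral_of_nonneg_ae (Eventually.of_forall fun x => by positivity) hm]
  congr 1
  refine lintegral_congr fun x => ?_
  rw [ENNReal.ofReal_pow (norm_nonneg _), ofReal_norm]

theorem lintegral_eq_ofReal {X : Type*} [NormedAddCommGroup X] {μ : Measure (E n)}
    {g : E n → X} {k : ℕ} (hg : Integrable (fun x => ‖g x‖ ^ k) μ) :
    ∫⁻ x, ‖g x‖ₑ ^ k ∂μ = ENNReal.ofReal (∫ x, ‖g x‖ ^ k ∂μ) := by
  rw [ofReal_integral_eq_lintegral_ofReal hg (Eventually.of_forall fun x => by positivity)]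
  refine lintegral_congr fun x => ?_
  rw [ENNReal.ofReal_pow (norm_nonneg _), ofReal_norm]

theorem T_of_le {a b s : ℝ} (hab : a ≤ b) (h : s ≤ a) : T a b s = a := by
  unfold T; rw [max_eq_right h, min_eq_left hab]

theorem T_of_ge {a b s : ℝ} (h : b ≤ s) : T a b s = b := by
  unfold T; exact min_eq_right (h.trans (le_max_left _ _))

theorem T_of_mem {a b s : ℝ} (h1 : a ≤ s) (h2 : s ≤ b) : T a b s = s := by
  unfold T; rw [max_eq_left h1, min_eq_left h2]

theorem T_mem {a b : ℝ} (hab : a ≤ b) (s : ℝ) : T a b s ∈ Icc a b :=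
  ⟨le_min (le_max_right _ _) hab, min_le_right _ _⟩

theorem continuous_T (a b : ℝ) : Continuous (T a b) := by
  unfold T; fun_prop

section
variable {α β : ℝ} {O K U : Set (E n)} {v φ : E n → ℝ} {D h : E n → E n →L[ℝ] ℝ}
  {a : E n → E n}

theorem Sol.mono (S : Sol α β O v D a) (hU : U ⊆ O) : Sol α β U v D a :=
  ⟨S.cont.mono hU, S.wd.mono hU, fun K hK hc => S.meas K (hK.trans hU) hc, S.lower, S.upper,
    fun φ hφ => S.eq φ ⟨hφ.1, hφ.2.1, hφ.2.2.trans hU⟩⟩

theorem Sol.neg (S : Sol α β O v D a) :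
    Sol α β O (fun x => -v x) (fun x => -D x) (fun x => -a x) := by
  refine ⟨S.cont.neg, ?_, fun K hK hc => (S.meas K hK hc).neg, ?_, ?_, fun φ hφ => ?_⟩
  · have := S.wd.const_mul (-1)
    simp only [neg_mul, one_mul, neg_smul, one_smul] at this
    exact this
  · filter_upwards [S.lower] with x hx
    simpa using hx
  · filter_upwards [S.upper] with x hx
    simpa using hx
  · simp only [map_neg, integral_neg, S.eq φ hφ, neg_zero]

theorem Sol.int_pow (hn : 2 ≤ n) (S : Sol α β O v D a) (hKO : K ⊆ O) (hK : IsCompact K) :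
    IntegrableOn (fun x => ‖D x‖ ^ n) K :=
  (S.wd.1 K hKO hK).2.integrable_norm_pow (by omega)

theorem Sol.pair_le (hn : 2 ≤ n) (hβ : 0 < β) (S : Sol α β O v D a) {d : ℝ} (hd : 0 < d) :
    ∀ᵐ x : E n, ∀ L : E n →L[ℝ] ℝ,
      |L (a x)| ≤ d * ‖D x‖ ^ n + β * (β / d) ^ (n - 1) * ‖L‖ ^ n := by
  filter_upwards [S.upper] with x hx L
  have h1 : |L (a x)| ≤ ‖L‖ * ‖a x‖ := L.le_opNorm (a x)
  have h2 : ‖L‖ * ‖a x‖ ≤ β * ‖D x‖ ^ (n - 1) * ‖L‖ := by
    rw [mul_comm]; gcongr
  exact h1.trans (h2.trans (young (by omega) hβ hd (norm_nonneg _) (norm_nonneg _)))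

theorem Sol.integrableOn (hn : 2 ≤ n) (hβ : 0 < β) (S : Sol α β O v D a) (hKO : K ⊆ O)
    (hK : IsCompact K) (hh : MemLp h n (volume.restrict K)) :
    IntegrableOn (fun x => h x (a x)) K := by
  have hm : AEStronglyMeasurable (fun x => h x (a x)) (volume.restrict K) :=
    (isBoundedBilinearMap_apply (𝕜 := ℝ) (E := E n) (F := ℝ)).continuous.comp_aestronglyMeasurable
      (hh.1.prodMk (S.meas K hKO hK))
  have hi : Integrable (fun x => 1 * ‖D x‖ ^ n + β * (β / 1) ^ (n - 1) * ‖h x‖ ^ n)
      (volume.restrict K) :=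
    ((S.int_pow hn hKO hK).const_mul 1).add
      ((hh.integrable_norm_pow (by omega)).const_mul _)
  refine hi.mono' hm ?_
  filter_upwards [ae_restrict_of_ae (S.pair_le hn hβ one_pos)] with x hx
  exact hx (h x)

theorem Sol.abs_int_le (hn : 2 ≤ n) (hβ : 0 < β) (S : Sol α β O v D a) (hKO : K ⊆ O)
    (hK : IsCompact K) (hh : MemLp h n (volume.restrict K)) {d : ℝ} (hd : 0 < d) :
    |∫ x in K, h x (a x)| ≤ d * (∫ x in K, ‖D x‖ ^ n) +
      β * (β / d) ^ (n - 1) * ∫ x in K, ‖h x‖ ^ n := by
  have i1 : Integrable (fun x => d * ‖D x‖ ^ n) (volume.restrict K) :=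
    (S.int_pow hn hKO hK).const_mul d
  have i2 : Integrable (fun x => β * (β / d) ^ (n - 1) * ‖h x‖ ^ n) (volume.restrict K) :=
    (hh.integrable_norm_pow (by omega)).const_mul _
  have i3 : Integrable (fun x => |h x (a x)|) (volume.restrict K) :=
    (S.integrableOn hn hβ hKO hK hh).abs
  calc |∫ x in K, h x (a x)| ≤ ∫ x in K, |h x (a x)| := abs_integral_le_integral_abs
    _ ≤ ∫ x in K, (d * ‖D x‖ ^ n + β * (β / d) ^ (n - 1) * ‖h x‖ ^ n) := by
        refine integral_mono_ae i3 (i1.add i2) ?_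
        filter_upwards [ae_restrict_of_ae (S.pair_le hn hβ hd)] with x hx
        exact hx _
    _ = _ := by rw [integral_add i1 i2, integral_const_mul, integral_const_mul]

theorem memLp_fderiv (hK : IsCompact K) (hφ : ContDiff ℝ 1 φ) :
    MemLp (fderiv ℝ φ) n (volume.restrict K) := by
  have hc : Continuous (fderiv ℝ φ) := hφ.continuous_fderiv (by simp)
  have : IsFiniteMeasure (volume.restrict K) := isFiniteMeasure_restrict.2 hK.measure_lt_top.ne
  obtain ⟨C, hC⟩ := hK.exists_bound_of_continuousOn hc.continuousOn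
  refine MemLp.of_bound hc.aestronglyMeasurable C ?_
  filter_upwards [ae_restrict_mem hK.measurableSet] with x hx using hC x hx

theorem Sol.test (hn : 2 ≤ n) (hβ : 0 < β) (hO : IsOpen O) (S : Sol α β O v D a)
    (hK : IsCompact K) (hKO : K ⊆ O) (hφ : IsW1n O φ h) (h0 : ∀ x ∈ O, x ∉ K → φ x = 0) :
    ∫ x in K, h x (a x) = 0 := by
  obtain ⟨K', hK', hKK', hK'O, φk, hφk, hlim⟩ := hφ.approx_test hn hO hK hKO h0
  have hmK : MemLp (K.indicator h) n (volume.restrict K') :=
    (hφ.1 K' hK'O hK').2.indicator hK.measurableSet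
  have hI : ∫ x in K, h x (a x) = ∫ x in K', K.indicator h x (a x) := by
    have : (fun x => K.indicator h x (a x)) = K.indicator (fun x => h x (a x)) := by
      funext x
      by_cases hx : x ∈ K <;> simp [hx]
    rw [this, setIntegral_indicator hK.measurableSet, inter_eq_right.2 hKK']
  set M := ∫ x in K', ‖D x‖ ^ n with hM
  have hM0 : 0 ≤ M := integral_nonneg fun x => by positivity
  have key : ∀ d : ℝ, 0 < d → |∫ x in K, h x (a x)| ≤ d * M := by
    intro d hd
    set C := β * (β / d) ^ (n - 1) with hC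
    have hb : ∀ k, |∫ x in K, h x (a x)| ≤ d * M +
        C * (∫⁻ x in K', ‖fderiv ℝ (φk k) x - K.indicator h x‖ₑ ^ n).toReal := by
      intro k
      have hm1 : MemLp (fderiv ℝ (φk k)) n (volume.restrict K') :=
        memLp_fderiv hK' ((hφk k).1.of_le (by simp))
      have hm2 : MemLp (fun x => fderiv ℝ (φk k) x - K.indicator h x) n (volume.restrict K') :=
        hm1.sub hmK
      have hz : ∫ x in K', fderiv ℝ (φk k) x (a x) = 0 := by
        rw [setIntegral_eq_integral_of_forall_compl_eq_zero]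
        · exact S.eq _ ⟨(hφk k).1, (hφk k).2.1, (hφk k).2.2.trans hK'O⟩
        · intro x hx
          have : fderiv ℝ (φk k) x = 0 := by
            by_contra hne
            exact hx ((hφk k).2.2 (support_fderiv_subset ℝ hne))
          simp [this]
      have hsub : ∫ x in K', (fderiv ℝ (φk k) x - K.indicator h x) (a x) =
          -∫ x in K, h x (a x) := by
        simp only [sub_apply]
        rw [integral_sub (S.integrableOn hn hβ hK'O hK' hm1) (S.integrableOn hn hβ hK'O hK' hmK),
          hz, hI, zero_sub]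
      have := S.abs_int_le hn hβ hK'O hK' hm2 hd
      rw [hsub, abs_neg, integral_norm_pow_eq hm2.1] at this
      exact this
    have ht : Tendsto (fun k => d * M +
        C * (∫⁻ x in K', ‖fderiv ℝ (φk k) x - K.indicator h x‖ₑ ^ n).toReal) atTop
        (𝓝 (d * M + C * (0 : ℝ≥0∞).toReal)) :=
      tendsto_const_nhds.add (tendsto_const_nhds.mul
        ((ENNReal.tendsto_toReal ENNReal.zero_ne_top).comp hlim))
    have := ge_of_tendsto' ht hb
    simpa using this
  have : |∫ x in K, h x (a x)| ≤ 0 := by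
    refine le_of_forall_pos_le_add fun ε hε => ?_
    have h1 := key (ε / (M + 1)) (by positivity)
    have h2 : ε / (M + 1) * M ≤ ε := by
      rw [div_mul_eq_mul_div, div_le_iff₀ (by positivity)]; nlinarith
    linarith
  exact abs_nonpos_iff.1 this

theorem isW1n_const (hn : 2 ≤ n) (U : Set (E n)) (c : ℝ) :
    IsW1n U (fun _ => c) (fun _ => (0 : E n →L[ℝ] ℝ)) := by
  have := isW1n_of_contDiff (U := U) hn (u := fun _ => c) contDiff_const
  rw [fderiv_fun_const] at this
  exact this

theorem IsW1n.trunc (hn : 2 ≤ n) (hO : IsOpen O) (S : IsW1n O v D) {s t : ℝ} (hst : s < t)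
    (c : ℝ) : IsW1n O (fun x => T s t (v x) - c) ({x | s < v x ∧ v x < t}.indicator D) := by
  have := S.chain hn hO hst (H := fun y => y - c) (H' := fun _ => 1)
    (fun y _ => (hasDerivAt_id y).sub_const c) continuousOn_const
  simpa using this

theorem measurableSet_level (hO : IsOpen O) (hv : ContinuousOn v O) (hK : MeasurableSet K)
    (hKO : K ⊆ O) (s t : ℝ) : MeasurableSet (K ∩ {x | s < v x ∧ v x < t}) := by
  have h1 : IsOpen (O ∩ v ⁻¹' Ioo s t) := hv.isOpen_inter_preimage hO isOpen_Ioo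
  have : K ∩ {x | s < v x ∧ v x < t} = K ∩ (O ∩ v ⁻¹' Ioo s t) := by
    ext x; constructor
    · rintro ⟨h1, h2⟩; exact ⟨h1, hKO h1, h2⟩
    · rintro ⟨h1, -, h2⟩; exact ⟨h1, h2⟩
  rw [this]; exact hK.inter h1.measurableSet

theorem setIntegral_indicator_apply {S : Set (E n)} (hK : MeasurableSet K)
    (hS : MeasurableSet (K ∩ S)) :
    ∫ x in K, S.indicator h x (a x) = ∫ x in K ∩ S, h x (a x) := by
  have : ∫ x in K, S.indicator h x (a x) = ∫ x in K, (K ∩ S).indicator (fun x => h x (a x)) x := by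
    refine setIntegral_congr_fun hK fun x hx => ?_
    by_cases hxS : x ∈ S <;> simp [hx, hxS]
  rw [this, setIntegral_indicator hS, inter_eq_right.2 inter_subset_left]

theorem Sol.lower_int (hn : 2 ≤ n) (hβ : 0 < β) (S : Sol α β O v D a) (hK : IsCompact K)
    (hKO : K ⊆ O) {W : Set (E n)} (hW : W ⊆ K) :
    α * ∫ x in W, ‖D x‖ ^ n ≤ ∫ x in W, D x (a x) := by
  rw [← integral_const_mul]
  refine integral_mono_ae (((S.int_pow hn hKO hK).mono_set hW).const_mul α)
    ((S.integrableOn hn hβ hKO hK (S.wd.1 K hKO hK).2).mono_set hW) ?_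
  exact ae_restrict_of_ae S.lower

/-- truncated energy estimate -/
theorem Sol.TE (hn : 2 ≤ n) (hβ : 0 < β) (hO : IsOpen O) (S : Sol α β O v D a)
    (hK : IsCompact K) (hKO : K ⊆ O) {s t : ℝ} (hst : s < t) {ψ : E n → ℝ}
    (hψ : ContDiff ℝ 1 ψ) (h0 : ∀ x ∈ O, x ∉ K → (t - s) * ψ x = T s t (v x) - s) :
    α * ∫ x in K ∩ {x | s < v x ∧ v x < t}, ‖D x‖ ^ n ≤
      (t - s) * ∫ x in K, fderiv ℝ ψ x (a x) := by
  have h1 := ((isW1n_of_contDiff (U := O) hn hψ).const_mul (t - s)).add hn
    ((S.wd.trunc hn hO hst s).const_mul (-1))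
  have h2 := S.test hn hβ hO hK hKO h1 (fun x hx hxK => by rw [h0 x hx hxK]; ring)
  have hm := measurableSet_level hO S.cont hK.measurableSet hKO s t
  have i1 := S.integrableOn hn hβ hKO hK (memLp_fderiv hK hψ)
  have i2 := S.integrableOn hn hβ hKO hK ((S.wd.trunc hn hO hst s).1 K hKO hK).2
  simp only [add_apply, smul_apply, smul_eq_mul] at h2
  rw [integral_add (i1.const_mul _) (i2.const_mul _), integral_const_mul, integral_const_mul,
    setIntegral_indicator_apply hK.measurableSet hm] at h2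
  have h3 := S.lower_int hn hβ hK hKO (W := K ∩ {x | s < v x ∧ v x < t}) inter_subset_left
  linarith

theorem En_indicator {S : Set (E n)} (hK : MeasurableSet K) (hS : MeasurableSet (K ∩ S)) :
    En K (S.indicator D) = En (K ∩ S) D ∨ n = 0 := by
  rcases Nat.eq_zero_or_pos n with h0 | h0
  · exact Or.inr h0
  left
  unfold En
  have : ∫⁻ x in K, ‖S.indicator D x‖ₑ ^ n =
      ∫⁻ x in K, (K ∩ S).indicator (fun x => ‖D x‖ₑ ^ n) x := by
    refine setLIntegral_congr_fun hK fun x hx => ?_
    by_cases hxS : x ∈ S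
    · simp [hx, hxS]
    · rw [indicator_of_notMem hxS, indicator_of_notMem (fun h => hxS h.2), enorm_zero,
        zero_pow h0.ne']
  rw [this, lintegral_indicator hS, Measure.restrict_restrict hS, inter_eq_left.2 inter_subset_left]

theorem En_mono {S W : Set (E n)} (h : S ⊆ W) : En S D ≤ En W D :=
  lintegral_mono_set h

theorem Sol.En_eq (hn : 2 ≤ n) (S : Sol α β O v D a) (hK : IsCompact K) (hKO : K ⊆ O)
    {W : Set (E n)} (hW : W ⊆ K) : En W D = ENNReal.ofReal (∫ x in W, ‖D x‖ ^ n) :=
  lintegral_eq_ofReal ((S.int_pow hn hKO hK).mono_set hW)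

/-- maximum principle -/
theorem Sol.maxP (hn : 2 ≤ n) (hα : 0 < α) (hβ : 0 < β) (hO : IsOpen O)
    (hb : Bornology.IsBounded O) (S : Sol α β O v D a) (hv : ContinuousOn v (closure O))
    {M : ℝ} (hM : ∀ x ∈ frontier O, v x ≤ M) : ∀ x ∈ O, v x ≤ M := by
  intro x₀ hx₀
  refine le_of_forall_pos_le_add fun ε hε => ?_
  have hcl : IsCompact (closure O) := hb.isCompact_closure
  obtain ⟨B, hB⟩ := hcl.exists_bound_of_continuousOn hv
  set s := M + ε with hs
  set t := max B s + 1 with ht
  have hst : s < t := by have := le_max_right B s; linarith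
  set K := closure O ∩ v ⁻¹' Ici s with hKdef
  have hK : IsCompact K :=
    hcl.of_isClosed_subset (hv.preimage_isClosed_of_isClosed isClosed_closure isClosed_Ici)
      inter_subset_left
  have hKO : K ⊆ O := by
    rintro x ⟨h1, h2⟩
    by_contra hx
    have : x ∈ frontier O := by rw [hO.frontier_eq]; exact ⟨h1, hx⟩
    have h3 := hM x this
    have h4 : s ≤ v x := h2
    linarith
  have hout : ∀ x ∈ O, x ∉ K → v x < s := by
    intro x hx hxK
    by_contra hc
    exact hxK ⟨subset_closure hx, not_lt.1 hc⟩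
  have hTE := S.TE hn hβ hO hK hKO hst (ψ := fun _ => 0) contDiff_const
    (fun x hx hxK => by rw [T_of_le hst.le (hout x hx hxK).le]; ring)
  simp only [fderiv_fun_const, Pi.zero_apply, zero_apply, integral_zero,
    mul_zero] at hTE
  set L := {x | s < v x ∧ v x < t} with hL
  have hm := measurableSet_level hO S.cont hK.measurableSet hKO s t
  have hE : En (K ∩ L) D = 0 := by
    rw [S.En_eq hn hK hKO inter_subset_left, ENNReal.ofReal_eq_zero]
    exact nonpos_of_mul_nonpos_right hTE hα |>.trans le_rfl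
  have hW : IsW1n O (K.indicator fun x => T s t (v x) - s) ((K ∩ L).indicator D) := by
    refine (S.wd.trunc hn hO hst s).congr hO ?_ ?_
    · filter_upwards [ae_restrict_mem hO.measurableSet] with x hx
      by_cases hxK : x ∈ K
      · simp [hxK]
      · simp [hxK, T_of_le hst.le (hout x hx hxK).le]
    · filter_upwards [ae_restrict_mem hO.measurableSet] with x hx
      by_cases hxK : x ∈ K
      · by_cases hxL : x ∈ L
        · rw [indicator_of_mem hxL, indicator_of_mem (mem_inter hxK hxL)]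
        · rw [indicator_of_notMem hxL, indicator_of_notMem (fun h => hxL h.2)]
      · have hxL : x ∉ L := fun h => absurd h.1 (not_lt.2 (hout x hx hxK).le)
        rw [indicator_of_notMem hxL, indicator_of_notMem (fun h => hxL h.2)]
  have hW' : IsW1n univ (K.indicator fun x => T s t (v x) - s) ((K ∩ L).indicator D) :=
    hW.glue hn isOpen_univ hO hK.isClosed (by simpa using hKO)
      (fun x _ hx => ⟨indicator_of_notMem hx _, indicator_of_notMem (fun h => hx h.1) _⟩)
  obtain ⟨ρ, hρ0, hρ⟩ := hb.subset_ball_lt 0 (0 : E n)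
  obtain ⟨c, hc⟩ := hW'.poincare hn isOpen_univ (isCompact_closedBall (0 : E n) (ρ + 2))
    (convex_closedBall _ _) (subset_univ _) (d := 2 * (ρ + 2)) (fun x hx y hy => by
      have := dist_triangle_right x y 0
      rw [mem_closedBall] at hx hy
      linarith)
  have hE' : En (closedBall (0 : E n) (ρ + 2)) ((K ∩ L).indicator D) = 0 := by
    rcases En_indicator (D := D) (K := closedBall (0 : E n) (ρ + 2)) (S := K ∩ L)
      measurableSet_closedBall (measurableSet_closedBall.inter hm) with h | h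
    · rw [h]
      exact le_antisymm ((En_mono inter_subset_right).trans hE.le) (zero_le)
    · omega
  rw [hE', mul_zero, nonpos_iff_eq_zero] at hc
  have hmeas : AEStronglyMeasurable (K.indicator fun x => T s t (v x) - s)
      (volume.restrict (closedBall (0 : E n) (ρ + 2))) :=
    (hW'.1 _ (subset_univ _) (isCompact_closedBall _ _)).1.1
  have hmeas2 : AEMeasurable (fun x => ‖K.indicator (fun x => T s t (v x) - s) x - c‖ₑ ^ n)
      (volume.restrict (closedBall (0 : E n) (ρ + 2))) :=
    (hmeas.sub aestronglyMeasurable_const).enorm.pow_const n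
  rw [lintegral_eq_zero_iff' hmeas2] at hc
  have hae : (K.indicator fun x => T s t (v x) - s) =ᵐ[volume.restrict
      (closedBall (0 : E n) (ρ + 2))] fun _ => c := by
    filter_upwards [hc] with x hx
    have : ‖K.indicator (fun x => T s t (v x) - s) x - c‖ₑ = 0 := by
      simpa [show n ≠ 0 by omega] using hx
    exact sub_eq_zero.1 (enorm_eq_zero.1 this)
  have hc0 : c = 0 := by
    have : Nontrivial (E n) := by
      have : Nonempty (Fin n) := ⟨⟨0, by omega⟩⟩
      infer_instance
    obtain ⟨p, hp⟩ := (NormedSpace.sphere_nonempty (E := E n) (x := 0) (r := ρ + 1)).2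
      (by linarith)
    rw [mem_sphere] at hp
    have hop : IsOpen (ball (0 : E n) (ρ + 2) ∩ Kᶜ) := isOpen_ball.inter hK.isClosed.isOpen_compl
    have := Measure.eqOn_open_of_ae_eq (μ := volume)
      (ae_restrict_of_ae_restrict_of_subset
        (inter_subset_left.trans ball_subset_closedBall) hae) hop
      (continuousOn_const.congr fun x hx => indicator_of_notMem hx.2 _) continuousOn_const
    have hpK : p ∉ K := fun h => by
      have := hρ (hKO h)
      rw [mem_ball] at this
      linarith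
    have h2 := this (x := p) ⟨by rw [mem_ball]; linarith, hpK⟩
    rw [indicator_of_notMem hpK] at h2
    exact h2.symm
  have hOsub : O ⊆ closedBall (0 : E n) (ρ + 2) :=
    hρ.trans (ball_subset_closedBall.trans (closedBall_subset_closedBall (by linarith)))
  have hcont : ContinuousOn (K.indicator fun x => T s t (v x) - s) O := by
    refine (((continuous_T s t).comp_continuousOn S.cont).sub
      (continuousOn_const (c := s))).congr fun x hx => ?_
    by_cases hxK : x ∈ K
    · simp [hxK]
    · simp [hxK, T_of_le hst.le (hout x hx hxK).le]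
  have := Measure.eqOn_open_of_ae_eq (μ := volume)
    (ae_restrict_of_ae_restrict_of_subset hOsub hae) hO hcont continuousOn_const hx₀
  by_cases hxK : x₀ ∈ K
  · rw [indicator_of_mem hxK, hc0] at this
    have h1 : v x₀ ≤ t := by
      have h2 := hB x₀ (subset_closure hx₀)
      have h3 := le_abs_self (v x₀)
      have h4 := le_max_left B s
      rw [Real.norm_eq_abs] at h2
      linarith
    rw [T_of_mem hxK.2 h1] at this
    linarith
  · exact (hout x₀ hx₀ hxK).le

/-- minimum principle -/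
theorem Sol.minP (hn : 2 ≤ n) (hα : 0 < α) (hβ : 0 < β) (hO : IsOpen O)
    (hb : Bornology.IsBounded O) (S : Sol α β O v D a) (hv : ContinuousOn v (closure O))
    {M : ℝ} (hM : ∀ x ∈ frontier O, M ≤ v x) : ∀ x ∈ O, M ≤ v x := by
  intro x hx
  have := S.neg.maxP hn hα hβ hO hb hv.neg (M := -M) (fun x hx => neg_le_neg (hM x hx)) x hx
  linarith

end

end Pool.Agent.P.MP_fecf7d_an
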