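import Pool.Agent.P.MP_fecf7d_an.Sol1

/-!
Logarithmic Caccioppoli estimate, weak Harnack inequality, Harnack inequality.
-/

open MeasureTheory Set Metric Filter Topology
open scoped ContDiff RealInnerProductSpace ENNReal

set_option maxHeartbeats 400000
set_option maxSynthPendingDepth 3

namespace Pool.Agent.P.MP_fecf7d_an

variable {n : ℕ}

theorem nontrivial_E (hn : 2 ≤ n) : Nontrivial (E n) := by
  have : Nonempty (Fin n) := ⟨⟨0, by omega⟩⟩
  infer_instance

theorem vol_closedBall (z : E n) {r : ℝ} (hr : 0 ≤ r) :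
    volume (closedBall z r) = ENNReal.ofReal (r ^ n) * volume (ball (0 : E n) 1) := by
  rw [Measure.addHaar_closedBall _ _ hr, finrank_euclideanSpace_fin]

theorem exists_cutoff' (n : ℕ) {q : ℝ} (hq : 1 < q) : ∃ C : ℝ, 0 < C ∧
    ∀ (z : E n) (ρ : ℝ), 0 < ρ → ∃ η : E n → ℝ, IsTest (closedBall z (q * ρ)) η ∧
      (∀ x, 0 ≤ η x ∧ η x ≤ 1) ∧ (∀ x ∈ closedBall z ρ, η x = 1) ∧
      (∀ x, q * ρ ≤ dist x z → η x = 0) ∧
      (∀ x, dist x z < ρ ∨ q * ρ < dist x z → fderiv ℝ η x = 0) ∧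
      ∫ x, ‖fderiv ℝ η x‖ ^ n ≤ C := by
  obtain ⟨C, hC, h⟩ := exists_cutoff n hq
  set w₀ := (volume (ball (0 : E n) 1)).toReal with hw₀
  have hw₀0 : 0 ≤ w₀ := ENNReal.toReal_nonneg
  refine ⟨C ^ n * q ^ n * w₀ + 1, by positivity, fun z ρ hρ => ?_⟩
  obtain ⟨η, h1, h2, h3, h4, h5⟩ := h z ρ hρ
  have hsupp : tsupport η ⊆ closedBall z (q * ρ) := by
    refine closure_minimal (fun x hx => ?_) isClosed_closedBall
    by_contra hc
    rw [mem_closedBall, not_le] at hc
    exact hx (h4 x hc.le)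
  have hd : ∀ x, dist x z < ρ ∨ q * ρ < dist x z → fderiv ℝ η x = 0 := by
    rintro x (hx | hx)
    · have : η =ᶠ[𝓝 x] fun _ => 1 := by
        filter_upwards [isOpen_ball.mem_nhds (mem_ball.2 hx)] with y hy
        exact h3 y (ball_subset_closedBall hy)
      rw [this.fderiv_eq, fderiv_fun_const]; rfl
    · by_contra hne
      have := hsupp (support_fderiv_subset ℝ hne)
      rw [mem_closedBall] at this
      linarith
  refine ⟨η, ⟨h1, (isCompact_closedBall _ _).of_isClosed_subset (isClosed_tsupport _) hsupp,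
    hsupp⟩, h2, h3, h4, hd, ?_⟩
  rcases Nat.eq_zero_or_pos n with h0 | h0
  · subst h0
    have : (volume : Measure (E 0)).real univ = w₀ := by
      rw [hw₀, Measure.real]
      congr 2
      ext x
      simp [Subsingleton.elim x 0]
    simp [this]
  have hq0 : 0 ≤ q * ρ := by positivity
  rw [← setIntegral_eq_integral_of_forall_compl_eq_zero (s := closedBall z (q * ρ))]
  · have hb : ‖∫ x in closedBall z (q * ρ), ‖fderiv ℝ η x‖ ^ n‖ ≤
        (C / ρ) ^ n * volume.real (closedBall z (q * ρ)) := by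
      refine norm_setIntegral_le_of_norm_le_const measure_closedBall_lt_top fun x _ => ?_
      rw [Real.norm_eq_abs, abs_of_nonneg (by positivity)]
      exact pow_le_pow_left₀ (norm_nonneg _) (h5 x) n
    have hv : volume.real (closedBall z (q * ρ)) = (q * ρ) ^ n * w₀ := by
      rw [Measure.real, vol_closedBall z hq0, ENNReal.toReal_mul,
        ENNReal.toReal_ofReal (by positivity)]
    rw [hv] at hb
    have he : (C / ρ) ^ n * ((q * ρ) ^ n * w₀) = C ^ n * q ^ n * w₀ := by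
      rw [div_pow, mul_pow]; field_simp
    have := le_abs_self (∫ x in closedBall z (q * ρ), ‖fderiv ℝ η x‖ ^ n)
    rw [Real.norm_eq_abs, he] at hb
    linarith
  · intro x hx
    rw [mem_closedBall, not_le] at hx
    rw [hd x (Or.inr hx), norm_zero, zero_pow h0.ne']

theorem Meets.mono {S S' : Set (E n)} {z : E n} {d l : ℝ} (h : Meets S z d l)
    (hS : ∀ p ∈ S, dist p z < d → p ∈ S') : Meets S' z d l := by
  obtain ⟨s₀, h1, h2, h3⟩ := h
  refine ⟨s₀, h1, h2, fun s hs => ?_⟩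
  obtain ⟨p, hp, hd⟩ := h3 s hs
  exact ⟨p, hS p hp (by rw [hd]; linarith [hs.2]), hd⟩

section
variable {α β : ℝ} {O K U : Set (E n)} {v φ : E n → ℝ} {D h : E n → E n →L[ℝ] ℝ}
  {a : E n → E n}

theorem IsW1n.trunc_glue (hn : 2 ≤ n) (hU : IsOpen U) (hO : IsOpen O) (hv : ContinuousOn v U)
    (S : IsW1n O v D) {s t : ℝ} (hst : s < t) (hsub : ∀ x ∈ U, v x ≤ t → x ∈ O)
    {H H' : ℝ → ℝ} (hH : ∀ y ∈ Icc s t, HasDerivAt H (H' y) y)
    (hH' : ContinuousOn H' (Icc s t)) :
    IsW1n U (fun x => H (T s t (v x)))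
      ({x | s < v x ∧ v x < t}.indicator fun x => H' (v x) • D x) := by
  have h1 := S.chain hn hO hst (H := fun y => H y - H t) (H' := H')
    (fun y hy => (hH y hy).sub_const _) hH'
  have hop : IsOpen (U ∩ v ⁻¹' Ioi t) := hv.isOpen_inter_preimage hU isOpen_Ioi
  have h2 := h1.glue hn hU hO hop.isClosed_compl (fun x hx => hsub x hx.2 (by
      by_contra hc
      exact hx.1 ⟨hx.2, not_le.1 hc⟩))
    (fun x _ hx => by
      have hx' : t < v x := (not_not.1 hx).2
      refine ⟨by rw [T_of_ge hx'.le, sub_self], indicator_of_notMem (fun h => ?_) _⟩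
      exact absurd h.2 (not_lt.2 hx'.le))
  have h3 := h2.add hn (isW1n_const hn U (H t))
  simpa using h3

/-- logarithmic gradient of the truncation -/
noncomputable def Plog (v : E n → ℝ) (D : E n → E n →L[ℝ] ℝ) (b ε : ℝ) : E n → E n →L[ℝ] ℝ :=
  {x | -(ε / 2) < v x ∧ v x < b}.indicator fun x => (v x + ε)⁻¹ • D x

theorem hasDerivAt_log_shift {ε b : ℝ} (hε : 0 < ε) :
    (∀ y ∈ Icc (-(ε / 2)) b, HasDerivAt (fun y => Real.log (y + ε)) (y + ε)⁻¹ y) ∧
      ContinuousOn (fun y : ℝ => (y + ε)⁻¹) (Icc (-(ε / 2)) b) := by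
  refine ⟨fun y hy => ?_, ?_⟩
  · have h1 : y + ε ≠ 0 := by linarith [hy.1]
    simpa using ((hasDerivAt_id y).add_const ε).log h1
  · exact (continuousOn_id.add continuousOn_const).inv₀ fun y hy => by
      have := hy.1
      change y + ε ≠ 0
      linarith

theorem lc_pointwise {k : ℕ} {α β η w G x y p q : ℝ} (hα : 0 < α) (hβ : 0 < β) (hη : 0 ≤ η)
    (hw : 0 ≤ w) (hG0 : 0 ≤ G) (hG : G ≤ w ^ (k + 1)) (hx : 0 ≤ x) (hy : 0 ≤ y)
    (hp : α * x ^ (k + 2) ≤ p) (hq : |q| ≤ y * (β * x ^ (k + 1))) :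
    η ^ (k + 2) * (-(k + 1 : ℝ) * w ^ (k + 2) * p) + G * ((k + 2 : ℝ) * η ^ (k + 1) * q) ≤
      -(α / 2) * (η * (w * x)) ^ (k + 2) +
        (k + 2) * β * ((k + 2) * β / (α / 2)) ^ (k + 1) * y ^ (k + 2) := by
  have hy1 := young (n := k + 2) (β := (k + 2) * β) (d := α / 2) (x := η * (w * x)) (y := y)
    (by omega) (by positivity) (by positivity) (by positivity) hy
  simp only [show k + 2 - 1 = k + 1 from rfl] at hy1
  have hp0 : 0 ≤ α * x ^ (k + 2) := by positivity
  have h1 : α * (η * (w * x)) ^ (k + 2) ≤ η ^ (k + 2) * ((k + 1 : ℝ) * w ^ (k + 2) * p) := by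
    have h2 : α * x ^ (k + 2) ≤ (k + 1 : ℝ) * p := by
      have : (0 : ℝ) ≤ k := Nat.cast_nonneg k
      nlinarith
    calc α * (η * (w * x)) ^ (k + 2) = η ^ (k + 2) * w ^ (k + 2) * (α * x ^ (k + 2)) := by ring
      _ ≤ η ^ (k + 2) * w ^ (k + 2) * ((k + 1 : ℝ) * p) := by gcongr
      _ = _ := by ring
  have h2 : G * ((k + 2 : ℝ) * η ^ (k + 1) * q) ≤ (k + 2) * β * (η * (w * x)) ^ (k + 1) * y := by
    calc G * ((k + 2 : ℝ) * η ^ (k + 1) * q) ≤ G * ((k + 2 : ℝ) * η ^ (k + 1) * |q|) := by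
          gcongr; exact le_abs_self q
      _ ≤ w ^ (k + 1) * ((k + 2 : ℝ) * η ^ (k + 1) * (y * (β * x ^ (k + 1)))) := by gcongr
      _ = _ := by ring
  nlinarith

theorem Sol.LC (hn : 2 ≤ n) (hα : 0 < α) (hβ : 0 < β) : ∃ C : ℝ, 0 < C ∧
    ∀ (U O : Set (E n)) (v : E n → ℝ) (D : E n → E n →L[ℝ] ℝ) (a : E n → E n) (η : E n → ℝ)
      (b ε : ℝ), IsOpen O → Sol α β O v D a → ContinuousOn v U → (∀ x ∈ U, 0 ≤ v x) →
      (∀ x ∈ U, v x ≤ b → x ∈ O) → IsTest U η → (∀ x, 0 ≤ η x) → 0 ≤ b → 0 < ε →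
      ∀ W : Set (E n), MeasurableSet W → (∀ x ∈ W, η x = 1) →
        En W (Plog v D b ε) ≤ ENNReal.ofReal (C * ∫ x, ‖fderiv ℝ η x‖ ^ n) := by
  obtain ⟨k, rfl⟩ : ∃ k, n = k + 2 := ⟨n - 2, by omega⟩
  set C₁ := (k + 2) * β * ((k + 2) * β / (α / 2)) ^ (k + 1) with hC₁
  have hC₁0 : 0 < C₁ := by positivity
  refine ⟨C₁ / (α / 2), by positivity, ?_⟩
  intro U O v D a η b ε hO S hv hv0 hsub hη hη0 hb hε W hW hW1
  have hlt : -(ε / 2) < b := by linarith
  set K := tsupport η ∩ v ⁻¹' Iic b with hKdef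
  have hK : IsCompact K := hη.2.1.isCompact.of_isClosed_subset
    ((hv.mono hη.2.2).preimage_isClosed_of_isClosed (isClosed_tsupport _) isClosed_Iic)
    inter_subset_left
  have hKO : K ⊆ O := fun x hx => hsub x (hη.2.2 hx.1) hx.2
  have hH : ∀ y ∈ Icc (-(ε / 2)) b, HasDerivAt
      (fun y => ((y + ε)⁻¹) ^ (k + 1) - ((b + ε)⁻¹) ^ (k + 1))
      (-(k + 1 : ℝ) * ((y + ε)⁻¹) ^ (k + 2)) y := by
    intro y hy
    have h1 : y + ε ≠ 0 := by linarith [hy.1]
    have h2 := ((((hasDerivAt_id y).add_const ε).inv h1).pow (k + 1)).sub_const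
      (((b + ε)⁻¹) ^ (k + 1))
    refine h2.congr_deriv ?_
    simp only [id, Nat.add_sub_cancel, Pi.inv_apply]
    push_cast
    rw [neg_div, one_div, ← inv_pow]
    ring
  have hH' : ContinuousOn (fun y : ℝ => -(k + 1 : ℝ) * ((y + ε)⁻¹) ^ (k + 2))
      (Icc (-(ε / 2)) b) :=
    continuousOn_const.mul ((hasDerivAt_log_shift hε).2.pow _)
  have hG := S.wd.chain hn hO hlt hH hH'
  have hηn : ContDiff ℝ ∞ fun x => η x ^ (k + 2) := hη.1.pow _
  have hφ := hG.smooth_mul hn hηn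
  have hz := S.test hn hβ hO hK hKO hφ (fun x _ hxK => by
    by_cases h1 : x ∈ tsupport η
    · have h2 : b ≤ v x := by
        by_contra hc
        exact hxK ⟨h1, (not_le.1 hc).le⟩
      rw [T_of_ge h2, sub_self, mul_zero]
    · rw [image_eq_zero_of_notMem_tsupport h1]; simp)
  have hP : MemLp (Plog v D b ε) (k + 2 : ℕ) (volume.restrict K) :=
    ((S.wd.chain hn hO hlt (hasDerivAt_log_shift hε).1 (hasDerivAt_log_shift hε).2).1 K hKO hK).2
  obtain ⟨M, hM⟩ := hK.exists_bound_of_continuousOn hη.1.continuous.continuousOn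
  have hg : IntegrableOn (fun x => (η x * ‖Plog v D b ε x‖) ^ (k + 2)) K := by
    have h1 : Integrable (fun x => ‖Plog v D b ε x‖ ^ (k + 2)) (volume.restrict K) :=
      hP.integrable_norm_pow (by omega)
    refine (h1.const_mul (M ^ (k + 2))).mono'
      ((hη.1.continuous.aestronglyMeasurable.mul hP.1.norm).pow _) ?_
    filter_upwards [ae_restrict_mem hK.measurableSet] with x hx
    have h2 := hM x hx
    rw [Real.norm_eq_abs, abs_of_nonneg (hη0 x)] at h2
    have h3 := hη0 x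
    rw [Real.norm_eq_abs, abs_of_nonneg (by positivity), ← mul_pow]
    gcongr
  have hdη : IntegrableOn (fun x => ‖fderiv ℝ η x‖ ^ (k + 2)) K :=
    (memLp_fderiv hK (hη.1.of_le (by simp))).integrable_norm_pow (by omega)
  have hle : ∫ x in K, (η x ^ (k + 2) • {x | -(ε / 2) < v x ∧ v x < b}.indicator
        (fun x => (-(k + 1 : ℝ) * ((v x + ε)⁻¹) ^ (k + 2)) • D x) x +
      (((T (-(ε / 2)) b (v x) + ε)⁻¹) ^ (k + 1) - ((b + ε)⁻¹) ^ (k + 1)) •
        fderiv ℝ (fun x => η x ^ (k + 2)) x) (a x) ≤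
      ∫ x in K, (-(α / 2) * (η x * ‖Plog v D b ε x‖) ^ (k + 2) +
        C₁ * ‖fderiv ℝ η x‖ ^ (k + 2)) := by
    refine integral_mono_ae (S.integrableOn hn hβ hKO hK (hφ.1 K hKO hK).2)
      ((hg.const_mul _).add (hdη.const_mul _)) ?_
    filter_upwards [ae_restrict_mem hK.measurableSet, ae_restrict_of_ae S.lower,
      ae_restrict_of_ae S.upper] with x hx hl hu
    have hvx0 : 0 ≤ v x := hv0 x (hη.2.2 hx.1)
    have hvb : v x ≤ b := hx.2
    have hfd : fderiv ℝ (fun x => η x ^ (k + 2)) x =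
        ((k + 2 : ℝ) * η x ^ (k + 1)) • fderiv ℝ η x := by
      have h1 : HasFDerivAt η (fderiv ℝ η x) x :=
        (hη.1.differentiable (by simp) x).hasFDerivAt
      have h2 := (h1.pow (k + 2)).fderiv
      simp only [nsmul_eq_mul] at h2
      convert h2 using 2
      push_cast
      rfl
    rw [hfd]
    rcases hvb.lt_or_eq with hlt' | heq
    · have hmem : x ∈ {x | -(ε / 2) < v x ∧ v x < b} := ⟨by linarith, hlt'⟩
      have hw : 0 < (v x + ε)⁻¹ := by positivity
      rw [Plog, indicator_of_mem hmem, indicator_of_mem hmem, T_of_mem (by linarith) hvb]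
      simp only [add_apply, smul_apply, smul_eq_mul, norm_smul, Real.norm_eq_abs, abs_of_pos hw]
      refine lc_pointwise hα hβ (hη0 x) hw.le ?_ ?_ (norm_nonneg _) (norm_nonneg _) hl ?_
      · have : (b + ε)⁻¹ ≤ (v x + ε)⁻¹ := inv_anti₀ (by linarith) (by linarith)
        have h2 : ((b + ε)⁻¹) ^ (k + 1) ≤ ((v x + ε)⁻¹) ^ (k + 1) :=
          pow_le_pow_left₀ (by positivity) this _
        linarith
      · have : 0 ≤ ((b + ε)⁻¹) ^ (k + 1) := by positivity
        linarith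
      · exact ((fderiv ℝ η x).le_opNorm (a x)).trans (by gcongr; exact hu)
    · have hmem : x ∉ {x | -(ε / 2) < v x ∧ v x < b} := fun h => absurd h.2 (by rw [heq]; simp)
      rw [Plog, indicator_of_notMem hmem, indicator_of_notMem hmem, T_of_ge heq.ge]
      simp only [smul_zero, sub_self, zero_smul, add_zero, zero_apply, norm_zero, mul_zero,
        ne_eq, Nat.add_eq_zero_iff, OfNat.ofNat_ne_zero, and_false, not_false_eq_true, zero_pow,
        zero_add]
      positivity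
  rw [hz, integral_add (hg.const_mul _) (hdη.const_mul _), integral_const_mul,
    integral_const_mul] at hle
  have hI : ∫ x in K, ‖fderiv ℝ η x‖ ^ (k + 2) ≤ ∫ x, ‖fderiv ℝ η x‖ ^ (k + 2) := by
    refine setIntegral_le_integral ?_ (Eventually.of_forall fun x => by positivity)
    have hc : Continuous (fderiv ℝ η) := hη.1.continuous_fderiv (by simp)
    refine (hc.norm.pow _).integrable_of_hasCompactSupport ?_
    exact (hη.2.1.fderiv ℝ).comp_left (g := fun L : E (k + 2) →L[ℝ] ℝ => ‖L‖ ^ (k + 2)) (by simp)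
  have hfin : ∫ x in K, (η x * ‖Plog v D b ε x‖) ^ (k + 2) ≤
      C₁ / (α / 2) * ∫ x, ‖fderiv ℝ η x‖ ^ (k + 2) := by
    rw [div_mul_eq_mul_div, le_div_iff₀ (by positivity)]
    have := mul_le_mul_of_nonneg_left hI hC₁0.le
    linarith
  calc En W (Plog v D b ε)
      = ∫⁻ x, W.indicator (fun x => ‖Plog v D b ε x‖ₑ ^ (k + 2)) x :=
        (lintegral_indicator hW _).symm
    _ ≤ ∫⁻ x, K.indicator
          (fun x => ENNReal.ofReal ((η x * ‖Plog v D b ε x‖) ^ (k + 2))) x := by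
        refine lintegral_mono fun x => ?_
        by_cases hxW : x ∈ W
        · rw [indicator_of_mem hxW]
          by_cases hxK : x ∈ K
          · rw [indicator_of_mem hxK, hW1 x hxW, one_mul, ENNReal.ofReal_pow (norm_nonneg _),
              ofReal_norm]
          · have h1 : x ∈ tsupport η := subset_tsupport _ (by simp [hW1 x hxW])
            have hmem : x ∉ {x | -(ε / 2) < v x ∧ v x < b} := fun h => hxK ⟨h1, h.2.le⟩
            rw [Plog, indicator_of_notMem hmem]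
            simp
        · rw [indicator_of_notMem hxW]; exact zero_le
    _ = ENNReal.ofReal (∫ x in K, (η x * ‖Plog v D b ε x‖) ^ (k + 2)) := by
        rw [lintegral_indicator hK.measurableSet, ofReal_integral_eq_lintegral_ofReal hg
          (Eventually.of_forall fun x => by have := hη0 x; positivity)]
    _ ≤ _ := ENNReal.ofReal_le_ofReal hfin

end

end Pool.Agent.P.MP_fecf7d_an
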