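import Pool.Agent.P.MP_fecf7d_an.Sol2

/-!
Weak Harnack inequality, extrema on spheres, Harnack inequality, and the passage from
`A`-harmonic functions to abstract solutions.
-/

open MeasureTheory Set Metric Filter Topology
open scoped ContDiff RealInnerProductSpace ENNReal

set_option maxHeartbeats 400000
set_option maxSynthPendingDepth 3

namespace Pool.Agent.P.MP_fecf7d_an

variable {n : ℕ}

theorem le_of_pow_le {x Q : ℝ} (hn : 2 ≤ n) (h : x ^ n ≤ Q) : x ≤ max 1 Q := by
  rcases le_total x 1 with h1 | h1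
  · exact h1.trans (le_max_left _ _)
  · exact ((le_self_pow₀ h1 (by omega)).trans h).trans (le_max_right _ _)

section
variable {α β : ℝ} {O K U : Set (E n)} {v φ : E n → ℝ} {D h : E n → E n →L[ℝ] ℝ}
  {a : E n → E n}

theorem Sol.WH (hn : 2 ≤ n) (hα : 0 < α) (hβ : 0 < β) {κ : ℝ} (hκ : 0 < κ) :
    ∃ C : ℝ, 1 ≤ C ∧ ∀ (U O : Set (E n)) (v : E n → ℝ) (D : E n → E n →L[ℝ] ℝ)
      (a : E n → E n) (z : E n) (d s b : ℝ), IsOpen U → IsOpen O → Sol α β O v D a →
      ContinuousOn v U → (∀ x ∈ U, 0 ≤ v x) → (∀ x ∈ U, v x < b → x ∈ O) →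
      closedBall z (3 * d) ⊆ U → 0 < d → 0 ≤ s →
      Meets {x | b ≤ v x} z d (κ * d) → Meets {x | v x ≤ s} z d (κ * d) → b ≤ C * s := by
  obtain ⟨CL, hCL, hL⟩ := loewner hn
  obtain ⟨C₁, hC₁, hLC⟩ := Sol.LC hn hα hβ
  obtain ⟨C₂, hC₂, hcut⟩ := exists_cutoff' n (q := 3 / 2) (by norm_num)
  set Q := max 1 (CL * (C₁ * C₂) / κ) with hQ
  have hQ0 : 0 ≤ Q := zero_le_one.trans (le_max_left _ _)
  have hC : 1 ≤ Real.exp Q := Real.one_le_exp hQ0
  refine ⟨Real.exp Q, hC, ?_⟩
  intro U O v D a z d s b hU hO S hv hv0 hsub hball hd hs hm1 hm2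
  have key : ∀ b' ε : ℝ, s ≤ b' → b' < b → 0 < ε → b' + ε ≤ Real.exp Q * (s + ε) := by
    intro b' ε hsb hb' hε
    obtain ⟨η, h1, h2, h3, -, -, h6⟩ := hcut z (2 * d) (by positivity)
    have hηU : IsTest U η := ⟨h1.1, h1.2.1, h1.2.2.trans (by
      rw [show 3 / 2 * (2 * d) = 3 * d by ring]; exact hball)⟩
    have hsub' : ∀ x ∈ U, v x ≤ b' → x ∈ O := fun x hx hvx => hsub x hx (hvx.trans_lt hb')
    have hlt : -(ε / 2) < b' := by linarith
    have hW := S.wd.trunc_glue hn hU hO hv hlt hsub' (hasDerivAt_log_shift hε).1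
      (hasDerivAt_log_shift hε).2
    have hE := hLC U O v D a η b' ε hO S hv hv0 hsub' hηU (fun x => (h2 x).1) (hs.trans hsb) hε
      (closedBall z (2 * d)) measurableSet_closedBall h3
    have hTpos : ∀ x, 0 < T (-(ε / 2)) b' (v x) + ε := fun x => by
      have := (T_mem hlt.le (v x)).1
      linarith
    have hc : ContinuousOn (fun x => Real.log (T (-(ε / 2)) b' (v x) + ε)) U :=
      (((continuous_T _ _).comp_continuousOn hv).add continuousOn_const).log
        fun x _ => (hTpos x).ne'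
    have hlog : Real.log (s + ε) ≤ Real.log (b' + ε) :=
      Real.log_le_log (by linarith) (by linarith)
    have hlw := hL U _ _ z d (κ * d) (Real.log (s + ε)) (Real.log (b' + ε)) hU hW hc
      ((closedBall_subset_closedBall (by linarith)).trans hball) (by positivity) hlog
      (hm1.mono fun p hp _ => by
        have : b' ≤ v p := hb'.le.trans hp
        simp only [mem_ofPred_eq, T_of_ge this, le_refl])
      (hm2.mono fun p hp _ => by
        refine Real.log_le_log (hTpos p) ?_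
        have : T (-(ε / 2)) b' (v p) ≤ s :=
          (min_le_left _ _).trans (max_le hp (by linarith))
        linarith)
    have h7 : ENNReal.ofReal (CL * d) * En (closedBall z (2 * d)) (Plog v D b' ε) ≤
        ENNReal.ofReal (CL * d * (C₁ * C₂)) := by
      rw [ENNReal.ofReal_mul (p := CL * d) (by positivity)]
      gcongr
      exact hE.trans (ENNReal.ofReal_le_ofReal (by gcongr))
    have h8 := (ENNReal.ofReal_le_ofReal_iff (by positivity)).1 (hlw.trans h7)
    have h9 : (Real.log (b' + ε) - Real.log (s + ε)) ^ n ≤ CL * (C₁ * C₂) / κ := by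
      rw [le_div_iff₀ hκ]
      refine le_of_mul_le_mul_right ?_ hd
      nlinarith
    have h10 := le_of_pow_le hn h9
    rw [← hQ] at h10
    calc b' + ε = Real.exp (Real.log (b' + ε)) := (Real.exp_log (by linarith)).symm
      _ ≤ Real.exp (Q + Real.log (s + ε)) := Real.exp_le_exp.2 (by linarith)
      _ = Real.exp Q * (s + ε) := by rw [Real.exp_add, Real.exp_log (by linarith)]
  have key2 : ∀ b' : ℝ, b' < b → b' ≤ Real.exp Q * s := by
    intro b' hb'
    rcases le_total b' s with h | h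
    · nlinarith
    · refine le_of_forall_pos_le_add fun ε hε => ?_
      have h1 := key b' (ε / Real.exp Q) h hb' (by positivity)
      have h2 : Real.exp Q * (s + ε / Real.exp Q) = Real.exp Q * s + ε := by field_simp
      have h3 : 0 < ε / Real.exp Q := by positivity
      linarith
  exact le_of_forall_lt_imp_le_of_dense key2

/-- the minimum over a ball is attained on the sphere -/
theorem Sol.sphere_min (hn : 2 ≤ n) (hα : 0 < α) (hβ : 0 < β)
    (S : Sol α β O v D a) {x x' : E n} {ρ s b : ℝ} (hv : ContinuousOn v (closedBall x ρ))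
    (hsub : ∀ p ∈ ball x ρ, v p < b → p ∈ O) (hx' : x' ∈ ball x ρ) (hs : v x' ≤ s)
    (hsb : s < b) : ∃ p ∈ sphere x ρ, v p ≤ s := by
  by_contra hc
  push Not at hc
  obtain ⟨μ, hμ, hμ'⟩ := (isCompact_sphere x ρ).exists_forall_le'
    (hv.mono sphere_subset_closedBall) hc
  set m := min μ b with hm
  have hsm : s < m := lt_min hμ hsb
  have hop : IsOpen (ball x ρ ∩ v ⁻¹' Iio m) :=
    (hv.mono ball_subset_closedBall).isOpen_inter_preimage isOpen_ball isOpen_Iio
  have hcl : closure (ball x ρ ∩ v ⁻¹' Iio m) ⊆ closedBall x ρ :=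
    closure_minimal (inter_subset_left.trans ball_subset_closedBall) isClosed_closedBall
  have := (S.mono (U := ball x ρ ∩ v ⁻¹' Iio m)
    (fun p hp => hsub p hp.1 (lt_of_lt_of_le hp.2 (min_le_right _ _)))).minP hn hα hβ hop
    (isBounded_ball.subset inter_subset_left) (hv.mono hcl) (M := m) (fun p hp => by
      rw [hop.frontier_eq] at hp
      by_cases hpb : p ∈ ball x ρ
      · by_contra hlt
        exact hp.2 ⟨hpb, not_le.1 hlt⟩
      · have : p ∈ sphere x ρ := le_antisymm (hcl hp.1) (not_lt.1 hpb)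
        exact (min_le_left _ _).trans (hμ' p this)) x' ⟨hx', hs.trans_lt hsm⟩
  linarith

theorem Sol.sphere_max (hn : 2 ≤ n) (hα : 0 < α) (hβ : 0 < β)
    (S : Sol α β O v D a) {x x' : E n} {ρ s b : ℝ} (hv : ContinuousOn v (closedBall x ρ))
    (hsub : ∀ p ∈ ball x ρ, b < v p → p ∈ O) (hx' : x' ∈ ball x ρ) (hs : s ≤ v x')
    (hsb : b < s) : ∃ p ∈ sphere x ρ, s ≤ v p := by
  obtain ⟨p, hp, h⟩ := S.neg.sphere_min hn hα hβ (x := x) (x' := x') (ρ := ρ) (s := -s)
    (b := -b) hv.neg (fun p hp h => hsub p hp (by linarith)) hx' (by linarith) (by linarith)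
  exact ⟨p, hp, by linarith⟩

theorem Sol.harnack (hn : 2 ≤ n) (hα : 0 < α) (hβ : 0 < β) :
    ∃ C : ℝ, 1 ≤ C ∧ ∀ (O : Set (E n)) (v : E n → ℝ) (D : E n → E n →L[ℝ] ℝ)
      (a : E n → E n) (z x₁ x₂ : E n) (r : ℝ), IsOpen O → Sol α β O v D a →
      (∀ x ∈ O, 0 ≤ v x) → closedBall z (6 * r) ⊆ O → 0 < r → x₁ ∈ closedBall z r →
      x₂ ∈ closedBall z r → v x₁ ≤ C * v x₂ := by
  obtain ⟨C, hC, h⟩ := Sol.WH (α := α) (β := β) hn hα hβ (κ := 1 / 2) (by norm_num)
  refine ⟨C, hC, fun O v D a z x₁ x₂ r hO S hv0 hball hr h1 h2 => ?_⟩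
  have hsub : ∀ ρ, ρ < r + 1 / 2 * (2 * r) → closedBall z ρ ⊆ O := fun ρ hρ =>
    (closedBall_subset_closedBall (by linarith)).trans hball
  refine h O O v D a z (2 * r) (v x₂) (v x₁) hO hO S S.cont hv0 (fun x hx _ => hx)
    (by rw [show 3 * (2 * r) = 6 * r by ring]; exact hball) (by positivity)
    (hv0 x₂ (hsub r (by linarith) h2)) ⟨r, hr.le, by linarith, fun ρ hρ => ?_⟩
    ⟨r, hr.le, by linarith, fun ρ hρ => ?_⟩
  · obtain ⟨p, hp, hp'⟩ := S.sphere_max hn hα hβ (x := z) (x' := x₁) (ρ := ρ) (s := v x₁)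
      (b := v x₁ - 1) (S.cont.mono (hsub ρ hρ.2))
      (fun p hp _ => hsub ρ hρ.2 (ball_subset_closedBall hp))
      (lt_of_le_of_lt h1 hρ.1) le_rfl (by linarith)
    exact ⟨p, hp', hp⟩
  · obtain ⟨p, hp, hp'⟩ := S.sphere_min hn hα hβ (x := z) (x' := x₂) (ρ := ρ) (s := v x₂)
      (b := v x₂ + 1) (S.cont.mono (hsub ρ hρ.2))
      (fun p hp _ => hsub ρ hρ.2 (ball_subset_closedBall hp))
      (lt_of_le_of_lt h2 hρ.1) le_rfl (by linarith)
    exact ⟨p, hp', hp⟩

theorem Adm.aestronglyMeasurable {A : E n → E n → E n} (hA : Adm α β A) {μ : Measure (E n)}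
    (hμ : μ ≪ volume) {g : E n → E n} (hg : AEStronglyMeasurable g μ) :
    AEStronglyMeasurable (fun x => A x (g x)) μ := by
  obtain ⟨g', hg', hgg⟩ := hg
  have h1 : ∀ k, AEMeasurable (fun x => A x (hg'.approx k x)) μ := by
    intro k
    classical
    refine SimpleFunc.induction' (P := fun s => AEMeasurable (fun x => A x (s x)) μ) ?_ ?_
      (hg'.approx k)
    · intro c
      exact (hA.meas c).mono_ac hμ
    · intro f₁ f₂ s hs h₁ h₂
      have : (fun x => A x (SimpleFunc.piecewise s hs f₁ f₂ x)) =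
          s.piecewise (fun x => A x (f₁ x)) (fun x => A x (f₂ x)) := by
        funext x
        by_cases hx : x ∈ s <;> simp [hx]
      rw [this]
      exact (AEStronglyMeasurable.piecewise hs h₁.aestronglyMeasurable.restrict
        h₂.aestronglyMeasurable.restrict).aemeasurable
  have h2 : ∀ᵐ x ∂μ, Tendsto (fun k => A x (hg'.approx k x)) atTop (𝓝 (A x (g x))) := by
    filter_upwards [hμ.ae_le hA.ae, hgg] with x hx hx'
    rw [hx']
    exact (hx.1.tendsto _).comp (hg'.tendsto_approx x)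
  exact (aemeasurable_of_tendsto_metrizable_ae' h1 h2).aestronglyMeasurable

theorem IsAHarmonic.sol {A : E n → E n → E n} (hA : Adm α β A) (h : IsAHarmonic A O v) :
    ∃ D a, Sol α β O v D a := by
  obtain ⟨hc, g, hw, he⟩ := h
  refine ⟨fun x => innerSL ℝ (g x), fun x => A x (g x), hc, hw, fun K hK hKc => ?_, ?_, ?_,
    fun φ hφ => ?_⟩
  · refine hA.aestronglyMeasurable Measure.absolutelyContinuous_restrict ?_
    have h1 := (hw.1 K hK hKc).2.1
    have h2 : g = fun x => (InnerProductSpace.toDual ℝ (E n)).symm (innerSL ℝ (g x)) := by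
      funext x
      apply (InnerProductSpace.toDual ℝ (E n)).injective
      rw [LinearIsometryEquiv.apply_symm_apply]
      rfl
    rw [h2]
    exact (InnerProductSpace.toDual ℝ (E n)).symm.continuous.comp_aestronglyMeasurable h1
  · filter_upwards [hA.ae] with x hx
    rw [innerSL_apply_norm, innerSL_apply_apply, real_inner_comm]
    exact (hx.2.1 _).1
  · filter_upwards [hA.ae] with x hx
    rw [innerSL_apply_norm]
    exact (hx.2.1 _).2
  · rw [← he φ hφ]
    refine integral_congr_ae (Eventually.of_forall fun x => ?_)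
    simp only [gradient]
    rw [real_inner_comm, InnerProductSpace.toDual_symm_apply]

theorem Admissible.adm {A : E n → E n → E n} (hA : Admissible A) :
    ∃ α β : ℝ, 0 < α ∧ α ≤ β ∧ Adm α β A := by
  obtain ⟨α, β, h1, h2, h3, h4⟩ := hA
  refine ⟨α, β, h1, h2, h3, ?_⟩
  filter_upwards [h4] with x hx
  refine ⟨hx.1, hx.2.1, fun h₁ h₂ => ?_⟩
  by_cases he : h₁ = h₂
  · simp [he]
  · exact (hx.2.2.1 h₁ h₂ he).le

end

end Pool.Agent.P.MP_fecf7d_an
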